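import Mathlib

/-!
Determinants along flags; area forms on two-dimensional quotients.
-/

set_option autoImplicit false

namespace Run7.h675

section
variable {E : Type} [AddCommGroup E] [Module ℝ E] [FiniteDimensional ℝ E]

/-- determinant of the restriction to an invariant subspace -/
noncomputable def dt (T : E →ₗ[ℝ] E) (P : Submodule ℝ E) (h : ∀ v ∈ P, T v ∈ P) : ℝ :=
  LinearMap.det (T.restrict h)

theorem le_comap_of {T : E →ₗ[ℝ] E} {P Q : Submodule ℝ E} (hP : ∀ v ∈ P, T v ∈ P)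
    (hQ : ∀ v ∈ Q, T v ∈ Q) :
    P.submoduleOf Q ≤ (P.submoduleOf Q).comap (T.restrict hQ) := by
  intro v hv
  exact hP v hv

/-- the induced map of the quotient -/
noncomputable def qmap (T : E →ₗ[ℝ] E) (P Q : Submodule ℝ E) (hP : ∀ v ∈ P, T v ∈ P)
    (hQ : ∀ v ∈ Q, T v ∈ Q) : (Q ⧸ P.submoduleOf Q) →ₗ[ℝ] (Q ⧸ P.submoduleOf Q) :=
  (P.submoduleOf Q).mapQ (P.submoduleOf Q) (T.restrict hQ) (le_comap_of hP hQ)

theorem dt_mul {T : E →ₗ[ℝ] E} {P Q : Submodule ℝ E} (hPQ : P ≤ Q) (hP : ∀ v ∈ P, T v ∈ P)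
    (hQ : ∀ v ∈ Q, T v ∈ Q) :
    dt T Q hQ = dt T P hP * LinearMap.det (qmap T P Q hP hQ) := by
  unfold dt qmap
  rw [LinearMap.det_eq_det_mul_det (P.submoduleOf Q) (T.restrict hQ) (le_comap_of hP hQ)]
  congr 1
  let e := Submodule.submoduleOfEquivOfLe hPQ
  rw [← LinearMap.det_conj _ e]
  congr 1

theorem dt_bot (T : E →ₗ[ℝ] E) (h : ∀ v ∈ (⊥ : Submodule ℝ E), T v ∈ (⊥ : Submodule ℝ E)) :
    dt T ⊥ h = 1 := by
  unfold dt
  exact LinearMap.det_eq_one_of_subsingleton _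

theorem dt_top (T : E →ₗ[ℝ] E) (h : ∀ v ∈ (⊤ : Submodule ℝ E), T v ∈ (⊤ : Submodule ℝ E)) :
    dt T ⊤ h = LinearMap.det T := by
  unfold dt
  let e : (⊤ : Submodule ℝ E) ≃ₗ[ℝ] E := Submodule.topEquiv
  rw [← LinearMap.det_conj _ e]
  congr 1

theorem dt_congr (T : E →ₗ[ℝ] E) {P Q : Submodule ℝ E} (hPQ : P = Q) (hP : ∀ v ∈ P, T v ∈ P)
    (hQ : ∀ v ∈ Q, T v ∈ Q) : dt T P hP = dt T Q hQ := by
  subst hPQ
  rfl

/-- on a quotient where the map is `± 1` the determinant is `± 1` -/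
theorem dt_sign {T : E →ₗ[ℝ] E} {P Q : Submodule ℝ E} (hPQ : P ≤ Q) (hP : ∀ v ∈ P, T v ∈ P)
    (hQ : ∀ v ∈ Q, T v ∈ Q) {c : ℝ} (hc : c = 1 ∨ c = -1) (h : ∀ v ∈ Q, T v - c • v ∈ P) :
    |dt T Q hQ| = |dt T P hP| := by
  rw [dt_mul hPQ hP hQ, abs_mul]
  have h1 : qmap T P Q hP hQ = c • LinearMap.id := by
    apply LinearMap.ext
    intro v
    obtain ⟨v, rfl⟩ := Submodule.Quotient.mk_surjective _ v
    show (Submodule.Quotient.mk ((T.restrict hQ) v) : Q ⧸ P.submoduleOf Q) =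
      c • Submodule.Quotient.mk v
    rw [← Submodule.Quotient.mk_smul, Submodule.Quotient.eq]
    exact h v v.2
  rw [h1, LinearMap.det_smul, LinearMap.det_id, mul_one, abs_pow]
  have h2 : |c| = 1 := by
    rcases hc with rfl | rfl
    · exact abs_one
    · rw [abs_neg, abs_one]
  rw [h2, one_pow, mul_one]

/-- two covectors on a plane -/
theorem area_two {V : Type} [AddCommGroup V] [Module ℝ V] (h2 : Module.finrank ℝ V = 2)
    (T : V →ₗ[ℝ] V) (l l' : V →ₗ[ℝ] ℝ) (u u' : V) :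
    l (T u) * l' (T u') - l (T u') * l' (T u) =
      LinearMap.det T * (l u * l' u' - l u' * l' u) := by
  have : FiniteDimensional ℝ V := FiniteDimensional.of_finrank_pos (by omega)
  let b : Module.Basis (Fin 2) ℝ V := Module.finBasisOfFinrankEq ℝ V h2
  have key : ∀ (f : V →ₗ[ℝ] ℝ) (v : V), f v = b.repr v 0 * f (b 0) + b.repr v 1 * f (b 1) := by
    intro f v
    conv_lhs => rw [← b.sum_repr v]
    rw [map_sum, Fin.sum_univ_two, map_smul, map_smul, smul_eq_mul, smul_eq_mul]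
  have keyT : ∀ (v : V) (i : Fin 2), b.repr (T v) i =
      LinearMap.toMatrix b b T i 0 * b.repr v 0 + LinearMap.toMatrix b b T i 1 * b.repr v 1 := by
    intro v i
    have h3 := LinearMap.toMatrix_mulVec_repr b b T v
    have h4 := congrFun h3 i
    rw [← h4, Matrix.mulVec, dotProduct, Fin.sum_univ_two]
  rw [← LinearMap.det_toMatrix b T, Matrix.det_fin_two, key l (T u), key l' (T u'), key l (T u'),
    key l' (T u), key l u, key l' u', key l u', key l' u, keyT u 0, keyT u 1, keyT u' 0, keyT u' 1]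
  ring

/-- area forms on a two-dimensional quotient -/
theorem area_quot {T : E →ₗ[ℝ] E} {P Q : Submodule ℝ E} (hPQ : P ≤ Q)
    (hr : Module.finrank ℝ Q = Module.finrank ℝ P + 2) (hP : ∀ v ∈ P, T v ∈ P)
    (hQ : ∀ v ∈ Q, T v ∈ Q) (hdP : |dt T P hP| = 1) (hdQ : |dt T Q hQ| = 1)
    (l l' : E →ₗ[ℝ] ℝ) (hl : ∀ v ∈ P, l v = 0) (hl' : ∀ v ∈ P, l' v = 0) {u u' : E}
    (hu : u ∈ Q) (hu' : u' ∈ Q) :
    |l (T u) * l' (T u') - l (T u') * l' (T u)| = |l u * l' u' - l u' * l' u| := by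
  have h2 : Module.finrank ℝ (Q ⧸ P.submoduleOf Q) = 2 := by
    have h3 := Submodule.finrank_quotient_add_finrank (P.submoduleOf Q)
    have h4 : Module.finrank ℝ (P.submoduleOf Q) = Module.finrank ℝ P :=
      (Submodule.submoduleOfEquivOfLe hPQ).finrank_eq
    omega
  have h5 : |LinearMap.det (qmap T P Q hP hQ)| = 1 := by
    have h6 := dt_mul hPQ hP hQ
    rw [h6, abs_mul, hdP, one_mul] at hdQ
    exact hdQ
  let lift : ∀ (f : E →ₗ[ℝ] ℝ), (∀ v ∈ P, f v = 0) → (Q ⧸ P.submoduleOf Q) →ₗ[ℝ] ℝ :=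
    fun f hf => (P.submoduleOf Q).liftQ (f.comp Q.subtype) (fun v hv => hf v hv)
  have hlift : ∀ (f : E →ₗ[ℝ] ℝ) (hf : ∀ v ∈ P, f v = 0) (v : Q),
      lift f hf (Submodule.Quotient.mk v) = f v := fun f hf v => rfl
  have h7 := area_two h2 (qmap T P Q hP hQ) (lift l hl) (lift l' hl')
    (Submodule.Quotient.mk ⟨u, hu⟩) (Submodule.Quotient.mk ⟨u', hu'⟩)
  have h8 : ∀ v (hv : v ∈ Q), qmap T P Q hP hQ (Submodule.Quotient.mk ⟨v, hv⟩) =
      Submodule.Quotient.mk ⟨T v, hQ v hv⟩ := fun v hv => rfl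
  rw [h8, h8, hlift, hlift, hlift, hlift, hlift, hlift, hlift, hlift] at h7
  have h9 := congrArg abs h7
  rw [abs_mul, h5, one_mul] at h9
  exact h9

end

end Run7.h675
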