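import Pool.Agent.Run7.h675.Chain
import Pool.Agent.Run7.h675.Area

/-!
The determinant of the linear holonomy on a bounded quotient is `± 1`.
-/

set_option autoImplicit false

open Set Filter Topology Metric
open Pool.Agent.W689.Mk

namespace Run7.h675

theorem hom_abs_one {Γ : Type} [Group Γ] (f : Γ →* ℝ) {M : ℝ} (h : ∀ γ, |f γ| ≤ M) (γ : Γ) :
    |f γ| = 1 := by
  have key : ∀ γ, |f γ| ≤ 1 := by
    intro γ
    by_contra hcon
    push Not at hcon
    obtain ⟨n, hn⟩ := pow_unbounded_of_one_lt M hcon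
    have h1 := h (γ ^ n)
    rw [map_pow, abs_pow] at h1
    linarith
  have h1 : |f γ| * |f γ⁻¹| = 1 := by
    rw [← abs_mul, ← map_mul, mul_inv_cancel, map_one, abs_one]
  have h2 := key γ
  have h3 := key γ⁻¹
  have h4 := abs_nonneg (f γ)
  have h5 := abs_nonneg (f γ⁻¹)
  nlinarith

section
variable {Γ E : Type} [Group Γ] [NormedAddCommGroup E] [NormedSpace ℝ E] [FiniteDimensional ℝ E]
  {hol : Γ →* (E ≃ᵃ[ℝ] E)}

/-- the determinant on the quotient as a character -/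
noncomputable def qdet (hol : Γ →* (E ≃ᵃ[ℝ] E)) {P Q : Submodule ℝ E}
    (hP : ∀ γ : Γ, ∀ v ∈ P, lin hol γ v ∈ P) (hQ : ∀ γ : Γ, ∀ v ∈ Q, lin hol γ v ∈ Q) :
    Γ →* ℝ where
  toFun γ := LinearMap.det (qmap ((hol γ).linear : E →ₗ[ℝ] E) P Q (hP γ) (hQ γ))
  map_one' := by
    have h1 : qmap ((hol (1 : Γ)).linear : E →ₗ[ℝ] E) P Q (hP 1) (hQ 1) = LinearMap.id := by
      apply LinearMap.ext
      intro v
      obtain ⟨v, rfl⟩ := Submodule.Quotient.mk_surjective _ v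
      show (Submodule.Quotient.mk ((((hol (1 : Γ)).linear : E →ₗ[ℝ] E).restrict (hQ 1)) v) :
        Q ⧸ P.submoduleOf Q) = Submodule.Quotient.mk v
      congr 1
      apply Subtype.ext
      show (hol (1 : Γ)).linear v = v
      rw [map_one]
      rfl
    rw [h1, LinearMap.det_id]
  map_mul' := by
    intro γ δ
    rw [← LinearMap.det_comp]
    congr 1
    apply LinearMap.ext
    intro v
    obtain ⟨v, rfl⟩ := Submodule.Quotient.mk_surjective _ v
    show (Submodule.Quotient.mk ((((hol (γ * δ)).linear : E →ₗ[ℝ] E).restrict (hQ (γ * δ))) v) :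
      Q ⧸ P.submoduleOf Q) = Submodule.Quotient.mk ((((hol γ).linear : E →ₗ[ℝ] E).restrict (hQ γ))
        ((((hol δ).linear : E →ₗ[ℝ] E).restrict (hQ δ)) v))
    congr 1
    apply Subtype.ext
    show (hol (γ * δ)).linear v = (hol γ).linear ((hol δ).linear v)
    rw [map_mul]
    rfl

theorem qdet_bdd {P Q : Submodule ℝ E} (hP : ∀ γ : Γ, ∀ v ∈ P, lin hol γ v ∈ P)
    (hQ : ∀ γ : Γ, ∀ v ∈ Q, lin hol γ v ∈ Q) (hb : BddBlock hol P Q) (γ : Γ) :
    |qdet hol hP hQ γ| = 1 := by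
  obtain ⟨C, hC⟩ := hb
  let bs := Module.finBasis ℝ (Q ⧸ P.submoduleOf Q)
  choose w hw using fun j => Submodule.Quotient.mk_surjective (P.submoduleOf Q) (bs j)
  let F : Fin (Module.finrank ℝ (Q ⧸ P.submoduleOf Q)) → (Q →L[ℝ] ℝ) := fun i =>
    LinearMap.toContinuousLinearMap ((bs.coord i).comp (P.submoduleOf Q).mkQ)
  have hF : ∀ i v, F i v = bs.coord i (Submodule.Quotient.mk v) := fun i v => rfl
  set x := ∑ i, ∑ j, ‖F i‖ * (|C| * ‖w j‖) with hx
  refine hom_abs_one (qdet hol hP hQ)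
    (M := Nat.factorial (Fintype.card (Fin (Module.finrank ℝ (Q ⧸ P.submoduleOf Q)))) •
      x ^ Fintype.card (Fin (Module.finrank ℝ (Q ⧸ P.submoduleOf Q)))) (fun γ => ?_) γ
  show |LinearMap.det (qmap ((hol γ).linear : E →ₗ[ℝ] E) P Q (hP γ) (hQ γ))| ≤ _
  rw [← LinearMap.det_toMatrix bs]
  refine Matrix.det_le (abv := AbsoluteValue.abs) fun i j => ?_
  show |LinearMap.toMatrix bs bs (qmap ((hol γ).linear : E →ₗ[ℝ] E) P Q (hP γ) (hQ γ)) i j| ≤ x
  rw [LinearMap.toMatrix_apply]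
  obtain ⟨v, hv, hvn, hvP⟩ := hC γ⁻¹ (w j) (w j).2
  have h1 : lin hol γ (w j) - v ∈ P := by
    have h2 := hP γ _ hvP
    have e : lin hol γ (lin hol γ⁻¹ v - w j) = v - lin hol γ (w j) := by
      have e1 : lin hol γ (lin hol γ⁻¹ v - w j) = lin hol γ (lin hol γ⁻¹ v) - lin hol γ (w j) :=
        map_sub (hol γ).linear _ _
      have e2 : lin hol γ (lin hol γ⁻¹ v) = v := by
        have := lin_inv_apply (hol := hol) γ⁻¹ v
        rwa [inv_inv] at this
      rw [e1, e2]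
    rw [e] at h2
    rw [← neg_sub]
    exact P.neg_mem h2
  have h2 : qmap ((hol γ).linear : E →ₗ[ℝ] E) P Q (hP γ) (hQ γ) (bs j) =
      Submodule.Quotient.mk (⟨v, hv⟩ : Q) := by
    rw [← hw j]
    show (Submodule.Quotient.mk ((((hol γ).linear : E →ₗ[ℝ] E).restrict (hQ γ)) (w j)) :
      Q ⧸ P.submoduleOf Q) = _
    rw [Submodule.Quotient.eq]
    exact h1
  rw [h2]
  have h3 : bs.repr (Submodule.Quotient.mk (⟨v, hv⟩ : Q)) i = F i ⟨v, hv⟩ := rfl
  rw [h3]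
  have h4 : |F i ⟨v, hv⟩| ≤ ‖F i‖ * (|C| * ‖w j‖) := by
    have h5 := (F i).le_opNorm ⟨v, hv⟩
    rw [Real.norm_eq_abs] at h5
    refine h5.trans (mul_le_mul_of_nonneg_left ?_ (norm_nonneg _))
    have h6 : ‖(⟨v, hv⟩ : Q)‖ = ‖v‖ := rfl
    rw [h6]
    refine hvn.trans ?_
    exact mul_le_mul_of_nonneg_right (le_abs_self C) (norm_nonneg _)
  refine h4.trans ?_
  have h5 : ‖F i‖ * (|C| * ‖w j‖) ≤ ∑ j, ‖F i‖ * (|C| * ‖w j‖) :=
    Finset.single_le_sum (f := fun j => ‖F i‖ * (|C| * ‖w j‖)) (fun j _ => by positivity)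
      (Finset.mem_univ j)
  refine h5.trans ?_
  exact Finset.single_le_sum (f := fun i => ∑ j, ‖F i‖ * (|C| * ‖w j‖))
    (fun i _ => Finset.sum_nonneg fun j _ => by positivity) (Finset.mem_univ i)

theorem dt_bdd {P Q : Submodule ℝ E} (hPQ : P ≤ Q) (hP : ∀ γ : Γ, ∀ v ∈ P, lin hol γ v ∈ P)
    (hQ : ∀ γ : Γ, ∀ v ∈ Q, lin hol γ v ∈ Q) (hb : BddBlock hol P Q) (γ : Γ) :
    |dt ((hol γ).linear : E →ₗ[ℝ] E) Q (hQ γ)| = |dt ((hol γ).linear : E →ₗ[ℝ] E) P (hP γ)| := by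
  rw [dt_mul hPQ (hP γ) (hQ γ), abs_mul]
  have h1 : |LinearMap.det (qmap ((hol γ).linear : E →ₗ[ℝ] E) P Q (hP γ) (hQ γ))| = 1 :=
    qdet_bdd hP hQ hb γ
  rw [h1, mul_one]

/-- flags with bounded quotients: the determinant on the bottom -/
theorem dt_flag {S : ℕ → Submodule ℝ E} {m : ℕ} (hm : S m = ⊤) (hle : ∀ i < m, S i ≤ S (i + 1))
    (hinv : ∀ i ≤ m, ∀ γ : Γ, ∀ v ∈ S i, lin hol γ v ∈ S i)
    (hb : ∀ i < m, BddBlock hol (S i) (S (i + 1)))
    (hu : ∀ γ : Γ, |LinearMap.det ((hol γ).linear : E →ₗ[ℝ] E)| = 1) (γ : Γ) :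
    ∀ n i (hi : i ≤ m), i + n = m → |dt ((hol γ).linear : E →ₗ[ℝ] E) (S i)
      (fun v hv => hinv i hi γ v hv)| = 1 := by
  intro n
  induction n with
  | zero =>
    intro i hi hin
    have him : i = m := by omega
    subst him
    rw [dt_congr _ hm _ (fun v _ => Submodule.mem_top), dt_top]
    exact hu γ
  | succ n ih =>
    intro i hi hin
    have h1 := ih (i + 1) (by omega) (by omega)
    rw [dt_bdd (hle i (by omega)) (fun γ v hv => hinv i (by omega) γ v hv)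
      (fun γ v hv => hinv (i + 1) (by omega) γ v hv) (hb i (by omega)) γ] at h1
    exact h1

end

end Run7.h675
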