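import Pool.Agent.Run7.h675.Pair

/-!
Flags with bounded quotients: all sections of the developing map by the subspaces of a suitable
chain are connected.
-/

set_option autoImplicit false

open Set Filter Topology Metric
open Pool.Agent.W689.Mk

namespace Run7.h675

section
variable {X Γ E : Type} [TopologicalSpace X] [T2Space X] [Group Γ] [MulAction Γ X]
  [NormedAddCommGroup E] [NormedSpace ℝ E] [FiniteDimensional ℝ E]
  {dev : X → E} {hol : Γ →* (E ≃ᵃ[ℝ] E)}

/-- all sections parallel to `W` are nonempty and connected -/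
def Con (dev : X → E) (W : Submodule ℝ E) : Prop := ∀ p, IsConnected (Sect dev W p)

theorem Con.top [ConnectedSpace X] : Con dev (⊤ : Submodule ℝ E) := by
  intro p
  have : Sect dev (⊤ : Submodule ℝ E) p = univ := by
    ext x
    simp [Sect]
  rw [this]
  exact isConnected_univ

theorem Con.step [Nonempty X] (D : AffData X Γ E dev hol) {W : Submodule ℝ E} {ξ : E →L[ℝ] ℝ}
    (hg : GoodPair hol W ξ) (hc : Con dev W) :
    Con dev (W ⊓ LinearMap.ker (ξ : E →ₗ[ℝ] ℝ)) :=
  fun p => Sect.step D hg (hc p)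

/-- the linear holonomy is bounded on the quotient `S' / S` -/
def BddBlock (hol : Γ →* (E ≃ᵃ[ℝ] E)) (S S' : Submodule ℝ E) : Prop :=
  ∃ C : ℝ, ∀ (γ : Γ), ∀ w ∈ S', ∃ v ∈ S', ‖v‖ ≤ C * ‖w‖ ∧ lin hol γ v - w ∈ S

theorem exists_functional {V : Submodule ℝ E} {w : E} (hw : w ∉ V) :
    ∃ f : E →L[ℝ] ℝ, (∀ v ∈ V, f v = 0) ∧ f w = 1 := by
  obtain ⟨f, hf, hV⟩ := Submodule.exists_dual_map_eq_bot_of_notMem hw inferInstance
  refine ⟨LinearMap.toContinuousLinearMap ((f w)⁻¹ • f), fun v hv => ?_, ?_⟩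
  · show (f w)⁻¹ • f v = 0
    have h1 : f v ∈ V.map f := Submodule.mem_map_of_mem hv
    rw [hV, Submodule.mem_bot] at h1
    rw [h1, smul_zero]
  · show (f w)⁻¹ • f w = 1
    exact inv_mul_cancel₀ hf

theorem Con.block [Nonempty X] (D : AffData X Γ E dev hol) {S S' V : Submodule ℝ E}
    (hb : BddBlock hol S S') (hSV : S ≤ V) :
    ∀ (n : ℕ) (W : Submodule ℝ E), Module.finrank ℝ W = n → V ≤ W → W ≤ V ⊔ S' → Con dev W →
      Con dev V := by
  intro n
  induction n using Nat.strong_induction_on with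
  | _ n ih =>
    intro W hn hVW hWS hc
    by_cases hWV : W ≤ V
    · rwa [le_antisymm hVW hWV]
    obtain ⟨w, hw, hwV⟩ := SetLike.not_le_iff_exists.1 hWV
    obtain ⟨f, hfV, hfw⟩ := exists_functional hwV
    obtain ⟨v0, hv0, s, hs, hsum⟩ := Submodule.mem_sup.1 (hWS hw)
    have hs1 : f s = 1 := by
      have := congrArg f hsum
      rw [map_add, hfV v0 hv0, zero_add, hfw] at this
      exact this
    have hsW : s ∈ W := by
      have : s = w - v0 := by rw [← hsum]; abel
      rw [this]
      exact W.sub_mem hw (hVW hv0)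
    have hgp : GoodPair hol W f := by
      obtain ⟨C, hC⟩ := hb
      refine ⟨C * ‖s‖, fun γ => ?_⟩
      obtain ⟨v, -, hv, hvS⟩ := hC γ s hs
      have e : lin hol γ v = s + (lin hol γ v - s) := by abel
      refine ⟨v, hv, ?_, ?_⟩
      · rw [e]
        exact W.add_mem hsW (hVW (hSV hvS))
      · rw [e, map_add, hs1, hfV _ (hSV hvS), add_zero]
    have hc1 := hc.step D hgp
    refine ih _ ?_ _ rfl ?_ (inf_le_left.trans hWS) hc1
    · rw [← hn]
      apply Submodule.finrank_lt_finrank_of_lt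
      refine lt_of_le_of_ne inf_le_left ?_
      intro he
      have h1 : w ∈ W ⊓ LinearMap.ker (f : E →ₗ[ℝ] ℝ) := by rw [he]; exact hw
      have h2 : f w = 0 := (Submodule.mem_inf.1 h1).2
      rw [hfw] at h2
      exact one_ne_zero h2
    · exact le_inf hVW fun v hv => hfV v hv

/-- one block of the flag, with an additional subspace `N` -/
theorem Con.block' [Nonempty X] (D : AffData X Γ E dev hol) {S S' N : Submodule ℝ E}
    (hb : BddBlock hol S S') (hSS : S ≤ S') (hc : Con dev (S' ⊔ N)) : Con dev (S ⊔ N) := by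
  refine Con.block D (V := S ⊔ N) hb le_sup_left _ _ rfl (sup_le_sup_right hSS N) ?_ hc
  refine sup_le le_sup_right ?_
  exact le_sup_right.trans le_sup_left

/-- going down a flag from `S j` to `S i` -/
theorem Con.flag [Nonempty X] (D : AffData X Γ E dev hol) {S : ℕ → Submodule ℝ E}
    {N : Submodule ℝ E} {i j : ℕ} (hij : i ≤ j) (hle : ∀ l, i ≤ l → l < j → S l ≤ S (l + 1))
    (hb : ∀ l, i ≤ l → l < j → BddBlock hol (S l) (S (l + 1))) (hc : Con dev (S j ⊔ N)) :
    Con dev (S i ⊔ N) := by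
  induction j, hij using Nat.le_induction with
  | base => exact hc
  | succ j hij ih =>
    refine ih (fun l h1 h2 => hle l h1 (by omega)) (fun l h1 h2 => hb l h1 (by omega)) ?_
    exact Con.block' D (hb j hij (by omega)) (hle j hij (by omega)) hc

end

end Run7.h675
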