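import Mathlib

/-!
A function `ξ : X → ℝ` which is moved by small times `s ∈ [0, a]` by homeomorphisms depending
continuously on `s` is the projection of a product `X ≃ F × ℝ`.
-/

set_option autoImplicit false

open Set Filter Topology

namespace Run7.h675

section
variable {X : Type*} [TopologicalSpace X]

/-- the closed strips `m a ≤ u ≤ (m + 1) a` -/
theorem locallyFinite_strips {Y : Type*} [TopologicalSpace Y] {u : Y → ℝ} (hu : Continuous u)
    {a : ℝ} (ha : 0 < a) :
    LocallyFinite (fun m : ℤ => u ⁻¹' Icc (m * a) ((m + 1) * a)) := by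
  apply LocallyFinite.preimage_continuous _ hu
  intro x
  refine ⟨Ioo (x - a) (x + a), Ioo_mem_nhds (by linarith) (by linarith), ?_⟩
  refine (Set.finite_Icc (⌊x / a⌋ - 3) (⌊x / a⌋ + 3)).subset ?_
  rintro m ⟨y, ⟨hy1, hy2⟩, hy3, hy4⟩
  have h1 : (⌊x / a⌋ : ℝ) ≤ x / a := Int.floor_le _
  have h2 : x / a < ⌊x / a⌋ + 1 := Int.lt_floor_add_one _
  rw [le_div_iff₀ ha] at h1
  rw [div_lt_iff₀ ha] at h2
  constructor
  · have : ((⌊x / a⌋ - 3 : ℤ) : ℝ) < m := by
      push_cast
      nlinarith
    exact_mod_cast this.le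
  · have : (m : ℝ) < ((⌊x / a⌋ + 3 : ℤ) : ℝ) := by
      push_cast
      nlinarith
    exact_mod_cast this.le

theorem iUnion_strips {Y : Type*} {u : Y → ℝ} {a : ℝ} (ha : 0 < a) :
    ⋃ m : ℤ, u ⁻¹' Icc (m * a) ((m + 1) * a) = univ := by
  rw [eq_univ_iff_forall]
  intro y
  rw [mem_iUnion]
  refine ⟨⌊u y / a⌋, ?_, ?_⟩
  · have h1 : (⌊u y / a⌋ : ℝ) ≤ u y / a := Int.floor_le _
    rwa [le_div_iff₀ ha] at h1
  · have h2 : u y / a < ⌊u y / a⌋ + 1 := Int.lt_floor_add_one _
    rw [div_lt_iff₀ ha] at h2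
    exact h2.le

variable {ξ : X → ℝ} {a : ℝ} {h k : ℝ → X → X}

/-- the product decomposition -/
theorem exists_split (hξ : Continuous ξ) (ha : 0 < a) (h0 : ∀ x, h 0 x = x)
    (hξh : ∀ s ∈ Icc 0 a, ∀ x, ξ (h s x) = ξ x + s)
    (hk : ∀ s ∈ Icc 0 a, ∀ x, k s (h s x) = x) (hk' : ∀ s ∈ Icc 0 a, ∀ x, h s (k s x) = x)
    (hc : ContinuousOn (fun z : ℝ × X => h z.1 z.2) (Icc 0 a ×ˢ univ))
    (kc : ContinuousOn (fun z : ℝ × X => k z.1 z.2) (Icc 0 a ×ˢ univ)) :
    ∃ Φ : X ≃ₜ {x : X // ξ x = 0} × ℝ, ∀ x, (Φ x).2 = ξ x := by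
  have haI : a ∈ Icc 0 a := ⟨ha.le, le_rfl⟩
  have h0I : (0 : ℝ) ∈ Icc 0 a := ⟨le_rfl, ha.le⟩
  have hca : Continuous (h a) := by
    have : ContinuousOn (fun x : X => h a x) univ :=
      hc.comp (f := fun x : X => ((a, x) : ℝ × X)) (by fun_prop) (fun x _ => ⟨haI, mem_univ _⟩)
    exact continuousOn_univ.1 this
  have kca : Continuous (k a) := by
    have : ContinuousOn (fun x : X => k a x) univ :=
      kc.comp (f := fun x : X => ((a, x) : ℝ × X)) (by fun_prop) (fun x _ => ⟨haI, mem_univ _⟩)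
    exact continuousOn_univ.1 this
  have k0 : ∀ x, k 0 x = x := fun x => by
    have := hk 0 h0I x
    rwa [h0] at this
  have hξk : ∀ s ∈ Icc 0 a, ∀ x, ξ (k s x) = ξ x - s := fun s hs x => by
    have := hξh s hs (k s x)
    rw [hk' s hs] at this
    linarith
  let T : X ≃ₜ X :=
    { toFun := h a
      invFun := k a
      left_inv := hk a haI
      right_inv := hk' a haI
      continuous_toFun := hca
      continuous_invFun := kca }
  have hT : ∀ x, T x = h a x := fun _ => rfl
  have hTi : ∀ x, T⁻¹ x = k a x := fun _ => rfl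
  have hξT : ∀ (m : ℤ) x, ξ ((T ^ m) x) = ξ x + m * a := by
    intro m
    induction m using Int.induction_on with
    | zero => intro x; simp
    | succ m ih =>
      intro x
      rw [zpow_add_one]
      have e : (T ^ (m : ℤ) * T) x = (T ^ (m : ℤ)) (T x) := rfl
      rw [e, ih, hT, hξh a haI]
      push_cast
      ring
    | pred m ih =>
      intro x
      rw [zpow_sub_one]
      have e : (T ^ (-(m : ℤ)) * T⁻¹) x = (T ^ (-(m : ℤ))) (T⁻¹ x) := rfl
      rw [e, ih, hTi, hξk a haI]
      push_cast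
      ring
  let fl : ℝ → ℤ := fun u => ⌊u / a⌋
  let fr : ℝ → ℝ := fun u => u - fl u * a
  have hfr : ∀ u, fr u ∈ Icc 0 a := by
    intro u
    have h1 : (⌊u / a⌋ : ℝ) ≤ u / a := Int.floor_le _
    have h2 : u / a < ⌊u / a⌋ + 1 := Int.lt_floor_add_one _
    rw [le_div_iff₀ ha] at h1
    rw [div_lt_iff₀ ha] at h2
    constructor
    · simp only [fr, fl]; linarith
    · simp only [fr, fl]; linarith
  let G : ℝ → X → X := fun u x => h (fr u) ((T ^ (fl u)) x)
  let G' : ℝ → X → X := fun u x => (T ^ (-(fl u))) (k (fr u) x)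
  have hG'G : ∀ u x, G' u (G u x) = x := by
    intro u x
    simp only [G, G']
    rw [hk _ (hfr u)]
    have e : (T ^ (-(fl u))) ((T ^ (fl u)) x) = (T ^ (-(fl u)) * T ^ (fl u)) x := rfl
    rw [e, ← zpow_add]
    simp
  have hGG' : ∀ u x, G u (G' u x) = x := by
    intro u x
    simp only [G, G']
    have e : (T ^ (fl u)) ((T ^ (-(fl u))) (k (fr u) x)) =
        (T ^ (fl u) * T ^ (-(fl u))) (k (fr u) x) := rfl
    rw [e, ← zpow_add]
    simp only [add_neg_cancel, zpow_zero]
    exact hk' _ (hfr u) x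
  have hξG : ∀ u x, ξ (G u x) = ξ x + u := by
    intro u x
    simp only [G]
    rw [hξh _ (hfr u), hξT]
    simp only [fr]
    ring
  -- on the closed strips
  have hGs : ∀ (m : ℤ) (u : ℝ), u ∈ Icc (m * a) ((m + 1) * a) → ∀ x,
      G u x = h (u - m * a) ((T ^ m) x) := by
    intro m u hu x
    rcases eq_or_lt_of_le hu.2 with h1 | h1
    · have hf : fl u = m + 1 := by
        simp only [fl]
        rw [h1, mul_div_assoc, div_self ha.ne', mul_one]
        have : ((m : ℝ) + 1) = ((m + 1 : ℤ) : ℝ) := by push_cast; ring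
        rw [this, Int.floor_intCast]
      have hf' : fr u = 0 := by
        simp only [fr]
        rw [hf, h1]
        push_cast
        ring
      simp only [G]
      rw [hf', hf, h0, zpow_add_one]
      have e : u - m * a = a := by rw [h1]; ring
      rw [e]
      have e2 : (T ^ m * T) x = (T * T ^ m) x := by rw [← zpow_add_one, ← zpow_one_add, add_comm]
      rw [e2]
      rfl
    · have hf : fl u = m := by
        simp only [fl]
        rw [Int.floor_eq_iff]
        constructor
        · rw [le_div_iff₀ ha]; exact hu.1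
        · rw [div_lt_iff₀ ha]; exact h1
      simp only [G, fr]
      rw [hf]
  have hG's : ∀ (m : ℤ) (u : ℝ), u ∈ Icc (m * a) ((m + 1) * a) → ∀ x,
      G' u x = (T ^ (-m)) (k (u - m * a) x) := by
    intro m u hu x
    have hs : u - m * a ∈ Icc 0 a := ⟨by linarith [hu.1], by linarith [hu.2]⟩
    have h1 : G u ((T ^ (-m)) (k (u - m * a) x)) = x := by
      rw [hGs m u hu]
      have e : (T ^ m) ((T ^ (-m)) (k (u - m * a) x)) = (T ^ m * T ^ (-m)) (k (u - m * a) x) := rfl
      rw [e, ← zpow_add]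
      simp only [add_neg_cancel, zpow_zero]
      exact hk' _ hs x
    have h2 := hG'G u ((T ^ (-m)) (k (u - m * a) x))
    rw [h1] at h2
    exact h2
  have hGc : Continuous (fun z : ℝ × X => G z.1 z.2) := by
    refine (locallyFinite_strips (u := fun z : ℝ × X => z.1) continuous_fst ha).continuous
      (iUnion_strips ha) (fun m => isClosed_Icc.preimage continuous_fst) fun m => ?_
    have h1 : ContinuousOn (fun z : ℝ × X => h (z.1 - m * a) ((T ^ m) z.2))
        ((fun z : ℝ × X => z.1) ⁻¹' Icc (m * a) ((m + 1) * a)) := by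
      refine hc.comp (f := fun z : ℝ × X => ((z.1 - m * a, (T ^ m) z.2) : ℝ × X)) ?_ ?_
      · have := (T ^ m).continuous
        fun_prop
      · intro z hz
        exact ⟨⟨by linarith [hz.1], by linarith [hz.2]⟩, mem_univ _⟩
    exact h1.congr fun z hz => hGs m z.1 hz z.2
  have hG'c : Continuous (fun z : ℝ × X => G' z.1 z.2) := by
    refine (locallyFinite_strips (u := fun z : ℝ × X => z.1) continuous_fst ha).continuous
      (iUnion_strips ha) (fun m => isClosed_Icc.preimage continuous_fst) fun m => ?_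
    have h1 : ContinuousOn (fun z : ℝ × X => (T ^ (-m)) (k (z.1 - m * a) z.2))
        ((fun z : ℝ × X => z.1) ⁻¹' Icc (m * a) ((m + 1) * a)) := by
      refine (T ^ (-m)).continuous.comp_continuousOn ?_
      refine kc.comp (f := fun z : ℝ × X => ((z.1 - m * a, z.2) : ℝ × X)) ?_ ?_
      · fun_prop
      · intro z hz
        exact ⟨⟨by linarith [hz.1], by linarith [hz.2]⟩, mem_univ _⟩
    exact h1.congr fun z hz => hG's m z.1 hz z.2
  have hξG' : ∀ u x, ξ (G' u x) = ξ x - u := by
    intro u x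
    have := hξG u (G' u x)
    rw [hGG'] at this
    linarith
  refine ⟨{ toFun := fun x => (⟨G' (ξ x) x, by rw [hξG']; ring⟩, ξ x)
            invFun := fun z => G z.2 z.1.1
            left_inv := fun x => hGG' _ _
            right_inv := ?_
            continuous_toFun := ?_
            continuous_invFun := ?_ }, fun x => rfl⟩
  · rintro ⟨⟨y, hy⟩, u⟩
    have h1 : ξ (G u y) = u := by rw [hξG, hy, zero_add]
    refine Prod.ext (Subtype.ext ?_) h1
    show G' (ξ (G u y)) (G u y) = y
    rw [h1, hG'G]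
  · refine Continuous.prodMk (Continuous.subtype_mk ?_ _) hξ
    exact hG'c.comp (hξ.prodMk continuous_id)
  · exact hGc.comp (continuous_snd.prodMk (continuous_subtype_val.comp continuous_fst))

end

end Run7.h675
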