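import Pool.Agent.W689.Mk.Ht
import Pool.Agent.Run7.h675.Split

/-!
A space with a local homeomorphism `dev` to a vector space and a vector field which is uniformly
bounded and uniformly Lipschitz in suitable linear coordinates around every point: a linear function
`ξ` with `ξ (Z x) = 1` is the projection of a product.
-/

set_option autoImplicit false

open Set Filter Topology Metric
open Pool.Agent.W689.Mk

namespace Run7.h675

section
variable {X E : Type} [TopologicalSpace X] [T2Space X] [NormedAddCommGroup E] [NormedSpace ℝ E]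

/-- uniform charts around all points -/
structure UCh (dev : X → E) (Z : X → E) (r L M C : ℝ) where
  g : X → E ≃L[ℝ] E
  c : X → E → X
  hr : 0 < r
  hL : 0 ≤ L
  hM : 0 ≤ M
  hC : 0 ≤ C
  cont : ∀ x, ContinuousOn (c x) (ball 0 (4 * r))
  zero : ∀ x, c x 0 = x
  dev_c : ∀ x, ∀ q ∈ ball (0 : E) (4 * r), dev (c x q) = dev x + g x q
  lip : ∀ x, ∀ q ∈ ball (0 : E) (4 * r), ∀ q' ∈ ball (0 : E) (4 * r),
    ‖(g x).symm (Z (c x q)) - (g x).symm (Z (c x q'))‖ ≤ L * ‖q - q'‖
  bd : ∀ x, ∀ q ∈ ball (0 : E) (4 * r), ‖(g x).symm (Z (c x q))‖ ≤ M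
  comp : ∀ x, ∀ q ∈ ball (0 : E) r, ∀ v, ‖(g (c x q)).symm (g x v)‖ ≤ C * ‖v‖

variable {dev : X → E} {Z : X → E} {r L M C : ℝ}

/-- the chart at `x` as a chart of the library, in linear coordinates -/
def UCh.cht (u : UCh dev Z r L M C) (x : X) :
    Cht (fun y => (u.g x).symm (dev y - dev x)) (fun y => (u.g x).symm (Z y)) where
  σ := u.c x
  p := 0
  r := r
  L := L
  B := M
  hr := u.hr
  hL := u.hL
  hB := u.hM
  sec := by
    refine ⟨isOpen_ball, convex_ball _ _, u.cont x, fun q hq => ?_⟩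
    beta_reduce
    rw [u.dev_c x q hq, add_sub_cancel_left]
    exact (u.g x).symm_apply_apply q
  lip := u.lip x
  bd := u.bd x

theorem UCh.sec (u : UCh dev Z r L M C) (x : X) :
    Sec dev ((fun p => (u.g x).symm (p - dev x)) ⁻¹' ball 0 (4 * r))
      (fun p => u.c x ((u.g x).symm (p - dev x))) := by
  have hcont : Continuous (fun p => (u.g x).symm (p - dev x)) :=
    (u.g x).symm.continuous.comp (continuous_id.sub continuous_const)
  refine ⟨isOpen_ball.preimage hcont, ?_, ?_, ?_⟩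
  · intro p hp q hq a b ha hb hab
    have e : (u.g x).symm (a • p + b • q - dev x) =
        a • (u.g x).symm (p - dev x) + b • (u.g x).symm (q - dev x) := by
      rw [← map_smul, ← map_smul, ← map_add]
      congr 1
      have : dev x = (a + b) • dev x := by rw [hab, one_smul]
      nth_rewrite 1 [this]
      rw [add_smul, smul_sub, smul_sub]
      abel
    show (u.g x).symm (a • p + b • q - dev x) ∈ ball 0 (4 * r)
    rw [e]
    exact (convex_ball 0 (4 * r)) hp hq ha hb hab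
  · exact (u.cont x).comp hcont.continuousOn fun p hp => hp
  · intro p hp
    rw [u.dev_c x _ hp, (u.g x).apply_symm_apply]
    abel

theorem UCh.ex (u : UCh dev Z r L M C) (x : X) {q v : E} (hq : q ∈ ball (0 : E) (4 * r))
    (hv : q + v ∈ ball (0 : E) (4 * r)) : Ex dev (u.c x q) (u.g x v) (u.c x (q + v)) := by
  have e1 : (u.g x).symm (dev (u.c x q) - dev x) = q := by
    rw [u.dev_c x q hq, add_sub_cancel_left, (u.g x).symm_apply_apply]
  have e2 : (u.g x).symm (dev (u.c x q) + u.g x v - dev x) = q + v := by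
    have : dev (u.c x q) + u.g x v - dev x = (dev (u.c x q) - dev x) + u.g x v := by abel
    rw [this, map_add, e1, (u.g x).symm_apply_apply]
  refine ⟨_, _, u.sec x, ?_, ?_, ?_, ?_⟩
  · show (u.g x).symm (dev (u.c x q) - dev x) ∈ ball 0 (4 * r)
    rw [e1]; exact hq
  · beta_reduce; rw [e1]
  · show (u.g x).symm (dev (u.c x q) + u.g x v - dev x) ∈ ball 0 (4 * r)
    rw [e2]; exact hv
  · beta_reduce; rw [e2]

theorem UCh.isOpen_image (u : UCh dev Z r L M C) (hloc : IsLocalHomeomorph dev) (x : X) :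
    IsOpen (u.c x '' ball 0 r) := by
  have hcont : Continuous (fun p => (u.g x).symm (p - dev x)) :=
    (u.g x).symm.continuous.comp (continuous_id.sub continuous_const)
  have h1 := (u.sec x).isOpen_image hloc (V := (fun p => (u.g x).symm (p - dev x)) ⁻¹' ball 0 r)
    (isOpen_ball.preimage hcont) (preimage_mono (ball_subset_ball (by linarith [u.hr])))
  have h2 : (fun p => u.c x ((u.g x).symm (p - dev x))) ''
      ((fun p => (u.g x).symm (p - dev x)) ⁻¹' ball 0 r) = u.c x '' ball 0 r := by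
    ext y
    constructor
    · rintro ⟨p, hp, rfl⟩
      exact ⟨_, hp, rfl⟩
    · rintro ⟨q, hq, rfl⟩
      refine ⟨dev x + u.g x q, ?_, ?_⟩
      · show (u.g x).symm (dev x + u.g x q - dev x) ∈ ball 0 r
        rw [add_sub_cancel_left, (u.g x).symm_apply_apply]
        exact hq
      · beta_reduce
        rw [add_sub_cancel_left, (u.g x).symm_apply_apply]
  rw [← h2]
  exact h1

/-- the push map -/
def UCh.h (u : UCh dev Z r L M C) (s : ℝ) (x : X) : X := u.c x (s • (u.g x).symm (Z x))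

theorem UCh.push [CompleteSpace E] [Nonempty X] (u : UCh dev Z r L M C)
    (hloc : IsLocalHomeomorph dev) :
    ∃ a : ℝ, 0 < a ∧ ∃ k : ℝ → X → X, (∀ x, u.h 0 x = x) ∧
      (∀ s ∈ Icc 0 a, ∀ x, dev (u.h s x) = dev x + s • Z x) ∧
      (∀ s ∈ Icc 0 a, ∀ x, k s (u.h s x) = x) ∧ (∀ s ∈ Icc 0 a, ∀ x, u.h s (k s x) = x) ∧
      ContinuousOn (fun z : ℝ × X => u.h z.1 z.2) (Icc 0 a ×ˢ univ) ∧
      ContinuousOn (fun z : ℝ × X => k z.1 z.2) (Icc 0 a ×ˢ univ) := by
  have hr := u.hr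
  obtain ⟨a, ha, haL, haM, haC⟩ : ∃ a : ℝ, 0 < a ∧ a * L ≤ 1 / 2 ∧ a * M ≤ r / 8 ∧
      a * (C * M) < r := by
    have small : ∀ A b : ℝ, 0 < b → ∀ᶠ t : ℝ in 𝓝[>] 0, t * A < b := by
      intro A b hb
      have h1 : Tendsto (fun t : ℝ => t * A) (𝓝[>] 0) (𝓝 0) := by
        have : Tendsto (fun t : ℝ => t * A) (𝓝 0) (𝓝 (0 * A)) := tendsto_id.mul_const A
        rw [zero_mul] at this
        exact this.mono_left nhdsWithin_le_nhds
      exact h1.eventually_lt_const hb
    obtain ⟨a, h1, h2, h3, h4⟩ := ((small L (1 / 2) (by norm_num)).and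
      ((small M (r / 8) (by linarith)).and ((small (C * M) r hr).and self_mem_nhdsWithin))).exists
    exact ⟨a, h4, h1.le, h2.le, h3⟩
  have in4 : ball (0 : E) (2 * r) ⊆ ball 0 (4 * r) := ball_subset_ball (by linarith)
  have in1 : ball (0 : E) r ⊆ ball 0 (4 * r) := ball_subset_ball (by linarith)
  have hsL : ∀ s ∈ Icc 0 a, s * L ≤ 1 / 2 := fun s hs =>
    (mul_le_mul_of_nonneg_right hs.2 u.hL).trans haL
  have hsM : ∀ s ∈ Icc 0 a, s * M ≤ r / 8 := fun s hs =>
    (mul_le_mul_of_nonneg_right hs.2 u.hM).trans haM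
  have hsC : ∀ s ∈ Icc 0 a, s * (C * M) < r := fun s hs =>
    (mul_le_mul_of_nonneg_right hs.2 (mul_nonneg u.hC u.hM)).trans_lt haC
  -- norm of the displacement
  have nb : ∀ s ∈ Icc 0 a, ∀ x, ∀ q ∈ ball (0 : E) (4 * r),
      ‖s • (u.g x).symm (Z (u.c x q))‖ ≤ r / 8 := by
    intro s hs x q hq
    rw [norm_smul, Real.norm_eq_abs, abs_of_nonneg hs.1]
    exact (mul_le_mul_of_nonneg_left (u.bd x q hq) hs.1).trans (hsM s hs)
  have z4 : (0 : E) ∈ ball (0 : E) (4 * r) := mem_ball_self (by linarith)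
  have nb0 : ∀ s ∈ Icc 0 a, ∀ x, ‖s • (u.g x).symm (Z x)‖ ≤ r / 8 := by
    intro s hs x
    have := nb s hs x 0 z4
    rwa [u.zero] at this
  have hh : ∀ s ∈ Icc 0 a, ∀ x, Ex dev x (s • Z x) (u.h s x) := by
    intro s hs x
    have h1 := u.ex x (q := 0) (v := s • (u.g x).symm (Z x)) z4 (by
      rw [zero_add, mem_ball, dist_zero_right]
      linarith [nb0 s hs x])
    rw [u.zero, zero_add, map_smul, (u.g x).apply_symm_apply] at h1
    exact h1
  have hlocal : ∀ s ∈ Icc 0 a, ∀ x, ∀ q ∈ ball (0 : E) (4 * r),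
      q + s • (u.g x).symm (Z (u.c x q)) ∈ ball (0 : E) (4 * r) →
      u.h s (u.c x q) = u.c x (q + s • (u.g x).symm (Z (u.c x q))) := by
    intro s hs x q hq hq'
    have h1 := u.ex x hq hq'
    rw [map_smul, (u.g x).apply_symm_apply] at h1
    exact (hh s hs _).unique hloc h1
  have step : ∀ s ∈ Icc 0 a, ∀ x, ∀ q ∈ ball (0 : E) (2 * r),
      q + s • (u.g x).symm (Z (u.c x q)) ∈ ball (0 : E) (4 * r) := by
    intro s hs x q hq
    have h1 := nb s hs x q (in4 hq)
    rw [mem_ball, dist_zero_right] at hq ⊢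
    have := norm_add_le q (s • (u.g x).symm (Z (u.c x q)))
    linarith
  have hsolve : ∀ s ∈ Icc 0 a, ∀ x, ∀ q ∈ ball (0 : E) r, ∃ q' ∈ ball (0 : E) (2 * r),
      q' + s • (u.g x).symm (Z (u.c x q')) = q := by
    intro s hs x q hq
    exact (u.cht x).solve hs.1 (hsL s hs) (hsM s hs) hq
  have hinj : ∀ s ∈ Icc 0 a, ∀ x, ∀ q ∈ ball (0 : E) (4 * r), ∀ q' ∈ ball (0 : E) (4 * r),
      ‖q - q'‖ ≤ 2 * ‖(q + s • (u.g x).symm (Z (u.c x q))) -
        (q' + s • (u.g x).symm (Z (u.c x q')))‖ := by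
    intro s hs x q hq q' hq'
    exact (u.cht x).inj hs.1 (hsL s hs) hq hq'
  have hsurj : ∀ s ∈ Icc 0 a, ∀ y, ∃ x, u.h s x = y := by
    intro s hs y
    obtain ⟨q', hq', he⟩ := hsolve s hs y 0 (mem_ball_self hr)
    refine ⟨u.c y q', ?_⟩
    rw [hlocal s hs y q' (in4 hq') (step s hs y q' hq'), he, u.zero]
  -- all preimages are in the chart
  have hpre : ∀ s ∈ Icc 0 a, ∀ x, ∃ q ∈ ball (0 : E) (4 * r), x = u.c (u.h s x) q ∧
      q + s • (u.g (u.h s x)).symm (Z (u.c (u.h s x) q)) = 0 := by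
    intro s hs x
    set y := u.h s x with hy
    have h1 : Ex dev y (-(s • Z x)) x := (hh s hs x).symm
    have h2 : ‖(u.g y).symm (s • Z x)‖ < r := by
      have h3 := u.comp x (s • (u.g x).symm (Z x)) (by
        rw [mem_ball, dist_zero_right]
        linarith [nb0 s hs x]) (s • (u.g x).symm (Z x))
      rw [map_smul, (u.g x).apply_symm_apply] at h3
      have h4 : ‖s • (u.g x).symm (Z x)‖ ≤ s * M := by
        rw [norm_smul, Real.norm_eq_abs, abs_of_nonneg hs.1]
        have := u.bd x 0 z4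
        rw [u.zero] at this
        exact mul_le_mul_of_nonneg_left this hs.1
      have h5 : C * ‖s • (u.g x).symm (Z x)‖ ≤ C * (s * M) := mul_le_mul_of_nonneg_left h4 u.hC
      have h6 := hsC s hs
      have h7 : s * (C * M) = C * (s * M) := by ring
      rw [h7] at h6
      exact (h3.trans h5).trans_lt h6
    have hq4 : -((u.g y).symm (s • Z x)) ∈ ball (0 : E) (4 * r) := by
      rw [mem_ball, dist_zero_right, norm_neg]
      linarith
    have h5 := u.ex y (q := 0) (v := -((u.g y).symm (s • Z x))) z4 (by rw [zero_add]; exact hq4)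
    rw [u.zero, zero_add, map_neg, (u.g y).apply_symm_apply] at h5
    have h6 := h1.unique hloc h5
    refine ⟨_, hq4, h6, ?_⟩
    rw [← h6, map_smul]
    abel
  have hinj' : ∀ s ∈ Icc 0 a, ∀ x x', u.h s x = u.h s x' → x = x' := by
    intro s hs x x' he
    obtain ⟨q, hq, h1, h2⟩ := hpre s hs x
    obtain ⟨q', hq', h1', h2'⟩ := hpre s hs x'
    rw [← he] at h1' h2'
    have h3 := hinj s hs (u.h s x) q hq q' hq'
    rw [h2, h2', sub_self, norm_zero, mul_zero] at h3
    rw [h1, h1', sub_eq_zero.1 (norm_le_zero_iff.1 h3)]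
  choose! k hk' using hsurj
  have hk : ∀ s ∈ Icc 0 a, ∀ x, k s (u.h s x) = x := fun s hs x =>
    hinj' s hs _ _ (hk' s hs _)
  have hdevc : Continuous dev := hloc.continuous
  -- coordinates near a point
  have hco : ∀ x0, ∀ x ∈ u.c x0 '' ball 0 r, (u.g x0).symm (dev x - dev x0) ∈ ball (0 : E) r ∧
      u.c x0 ((u.g x0).symm (dev x - dev x0)) = x := by
    rintro x0 _ ⟨q, hq, rfl⟩
    rw [u.dev_c x0 q (in1 hq), add_sub_cancel_left, (u.g x0).symm_apply_apply]
    exact ⟨hq, rfl⟩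
  have hnh : ∀ x0, u.c x0 '' ball 0 r ∈ 𝓝 x0 := fun x0 =>
    (u.isOpen_image hloc x0).mem_nhds ⟨0, mem_ball_self hr, u.zero x0⟩
  have hZc : ∀ x0, ContinuousOn (fun q => (u.g x0).symm (Z (u.c x0 q))) (ball (0 : E) (4 * r)) := by
    intro x0
    have : LipschitzOnWith ⟨L, u.hL⟩ (fun q => (u.g x0).symm (Z (u.c x0 q)))
        (ball (0 : E) (4 * r)) := by
      refine LipschitzOnWith.of_dist_le_mul fun q hq q' hq' => ?_
      rw [dist_eq_norm, dist_eq_norm]
      exact u.lip x0 q hq q' hq'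
    exact this.continuousOn
  have hqc : ∀ x0, Continuous (fun x => (u.g x0).symm (dev x - dev x0)) := fun x0 =>
    (u.g x0).symm.continuous.comp (hdevc.sub continuous_const)
  refine ⟨a, ha, k, ?_, fun s hs x => (hh s hs x).dev_eq, hk, hk', ?_, ?_⟩
  · intro x
    unfold UCh.h
    rw [zero_smul, u.zero]
  · rintro ⟨s0, x0⟩ ⟨hs0, -⟩
    have h1 : ContinuousOn (fun z : ℝ × X => u.c x0 ((u.g x0).symm (dev z.2 - dev x0) +
        z.1 • (u.g x0).symm (Z (u.c x0 ((u.g x0).symm (dev z.2 - dev x0))))))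
        (Icc 0 a ×ˢ (u.c x0 '' ball 0 r)) := by
      refine (u.cont x0).comp ?_ ?_
      · refine ContinuousOn.add ((hqc x0).comp continuous_snd).continuousOn ?_
        refine ContinuousOn.smul continuous_fst.continuousOn ?_
        refine (hZc x0).comp ((hqc x0).comp continuous_snd).continuousOn ?_
        rintro ⟨s, x⟩ ⟨-, hx⟩
        exact in1 (hco x0 x hx).1
      · rintro ⟨s, x⟩ ⟨hs, hx⟩
        exact step s hs x0 _ ((ball_subset_ball (by linarith)) (hco x0 x hx).1)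
    have h2 : ContinuousOn (fun z : ℝ × X => u.h z.1 z.2) (Icc 0 a ×ˢ (u.c x0 '' ball 0 r)) := by
      refine h1.congr ?_
      rintro ⟨s, x⟩ ⟨hs, hx⟩
      obtain ⟨h3, h4⟩ := hco x0 x hx
      beta_reduce
      have h5 := hlocal s hs x0 _ (in1 h3) (step s hs x0 _ ((ball_subset_ball (by linarith)) h3))
      rw [h4] at h5 ⊢
      exact h5
    refine (h2 (s0, x0) ⟨hs0, mem_of_mem_nhds (hnh x0)⟩).mono_of_mem_nhdsWithin ?_
    rw [nhdsWithin_prod_eq]
    refine prod_mem_prod self_mem_nhdsWithin ?_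
    exact mem_nhdsWithin_of_mem_nhds (hnh x0)
  · rintro ⟨s0, y0⟩ ⟨hs0, -⟩
    -- solutions depend continuously on the data
    have hsol : ∀ s ∈ Icc 0 a, ∀ q ∈ ball (0 : E) r, ∃ q' ∈ ball (0 : E) (2 * r),
      q' + s • (u.g y0).symm (Z (u.c y0 q')) = q := fun s hs q hq => hsolve s hs y0 q hq
    choose! ψ hψ1 hψ2 using hsol
    have hψL : ∀ s ∈ Icc 0 a, ∀ q ∈ ball (0 : E) r, ∀ s' ∈ Icc 0 a, ∀ q' ∈ ball (0 : E) r,
        ‖ψ s q - ψ s' q'‖ ≤ 2 * (‖q - q'‖ + |s - s'| * M) := by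
      intro s hs q hq s' hs' q' hq'
      have h1 := hinj s hs y0 _ (in4 (hψ1 s hs q hq)) _ (in4 (hψ1 s' hs' q' hq'))
      rw [hψ2 s hs q hq] at h1
      have h2 : q - (ψ s' q' + s • (u.g y0).symm (Z (u.c y0 (ψ s' q')))) =
          (q - q') - (s - s') • (u.g y0).symm (Z (u.c y0 (ψ s' q'))) := by
        have h3 := hψ2 s' hs' q' hq'
        have h3' := eq_sub_of_add_eq h3
        generalize (u.g y0).symm (Z (u.c y0 (ψ s' q'))) = v at h3' ⊢
        rw [h3', sub_smul]
        abel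
      rw [h2] at h1
      refine h1.trans ?_
      have h4 : ‖(s - s') • (u.g y0).symm (Z (u.c y0 (ψ s' q')))‖ ≤ |s - s'| * M := by
        rw [norm_smul, Real.norm_eq_abs]
        exact mul_le_mul_of_nonneg_left (u.bd y0 _ (in4 (hψ1 s' hs' q' hq'))) (abs_nonneg _)
      have h5 := norm_sub_le (q - q') ((s - s') • (u.g y0).symm (Z (u.c y0 (ψ s' q'))))
      linarith
    have hψc : ContinuousOn (fun z : ℝ × E => ψ z.1 z.2) (Icc 0 a ×ˢ ball (0 : E) r) := by
      rintro ⟨s1, q1⟩ ⟨hs1, hq1⟩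
      rw [ContinuousWithinAt, tendsto_iff_norm_sub_tendsto_zero]
      have h1 : Tendsto (fun z : ℝ × E => 2 * (‖z.2 - q1‖ + |z.1 - s1| * M))
          (𝓝[Icc 0 a ×ˢ ball (0 : E) r] (s1, q1)) (𝓝 0) := by
        have h2 : Continuous (fun z : ℝ × E => 2 * (‖z.2 - q1‖ + |z.1 - s1| * M)) := by
          fun_prop
        have h3 := h2.tendsto (s1, q1)
        simp only [sub_self, norm_zero, abs_zero, zero_mul, add_zero, mul_zero] at h3
        exact h3.mono_left nhdsWithin_le_nhds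
      refine squeeze_zero' (Eventually.of_forall fun z => norm_nonneg _) ?_ h1
      filter_upwards [self_mem_nhdsWithin] with z hz
      exact hψL z.1 hz.1 z.2 hz.2 s1 hs1 q1 hq1
    have h1 : ContinuousOn (fun z : ℝ × X => u.c y0 (ψ z.1 ((u.g y0).symm (dev z.2 - dev y0))))
        (Icc 0 a ×ˢ (u.c y0 '' ball 0 r)) := by
      refine (u.cont y0).comp ?_ ?_
      · refine hψc.comp (f := fun z : ℝ × X => ((z.1, (u.g y0).symm (dev z.2 - dev y0)) : ℝ × E))
          ?_ ?_
        · exact (continuous_fst.prodMk ((hqc y0).comp continuous_snd)).continuousOn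
        · rintro ⟨s, y⟩ ⟨hs, hy⟩
          exact ⟨hs, (hco y0 y hy).1⟩
      · rintro ⟨s, y⟩ ⟨hs, hy⟩
        exact in4 (hψ1 s hs _ (hco y0 y hy).1)
    have h2 : ContinuousOn (fun z : ℝ × X => k z.1 z.2) (Icc 0 a ×ˢ (u.c y0 '' ball 0 r)) := by
      refine h1.congr ?_
      rintro ⟨s, y⟩ ⟨hs, hy⟩
      obtain ⟨h3, h4⟩ := hco y0 y hy
      beta_reduce
      apply hinj' s hs
      rw [hk' s hs]
      have h6 := hψ1 s hs _ h3
      have h5 := hlocal s hs y0 _ (in4 h6) (step s hs y0 _ h6)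
      rw [h5, hψ2 s hs _ h3, h4]
    refine (h2 (s0, y0) ⟨hs0, mem_of_mem_nhds (hnh y0)⟩).mono_of_mem_nhdsWithin ?_
    rw [nhdsWithin_prod_eq]
    refine prod_mem_prod self_mem_nhdsWithin ?_
    exact mem_nhdsWithin_of_mem_nhds (hnh y0)

/-- the product decomposition -/
theorem UCh.split [CompleteSpace E] [Nonempty X] (u : UCh dev Z r L M C)
    (hloc : IsLocalHomeomorph dev) (ξ : E →L[ℝ] ℝ) (hξ : ∀ x, ξ (Z x) = 1) :
    ∃ Φ : X ≃ₜ {x : X // ξ (dev x) = 0} × ℝ, ∀ x, (Φ x).2 = ξ (dev x) := by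
  obtain ⟨a, ha, k, h0, hd, hk, hk', hc, kc⟩ := u.push hloc
  refine exists_split (ξ := fun x => ξ (dev x)) (ξ.continuous.comp hloc.continuous) ha h0 ?_ hk hk'
    hc kc
  intro s hs x
  beta_reduce
  rw [hd s hs, map_add, map_smul, hξ, smul_eq_mul, mul_one]

end

end Run7.h675
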