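import Pool.Agent.W689.Mk.Bump
import Pool.Agent.Run7.h675.Push

/-!
On a closed affine manifold with developing map `dev` and holonomy `hol`, a covector `ξ` whose
orbit under the linear holonomy stays away from zero has a uniformly bounded and uniformly Lipschitz
vector field `Z` with `ξ (Z x) = 1`; hence `ξ ∘ dev` is the projection of a product.
-/

set_option autoImplicit false

open Set Filter Topology Metric
open Pool.Agent.W689.Mk
open scoped ENNReal

namespace Run7.h675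

section
variable {X Γ E : Type} [TopologicalSpace X] [T2Space X] [Group Γ] [MulAction Γ X]
  [NormedAddCommGroup E] [NormedSpace ℝ E] [FiniteDimensional ℝ E]
  {dev : X → E} {hol : Γ →* (E ≃ᵃ[ℝ] E)}

/-- linear part as a continuous linear equivalence -/
noncomputable def clin (hol : Γ →* (E ≃ᵃ[ℝ] E)) (γ : Γ) : E ≃L[ℝ] E :=
  (hol γ).linear.toContinuousLinearEquiv

theorem clin_apply (γ : Γ) (v : E) : clin hol γ v = lin hol γ v := rfl

theorem lin_one (v : E) : lin hol (1 : Γ) v = v := by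
  have h := lin_inv_apply (hol := hol) (1 : Γ) v
  rw [inv_one] at h
  have h2 := lin_mul (hol := hol) (1 : Γ) 1 v
  rw [mul_one] at h2
  rw [h2, h]

theorem clin_symm_apply (γ : Γ) (v : E) : (clin hol γ).symm v = lin hol γ⁻¹ v := by
  apply (clin hol γ).injective
  rw [ContinuousLinearEquiv.apply_symm_apply, clin_apply, ← lin_mul, mul_inv_cancel, lin_one]

theorem exists_cht_w {W : Type} [NormedAddCommGroup W] (hloc : IsLocalHomeomorph dev) {u : X → W}
    (hu : LL dev u) (x : X) :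
    ∃ (σ : E → X) (r L B : ℝ), 0 < r ∧ 0 ≤ L ∧ 0 ≤ B ∧ Sec dev (ball (dev x) (4 * r)) σ ∧
      σ (dev x) = x ∧ (∀ q ∈ ball (dev x) (4 * r), ∀ q' ∈ ball (dev x) (4 * r),
        ‖u (σ q) - u (σ q')‖ ≤ L * ‖q - q'‖) ∧ (∀ q ∈ ball (dev x) (4 * r), ‖u (σ q)‖ ≤ B) := by
  obtain ⟨e, r0, hx, he, hr0, hrt⟩ := exists_sec hloc x
  obtain ⟨U, hU, L, hL, H⟩ := hu x
  have hxe : e.symm (dev x) = x := by rw [he]; exact e.left_inv hx
  have hc : ContinuousAt e.symm (dev x) := by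
    apply e.continuousAt_symm
    rw [he]
    exact e.map_source hx
  have h1 : e.symm ⁻¹' U ∈ 𝓝 (dev x) := by
    apply hc
    rw [hxe]
    exact hU
  obtain ⟨r1, hr1, hr1U⟩ := Metric.mem_nhds_iff.1 h1
  set r := min r0 r1 / 4 with hrd
  have hr : 0 < r := by positivity
  have e4 : 4 * r = min r0 r1 := by rw [hrd]; ring
  have s0 : ball (dev x) (4 * r) ⊆ ball (dev x) r0 :=
    ball_subset_ball (by rw [e4]; exact min_le_left _ _)
  have s1 : ball (dev x) (4 * r) ⊆ ball (dev x) r1 :=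
    ball_subset_ball (by rw [e4]; exact min_le_right _ _)
  have hinv : ∀ q ∈ ball (dev x) (4 * r), dev (e.symm q) = q := by
    intro q hq
    rw [he]
    exact e.right_inv (hrt (s0 hq))
  refine ⟨e.symm, r, L, ‖u x‖ + L * (4 * r), hr, hL, by positivity,
    sec_of_target e he _ _ (s0.trans hrt), hxe, ?_, ?_⟩
  · intro q hq q' hq'
    have := H _ (hr1U (s1 hq)) _ (hr1U (s1 hq'))
    rwa [hinv q hq, hinv q' hq'] at this
  · intro q hq
    have := H _ (hr1U (s1 hq)) x (mem_of_mem_nhds hU)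
    rw [hinv q hq] at this
    have h2 : ‖q - dev x‖ ≤ 4 * r := by
      rw [mem_ball, dist_eq_norm] at hq
      exact hq.le
    calc ‖u (e.symm q)‖ = ‖u x + (u (e.symm q) - u x)‖ := by congr 1; abel
      _ ≤ ‖u x‖ + ‖u (e.symm q) - u x‖ := norm_add_le _ _
      _ ≤ ‖u x‖ + L * ‖q - dev x‖ := by gcongr
      _ ≤ ‖u x‖ + L * (4 * r) := by gcongr

/-- a smooth bump with compact support whose translates add up to one -/
theorem exists_bump (D : AffData X Γ E dev hol) :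
    ∃ R : X → ℝ, LL dev R ∧ (∀ x, 0 ≤ R x) ∧ (∀ x, ∑' γ : Γ, R (γ • x) = 1) ∧
      ∃ K : Set X, IsCompact K ∧ ∀ x, x ∉ K → R x = 0 := by
  obtain ⟨m, c, hc⟩ := exists_charts D (LL.const (dev := dev) (0 : E))
  obtain ⟨ρ, h1, h2, h3, h4, K, hK, h5⟩ := exists_pou D c hc
  refine ⟨fun x => ∑ i, ρ i x, LL.sum _ fun i _ => h1 i, fun x => Finset.sum_nonneg fun i _ => h2 i x,
    h4, K, hK, fun x hx => Finset.sum_eq_zero fun i _ => ?_⟩
  by_contra hne
  exact hx (h5 i x hne)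

theorem exists_field [Nonempty X] (D : AffData X Γ E dev hol) (ξ : E →L[ℝ] ℝ) (M0 : ℝ)
    (hξ : ∀ γ : Γ, ∃ v : E, ‖v‖ ≤ M0 ∧ ξ (lin hol γ v) = 1) :
    ∃ (Z : X → E) (r L M C : ℝ), (∀ x, ξ (Z x) = 1) ∧ Nonempty (UCh dev Z r L M C) := by
  classical
  obtain ⟨R, hRL, hR0, hR1, K0, hK0, hRK⟩ := exists_bump D
  choose N hN hNξ using hξ
  -- the bounded functions on the group
  have hPb : ∀ γ : Γ, Memℓp (fun δ : Γ => lin hol γ⁻¹ (N (δ * γ⁻¹))) ∞ := by
    intro γ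
    refine memℓp_infty ⟨‖(clin hol γ⁻¹ : E →L[ℝ] E)‖ * M0, ?_⟩
    rintro _ ⟨δ, rfl⟩
    exact ((clin hol γ⁻¹ : E →L[ℝ] E).le_opNorm _).trans
      (mul_le_mul_of_nonneg_left (hN _) (norm_nonneg _))
  let P : Γ → lp (fun _ : Γ => E) ∞ := fun γ => ⟨_, hPb γ⟩
  let u : X → lp (fun _ : Γ => E) ∞ := fun x => ∑' γ : Γ, R (γ • x) • P γ
  have hu : LL dev u := LL.tsum D hK0 hRL hRK P
  have hfin : ∀ x, ∃ F : Finset Γ, ∀ γ, γ ∉ F → R (γ • x) = 0 := by
    intro x
    obtain ⟨V, hV, F, hF⟩ := locfin D hK0 x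
    exact ⟨F, fun γ hγ => hRK _ fun h => hγ (hF x (mem_of_mem_nhds hV) γ h)⟩
  have hu_apply : ∀ x δ, (u x : ∀ _ : Γ, E) δ = ∑' γ : Γ, R (γ • x) • lin hol γ⁻¹ (N (δ * γ⁻¹)) := by
    intro x δ
    obtain ⟨F, hF⟩ := hfin x
    have e1 : u x = ∑ γ ∈ F, R (γ • x) • P γ := by
      refine tsum_eq_sum fun γ hγ => ?_
      rw [hF γ hγ, zero_smul]
    have e2 : ∑' γ : Γ, R (γ • x) • lin hol γ⁻¹ (N (δ * γ⁻¹)) =
        ∑ γ ∈ F, R (γ • x) • lin hol γ⁻¹ (N (δ * γ⁻¹)) := by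
      refine tsum_eq_sum fun γ hγ => ?_
      rw [hF γ hγ, zero_smul]
    rw [e1, e2, lp.coeFn_sum, Finset.sum_apply]
    rfl
  let Z : X → E := fun x => ∑' γ : Γ, R (γ • x) • lin hol γ⁻¹ (N γ⁻¹)
  have hZu : ∀ (δ : Γ) x, lin hol δ⁻¹ (Z (δ • x)) = (u x : ∀ _ : Γ, E) δ := by
    intro δ x
    rw [hu_apply]
    obtain ⟨F, hF⟩ := hfin (δ • x)
    have e1 : Z (δ • x) = ∑ γ ∈ F, R (γ • δ • x) • lin hol γ⁻¹ (N γ⁻¹) := by
      refine tsum_eq_sum fun γ hγ => ?_
      rw [hF γ hγ, zero_smul]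
    have e2 : ∑' γ : Γ, R (γ • x) • lin hol γ⁻¹ (N (δ * γ⁻¹)) =
        ∑' γ : Γ, R (γ • δ • x) • lin hol δ⁻¹ (lin hol γ⁻¹ (N γ⁻¹)) := by
      rw [← Equiv.tsum_eq (Equiv.mulRight δ) (fun γ : Γ => R (γ • x) • lin hol γ⁻¹ (N (δ * γ⁻¹)))]
      refine tsum_congr fun γ => ?_
      rw [Equiv.coe_mulRight, mul_smul, mul_inv_rev, lin_mul, mul_inv_cancel_left]
    have e3 : ∑' γ : Γ, R (γ • δ • x) • lin hol δ⁻¹ (lin hol γ⁻¹ (N γ⁻¹)) =
        ∑ γ ∈ F, R (γ • δ • x) • lin hol δ⁻¹ (lin hol γ⁻¹ (N γ⁻¹)) := by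
      refine tsum_eq_sum fun γ hγ => ?_
      rw [hF γ hγ, zero_smul]
    rw [e2, e3, e1]
    show (hol δ⁻¹).linear (∑ γ ∈ F, R (γ • δ • x) • lin hol γ⁻¹ (N γ⁻¹)) = _
    rw [map_sum]
    exact Finset.sum_congr rfl fun γ _ => (hol δ⁻¹).linear.map_smul _ _
  have hξZ : ∀ x, ξ (Z x) = 1 := by
    intro x
    obtain ⟨F, hF⟩ := hfin x
    have e1 : Z x = ∑ γ ∈ F, R (γ • x) • lin hol γ⁻¹ (N γ⁻¹) := by
      refine tsum_eq_sum fun γ hγ => ?_
      rw [hF γ hγ, zero_smul]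
    have e2 : ∑' γ : Γ, R (γ • x) = ∑ γ ∈ F, R (γ • x) :=
      tsum_eq_sum fun γ hγ => hF γ hγ
    rw [e1, map_sum, ← hR1 x, e2]
    refine Finset.sum_congr rfl fun γ _ => ?_
    rw [map_smul, hNξ, smul_eq_mul, mul_one]
  -- charts
  choose σ rr LL' BB hrr hLL' hBB hsec hσ hlip hbd using fun x => exists_cht_w D.loc hu x
  obtain ⟨K, hK, hKc⟩ := D.cc
  have hNh : ∀ x ∈ K, σ x '' ball (dev x) (rr x) ∈ 𝓝 x := by
    intro x _
    have ho := (hsec x).isOpen_image D.loc (V := ball (dev x) (rr x)) isOpen_ball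
      (ball_subset_ball (by linarith [hrr x]))
    exact ho.mem_nhds ⟨dev x, mem_ball_self (hrr x), hσ x⟩
  obtain ⟨T, hTK, hT⟩ := hK.elim_nhds_subcover _ hNh
  have hTne : T.Nonempty := by
    obtain ⟨x0⟩ := ‹Nonempty X›
    obtain ⟨γ, k, hk, -⟩ := hKc x0
    obtain ⟨y, hy, -⟩ := mem_iUnion₂.1 (hT hk)
    exact ⟨y, hy⟩
  obtain ⟨r, hr, hrT⟩ : ∃ r : ℝ, 0 < r ∧ ∀ y ∈ T, 2 * r ≤ rr y := by
    obtain ⟨y, hy, hmin⟩ := T.exists_min_image rr hTne
    exact ⟨rr y / 2, by linarith [hrr y], fun z hz => by linarith [hmin z hz]⟩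
  have hsel : ∀ x, ∃ (γ : Γ) (y : X) (q : E), y ∈ T ∧ q ∈ ball (dev y) (rr y) ∧ x = γ • σ y q := by
    intro x
    obtain ⟨γ, k, hk, rfl⟩ := hKc x
    obtain ⟨y, hy, q, hq, hqk⟩ := mem_iUnion₂.1 (hT hk)
    exact ⟨γ, y, q, hy, hq, by rw [hqk]⟩
  choose γ y q hy hq hx using hsel
  have inb : ∀ x, ∀ p ∈ ball (0 : E) (4 * r), q x + p ∈ ball (dev (y x)) (4 * rr (y x)) := by
    intro x p hp
    have h1 := hq x
    rw [mem_ball, dist_eq_norm] at h1 ⊢
    rw [mem_ball, dist_zero_right] at hp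
    have h2 := hrT _ (hy x)
    have h3 : q x + p - dev (y x) = (q x - dev (y x)) + p := by abel
    rw [h3]
    have := norm_add_le (q x - dev (y x)) p
    linarith [hrr (y x)]
  have inb2 : ∀ x, ∀ p ∈ ball (0 : E) r, q x + p ∈ closedBall (dev (y x)) (2 * rr (y x)) := by
    intro x p hp
    have h1 := hq x
    rw [mem_ball, dist_eq_norm] at h1
    rw [mem_closedBall, dist_eq_norm]
    rw [mem_ball, dist_zero_right] at hp
    have h2 := hrT _ (hy x)
    have h3 : q x + p - dev (y x) = (q x - dev (y x)) + p := by abel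
    rw [h3]
    have := norm_add_le (q x - dev (y x)) p
    linarith [hrr (y x)]
  -- the compact set and the finite set of group elements
  let K' : Set X := ⋃ z ∈ T, σ z '' closedBall (dev z) (2 * rr z)
  have hK' : IsCompact K' := by
    refine T.isCompact_biUnion fun z _ => (isCompact_closedBall _ _).image_of_continuousOn ?_
    exact (hsec z).cont.mono (closedBall_subset_ball (by linarith [hrr z]))
  have hF := D.pd K' hK'
  refine ⟨Z, r, ∑ z ∈ T, LL' z, ∑ z ∈ T, BB z, ∑ δ ∈ hF.toFinset, ‖(clin hol δ : E →L[ℝ] E)‖, hξZ, ⟨?_⟩⟩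
  refine
    { g := fun x => clin hol (γ x)
      c := fun x p => γ x • σ (y x) (q x + p)
      hr := hr
      hL := Finset.sum_nonneg fun z _ => hLL' z
      hM := Finset.sum_nonneg fun z _ => hBB z
      hC := Finset.sum_nonneg fun z _ => norm_nonneg _
      cont := ?_
      zero := ?_
      dev_c := ?_
      lip := ?_
      bd := ?_
      comp := ?_ }
  · intro x
    refine (D.cont (γ x)).comp_continuousOn ((hsec (y x)).cont.comp ?_ (inb x))
    exact (continuous_const.add continuous_id).continuousOn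
  · intro x
    rw [add_zero]
    exact (hx x).symm
  · intro x p hp
    have h1 := (hsec (y x)).inv _ (inb x p hp)
    have h2 : dev x = hol (γ x) (q x) := by
      have h3 := (hsec (y x)).inv (q x) (by
        have := inb x 0 (mem_ball_self (by linarith))
        rwa [add_zero] at this)
      conv_lhs => rw [hx x, D.equi, h3]
    rw [D.equi, h1, hol_add, h2]
    rfl
  · intro x p hp p' hp'
    rw [clin_symm_apply, clin_symm_apply, hZu, hZu]
    have h1 := hlip (y x) _ (inb x p hp) _ (inb x p' hp')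
    have h2 := lp.norm_apply_le_norm (p := ∞) (by simp)
      (u (σ (y x) (q x + p)) - u (σ (y x) (q x + p'))) (γ x)
    rw [lp.coeFn_sub, Pi.sub_apply] at h2
    refine h2.trans (h1.trans ?_)
    rw [add_sub_add_left_eq_sub]
    exact mul_le_mul_of_nonneg_right
      (Finset.single_le_sum (f := LL') (fun z _ => hLL' z) (hy x)) (norm_nonneg _)
  · intro x p hp
    rw [clin_symm_apply, hZu]
    have h1 := hbd (y x) _ (inb x p hp)
    have h2 := lp.norm_apply_le_norm (p := ∞) (by simp) (u (σ (y x) (q x + p))) (γ x)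
    exact h2.trans (h1.trans (Finset.single_le_sum (f := BB) (fun z _ => hBB z) (hy x)))
  · intro x p hp v
    set x' := γ x • σ (y x) (q x + p) with hx'
    rw [clin_symm_apply, clin_apply, ← lin_mul]
    have h1 : (γ x')⁻¹ * γ x ∈ hF.toFinset := by
      rw [Set.Finite.mem_toFinset]
      refine ⟨σ (y x) (q x + p), mem_iUnion₂.2 ⟨y x, hy x, _, inb2 x p hp, rfl⟩, ?_⟩
      have h2 : ((γ x')⁻¹ * γ x) • σ (y x) (q x + p) = σ (y x') (q x') := by
        rw [mul_smul, ← hx', inv_smul_eq_iff]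
        exact hx x'
      rw [h2]
      refine mem_iUnion₂.2 ⟨y x', hy x', _, ?_, rfl⟩
      exact closedBall_subset_closedBall (by linarith [hrr (y x')])
        (ball_subset_closedBall (hq x'))
    have h2 : ‖(clin hol ((γ x')⁻¹ * γ x) : E →L[ℝ] E)‖ ≤
        ∑ δ ∈ hF.toFinset, ‖(clin hol δ : E →L[ℝ] E)‖ :=
      Finset.single_le_sum (f := fun δ => ‖(clin hol δ : E →L[ℝ] E)‖)
        (fun δ _ => norm_nonneg _) h1
    exact ((clin hol ((γ x')⁻¹ * γ x) : E →L[ℝ] E).le_opNorm v).trans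
      (mul_le_mul_of_nonneg_right h2 (norm_nonneg _))

/-- a covector whose orbit under the linear holonomy stays away from zero is the projection of a
product -/
theorem exists_product [Nonempty X] (D : AffData X Γ E dev hol) (ξ : E →L[ℝ] ℝ) (M0 : ℝ)
    (hξ : ∀ γ : Γ, ∃ v : E, ‖v‖ ≤ M0 ∧ ξ (lin hol γ v) = 1) :
    ∃ Φ : X ≃ₜ {x : X // ξ (dev x) = 0} × ℝ, ∀ x, (Φ x).2 = ξ (dev x) := by
  obtain ⟨Z, r, L, M, C, hZ, ⟨u⟩⟩ := exists_field D ξ M0 hξ
  haveI : CompleteSpace E := FiniteDimensional.complete ℝ E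
  exact u.split D.loc ξ hZ

end

end Run7.h675
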