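import Pool.Agent.Run7.h675.Dev
import Pool.Agent.Run7.h675.Field

/-!
The deck group of the universal covering of a closed manifold with an integral affine atlas, its
developing map and holonomy.
-/

set_option autoImplicit false

open Set Filter Topology
open Pool.Agent.W689.Mk

namespace Run7.h675

section
variable {X B : Type} [TopologicalSpace X] [TopologicalSpace B]

/-- the group of deck transformations -/
def Deck (p : X → B) : Subgroup (X ≃ₜ X) where
  carrier := {φ | ∀ x, p (φ x) = p x}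
  one_mem' := fun x => rfl
  mul_mem' := fun {a b} ha hb x => (ha (b x)).trans (hb x)
  inv_mem' := fun {a} ha x => by
    have h1 := ha (a⁻¹ x)
    have h2 : a (a⁻¹ x) = x := a.apply_symm_apply x
    rw [h2] at h1
    exact h1.symm

instance (p : X → B) : MulAction (Deck p) X where
  smul φ x := φ.1 x
  one_smul _ := rfl
  mul_smul _ _ _ := rfl

theorem deck_smul {p : X → B} (φ : Deck p) (x : X) : φ • x = φ.1 x := rfl

theorem deck_p {p : X → B} (φ : Deck p) (x : X) : p (φ • x) = p x := φ.2 x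

theorem exists_deck [SimplyConnectedSpace X] [LocallyPathConnectedSpace X] {p : X → B}
    (cov : IsCoveringMap p) {x y : X} (h : p x = p y) : ∃ φ : Deck p, φ • x = y := by
  obtain ⟨F, ⟨hF1, hF2⟩, -⟩ :=
    cov.existsUnique_continuousMap_lifts (⟨p, cov.continuous⟩ : C(X, B)) x y h.symm
  obtain ⟨G, ⟨hG1, hG2⟩, -⟩ :=
    cov.existsUnique_continuousMap_lifts (⟨p, cov.continuous⟩ : C(X, B)) y x h
  have hF2' : ∀ z, p (F z) = p z := fun z => congrFun hF2 z
  have hG2' : ∀ z, p (G z) = p z := fun z => congrFun hG2 z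
  have e1 : (fun z => G (F z)) = id := by
    refine cov.eq_of_comp_eq (G.continuous.comp F.continuous) continuous_id ?_ x ?_
    · funext z
      exact (hG2' (F z)).trans (hF2' z)
    · beta_reduce
      rw [hF1, hG1]
      rfl
  have e2 : (fun z => F (G z)) = id := by
    refine cov.eq_of_comp_eq (F.continuous.comp G.continuous) continuous_id ?_ y ?_
    · funext z
      exact (hF2' (G z)).trans (hG2' z)
    · beta_reduce
      rw [hG1, hF1]
      rfl
  refine ⟨⟨⟨⟨F, G, fun z => congrFun e1 z, fun z => congrFun e2 z⟩, F.continuous, G.continuous⟩,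
    hF2'⟩, hF1⟩

theorem deck_quotient [SimplyConnectedSpace X] [LocallyPathConnectedSpace X] {p : X → B}
    (cov : IsCoveringMap p) (hs : Function.Surjective p) : IsQuotientCoveringMap p (Deck p) := by
  rw [isQuotientCoveringMap_iff_isCoveringMap_and]
  refine ⟨cov, hs, ⟨fun φ => φ.1.continuous⟩, ?_, ?_⟩
  · rw [isCancelSMul_iff_eq_one_of_smul_eq]
    intro φ x hx
    have h1 : (fun z : X => φ • z) = id := by
      refine cov.eq_of_comp_eq φ.1.continuous continuous_id ?_ x hx
      funext z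
      exact deck_p φ z
    apply Subtype.ext
    apply Homeomorph.ext
    intro z
    exact congrFun h1 z
  · intro x y
    constructor
    · intro h
      obtain ⟨φ, hφ⟩ := exists_deck cov h.symm
      exact ⟨φ, hφ⟩
    · rintro ⟨φ, rfl⟩
      exact deck_p φ y

theorem pd_of_quot {Γ : Type} [Group Γ] [MulAction Γ X] [T2Space B] {p : X → B}
    (hq : IsQuotientCoveringMap p Γ) {K : Set X} (hK : IsCompact K) :
    {γ : Γ | ∃ x ∈ K, γ • x ∈ K}.Finite := by
  have hc := hq.toContinuousConstSMul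
  have h1 : {γ : Γ | ∃ z ∈ K ×ˢ K, γ • z.1 = z.2}.Finite := by
    refine (hK.prod hK).induction_on (p := fun S => {γ : Γ | ∃ z ∈ S, γ • z.1 = z.2}.Finite)
      ?_ ?_ ?_ ?_
    · refine Set.finite_empty.subset ?_
      rintro γ ⟨z, hz, -⟩
      exact hz.elim
    · intro s t hst ht
      refine ht.subset ?_
      rintro γ ⟨z, hz, h⟩
      exact ⟨z, hst hz, h⟩
    · intro s t hs ht
      refine (hs.union ht).subset ?_
      rintro γ ⟨z, hz, h⟩
      rcases hz with hz | hz
      · exact Or.inl ⟨z, hz, h⟩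
      · exact Or.inr ⟨z, hz, h⟩
    · rintro ⟨x, y⟩ -
      by_cases hxy : p x = p y
      · obtain ⟨γ0, rfl⟩ := hq.apply_eq_iff_mem_orbit.1 hxy.symm
        obtain ⟨U, hU, hUd⟩ := hq.disjoint x
        refine ⟨U ×ˢ ((fun z => γ0⁻¹ • z) ⁻¹' U), mem_nhdsWithin_of_mem_nhds ?_, ?_⟩
        · refine prod_mem_nhds hU ((continuous_const_smul γ0⁻¹).continuousAt ?_)
          show U ∈ 𝓝 (γ0⁻¹ • γ0 • x)
          rw [inv_smul_smul]
          exact hU
        · refine (Set.finite_singleton γ0).subset ?_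
          rintro γ ⟨z, ⟨hz1, hz2⟩, h⟩
          have h2 : γ0⁻¹ * γ = 1 := by
            refine hUd _ ⟨(γ0⁻¹ * γ) • z.1, ⟨z.1, hz1, rfl⟩, ?_⟩
            rw [mul_smul, h]
            exact hz2
          rw [mem_singleton_iff]
          exact (inv_mul_eq_one.1 h2).symm
      · obtain ⟨U, V, hU, hV, hxU, hyV, hd⟩ := t2_separation hxy
        refine ⟨(p ⁻¹' U) ×ˢ (p ⁻¹' V), mem_nhdsWithin_of_mem_nhds ?_, ?_⟩
        · exact prod_mem_nhds (hq.continuous.continuousAt (hU.mem_nhds hxU))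
            (hq.continuous.continuousAt (hV.mem_nhds hyV))
        · refine Set.finite_empty.subset ?_
          rintro γ ⟨z, ⟨hz1, hz2⟩, h⟩
          have h2 : p z.2 = p z.1 := by rw [← h, hq.map_smul]
          have hz1' : p z.1 ∈ U := hz1
          have hz2' : p z.2 ∈ V := hz2
          rw [h2] at hz2'
          exact (disjoint_left.1 hd hz1' hz2').elim
  refine h1.subset ?_
  rintro γ ⟨x, hx, hγ⟩
  exact ⟨(x, γ • x), ⟨hx, hγ⟩, rfl⟩

theorem cc_of_quot {Γ : Type} [Group Γ] [MulAction Γ X] [CompactSpace B] [LocallyCompactSpace X]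
    {p : X → B} (hq : IsQuotientCoveringMap p Γ) :
    ∃ K : Set X, IsCompact K ∧ ∀ x : X, ∃ γ : Γ, ∃ k ∈ K, γ • k = x := by
  have hN : ∀ x : X, ∃ N : Set X, IsCompact N ∧ N ∈ 𝓝 x := fun x => exists_compact_mem_nhds x
  choose N hNc hN using hN
  choose s hs using hq.surjective
  have hcov : ∀ b : B, p '' N (s b) ∈ 𝓝 b := by
    intro b
    have := hq.isOpenQuotientMap.isOpenMap.image_mem_nhds (hN (s b))
    rwa [hs] at this
  obtain ⟨T, -, hT⟩ := (isCompact_univ (X := B)).elim_nhds_subcover _ (fun b _ => hcov b)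
  refine ⟨⋃ b ∈ T, N (s b), T.isCompact_biUnion fun b _ => hNc _, fun x => ?_⟩
  obtain ⟨b, hb, k, hk, hkx⟩ := mem_iUnion₂.1 (hT (mem_univ (p x)))
  obtain ⟨γ, hγ⟩ := hq.apply_eq_iff_mem_orbit.1 hkx.symm
  exact ⟨γ, k, mem_iUnion₂.2 ⟨b, hb, hk⟩, hγ⟩

theorem isLocalHomeo_of_local {Y : Type} [TopologicalSpace Y] (f : X → Y)
    (h : ∀ x, ∃ e : OpenPartialHomeomorph X Y, x ∈ e.source ∧ ∀ᶠ y in 𝓝 x, f y = e y) :
    IsLocalHomeomorph f := by
  refine IsLocalHomeomorph.mk f fun x => ?_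
  obtain ⟨e, hx, he⟩ := h x
  obtain ⟨U, hU, hUo, hxU⟩ := eventually_nhds_iff.1 he
  refine ⟨e.restrOpen U hUo, ⟨hx, hxU⟩, ?_⟩
  intro y hy
  exact hU y hy.2

theorem t2_of_cover [T2Space B] {p : X → B} (cov : IsCoveringMap p) : T2Space X := by
  refine ⟨fun x y hxy => ?_⟩
  by_cases h : p x = p y
  · exact cov.isSeparatedMap x y h hxy
  · obtain ⟨U, V, hU, hV, hxU, hyV, hd⟩ := t2_separation h
    exact ⟨p ⁻¹' U, p ⁻¹' V, hU.preimage cov.continuous, hV.preimage cov.continuous, hxU, hyV,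
      hd.preimage p⟩

end

section
variable {n : ℕ} {X B : Type} [TopologicalSpace X] [TopologicalSpace B] (𝒜 : IntAtlas n B)

/-- charts of a space which is locally homeomorphic to `B` -/
@[reducible] noncomputable def IntAtlas.chartedX {p : X → B} (hp : IsLocalHomeomorph p) :
    ChartedSpace (Eu n) X where
  atlas := univ
  chartAt := fun x => (hp x).choose.trans (𝒜.cover (p x)).choose
  mem_chart_source := fun x => by
    have h1 := (hp x).choose_spec
    have h2 := (𝒜.cover (p x)).choose_spec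
    rw [OpenPartialHomeomorph.trans_source]
    refine ⟨h1.1, ?_⟩
    have h3 : (hp x).choose x = p x := (congrFun h1.2 x).symm
    show (hp x).choose x ∈ (𝒜.cover (p x)).choose.source
    rw [h3]
    exact h2.2
  chart_mem_atlas := fun _ => trivial

include 𝒜 in
theorem IntAtlas.lpc {p : X → B} (hp : IsLocalHomeomorph p) : LocallyPathConnectedSpace X := by
  letI := 𝒜.chartedX hp
  exact ChartedSpace.locallyPathConnectedSpace (Eu n) X

include 𝒜 in
theorem IntAtlas.lc {p : X → B} (hp : IsLocalHomeomorph p) : LocallyCompactSpace X := by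
  letI := 𝒜.chartedX hp
  exact ChartedSpace.locallyCompactSpace (Eu n) X

theorem rigid [PreconnectedSpace X] [Nonempty X] {dev f : X → Eu n}
    (hdev : ∀ x, map dev (𝓝 x) = 𝓝 (dev x))
    (h : ∀ x, ∃ a : Eu n ≃ᵃ[ℝ] Eu n, IntAff a ∧ ∀ᶠ y in 𝓝 x, f y = a (dev y)) :
    ∃ a : Eu n ≃ᵃ[ℝ] Eu n, IntAff a ∧ ∀ x, f x = a (dev x) := by
  choose a ha hae using h
  have h1 : IsLocallyConstant a := by
    rw [IsLocallyConstant.iff_eventually_eq]
    intro x
    filter_upwards [(hae x).eventually_nhds] with y hy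
    refine germ_unique (hdev y) ?_
    filter_upwards [hy, hae y] with z hz hz'
    rw [← hz, ← hz']
  obtain ⟨x0⟩ := ‹Nonempty X›
  refine ⟨a x0, ha x0, fun x => ?_⟩
  rw [h1.apply_eq_of_preconnectedSpace x0 x]
  exact (hae x).self_of_nhds

theorem intAff_det {a : Eu n ≃ᵃ[ℝ] Eu n} (ha : IntAff a) :
    |LinearMap.det (a.linear : Eu n →ₗ[ℝ] Eu n)| = 1 := by
  classical
  have key : ∀ a : Eu n ≃ᵃ[ℝ] Eu n, IntAff a →
      ∃ m : ℤ, LinearMap.det (a.linear : Eu n →ₗ[ℝ] Eu n) = m := by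
    intro a ha
    let b := (EuclideanSpace.basisFun (Fin n) ℝ).toBasis
    have h1 : ∀ j, IsInt (a.linear (b j)) := by
      intro j
      rw [ha]
      intro i
      by_cases hij : i = j
      · refine ⟨1, ?_⟩
        simp [b, hij]
      · refine ⟨0, ?_⟩
        simp [b, hij]
    choose M hM using h1
    refine ⟨Matrix.det (Matrix.of fun i j => M j i), ?_⟩
    rw [← LinearMap.det_toMatrix b]
    have h2 : LinearMap.toMatrix b b (a.linear : Eu n →ₗ[ℝ] Eu n) =
        (Matrix.of fun i j => M j i).map (Int.castRingHom ℝ) := by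
      ext i j
      rw [LinearMap.toMatrix_apply]
      simp only [Matrix.map_apply, Matrix.of_apply]
      have := hM j i
      simpa [b] using this
    rw [h2]
    have h3 := (Int.castRingHom ℝ).map_det (Matrix.of fun i j => M j i)
    exact h3.symm
  obtain ⟨m, hm⟩ := key a ha
  obtain ⟨m', hm'⟩ := key a⁻¹ ((intAffGroup n).inv_mem ha)
  have h1 : LinearMap.det (a.linear : Eu n →ₗ[ℝ] Eu n) *
      LinearMap.det ((a⁻¹).linear : Eu n →ₗ[ℝ] Eu n) = 1 := by
    rw [← LinearMap.det_comp]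
    have : (a.linear : Eu n →ₗ[ℝ] Eu n) ∘ₗ ((a⁻¹).linear : Eu n →ₗ[ℝ] Eu n) = LinearMap.id := by
      ext v : 1
      exact a.linear.apply_symm_apply v
    rw [this, LinearMap.det_id]
  rw [hm, hm'] at h1
  have h2 : m * m' = 1 := by exact_mod_cast h1
  have h3 : IsUnit m := IsUnit.of_mul_eq_one _ h2
  rw [hm]
  rcases Int.isUnit_iff.1 h3 with h4 | h4 <;> rw [h4] <;> simp

theorem IntAtlas.exists_affData [T2Space B] [CompactSpace B] [SimplyConnectedSpace X] {p : X → B}
    (cov : IsCoveringMap p) (hs : Function.Surjective p) :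
    ∃ (dev : X → Eu n) (hol : Deck p →* (Eu n ≃ᵃ[ℝ] Eu n)),
      AffData X (Deck p) (Eu n) dev hol ∧ (∀ φ, IntAff (hol φ)) ∧
      ∀ x, ∃ e ∈ 𝒜.charts, p x ∈ e.source ∧
        ∃ a : Eu n ≃ᵃ[ℝ] Eu n, IntAff a ∧ ∀ᶠ y in 𝓝 x, dev y = a (e (p y)) := by
  have := 𝒜.lpc cov.isLocalHomeomorph
  have := 𝒜.lc cov.isLocalHomeomorph
  obtain ⟨dev, hdev⟩ := 𝒜.exists_dev cov.continuous
  have hq := deck_quotient cov hs
  have hloc : IsLocalHomeomorph dev := by
    refine isLocalHomeo_of_local dev fun x => ?_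
    obtain ⟨e, he, hx, a, ha, hae⟩ := hdev x
    obtain ⟨e', hxe', hpe'⟩ := cov.isLocalHomeomorph x
    let A : Eu n ≃ₜ Eu n :=
      { toEquiv := a.toEquiv
        continuous_toFun := a.toAffineMap.continuous_of_finiteDimensional
        continuous_invFun := a.symm.toAffineMap.continuous_of_finiteDimensional }
    refine ⟨(e'.trans e).trans A.toOpenPartialHomeomorph, ?_, ?_⟩
    · rw [OpenPartialHomeomorph.trans_source, OpenPartialHomeomorph.trans_source]
      refine ⟨⟨hxe', ?_⟩, trivial⟩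
      show e' x ∈ e.source
      rw [← hpe']
      exact hx
    · filter_upwards [hae] with y hy
      rw [hy, hpe']
      rfl
  have hφ : ∀ φ : Deck p, ∃ a : Eu n ≃ᵃ[ℝ] Eu n, IntAff a ∧ ∀ x, dev (φ • x) = a (dev x) := by
    intro φ
    refine rigid (fun x => hloc.map_nhds_eq x) fun x => ?_
    obtain ⟨e, he, hx, a, ha, hae⟩ := hdev x
    obtain ⟨e', he', hx', a', ha', hae'⟩ := hdev (φ • x)
    have hx6 : p (φ • x) = p x := deck_p φ x
    rw [hx6] at hx'
    obtain ⟨c, hc, hce⟩ := 𝒜.compat e he e' he' (p x) hx hx'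
    refine ⟨a' * c * a⁻¹, (intAffGroup n).mul_mem ((intAffGroup n).mul_mem ha' hc)
      ((intAffGroup n).inv_mem ha), ?_⟩
    have h1 : ∀ᶠ y in 𝓝 x, dev (φ • y) = a' (e' (p (φ • y))) :=
      φ.1.continuous.continuousAt.eventually hae'
    have h2 : ∀ᶠ y in 𝓝 x, e' (p y) = c (e (p y)) :=
      cov.continuous.continuousAt.eventually hce
    filter_upwards [hae, h1, h2] with y h3 h4 h5
    have h6 : p (φ • y) = p y := deck_p φ y
    rw [h4, h6, h5, h3]
    show _ = a' (c (a.symm (a (e (p y)))))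
    rw [a.symm_apply_apply]
  choose H hH hHe using hφ
  obtain ⟨x0⟩ : Nonempty X := inferInstance
  have hmul : ∀ φ ψ : Deck p, H (φ * ψ) = H φ * H ψ := by
    intro φ ψ
    refine germ_unique (hloc.map_nhds_eq x0) (Eventually.of_forall fun y => ?_)
    rw [← hHe, mul_smul, hHe, hHe]
    rfl
  refine ⟨dev, MonoidHom.mk' H hmul, ⟨hloc, fun φ => φ.1.continuous, hHe,
    fun φ => intAff_det (hH φ), fun K hK => pd_of_quot hq hK, cc_of_quot hq⟩, hH, hdev⟩

end

end Run7.h675
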