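import Mathlib

/-!
The developing map of a space with an integral affine atlas, on a simply connected covering space.
-/

set_option autoImplicit false

open Set Filter Topology Bundle

namespace Run7.h675

/-- Euclidean space -/
abbrev Eu (n : ℕ) : Type := EuclideanSpace ℝ (Fin n)

/-- all coordinates are integers -/
def IsInt {n : ℕ} (v : Eu n) : Prop := ∀ i, ∃ m : ℤ, v i = m

/-- affine automorphisms of `ℝⁿ` whose linear part preserves the lattice `ℤⁿ`, in other words the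
elements of `GL(n, ℤ) ⋉ ℝⁿ` -/
def IntAff {n : ℕ} (a : Eu n ≃ᵃ[ℝ] Eu n) : Prop := ∀ v : Eu n, IsInt (a.linear v) ↔ IsInt v

/-- An integral affine atlas on `B`: charts with values in `ℝⁿ` covering `B`, whose changes of
coordinates are locally elements of `GL(n, ℤ) ⋉ ℝⁿ`. -/
structure IntAtlas (n : ℕ) (B : Type) [TopologicalSpace B] where
  charts : Set (OpenPartialHomeomorph B (Eu n))
  cover : ∀ b, ∃ e ∈ charts, b ∈ e.source
  compat : ∀ e ∈ charts, ∀ e' ∈ charts, ∀ b, b ∈ e.source → b ∈ e'.source →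
    ∃ a : Eu n ≃ᵃ[ℝ] Eu n, IntAff a ∧ ∀ᶠ y in 𝓝 b, e' y = a (e y)

/-- the group `GL(n, ℤ) ⋉ ℝⁿ` -/
def intAffGroup (n : ℕ) : Subgroup (Eu n ≃ᵃ[ℝ] Eu n) where
  carrier := {a | IntAff a}
  one_mem' := fun v => Iff.rfl
  mul_mem' := by
    intro a b ha hb v
    exact (ha (b.linear v)).trans (hb v)
  inv_mem' := by
    intro a ha v
    have h1 := ha ((a⁻¹).linear v)
    have h2 : a.linear ((a⁻¹).linear v) = v := a.linear.apply_symm_apply v
    rw [h2] at h1
    exact h1.symm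

theorem aff_unique {n : ℕ} {a a' : Eu n ≃ᵃ[ℝ] Eu n} {U : Set (Eu n)} (hU : IsOpen U)
    (hne : U.Nonempty) (h : ∀ p ∈ U, a p = a' p) : a = a' :=
  AffineEquiv.ext_on (hU.affineSpan_eq_top hne) a a' h

/-- two affine maps which agree along a local homeomorphism near a point are equal -/
theorem germ_unique {n : ℕ} {Y : Type} [TopologicalSpace Y] {f : Y → Eu n} {y : Y}
    (hf : map f (𝓝 y) = 𝓝 (f y)) {a a' : Eu n ≃ᵃ[ℝ] Eu n}
    (h : ∀ᶠ z in 𝓝 y, a (f z) = a' (f z)) : a = a' := by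
  have h1 : ∀ᶠ p in 𝓝 (f y), a p = a' p := by
    rw [← hf]
    exact h
  obtain ⟨U, hU, hUo, hy⟩ := eventually_nhds_iff.1 h1
  exact aff_unique hUo ⟨_, hy⟩ hU

theorem chart_map_nhds {n : ℕ} {B : Type} [TopologicalSpace B] (e : OpenPartialHomeomorph B (Eu n))
    {b : B} (hb : b ∈ e.source) : map e (𝓝 b) = 𝓝 (e b) := e.map_nhds_eq hb

/-- the group of integral affine maps as a discrete space -/
def DG (n : ℕ) : Type := intAffGroup n

noncomputable instance (n : ℕ) : Group (DG n) := inferInstanceAs (Group (intAffGroup n))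
instance (n : ℕ) : TopologicalSpace (DG n) := ⊥
instance (n : ℕ) : DiscreteTopology (DG n) := ⟨rfl⟩

/-- the underlying affine map -/
def DG.val {n : ℕ} (g : DG n) : Eu n ≃ᵃ[ℝ] Eu n := (g : intAffGroup n).1

/-- the element of the group given by an affine map -/
def DG.of {n : ℕ} (a : Eu n ≃ᵃ[ℝ] Eu n) (h : IntAff a) : DG n := (⟨a, h⟩ : intAffGroup n)

theorem DG.val_of {n : ℕ} (a : Eu n ≃ᵃ[ℝ] Eu n) (h : IntAff a) : (DG.of a h).val = a := rfl

theorem DG.prop {n : ℕ} (g : DG n) : IntAff g.val := (g : intAffGroup n).2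

theorem DG.val_mul {n : ℕ} (g h : DG n) : (g * h).val = g.val * h.val := rfl

theorem DG.val_one {n : ℕ} : (1 : DG n).val = 1 := rfl

theorem DG.ext {n : ℕ} {g h : DG n} (e : g.val = h.val) : g = h := Subtype.ext e

section
variable {n : ℕ} {B : Type} [TopologicalSpace B] (𝒜 : IntAtlas n B)

open Classical in
/-- the change of coordinates near `b` -/
noncomputable def IntAtlas.tr (i j : 𝒜.charts) (b : B) : DG n :=
  if h : b ∈ i.1.source ∧ b ∈ j.1.source then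
    DG.of (𝒜.compat i.1 i.2 j.1 j.2 b h.1 h.2).choose
      (𝒜.compat i.1 i.2 j.1 j.2 b h.1 h.2).choose_spec.1
  else 1

theorem IntAtlas.tr_spec {i j : 𝒜.charts} {b : B} (hi : b ∈ i.1.source) (hj : b ∈ j.1.source) :
    ∀ᶠ y in 𝓝 b, j.1 y = (𝒜.tr i j b).val (i.1 y) := by
  unfold IntAtlas.tr
  rw [dif_pos ⟨hi, hj⟩]
  exact (𝒜.compat i.1 i.2 j.1 j.2 b hi hj).choose_spec.2

theorem IntAtlas.tr_eq {i j : 𝒜.charts} {b : B} (hi : b ∈ i.1.source) (hj : b ∈ j.1.source)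
    {g : DG n} (h : ∀ᶠ y in 𝓝 b, j.1 y = g.val (i.1 y)) : 𝒜.tr i j b = g := by
  refine DG.ext (germ_unique (chart_map_nhds i.1 hi) ?_)
  filter_upwards [h, 𝒜.tr_spec hi hj] with y h1 h2
  rw [← h1, ← h2]

theorem IntAtlas.tr_eventually {i j : 𝒜.charts} {b : B} (hi : b ∈ i.1.source)
    (hj : b ∈ j.1.source) : ∀ᶠ y in 𝓝 b, 𝒜.tr i j y = 𝒜.tr i j b := by
  filter_upwards [(𝒜.tr_spec hi hj).eventually_nhds, i.1.open_source.mem_nhds hi,
    j.1.open_source.mem_nhds hj] with y h1 h2 h3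
  exact 𝒜.tr_eq h2 h3 h1

/-- the bundle of germs of integral affine coordinates -/
noncomputable def IntAtlas.core : FiberBundleCore 𝒜.charts B (DG n) where
  baseSet i := i.1.source
  isOpen_baseSet i := i.1.open_source
  indexAt b := ⟨(𝒜.cover b).choose, (𝒜.cover b).choose_spec.1⟩
  mem_baseSet_at b := (𝒜.cover b).choose_spec.2
  coordChange i j b v := v * 𝒜.tr j i b
  coordChange_self i b hb v := by
    have h1 : 𝒜.tr i i b = 1 := 𝒜.tr_eq hb hb (Eventually.of_forall fun y => rfl)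
    rw [h1, mul_one]
  continuousOn_coordChange i j := by
    rintro ⟨b, v⟩ ⟨⟨hi, hj⟩, -⟩
    refine ContinuousAt.continuousWithinAt ?_
    have h1 : (fun _ : B × DG n => v * 𝒜.tr j i b) =ᶠ[𝓝 (b, v)]
        fun z => z.2 * 𝒜.tr j i z.1 := by
      have h2 : ∀ᶠ z : B × DG n in 𝓝 (b, v), 𝒜.tr j i z.1 = 𝒜.tr j i b :=
        continuousAt_fst.eventually (𝒜.tr_eventually hj hi)
      have h3 : ∀ᶠ z : B × DG n in 𝓝 (b, v), z.2 = v :=
        continuousAt_snd.eventually ((isOpen_discrete {v}).mem_nhds (mem_singleton v))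
      filter_upwards [h2, h3] with z h4 h5
      rw [h4, h5]
    exact continuousAt_const.congr h1
  coordChange_comp i j k b hb v := by
    obtain ⟨⟨hi, hj⟩, hk⟩ := hb
    have h1 : 𝒜.tr k i b = 𝒜.tr j i b * 𝒜.tr k j b := by
      refine 𝒜.tr_eq hk hi ?_
      filter_upwards [𝒜.tr_spec hj hi, 𝒜.tr_spec hk hj] with y h2 h3
      rw [h2, h3, DG.val_mul]
      rfl
    rw [h1, mul_assoc]

/-- evaluation of a germ of coordinates -/
noncomputable def IntAtlas.ev (z : 𝒜.core.TotalSpace) : Eu n :=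
  DG.val (z.2 : DG n) ((𝒜.core.indexAt z.1).1 z.1)

theorem IntAtlas.ev_eq (i : 𝒜.charts) (z : 𝒜.core.TotalSpace) (hz : z.1 ∈ i.1.source) :
    𝒜.ev z = DG.val (𝒜.core.localTriv i z).2 (i.1 z.1) := by
  rw [FiberBundleCore.localTriv_apply]
  have h1 := (𝒜.tr_spec hz (𝒜.core.mem_baseSet_at z.1)).self_of_nhds
  let g : DG n := z.2
  show DG.val g ((𝒜.core.indexAt z.1).1 z.1) =
    DG.val (g * 𝒜.tr i (𝒜.core.indexAt z.1) z.1) (i.1 z.1)
  rw [DG.val_mul]
  show _ = DG.val g (DG.val (𝒜.tr i (𝒜.core.indexAt z.1) z.1) (i.1 z.1))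
  rw [← h1]

theorem IntAtlas.ev_eventually (i : 𝒜.charts) (z : 𝒜.core.TotalSpace) (hz : z.1 ∈ i.1.source) :
    ∀ᶠ w in 𝓝 z, 𝒜.ev w = DG.val (𝒜.core.localTriv i z).2 (i.1 w.1) := by
  have hs : z ∈ (𝒜.core.localTriv i).source := by
    rw [FiberBundleCore.mem_localTriv_source]
    exact hz
  have h1 : ContinuousAt (fun w => (𝒜.core.localTriv i w).2) z :=
    continuousAt_snd.comp ((𝒜.core.localTriv i).continuousAt hs)
  have h2 : ∀ᶠ w in 𝓝 z, (𝒜.core.localTriv i w).2 = (𝒜.core.localTriv i z).2 :=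
    h1.eventually ((isOpen_discrete {(𝒜.core.localTriv i z).2}).mem_nhds (mem_singleton _))
  have h3 : ∀ᶠ w in 𝓝 z, w ∈ (𝒜.core.localTriv i).source :=
    (𝒜.core.localTriv i).open_source.mem_nhds hs
  filter_upwards [h2, h3] with w h4 h5
  rw [FiberBundleCore.mem_localTriv_source] at h5
  rw [𝒜.ev_eq i w h5, h4]

/-- the developing map -/
theorem IntAtlas.exists_dev {X : Type} [TopologicalSpace X] [SimplyConnectedSpace X]
    [LocallyPathConnectedSpace X] {p : X → B} (hp : Continuous p) :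
    ∃ dev : X → Eu n, ∀ x, ∃ e ∈ 𝒜.charts, p x ∈ e.source ∧
      ∃ a : Eu n ≃ᵃ[ℝ] Eu n, IntAff a ∧ ∀ᶠ y in 𝓝 x, dev y = a (e (p y)) := by
  have cov : IsCoveringMap (π (DG n) 𝒜.core.Fiber) := FiberBundle.isCoveringMap
  obtain ⟨x0⟩ : Nonempty X := inferInstance
  obtain ⟨P, ⟨-, hP⟩, -⟩ := cov.existsUnique_continuousMap_lifts (⟨p, hp⟩ : C(X, B)) x0
    (⟨p x0, (1 : DG n)⟩ : 𝒜.core.TotalSpace) rfl
  have hP' : ∀ x, (P x).1 = p x := fun x => congrFun hP x
  refine ⟨fun x => 𝒜.ev (P x), fun x => ?_⟩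
  obtain ⟨e, he, hx⟩ := 𝒜.cover (p x)
  refine ⟨e, he, hx, _, DG.prop (𝒜.core.localTriv ⟨e, he⟩ (P x)).2, ?_⟩
  have h1 := 𝒜.ev_eventually ⟨e, he⟩ (P x) (by rw [hP']; exact hx)
  filter_upwards [P.continuous.continuousAt.eventually h1] with y hy
  rw [hy, hP']

end

end Run7.h675
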