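import Pool.Agent.Run7.h675.DiscMain
import Pool.Agent.Run7.h675.Bdd

/-!
Examples of discompacity at most one: planes with area preserving linear holonomy and spaces with an
invariant Lorentz form.
-/

set_option autoImplicit false
set_option linter.unusedSectionVars false

open Set Filter Topology Metric
open Pool.Agent.W689.Mk

namespace Run7.h675

section
variable {Γ E : Type} [Group Γ] [NormedAddCommGroup E] [NormedSpace ℝ E] [FiniteDimensional ℝ E]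
  {hol : Γ →* (E ≃ᵃ[ℝ] E)}

theorem lin_inj {γ : Γ} {v : E} (h : lin hol γ v = 0) : v = 0 := by
  have h1 := lin_inv_apply (hol := hol) γ v
  rw [h] at h1
  rw [← h1]
  exact map_zero (hol γ⁻¹).linear

theorem disc_plane {W : Submodule ℝ E} (hr : Module.finrank ℝ W = 2)
    (hW : ∀ γ : Γ, ∀ v ∈ W, lin hol γ v ∈ W)
    (hdt : ∀ γ : Γ, |dt ((hol γ).linear : E →ₗ[ℝ] E) W (hW γ)| = 1) : Disc1 hol W := by
  obtain ⟨l, l', A, a0, ha0, b0, hb0, hne⟩ := exists_areaF hr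
  set ω : E → E → ℝ := fun a b => l a * l' b - l b * l' a with hω
  have har : ∀ γ : Γ, ∀ u ∈ W, ∀ u' ∈ W, |ω (lin hol γ u) (lin hol γ u')| = |ω u u'| := by
    intro γ u hu u' hu'
    have hb : ∀ v ∈ (⊥ : Submodule ℝ E), ((hol γ).linear : E →ₗ[ℝ] E) v ∈ (⊥ : Submodule ℝ E) := by
      intro v hv
      rw [Submodule.mem_bot] at hv ⊢
      rw [hv, map_zero]
    refine area_quot (T := ((hol γ).linear : E →ₗ[ℝ] E)) (P := ⊥) (Q := W) bot_le
      (by rw [finrank_bot, hr]) hb (hW γ) (by rw [dt_bot, abs_one]) (hdt γ)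
      (l : E →ₗ[ℝ] ℝ) (l' : E →ₗ[ℝ] ℝ) ?_ ?_ hu hu'
    · intro v hv
      rw [Submodule.mem_bot] at hv
      rw [hv, map_zero]
    · intro v hv
      rw [Submodule.mem_bot] at hv
      rw [hv, map_zero]
  have ha00 : a0 ≠ 0 := by
    rintro rfl
    apply hne
    rw [map_zero, map_zero]
    ring
  have hna : 0 < ‖a0‖ := norm_pos_iff.2 ha00
  have hωpos : 0 < |ω a0 b0| := abs_pos.2 hne
  set M := 2 * (‖l‖ * ‖l'‖) with hM
  have hM0 : 0 ≤ M := by positivity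
  have hωM : ∀ a b, |ω a b| ≤ M * (‖a‖ * ‖b‖) := by
    intro a b
    have h1 : ∀ a b : E, |l a * l' b| ≤ (‖l‖ * ‖a‖) * (‖l'‖ * ‖b‖) := by
      intro a b
      rw [abs_mul]
      exact mul_le_mul (l.le_opNorm a) (l'.le_opNorm b) (abs_nonneg _) (by positivity)
    have h2 := abs_sub (l a * l' b) (l b * l' a)
    have h3 := h1 a b
    have h4 := h1 b a
    have h5 : |ω a b| ≤ (‖l‖ * ‖a‖) * (‖l'‖ * ‖b‖) + (‖l‖ * ‖b‖) * (‖l'‖ * ‖a‖) :=
      h2.trans (add_le_add h3 h4)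
    refine h5.trans (le_of_eq ?_)
    rw [hM]
    ring
  -- the kernel of `ω n`
  have hker : ∀ n ∈ W, n ≠ 0 → ∀ v ∈ W, ω n v = 0 → ∃ κ : ℝ, v = κ • n := by
    intro n hn hn0 v hv hnv
    obtain ⟨c, hc, hnc⟩ : ∃ c ∈ W, ω c n ≠ 0 := by
      by_contra hcon
      push Not at hcon
      apply hn0
      have h1 := A.cyc a0 ha0 b0 hb0 n hn
      beta_reduce at h1
      have h2 : ω a0 b0 • n + ω b0 n • a0 + ω n a0 • b0 = 0 := h1
      have h3 : ω n a0 = 0 := by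
        have h4 : ω n a0 = - ω a0 n := by rw [hω]; ring
        rw [h4, hcon a0 ha0, neg_zero]
      rw [hcon b0 hb0, h3, zero_smul, zero_smul, add_zero, add_zero] at h2
      exact (smul_eq_zero.1 h2).resolve_left hne
    have h1 : ω n v • c + ω v c • n + ω c n • v = 0 := A.cyc n hn v hv c hc
    rw [hnv, zero_smul, zero_add] at h1
    refine ⟨-(ω v c / ω c n), ?_⟩
    have h2 : ω c n • v = -(ω v c • n) := by
      rw [eq_neg_iff_add_eq_zero, add_comm]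
      exact h1
    have h3 : v = (ω c n)⁻¹ • (ω c n • v) := by rw [smul_smul, inv_mul_cancel₀ hnc, one_smul]
    have h4 : (ω c n)⁻¹ • (ω c n • v) = -(ω v c / ω c n) • n := by
      rw [h2, smul_neg, smul_smul, neg_smul, inv_mul_eq_div]
    exact h3.trans h4
  have hfin : ∀ (γ : Γ) (n : E) (K : ℝ), n ∈ W → n ≠ 0 → ‖lin hol γ n‖ ≤ K * ‖n‖ →
      ∃ g : E →L[ℝ] ℝ, ∀ v ∈ W, g v = 0 → ‖lin hol γ v‖ ≤ K * ‖v‖ := by
    intro γ n K hn hn0 hK
    refine ⟨(l n) • l' - (l' n) • l, fun v hv hlv => ?_⟩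
    have h1 : ω n v = 0 := by
      have h2 : ((l n) • l' - (l' n) • l) v = ω n v := by
        show l n * l' v - l' n * l v = l n * l' v - l v * l' n
        ring
      rw [← h2]
      exact hlv
    obtain ⟨κ, rfl⟩ := hker n hn hn0 v hv h1
    have h2 : lin hol γ (κ • n) = κ • lin hol γ n := lin_smul' γ κ n
    rw [h2, norm_smul, norm_smul]
    calc ‖κ‖ * ‖lin hol γ n‖ ≤ ‖κ‖ * (K * ‖n‖) := mul_le_mul_of_nonneg_left hK (norm_nonneg _)
      _ = K * (‖κ‖ * ‖n‖) := by ring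
  set K1 := 1 / ‖a0‖ with hK1
  set K2 := 2 * (‖a0‖ * ‖b0‖) * (M * ‖a0‖ / |ω a0 b0|) with hK2
  have hK10 : 0 ≤ K1 := by positivity
  have hK20 : 0 ≤ K2 := by positivity
  refine ⟨K1 + K2, fun γ => ?_⟩
  rcases le_or_gt 1 ‖lin hol γ a0‖ with h | h
  · -- `a0` is not contracted
    have hT0 : ((hol γ).linear : E →ₗ[ℝ] E) a0 ≠ 0 := fun h0 => ha00 (lin_inj (γ := γ) h0)
    obtain ⟨μ, hμ⟩ := A.chord (T := ((hol γ).linear : E →ₗ[ℝ] E)) (hW γ)
      (fun a ha b hb => har γ a ha b hb) ha0 hb0 hne hT0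
    set n := b0 - μ • a0 with hn
    have hnW : n ∈ W := W.sub_mem hb0 (W.smul_mem _ ha0)
    have h1 : ω a0 n = ω a0 b0 := by
      have h2 := A.sub a0 b0 (μ • a0)
      have h3 := A.smul a0 a0 μ
      have h4 := A.self a0
      have h2' : ω a0 n = ω a0 b0 - ω a0 (μ • a0) := h2
      have h3' : ω a0 (μ • a0) = μ * ω a0 a0 := h3
      have h4' : ω a0 a0 = 0 := h4
      rw [h2', h3', h4', mul_zero, sub_zero]
    have hn0 : n ≠ 0 := by
      intro h0
      apply hne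
      have h2 : ω a0 n = 0 := by rw [h0, hω]; simp
      exact h1.symm.trans h2
    have h2 : |ω a0 b0| ≤ M * (‖a0‖ * ‖n‖) := by rw [← h1]; exact hωM _ _
    have h3 : 1 ≤ M * ‖a0‖ / |ω a0 b0| * ‖n‖ := by
      rw [div_mul_eq_mul_div, le_div_iff₀ hωpos, one_mul, mul_assoc]
      exact h2
    have h4 : ‖lin hol γ n‖ ≤ 2 * (‖a0‖ * ‖b0‖) := by
      have h5 : ‖lin hol γ n‖ * ‖lin hol γ a0‖ ≤ 2 * (‖a0‖ * ‖b0‖) := hμ
      nlinarith [norm_nonneg (lin hol γ n)]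
    refine hfin γ n (K1 + K2) hnW hn0 ?_
    have h5 : 2 * (‖a0‖ * ‖b0‖) * 1 ≤ 2 * (‖a0‖ * ‖b0‖) * (M * ‖a0‖ / |ω a0 b0| * ‖n‖) :=
      mul_le_mul_of_nonneg_left h3 (by positivity)
    have h6 : 2 * (‖a0‖ * ‖b0‖) * (M * ‖a0‖ / |ω a0 b0| * ‖n‖) = K2 * ‖n‖ := by
      rw [hK2]; ring
    have h7 : 0 ≤ K1 * ‖n‖ := mul_nonneg hK10 (norm_nonneg _)
    nlinarith
  · refine hfin γ a0 (K1 + K2) ha0 ha00 ?_
    have h1 : K1 * ‖a0‖ = 1 := by rw [hK1]; field_simp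
    have h2 : 0 ≤ K2 * ‖a0‖ := mul_nonneg hK20 (norm_nonneg _)
    nlinarith

/-- the stabiliser of a covector line acts solvably on a plane -/
theorem stab_plane {W : Submodule ℝ E} (hr : Module.finrank ℝ W = 2)
    (hW : ∀ γ : Γ, ∀ v ∈ W, lin hol γ v ∈ W) {l : E →L[ℝ] ℝ} (hl : ∃ u ∈ W, l u ≠ 0) :
    StabSolv hol W l := by
  intro K hK
  obtain ⟨u, hu, hlu⟩ := hl
  set P : Submodule ℝ E := W ⊓ LinearMap.ker (l : E →ₗ[ℝ] ℝ) with hP
  have hPW : P ≤ W := inf_le_left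
  have hPi : ∀ γ ∈ K, ∀ v ∈ P, lin hol γ v ∈ P := by
    intro γ hγ v hv
    refine ⟨hW γ v (hPW hv), ?_⟩
    obtain ⟨c, hc⟩ := hK γ hγ
    show l (lin hol γ v) = 0
    have h1 : l v = 0 := hv.2
    rw [hc v (hPW hv), h1, mul_zero]
  have hlt : P < W := by
    refine lt_of_le_of_ne hPW fun he => hlu ?_
    have : u ∈ P := by rw [he]; exact hu
    exact this.2
  have hPr : Module.finrank ℝ P ≤ 1 := by
    have := Submodule.finrank_lt_finrank_of_lt hlt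
    omega
  have hsc : ∀ γ ∈ K, ∃ c : ℝ, ∀ v ∈ P, lin hol γ v = c • v := by
    intro γ hγ
    obtain ⟨w, hw⟩ := finrank_le_one_iff.1 hPr
    obtain ⟨c, hc⟩ := hw ⟨lin hol γ w, hPi γ hγ w w.2⟩
    refine ⟨c, fun v hv => ?_⟩
    obtain ⟨t, ht⟩ := hw ⟨v, hv⟩
    have h1 : t • (w : E) = v := congrArg Subtype.val ht
    have h2 : c • (w : E) = lin hol γ w := congrArg Subtype.val hc
    rw [← h1, lin_smul', ← h2, smul_comm]
  let F : ℕ → Submodule ℝ E := fun i => if i = 0 then ⊥ else if i = 1 then P else W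
  have F0 : F 0 = ⊥ := rfl
  have F1 : F 1 = P := rfl
  have F2 : F 2 = W := rfl
  refine stab_flag (F := F) (N := 2) F0 F2 ?_ ?_ ?_
  · intro i hi
    interval_cases i
    · rw [F0]; exact bot_le
    · exact hPW
  · intro γ hγ i hi v hv
    interval_cases i
    · rw [F0, Submodule.mem_bot] at hv ⊢
      rw [hv]
      exact map_zero (hol γ).linear
    · exact hPi γ hγ v hv
    · exact hW γ v hv
  · intro γ hγ δ hδ i hi v hv
    interval_cases i
    · rw [zero_add, F1] at hv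
      obtain ⟨c, hc⟩ := hsc γ hγ
      obtain ⟨d, hd⟩ := hsc δ hδ
      rw [F0, hd v hv, hc v hv, lin_smul', lin_smul', hc v hv, hd v hv, smul_comm, sub_self]
      exact Submodule.zero_mem _
    · rw [F1]
      have hv' : v ∈ W := hv
      refine ⟨W.sub_mem (hW γ _ (hW δ v hv')) (hW δ _ (hW γ v hv')), ?_⟩
      obtain ⟨c, hc⟩ := hK γ hγ
      obtain ⟨d, hd⟩ := hK δ hδ
      show l (lin hol γ (lin hol δ v) - lin hol δ (lin hol γ v)) = 0
      rw [map_sub, hc _ (hW δ v hv'), hd v hv', hd _ (hW γ v hv'), hc v hv']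
      ring

end

end Run7.h675
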