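import Pool.Agent.Run7.h675.Lor

/-!
The stabiliser of a null line of a Lorentz form of dimension at most four is solvable.
-/

set_option autoImplicit false
set_option linter.unusedSectionVars false

open Set Filter Topology Metric
open Pool.Agent.W689.Mk

namespace Run7.h675

section
variable {Γ E : Type} [Group Γ] [NormedAddCommGroup E] [NormedSpace ℝ E] [FiniteDimensional ℝ E]
  {hol : Γ →* (E ≃ᵃ[ℝ] E)}

theorem sup_of_rank {P Q : Submodule ℝ E} (hPQ : P ≤ Q)
    (hr : Module.finrank ℝ Q ≤ Module.finrank ℝ P + 1) {v : E} (hv : v ∈ Q) (hvP : v ∉ P) :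
    Q = P ⊔ Submodule.span ℝ {v} := by
  symm
  refine Submodule.eq_of_le_of_finrank_le (sup_le hPQ
    ((Submodule.span_singleton_le_iff_mem v Q).2 hv)) ?_
  have h4 : P < P ⊔ Submodule.span ℝ {v} := by
    refine lt_of_le_of_ne le_sup_left fun he => hvP ?_
    rw [he]
    exact Submodule.mem_sup_right (Submodule.mem_span_singleton_self v)
  have h5 := Submodule.finrank_lt_finrank_of_lt h4
  omega

/-- on quotients of dimension at most one, maps act by scalars -/
theorem scalar_of_rank {P Q : Submodule ℝ E} (hPQ : P ≤ Q)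
    (hr : Module.finrank ℝ Q ≤ Module.finrank ℝ P + 1) {γ : Γ}
    (hP : ∀ v ∈ P, lin hol γ v ∈ P) (hQ : ∀ v ∈ Q, lin hol γ v ∈ Q) :
    ∃ c : ℝ, ∀ v ∈ Q, lin hol γ v - c • v ∈ P := by
  by_cases hle : Q ≤ P
  · refine ⟨1, fun v hv => ?_⟩
    rw [one_smul]
    exact P.sub_mem (hP v (hle hv)) (hle hv)
  obtain ⟨v0, hv0Q, hv0P⟩ := SetLike.not_le_iff_exists.1 hle
  have hQe := sup_of_rank hPQ hr hv0Q hv0P
  have h1 := hQ v0 hv0Q
  rw [hQe] at h1
  obtain ⟨a, ha, w, hw, haw⟩ := Submodule.mem_sup.1 h1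
  obtain ⟨c, rfl⟩ := Submodule.mem_span_singleton.1 hw
  refine ⟨c, fun v hv => ?_⟩
  rw [hQe] at hv
  obtain ⟨a', ha', w', hw', rfl⟩ := Submodule.mem_sup.1 hv
  obtain ⟨t, rfl⟩ := Submodule.mem_span_singleton.1 hw'
  have e : lin hol γ (a' + t • v0) - c • (a' + t • v0) =
      (lin hol γ a' - c • a') + t • a := by
    rw [lin_add, lin_smul', ← haw]
    module
  rw [e]
  exact P.add_mem (P.sub_mem (hP a' ha') (P.smul_mem _ ha')) (P.smul_mem _ ha)

variable {W : Submodule ℝ E} {B : E →L[ℝ] E →L[ℝ] ℝ} {e : E}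

omit [FiniteDimensional ℝ E] in
theorem form_smul (B : E →L[ℝ] E →L[ℝ] ℝ) (t : ℝ) (v y : E) : B (t • v) y = t * B v y := by
  rw [map_smul]
  rfl

omit [FiniteDimensional ℝ E] in
theorem form_sub (B : E →L[ℝ] E →L[ℝ] ℝ) (v u y : E) : B (v - u) y = B v y - B u y := by
  rw [map_sub]
  rfl

omit [FiniteDimensional ℝ E] in
theorem form_add (B : E →L[ℝ] E →L[ℝ] ℝ) (v u y : E) : B (v + u) y = B v y + B u y := by
  rw [map_add]
  rfl

/-- the form is positive semidefinite on the complement of a null vector -/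
theorem Lor.semidef (L : Lor hol W B e) {u : E} (hu : u ∈ W) (hu0 : u ≠ 0) (huu : B u u = 0)
    {v : E} (hv : v ∈ W) (hvu : B v u = 0) (hvs : v ∉ Submodule.span ℝ {u}) : 0 < B v v := by
  have hue : B u e ≠ 0 := by
    intro h
    have := L.pos u hu hu0 h
    rw [huu] at this
    exact lt_irrefl _ this
  set t := B v e / B u e with ht
  have hw : v - t • u ∈ W := W.sub_mem hv (W.smul_mem _ hu)
  have hwe : B (v - t • u) e = 0 := by
    rw [map_sub, map_smul]
    show B v e - t * B u e = 0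
    rw [ht, div_mul_cancel₀ _ hue, sub_self]
  have hw0 : v - t • u ≠ 0 := by
    intro h
    apply hvs
    rw [sub_eq_zero] at h
    rw [h]
    exact Submodule.smul_mem _ _ (Submodule.mem_span_singleton_self u)
  have h1 := L.pos _ hw hw0 hwe
  have h2 : B (v - t • u) (v - t • u) = B v v := by
    rw [form_sub, form_smul, map_sub, map_sub, map_smul, map_smul, hvu, huu, L.symm u hu v hv,
      hvu, smul_zero, sub_zero]
    ring
  rwa [h2] at h1

/-- orthonormal vectors of the quotient -/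
theorem Lor.frame (L : Lor hol W B e) {u : E} (hu : u ∈ W) (hu0 : u ≠ 0) (huu : B u u = 0)
    {Q : Submodule ℝ E} (hQW : Q ≤ W) (huQ : u ∈ Q) (hQ : ∀ v ∈ Q, B v u = 0)
    (hr : Module.finrank ℝ Q = Module.finrank ℝ (Submodule.span ℝ {u}) + 2) :
    ∃ e1 ∈ Q, ∃ e2 ∈ Q, B e1 e1 = 1 ∧ B e2 e2 = 1 ∧ B e1 e2 = 0 ∧ B e2 e1 = 0 ∧
      ∀ v ∈ Q, v - (B v e1) • e1 - (B v e2) • e2 ∈ Submodule.span ℝ {u} := by
  set P := Submodule.span ℝ {u} with hP
  have hPQ : P ≤ Q := (Submodule.span_singleton_le_iff_mem u Q).2 huQ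
  -- normalisation
  have norm1 : ∀ v ∈ Q, v ∉ P → ∃ c : ℝ, c ≠ 0 ∧ B (c • v) (c • v) = 1 := by
    intro v hv hvP
    have h1 := L.semidef hu hu0 huu (hQW hv) (hQ v hv) hvP
    have h2 : 0 < Real.sqrt (B v v) := Real.sqrt_pos.2 h1
    refine ⟨(Real.sqrt (B v v))⁻¹, inv_ne_zero h2.ne', ?_⟩
    rw [map_smul, map_smul]
    show (Real.sqrt (B v v))⁻¹ * ((Real.sqrt (B v v))⁻¹ * B v v) = 1
    have h3 : Real.sqrt (B v v) * Real.sqrt (B v v) = B v v := Real.mul_self_sqrt h1.le
    have h4 := h2.ne'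
    field_simp
    rw [sq, h3]
  obtain ⟨v1, hv1, hv1P⟩ : ∃ v ∈ Q, v ∉ P := by
    apply SetLike.not_le_iff_exists.1
    intro h
    have := Submodule.finrank_mono h
    omega
  obtain ⟨c1, hc1, he11⟩ := norm1 v1 hv1 hv1P
  set e1 := c1 • v1 with he1
  have he1Q : e1 ∈ Q := Q.smul_mem _ hv1
  have he1P : e1 ∉ P := by
    intro h
    apply hv1P
    have h2 : v1 = c1⁻¹ • e1 := by rw [he1, smul_smul, inv_mul_cancel₀ hc1, one_smul]
    rw [h2]
    exact P.smul_mem _ h
  set P1 := P ⊔ Submodule.span ℝ {e1} with hP1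
  have hP1Q : P1 ≤ Q := sup_le hPQ ((Submodule.span_singleton_le_iff_mem e1 Q).2 he1Q)
  have hP1r : Module.finrank ℝ P1 = Module.finrank ℝ P + 1 := by
    have h3 := Submodule.finrank_add_le_finrank_add_finrank P (Submodule.span ℝ {e1})
    have h4 : Module.finrank ℝ (Submodule.span ℝ {e1}) ≤ 1 := by
      have := finrank_span_le_card (R := ℝ) ({e1} : Set E)
      simpa using this
    have h5 : P < P1 := by
      refine lt_of_le_of_ne le_sup_left fun he => he1P ?_
      rw [he]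
      exact Submodule.mem_sup_right (Submodule.mem_span_singleton_self e1)
    have h6 := Submodule.finrank_lt_finrank_of_lt h5
    rw [← hP1] at h3
    omega
  obtain ⟨v2, hv2, hv2P⟩ : ∃ v ∈ Q, v ∉ P1 := by
    apply SetLike.not_le_iff_exists.1
    intro h
    have := Submodule.finrank_mono h
    omega
  set w2 := v2 - (B v2 e1) • e1 with hw2
  have hw2Q : w2 ∈ Q := Q.sub_mem hv2 (Q.smul_mem _ he1Q)
  have he1P1 : e1 ∈ P1 := Submodule.mem_sup_right (Submodule.mem_span_singleton_self e1)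
  have hw2P1 : w2 ∉ P1 := by
    intro h
    apply hv2P
    have : v2 = w2 + (B v2 e1) • e1 := by rw [hw2]; abel
    rw [this]
    exact P1.add_mem h (P1.smul_mem _ he1P1)
  obtain ⟨c2, hc2, he22⟩ := norm1 w2 hw2Q fun h => hw2P1 (le_sup_left (a := P) h)
  set e2 := c2 • w2 with he2
  have he2Q : e2 ∈ Q := Q.smul_mem _ hw2Q
  have he2P1 : e2 ∉ P1 := by
    intro h
    apply hw2P1
    have h2 : w2 = c2⁻¹ • e2 := by rw [he2, smul_smul, inv_mul_cancel₀ hc2, one_smul]
    rw [h2]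
    exact P1.smul_mem _ h
  have h21 : B e2 e1 = 0 := by
    rw [he2, form_smul, hw2, form_sub, form_smul, he11]
    ring
  have h12 : B e1 e2 = 0 := by rw [L.symm e1 (hQW he1Q) e2 (hQW he2Q)]; exact h21
  refine ⟨e1, he1Q, e2, he2Q, he11, he22, h12, h21, fun v hv => ?_⟩
  have hQe := sup_of_rank hP1Q (by omega) he2Q he2P1
  rw [hQe, hP1] at hv
  obtain ⟨p1, hp1, w', hw', hsum⟩ := Submodule.mem_sup.1 hv
  obtain ⟨β2, rfl⟩ := Submodule.mem_span_singleton.1 hw'
  obtain ⟨p, hp, w'', hw'', hsum2⟩ := Submodule.mem_sup.1 hp1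
  obtain ⟨β1, rfl⟩ := Submodule.mem_span_singleton.1 hw''
  obtain ⟨α, rfl⟩ := Submodule.mem_span_singleton.1 hp
  have hu1 : B u e1 = 0 := by rw [L.symm u hu e1 (hQW he1Q)]; exact hQ e1 he1Q
  have hu2 : B u e2 = 0 := by rw [L.symm u hu e2 (hQW he2Q)]; exact hQ e2 he2Q
  have hv' : v = α • u + β1 • e1 + β2 • e2 := by rw [← hsum, ← hsum2]
  have hB : ∀ y, B v y = α * B u y + β1 * B e1 y + β2 * B e2 y := by
    intro y
    rw [hv', form_add, form_add, form_smul B α, form_smul B β1, form_smul B β2]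
  rw [hB e1, hB e2, hu1, hu2, he11, he22, h12, h21]
  have e3 : v - (α * 0 + β1 * 1 + β2 * 0) • e1 - (α * 0 + β1 * 0 + β2 * 1) • e2 = α • u := by
    rw [hv']
    module
  rw [e3]
  exact P.smul_mem _ (Submodule.mem_span_singleton_self u)

/-- the stabiliser of a null line acts solvably, in dimension at most four -/
theorem Lor.stab (L : Lor hol W B e) (hW : ∀ γ : Γ, ∀ v ∈ W, lin hol γ v ∈ W)
    (hr : Module.finrank ℝ W ≤ 4) {l : E →L[ℝ] ℝ} (hl : ∃ u ∈ W, l u ≠ 0)
    (hc : Contract hol W l) : StabSolv hol W l := by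
  intro K hK
  obtain ⟨u, hu, hu0, huu, hlu⟩ := L.null hW hl hc
  set P := Submodule.span ℝ {u} with hP
  set Q : Submodule ℝ E := W ⊓ LinearMap.ker (l : E →ₗ[ℝ] ℝ) with hQdef
  have hQW : Q ≤ W := inf_le_left
  have hQl : ∀ v ∈ Q, l v = 0 := fun v hv => hv.2
  have hQu : ∀ v ∈ Q, B v u = 0 := fun v hv => by rw [← hlu v (hQW hv)]; exact hv.2
  have huQ : u ∈ Q := ⟨hu, by show l u = 0; rw [hlu u hu]; exact huu⟩
  have hPQ : P ≤ Q := (Submodule.span_singleton_le_iff_mem u Q).2 huQ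
  have hPr : Module.finrank ℝ P = 1 := finrank_span_singleton hu0
  -- the dimension of `Q`
  obtain ⟨w0, hw0, hlw0⟩ := hl
  have hQlt : Q < W := by
    refine lt_of_le_of_ne hQW fun he => hlw0 ?_
    have : w0 ∈ Q := by rw [he]; exact hw0
    exact hQl w0 this
  have hQr : Module.finrank ℝ Q < Module.finrank ℝ W := Submodule.finrank_lt_finrank_of_lt hQlt
  -- invariance
  have hQi : ∀ γ ∈ K, ∀ v ∈ Q, lin hol γ v ∈ Q := by
    intro γ hγ v hv
    refine ⟨hW γ v (hQW hv), ?_⟩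
    obtain ⟨c, hc⟩ := hK γ hγ
    show l (lin hol γ v) = 0
    rw [hc v (hQW hv), hQl v hv, mul_zero]
  have hsu : ∀ γ ∈ K, ∃ c : ℝ, lin hol γ u = c • u := by
    intro γ hγ
    obtain ⟨c, hc⟩ := hK γ⁻¹ (inv_mem hγ)
    refine ⟨c, ?_⟩
    rw [← sub_eq_zero]
    refine L.nondeg (W.sub_mem (hW γ u hu) (W.smul_mem _ hu)) fun w hw => ?_
    rw [map_sub, map_smul]
    have h1 := L.adj hW γ⁻¹ hw hu
    rw [inv_inv] at h1
    rw [← h1, ← hlu _ (hW γ⁻¹ w hw), hc w hw, hlu w hw, smul_eq_mul, sub_self]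
  have hPi : ∀ γ ∈ K, ∀ v ∈ P, lin hol γ v ∈ P := by
    intro γ hγ v hv
    obtain ⟨t, rfl⟩ := Submodule.mem_span_singleton.1 hv
    obtain ⟨c, hc⟩ := hsu γ hγ
    rw [lin_smul', hc]
    exact P.smul_mem _ (P.smul_mem _ (Submodule.mem_span_singleton_self u))
  have hKm : ∀ j, ∀ γ ∈ (derivedSeries K j).map K.subtype, γ ∈ K := by
    rintro j _ ⟨γ, -, rfl⟩
    exact γ.2
  -- commutation on `Q / P`
  have hmid : ∀ γ ∈ (derivedSeries K 1).map K.subtype, ∀ δ ∈ (derivedSeries K 1).map K.subtype,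
      ∀ v ∈ Q, lin hol γ (lin hol δ v) - lin hol δ (lin hol γ v) ∈ P := by
    intro γ hγ δ hδ v hv
    by_cases hr1 : Module.finrank ℝ Q ≤ Module.finrank ℝ P + 1
    · exact comm_of_scalar (hPi γ (hKm 1 γ hγ)) (hPi δ (hKm 1 δ hδ))
        (scalar_of_rank hPQ hr1 (hPi γ (hKm 1 γ hγ)) (hQi γ (hKm 1 γ hγ)))
        (scalar_of_rank hPQ hr1 (hPi δ (hKm 1 δ hδ)) (hQi δ (hKm 1 δ hδ))) hv
    · have hr2 : Module.finrank ℝ Q = Module.finrank ℝ P + 2 := by omega
      obtain ⟨e1, he1, e2, he2, h11, h22, h12, h21, hfr⟩ :=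
        L.frame hu hu0 huu hQW huQ hQu hr2
      have hPe : ∀ p ∈ P, ∀ y ∈ Q, B p y = 0 := by
        intro p hp y hy
        obtain ⟨t, rfl⟩ := Submodule.mem_span_singleton.1 hp
        rw [form_smul, L.symm u hu y (hQW hy), hQu y hy, mul_zero]
      -- expansion of vectors of `Q`
      have hexp : ∀ v ∈ Q, ∃ p ∈ P, v = p + (B v e1) • e1 + (B v e2) • e2 := by
        intro v hv
        exact ⟨_, hfr v hv, by abel⟩
      have hin : ∀ x ∈ Q, ∀ y ∈ Q, B x y = B x e1 * B y e1 + B x e2 * B y e2 := by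
        intro x hx y hy
        obtain ⟨p, hp, hxp⟩ := hexp x hx
        have h1 : B x y = B (p + (B x e1) • e1 + (B x e2) • e2) y := by rw [← hxp]
        rw [h1, form_add, form_add, form_smul, form_smul, hPe p hp y hy,
          L.symm e1 (hQW he1) y (hQW hy), L.symm e2 (hQW he2) y (hQW hy)]
        ring
      have hlin : ∀ γ ∈ K, ∀ v ∈ Q, ∀ y ∈ Q, B (lin hol γ v) y =
          B v e1 * B (lin hol γ e1) y + B v e2 * B (lin hol γ e2) y := by
        intro γ hγ v hv y hy
        obtain ⟨p, hp, hvp⟩ := hexp v hv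
        have h1 : lin hol γ v = lin hol γ p + (B v e1) • lin hol γ e1 +
            (B v e2) • lin hol γ e2 := by
          have h2 : lin hol γ v = lin hol γ (p + (B v e1) • e1 + (B v e2) • e2) := by rw [← hvp]
          rw [h2, lin_add, lin_add, lin_smul', lin_smul']
        rw [h1, form_add, form_add, form_smul, form_smul, hPe _ (hPi γ hγ p hp) y hy, zero_add]
      let Dt : K →* ℝ :=
        { toFun := fun γ => B (lin hol γ.1 e1) e1 * B (lin hol γ.1 e2) e2 -
            B (lin hol γ.1 e2) e1 * B (lin hol γ.1 e1) e2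
          map_one' := by
            show B (lin hol (1 : Γ) e1) e1 * B (lin hol (1 : Γ) e2) e2 -
              B (lin hol (1 : Γ) e2) e1 * B (lin hol (1 : Γ) e1) e2 = 1
            rw [lin_one', lin_one', h11, h22, h12, h21]
            ring
          map_mul' := by
            intro γ δ
            show B (lin hol (γ.1 * δ.1) e1) e1 * B (lin hol (γ.1 * δ.1) e2) e2 -
              B (lin hol (γ.1 * δ.1) e2) e1 * B (lin hol (γ.1 * δ.1) e1) e2 = _
            rw [lin_mul, lin_mul, hlin γ.1 γ.2 _ (hQi δ.1 δ.2 e1 he1) e1 he1,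
              hlin γ.1 γ.2 _ (hQi δ.1 δ.2 e1 he1) e2 he2,
              hlin γ.1 γ.2 _ (hQi δ.1 δ.2 e2 he2) e1 he1,
              hlin γ.1 γ.2 _ (hQi δ.1 δ.2 e2 he2) e2 he2]
            ring }
      have hrot : ∀ γ ∈ (derivedSeries K 1).map K.subtype,
          B (lin hol γ e2) e1 = - B (lin hol γ e1) e2 ∧ B (lin hol γ e2) e2 = B (lin hol γ e1) e1 := by
        rintro _ ⟨γ, hγ, rfl⟩
        have h1 : Dt γ = 1 := by
          have hγ' : γ ∈ commutator K := by
            have := hγ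
            rw [SetLike.mem_coe, derivedSeries_one] at this
            exact this
          have h2 := Abelianization.commutator_subset_ker Dt.toHomUnits hγ'
          rw [MonoidHom.mem_ker] at h2
          have h3 := congrArg Units.val h2
          exact h3
        have h2 : B (lin hol γ.1 e1) e1 * B (lin hol γ.1 e2) e2 -
            B (lin hol γ.1 e2) e1 * B (lin hol γ.1 e1) e2 = 1 := h1
        have h3 := hin _ (hQi γ.1 γ.2 e1 he1) _ (hQi γ.1 γ.2 e1 he1)
        have h4 := hin _ (hQi γ.1 γ.2 e2 he2) _ (hQi γ.1 γ.2 e2 he2)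
        have h5 := hin _ (hQi γ.1 γ.2 e1 he1) _ (hQi γ.1 γ.2 e2 he2)
        rw [L.inv γ.1 e1 (hQW he1) e1 (hQW he1), h11] at h3
        rw [L.inv γ.1 e2 (hQW he2) e2 (hQW he2), h22] at h4
        rw [L.inv γ.1 e1 (hQW he1) e2 (hQW he2), h12] at h5
        show B (lin hol γ.1 e2) e1 = - B (lin hol γ.1 e1) e2 ∧
          B (lin hol γ.1 e2) e2 = B (lin hol γ.1 e1) e1
        generalize B (lin hol γ.1 e1) e1 = a at *
        generalize B (lin hol γ.1 e1) e2 = b at *
        generalize B (lin hol γ.1 e2) e1 = a' at *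
        generalize B (lin hol γ.1 e2) e2 = b' at *
        constructor
        · linear_combination a' * h3 - a * h5 - b * h2
        · linear_combination b' * h3 - b * h5 + a * h2
      obtain ⟨g1, g2⟩ := hrot γ hγ
      obtain ⟨d1, d2⟩ := hrot δ hδ
      have hγK := hKm 1 γ hγ
      have hδK := hKm 1 δ hδ
      set y := lin hol γ (lin hol δ v) - lin hol δ (lin hol γ v) with hy
      have hyQ : y ∈ Q := Q.sub_mem (hQi γ hγK _ (hQi δ hδK v hv)) (hQi δ hδK _ (hQi γ hγK v hv))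
      have hy1 : B y e1 = 0 := by
        rw [hy, form_sub, hlin γ hγK _ (hQi δ hδK v hv) e1 he1,
          hlin δ hδK _ (hQi γ hγK v hv) e1 he1, hlin δ hδK v hv e1 he1, hlin δ hδK v hv e2 he2,
          hlin γ hγK v hv e1 he1, hlin γ hγK v hv e2 he2, g1, g2, d1, d2]
        ring
      have hy2 : B y e2 = 0 := by
        rw [hy, form_sub, hlin γ hγK _ (hQi δ hδK v hv) e2 he2,
          hlin δ hδK _ (hQi γ hγK v hv) e2 he2, hlin δ hδK v hv e1 he1, hlin δ hδK v hv e2 he2,
          hlin γ hγK v hv e1 he1, hlin γ hγK v hv e2 he2, g1, g2, d1, d2]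
        ring
      have h1 := hfr y hyQ
      rwa [hy1, hy2, zero_smul, zero_smul, sub_zero, sub_zero] at h1
  -- the flag
  let F : ℕ → Submodule ℝ E := fun i => if i = 0 then ⊥ else if i = 1 then P else
    if i = 2 then Q else W
  have F0 : F 0 = ⊥ := rfl
  have F1 : F 1 = P := rfl
  have F2 : F 2 = Q := rfl
  have F3 : F 3 = W := rfl
  have key := derived_flag (hol := hol) (fun j => (derivedSeries K (1 + j)).map K.subtype)
    (fun j => map_derived_le K (1 + j)) (F := F) (N := 3)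
    (by
      intro i hi
      interval_cases i
      · rw [F0]; exact bot_le
      · exact hPQ
      · exact hQW)
    (by
      intro γ hγ i hi v hv
      have hγK := hKm _ γ hγ
      interval_cases i
      · rw [F0, Submodule.mem_bot] at hv ⊢
        rw [hv]
        exact map_zero (hol γ).linear
      · exact hPi γ hγK v hv
      · exact hQi γ hγK v hv
      · exact hW γ v hv)
    (by
      intro γ hγ δ hδ i hi v hv
      have hγK := hKm _ γ hγ
      have hδK := hKm _ δ hδ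
      interval_cases i
      · rw [zero_add, F1] at hv
        obtain ⟨t, rfl⟩ := Submodule.mem_span_singleton.1 hv
        obtain ⟨c, hc⟩ := hsu γ hγK
        obtain ⟨d, hd⟩ := hsu δ hδK
        rw [F0, Submodule.mem_bot, lin_smul', lin_smul', lin_smul', lin_smul', hd, hc, lin_smul',
          lin_smul', hc, hd, smul_comm c d, sub_self]
      · exact hmid γ hγ δ hδ v hv
      · have hv' : v ∈ W := hv
        refine ⟨W.sub_mem (hW γ _ (hW δ v hv')) (hW δ _ (hW γ v hv')), ?_⟩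
        obtain ⟨c, hc⟩ := hK γ hγK
        obtain ⟨d, hd⟩ := hK δ hδK
        show l (lin hol γ (lin hol δ v) - lin hol δ (lin hol γ v)) = 0
        rw [map_sub, hc _ (hW δ v hv'), hd v hv', hd _ (hW γ v hv'), hc v hv']
        ring) 2
  refine ⟨1 + (2 + 1), fun γ hγ v hv => ?_⟩
  have h1 := key γ hγ 3 le_rfl v hv
  rw [show 3 - (2 + 1) = 0 from rfl, F0, Submodule.mem_bot, sub_eq_zero] at h1
  exact h1

end

end Run7.h675
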