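import Pool.Agent.Y449.MK.Sub
import Pool.Agent.Run7.h675.Lor2

/-!
Flags with bounded quotients above an invariant subspace `W`; the final theorems.
-/

set_option autoImplicit false
set_option linter.unusedSectionVars false

open Set Filter Topology Metric
open scoped commutatorElement
open Pool.Agent.W689.Mk

namespace Run7.h675

section
variable {X Γ E : Type} [TopologicalSpace X] [T2Space X] [Group Γ] [MulAction Γ X]
  [NormedAddCommGroup E] [NormedSpace ℝ E] [FiniteDimensional ℝ E]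
  {dev : X → E} {hol : Γ →* (E ≃ᵃ[ℝ] E)}

/-- a flag of invariant subspaces from `W` to `E` with bounded quotients -/
structure BFlag (hol : Γ →* (E ≃ᵃ[ℝ] E)) (W : Submodule ℝ E) (S : ℕ → Submodule ℝ E) (m : ℕ) :
    Prop where
  bot : S 0 = W
  top : S m = ⊤
  le : ∀ i < m, S i ≤ S (i + 1)
  inv : ∀ i ≤ m, ∀ γ : Γ, ∀ v ∈ S i, lin hol γ v ∈ S i
  bdd : ∀ i < m, BddBlock hol (S i) (S (i + 1))

variable {W : Submodule ℝ E} {S : ℕ → Submodule ℝ E} {m : ℕ}

theorem BFlag.con [ConnectedSpace X] (D : AffData X Γ E dev hol) (F : BFlag hol W S m) :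
    Con dev W := by
  have h1 : Con dev (S m ⊔ ⊥) := by
    rw [F.top, sup_bot_eq]
    exact Con.top
  have h2 := Con.flag D (S := S) (N := ⊥) (i := 0) (j := m) (Nat.zero_le _)
    (fun l _ h2 => F.le l h2) (fun l _ h2 => F.bdd l h2) h1
  rwa [sup_bot_eq, F.bot] at h2

theorem BFlag.invW (F : BFlag hol W S m) : ∀ γ : Γ, ∀ v ∈ W, lin hol γ v ∈ W := by
  intro γ v hv
  rw [← F.bot] at hv ⊢
  exact F.inv 0 (Nat.zero_le _) γ v hv

theorem BFlag.dt (F : BFlag hol W S m) (D : AffData X Γ E dev hol) (γ : Γ) :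
    |dt ((hol γ).linear : E →ₗ[ℝ] E) W (F.invW γ)| = 1 := by
  have h1 := dt_flag (hol := hol) F.top F.le F.inv F.bdd (fun γ => D.unimod γ) γ m 0
    (Nat.zero_le _) (Nat.zero_add m)
  rw [← dt_congr _ F.bot (F.inv 0 (Nat.zero_le _) γ) (F.invW γ)]
  exact h1

/-- planes -/
theorem BFlag.plane [SecondCountableTopology X] [ConnectedSpace X] (D : AffData X Γ E dev hol)
    (F : BFlag hol W S m) (hr : Module.finrank ℝ W = 2) {a : ℕ}
    (ha : ∀ γ ∈ derivedSeries Γ a, ∀ v, lin hol γ v - v ∈ W) : IsHomeomorph dev :=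
  disc_complete D F.invW (disc_plane hr F.invW (F.dt D)) (F.con D) ha
    fun _ hl _ => stab_plane hr F.invW hl

/-- Lorentz spaces -/
theorem BFlag.lor [SecondCountableTopology X] [ConnectedSpace X] (D : AffData X Γ E dev hol)
    (F : BFlag hol W S m) (hr : Module.finrank ℝ W ≤ 4) {B : E →L[ℝ] E →L[ℝ] ℝ} {e : E}
    (L : Lor hol W B e) {a : ℕ}
    (ha : ∀ γ ∈ derivedSeries Γ a, ∀ v, lin hol γ v - v ∈ W) : IsHomeomorph dev :=
  disc_complete D F.invW (L.disc F.invW) (F.con D) ha fun _ hl hc => L.stab F.invW hr hl hc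

end

section
variable {Γ E : Type} [Group Γ] [NormedAddCommGroup E] [NormedSpace ℝ E] [FiniteDimensional ℝ E]
  {hol : Γ →* (E ≃ᵃ[ℝ] E)}

/-- linear forms preserved up to sign -/
theorem forms_flag {k : ℕ} (hk : Module.finrank ℝ E = k + 2) {f : Fin k → (E →ₗ[ℝ] ℝ)}
    (hf : LinearIndependent ℝ f)
    (hs : ∀ (γ : Γ) (i : Fin k), (∀ v, f i (lin hol γ v) = f i v) ∨
      (∀ v, f i (lin hol γ v) = - f i v)) :
    ∃ W : Submodule ℝ E, Module.finrank ℝ W = 2 ∧
      (∃ S : ℕ → Submodule ℝ E, BFlag hol W S 1) ∧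
      ∀ γ ∈ derivedSeries Γ 1, ∀ v, lin hol γ v - v ∈ W := by
  let F : E →ₗ[ℝ] (Fin k → ℝ) := LinearMap.pi f
  have hF : ∀ v i, F v i = f i v := fun v i => rfl
  have hsurj : LinearMap.range F = ⊤ := by
    by_contra hne
    obtain ⟨w, hw⟩ : ∃ w, w ∉ LinearMap.range F := by
      by_contra hcon
      push Not at hcon
      exact hne (eq_top_iff.2 fun w _ => hcon w)
    obtain ⟨g, hgw, hg⟩ := Submodule.exists_dual_map_eq_bot_of_notMem hw inferInstance
    have hg0 : ∀ v, g (F v) = 0 := by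
      intro v
      have h1 : g (F v) ∈ (LinearMap.range F).map g :=
        Submodule.mem_map_of_mem (LinearMap.mem_range_self F v)
      rwa [hg, Submodule.mem_bot] at h1
    have hgs : ∀ y, g y = ∑ i, y i * g (Pi.single i 1) := by
      intro y
      conv_lhs => rw [pi_eq_sum_univ' y]
      rw [map_sum]
      refine Finset.sum_congr rfl fun i _ => ?_
      rw [map_smul, smul_eq_mul]
    have h2 : ∑ i, g (Pi.single i 1) • f i = 0 := by
      ext v
      have h3 := hg0 v
      rw [hgs] at h3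
      rw [LinearMap.sum_apply, LinearMap.zero_apply, ← h3]
      refine Finset.sum_congr rfl fun i _ => ?_
      rw [LinearMap.smul_apply, smul_eq_mul, hF, mul_comm]
    have h3 := (Fintype.linearIndependent_iff.1 hf) _ h2
    apply hgw
    rw [hgs]
    refine Finset.sum_eq_zero fun i _ => ?_
    rw [h3 i, mul_zero]
  have hrank : Module.finrank ℝ (LinearMap.ker F) = 2 := by
    have h1 := LinearMap.finrank_range_add_finrank_ker F
    rw [hsurj, finrank_top, Module.finrank_fin_fun] at h1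
    omega
  obtain ⟨s, hs'⟩ := F.exists_rightInverse_of_surjective hsurj
  have hsF : ∀ y, F (s y) = y := fun y => congrArg (fun g : (Fin k → ℝ) →ₗ[ℝ] (Fin k → ℝ) => g y) hs'
  have hFL : ∀ (γ : Γ) v, F v = 0 → F (lin hol γ v) = 0 := by
    intro γ v hv
    ext i
    have h1 : f i v = 0 := congrFun hv i
    rw [hF]
    rcases hs γ i with h | h
    · rw [h, h1]; rfl
    · rw [h, h1, neg_zero]; rfl
  let S : ℕ → Submodule ℝ E := fun i => if i = 0 then LinearMap.ker F else ⊤
  have S0 : S 0 = LinearMap.ker F := rfl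
  have S1 : S 1 = ⊤ := rfl
  refine ⟨LinearMap.ker F, hrank, ⟨S, S0, S1, ?_, ?_, ?_⟩, ?_⟩
  · intro i hi
    interval_cases i
    rw [S1]
    exact le_top
  · intro i hi γ v hv
    interval_cases i
    · exact hFL γ v hv
    · rw [S1]; exact Submodule.mem_top
  · intro i hi
    interval_cases i
    let s' : (Fin k → ℝ) →L[ℝ] E := LinearMap.toContinuousLinearMap s
    let F' : E →L[ℝ] (Fin k → ℝ) := LinearMap.toContinuousLinearMap F
    refine ⟨‖s'‖ * ‖F'‖, fun γ w _ => ⟨s' (F (lin hol γ⁻¹ w)), Submodule.mem_top, ?_, ?_⟩⟩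
    · have h1 : ‖F (lin hol γ⁻¹ w)‖ ≤ ‖F w‖ := by
        rw [pi_norm_le_iff_of_nonneg (norm_nonneg _)]
        intro i
        have h2 : ‖F (lin hol γ⁻¹ w) i‖ = ‖F w i‖ := by
          rw [hF, hF]
          rcases hs γ⁻¹ i with h | h
          · rw [h]
          · rw [h, norm_neg]
        rw [h2]
        exact norm_le_pi_norm _ i
      have h2 : ‖F w‖ ≤ ‖F'‖ * ‖w‖ := F'.le_opNorm w
      calc ‖s' (F (lin hol γ⁻¹ w))‖ ≤ ‖s'‖ * ‖F (lin hol γ⁻¹ w)‖ := s'.le_opNorm _
        _ ≤ ‖s'‖ * (‖F'‖ * ‖w‖) := mul_le_mul_of_nonneg_left (h1.trans h2) (norm_nonneg _)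
        _ = ‖s'‖ * ‖F'‖ * ‖w‖ := by ring
    · show F (lin hol γ (s' (F (lin hol γ⁻¹ w))) - w) = 0
      have h1 : F (s' (F (lin hol γ⁻¹ w)) - lin hol γ⁻¹ w) = 0 := by
        rw [map_sub]
        show F (s (F (lin hol γ⁻¹ w))) - F (lin hol γ⁻¹ w) = 0
        rw [hsF, sub_self]
      have h2 := hFL γ _ h1
      rwa [lin_sub, lin_apply_inv] at h2
  · -- commutators act trivially on the forms
    intro γ hγ v
    rw [LinearMap.mem_ker, map_sub, sub_eq_zero]
    let U : Subgroup Γ :=
      { carrier := {γ | ∀ v, F (lin hol γ v) = F v}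
        mul_mem' := by
          intro a b ha hb v
          rw [lin_mul]
          exact (ha _).trans (hb v)
        one_mem' := by
          intro v
          rw [lin_one']
        inv_mem' := by
          intro a ha v
          have h1 := ha (lin hol a⁻¹ v)
          rw [lin_apply_inv] at h1
          exact h1.symm }
    have hle : derivedSeries Γ 1 ≤ U := by
      rw [derivedSeries_one]
      refine Subgroup.commutator_le.2 fun a _ b _ => ?_
      intro v
      ext i
      rw [hF, hF]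
      have ha := hs a i
      have hb := hs b i
      have hinv : ∀ c : Γ, ((∀ v, f i (lin hol c v) = f i v) → ∀ v, f i (lin hol c⁻¹ v) = f i v) ∧
          ((∀ v, f i (lin hol c v) = - f i v) → ∀ v, f i (lin hol c⁻¹ v) = - f i v) := by
        intro c
        constructor
        · intro h v
          have h1 := h (lin hol c⁻¹ v)
          rw [lin_apply_inv] at h1
          exact h1.symm
        · intro h v
          have h1 := h (lin hol c⁻¹ v)
          rw [lin_apply_inv] at h1
          rw [h1, neg_neg]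
      have e1 : lin hol ⁅a, b⁆ v = lin hol a (lin hol b (lin hol a⁻¹ (lin hol b⁻¹ v))) := by
        rw [commutatorElement_def, lin_mul, lin_mul, lin_mul]
      rw [e1]
      rcases ha with ha | ha <;> rcases hb with hb | hb
      · rw [ha, hb, (hinv a).1 ha, (hinv b).1 hb]
      · rw [ha, hb, (hinv a).1 ha, (hinv b).2 hb, neg_neg]
      · rw [ha, hb, (hinv a).2 ha, (hinv b).1 hb, neg_neg]
      · rw [ha, hb, (hinv a).2 ha, (hinv b).2 hb, neg_neg, neg_neg]
    exact hle hγ v

end

end Run7.h675
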