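import Pool.Agent.Run7.h675.Tri5

/-!
If the sections parallel to `W` are connected and the linear holonomy on `W` has discompacity at most
one, the developing map is injective, with image convex in the directions of `W`.
-/

set_option autoImplicit false
set_option linter.unusedSectionVars false

open Set Filter Topology Metric
open Pool.Agent.W689.Mk

namespace Run7.h675

section
variable {X Γ E : Type} [TopologicalSpace X] [T2Space X] [Group Γ] [MulAction Γ X]
  [NormedAddCommGroup E] [NormedSpace ℝ E] [FiniteDimensional ℝ E]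
  {dev : X → E} {hol : Γ →* (E ≃ᵃ[ℝ] E)}

theorem exists_ball_sec (hloc : IsLocalHomeomorph dev) (x : X) :
    ∃ (r : ℝ) (τ : E → X), 0 < r ∧ Sec dev (ball (dev x) r) τ ∧ τ (dev x) = x := by
  obtain ⟨e, r, hxe, he, hr, hrt⟩ := exists_sec hloc x
  exact ⟨r, e.symm, hr, sec_of_target e he (dev x) r hrt, by rw [he]; exact e.left_inv hxe⟩

theorem vis_of_hinge (hloc : IsLocalHomeomorph dev) {W : Submodule ℝ E}
    (hh : ∀ {x y z : X} {u w : E}, u ∈ W → w ∈ W → Ex dev x u y → Ex dev y w z →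
      Ex dev x (u + w) z) (hc : Con dev W) {x y : X} (hxy : dev y - dev x ∈ W) :
    Ex dev x (dev y - dev x) y := by
  let A : Set (Sect dev W (dev x)) := {y | Ex dev x (dev y.1 - dev x) y.1}
  have : ConnectedSpace (Sect dev W (dev x)) := Subtype.connectedSpace (hc (dev x))
  have hop : IsOpen A := by
    rw [isOpen_iff_mem_nhds]
    rintro y ⟨U, σ, a1, a2, a3, a4, a5⟩
    have h1 := a1.isOpen_image hloc a1.isOpen Subset.rfl
    have h2 : (Subtype.val : Sect dev W (dev x) → X) ⁻¹' (σ '' U) ∈ 𝓝 y :=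
      continuous_subtype_val.continuousAt (h1.mem_nhds ⟨_, a4, a5⟩)
    filter_upwards [h2] with y' hy'
    obtain ⟨q, hq, hqy⟩ := hy'
    have h3 : dev y'.1 = q := by rw [← hqy]; exact a1.inv q hq
    refine ⟨U, σ, a1, a2, a3, ?_, ?_⟩
    · rw [add_sub_cancel, h3]
      exact hq
    · rw [add_sub_cancel, h3]
      exact hqy
  have hcl : IsClosed A := by
    rw [← closure_subset_iff_isClosed]
    intro y hy
    obtain ⟨r, τ, hr, hτ, hτy⟩ := exists_ball_sec hloc y.1
    have h1 := hτ.isOpen_image hloc hτ.isOpen Subset.rfl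
    have h2 : (Subtype.val : Sect dev W (dev x) → X) ⁻¹' (τ '' ball (dev y.1) r) ∈ 𝓝 y :=
      continuous_subtype_val.continuousAt (h1.mem_nhds ⟨_, mem_ball_self hr, hτy⟩)
    obtain ⟨y1, ⟨q, hq, hqy⟩, hy1⟩ := mem_closure_iff_nhds.1 hy _ h2
    have h3 : dev y1.1 = q := by rw [← hqy]; exact hτ.inv q hq
    have h4 := Sec.Ex' hτ hq (mem_ball_self hr)
    rw [hqy, hτy] at h4
    have hqW : q - dev x ∈ W := by rw [← h3]; exact y1.2
    have hyW : dev y.1 - q ∈ W := by
      have e1 : dev y.1 - q = (dev y.1 - dev x) - (q - dev x) := by abel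
      rw [e1]
      exact W.sub_mem y.2 hqW
    have h5 : Ex dev x (dev y1.1 - dev x) y1.1 := hy1
    rw [h3] at h5
    have h6 := hh hqW hyW h5 h4
    have e2 : q - dev x + (dev y.1 - q) = dev y.1 - dev x := by abel
    rw [e2] at h6
    exact h6
  have hx : (⟨x, by show dev x - dev x ∈ W; rw [sub_self]; exact W.zero_mem⟩ :
      Sect dev W (dev x)) ∈ A := by
    show Ex dev x (dev x - dev x) x
    rw [sub_self]
    exact Ex.rfl' hloc x
  have huniv : A = univ := IsClopen.eq_univ ⟨hcl, hop⟩ ⟨_, hx⟩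
  have hy : (⟨y, hxy⟩ : Sect dev W (dev x)) ∈ A := by rw [huniv]; trivial
  exact hy

/-- visibility along `W` -/
theorem leaf_vis [Nonempty X] (D : AffData X Γ E dev hol) {W : Submodule ℝ E}
    (hd : Disc1 hol W) (hc : Con dev W) {x y : X} (hxy : dev y - dev x ∈ W) :
    Ex dev x (dev y - dev x) y := by
  obtain ⟨ρ, hρ, hh⟩ := hinge_small D hd
  exact vis_of_hinge D.loc (fun hu hw h1 h2 => hinge_large D.loc hρ hh hu hw h1 h2) hc hxy

theorem leaf_injective [Nonempty X] (D : AffData X Γ E dev hol) {W : Submodule ℝ E}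
    (hd : Disc1 hol W) (hc : Con dev W) : Function.Injective dev := by
  intro x y hxy
  have h1 : dev y - dev x ∈ W := by rw [hxy, sub_self]; exact W.zero_mem
  have h2 := leaf_vis D hd hc h1
  rw [hxy, sub_self] at h2
  exact (Ex.rfl' D.loc x).unique D.loc h2

theorem leaf_convex [Nonempty X] (D : AffData X Γ E dev hol) {W : Submodule ℝ E}
    (hd : Disc1 hol W) (hc : Con dev W) : ∀ a ∈ range dev, ∀ b ∈ range dev, b - a ∈ W →
      ∀ t ∈ Icc (0 : ℝ) 1, a + t • (b - a) ∈ range dev := by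
  rintro _ ⟨x, rfl⟩ _ ⟨y, rfl⟩ hxy t ht
  obtain ⟨z, hz⟩ := Ex.shrink' (leaf_vis D hd hc hxy) ht.1 ht.2
  exact ⟨z, hz.dev_eq⟩

end

end Run7.h675
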