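import Pool.Agent.Run7.h675.Strip

/-!
Open sets with convex slices parallel to `W`, all of whose points are centres of discs of a uniform
radius in hyperplanes of `W`: the proper slices are half-spaces or slabs.
-/

set_option autoImplicit false

open Set Filter Topology Metric

namespace Run7.h675

section
variable {E : Type} [NormedAddCommGroup E] [NormedSpace ℝ E] [FiniteDimensional ℝ E]

/-- the half-open segment from the point `q` to `y` is in `Ω` -/
def Reach (Ω : Set E) (q y : E) : Prop := ∀ t : ℝ, 0 < t → t ≤ 1 → y + t • (q - y) ∈ Ω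

/-- flatness of the boundary -/
theorem reach_disc {Ω : Set E} (hΩ : IsOpen Ω) {W : Submodule ℝ E}
    (hcv : ∀ a ∈ Ω, ∀ b ∈ Ω, b - a ∈ W → ∀ t ∈ Icc (0 : ℝ) 1, a + t • (b - a) ∈ Ω)
    {δ : ℝ} (hP : ∀ q ∈ Ω, ∃ l : E →L[ℝ] ℝ, ∀ n ∈ W, l n = 0 → ‖n‖ < δ → q + n ∈ Ω)
    {q b w : E} (hq : q ∈ Ω) (hqb : q - b ∈ W) (hw : w ∈ W) {l : E →L[ℝ] ℝ}
    (hl : ∀ y ∈ Ω, y - b ∈ W → l y < l b) (hlw : 0 < l w) {y u : E} (hy : Reach Ω q y)
    (hyb : y - b ∈ W) (hly : l y = l b) (hu : u ∈ W) (hlu : l u = 0) (hun : ‖u‖ < δ) :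
    Reach Ω q (y + u) := by
  have hlq : l q < l b := hl q hq hqb
  obtain ⟨δ', hδ1, hδ2⟩ := _root_.exists_between hun
  set c0 := l b - l q with hc0
  have hc0p : 0 < c0 := by linarith
  have hδ'0 : 0 < δ' := (norm_nonneg u).trans_lt hδ1
  have hyq : q - y ∈ W := by
    have : q - y = (q - b) - (y - b) := by abel
    rw [this]
    exact W.sub_mem hqb hyb
  -- the discs near `y`
  have hdisc : ∀ᶠ t in 𝓝[>] (0 : ℝ), ∃ β : ℝ, |β| * l w ≤ t * c0 ∧
      y + t • (q - y) + (u + β • w) ∈ Ω := by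
    have ev1 : ∀ᶠ t in 𝓝[>] (0 : ℝ), ‖u‖ + t * (c0 * ‖w‖ / l w) < δ' := by
      have hc : Continuous fun t : ℝ => ‖u‖ + t * (c0 * ‖w‖ / l w) := by fun_prop
      refine nhdsWithin_le_nhds ((hc.tendsto 0).eventually_lt_const ?_)
      rw [zero_mul, add_zero]
      exact hδ1
    have ev2 : ∀ᶠ t in 𝓝[>] (0 : ℝ), t ≤ 1 := nhdsWithin_le_nhds (ge_mem_nhds one_pos)
    filter_upwards [ev1, ev2, self_mem_nhdsWithin] with t h1 h2 h3
    have ht0 : 0 < t := h3
    have hyt := hy t ht0 h2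
    set yt := y + t • (q - y) with hytd
    have hytb : yt - b ∈ W := by
      have : yt - b = (y - b) + t • (q - y) := by rw [hytd]; abel
      rw [this]
      exact W.add_mem hyb (W.smul_mem _ hyq)
    have hlyt : l b - l yt = t * c0 := by
      rw [hytd, map_add, map_smul, map_sub, hly, smul_eq_mul, hc0]
      ring
    obtain ⟨lt, hlt⟩ := hP yt hyt
    -- elements of the disc have small `l`
    have small : ∀ n ∈ W, lt n = 0 → ‖n‖ < δ → |l n| ≤ t * c0 := by
      intro n hn h4 h5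
      have k1 := hl _ (hlt n hn h4 h5) (by
        have : yt + n - b = (yt - b) + n := by abel
        rw [this]
        exact W.add_mem hytb hn)
      have k2 := hl _ (hlt (-n) (W.neg_mem hn) (by rw [map_neg, h4, neg_zero])
        (by rwa [norm_neg])) (by
          have : yt + -n - b = (yt - b) - n := by abel
          rw [this]
          exact W.sub_mem hytb hn)
      rw [map_add] at k1
      rw [map_add, map_neg] at k2
      rw [abs_le]
      constructor <;> linarith
    have hc1 : ∀ β : ℝ, |β| * l w ≤ t * c0 → ‖β • w‖ ≤ t * (c0 * ‖w‖ / l w) := by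
      intro β hβ
      rw [norm_smul, Real.norm_eq_abs]
      have e : t * (c0 * ‖w‖ / l w) = (t * c0 / l w) * ‖w‖ := by field_simp
      rw [e]
      exact mul_le_mul_of_nonneg_right ((le_div_iff₀ hlw).2 hβ) (norm_nonneg _)
    have hltw : lt w ≠ 0 := by
      intro h0
      -- a multiple of `w` of norm `δ'`
      have hw0 : 0 < ‖w‖ := by
        rw [norm_pos_iff]
        rintro rfl
        rw [map_zero] at hlw
        exact lt_irrefl _ hlw
      have h5 : ‖(δ' / ‖w‖) • w‖ = δ' := by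
        rw [norm_smul, Real.norm_eq_abs, abs_of_pos (by positivity), div_mul_cancel₀ _ hw0.ne']
      have h6 := small ((δ' / ‖w‖) • w) (W.smul_mem _ hw)
        (by rw [map_smul, h0, smul_zero]) (by rw [h5]; exact hδ2)
      rw [map_smul, smul_eq_mul, abs_mul, abs_of_pos hlw] at h6
      have h7 := hc1 _ h6
      rw [h5] at h7
      linarith [norm_nonneg u]
    set β := -(lt u / lt w) with hβ
    have hln : lt (u + β • w) = 0 := by
      rw [map_add, map_smul, smul_eq_mul, hβ, neg_mul, div_mul_cancel₀ _ hltw, add_neg_cancel]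
    have hnW : u + β • w ∈ W := W.add_mem hu (W.smul_mem _ hw)
    have hlun : l (u + β • w) = β * l w := by
      rw [map_add, hlu, map_smul, smul_eq_mul, zero_add]
    by_cases hn : ‖u + β • w‖ < δ
    · have h6 := small _ hnW hln hn
      rw [hlun, abs_mul, abs_of_pos hlw] at h6
      exact ⟨β, h6, hlt _ hnW hln hn⟩
    · exfalso
      push Not at hn
      set N := ‖u + β • w‖ with hN
      have hNpos : 0 < N := hδ'0.trans (hδ2.trans_le hn)
      set θ := δ' / N with hθ
      have hθ0 : 0 < θ := div_pos hδ'0 hNpos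
      have hθ1 : θ < 1 := (div_lt_one hNpos).2 (hδ2.trans_le hn)
      have h5 : ‖θ • (u + β • w)‖ = δ' := by
        rw [norm_smul, Real.norm_eq_abs, abs_of_pos hθ0, ← hN, hθ, div_mul_cancel₀ _ hNpos.ne']
      have h6 := small (θ • (u + β • w)) (W.smul_mem _ hnW)
        (by rw [map_smul, hln, smul_zero]) (by rw [h5]; exact hδ2)
      rw [map_smul, hlun, smul_eq_mul, ← mul_assoc, abs_mul, abs_of_pos hlw] at h6
      have h7 := hc1 _ h6
      have h8 : δ' ≤ ‖u‖ + t * (c0 * ‖w‖ / l w) := by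
        rw [← h5, smul_add, smul_smul]
        refine (norm_add_le _ _).trans (add_le_add ?_ h7)
        rw [norm_smul, Real.norm_eq_abs, abs_of_pos hθ0]
        calc θ * ‖u‖ ≤ 1 * ‖u‖ := mul_le_mul_of_nonneg_right hθ1.le (norm_nonneg _)
          _ = ‖u‖ := one_mul _
      linarith
  -- the segment to `y + u`
  intro τ hτ0 hτ1
  obtain ⟨ε, hε, hεΩ⟩ := Metric.isOpen_iff.1 hΩ q hq
  have ev3 : ∀ᶠ t in 𝓝[>] (0 : ℝ),
      (1 - τ) / τ * (t * ‖q - y‖ + t * (c0 * ‖w‖ / l w)) < ε := by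
    have hc : Continuous fun t : ℝ =>
      (1 - τ) / τ * (t * ‖q - y‖ + t * (c0 * ‖w‖ / l w)) := by fun_prop
    refine nhdsWithin_le_nhds ((hc.tendsto 0).eventually_lt_const ?_)
    simp only [zero_mul, add_zero, mul_zero]
    exact hε
  obtain ⟨t, ⟨β, hβ, hmem⟩, h3, h4⟩ := (hdisc.and (ev3.and self_mem_nhdsWithin)).exists
  have ht0 : 0 < t := h4
  set g := y + t • (q - y) + (u + β • w) with hg
  have hβw : ‖β • w‖ ≤ t * (c0 * ‖w‖ / l w) := by
    rw [norm_smul, Real.norm_eq_abs]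
    have e : t * (c0 * ‖w‖ / l w) = (t * c0 / l w) * ‖w‖ := by field_simp
    rw [e]
    exact mul_le_mul_of_nonneg_right ((le_div_iff₀ hlw).2 hβ) (norm_nonneg _)
  set q' := q + ((1 - τ) / τ) • (y + u - g) with hq'
  have hyg : y + u - g = -(t • (q - y)) - β • w := by rw [hg]; abel
  have hq'Ω : q' ∈ Ω := by
    apply hεΩ
    rw [mem_ball, dist_eq_norm, hq', add_sub_cancel_left, hyg, norm_smul, Real.norm_eq_abs,
      abs_of_nonneg (div_nonneg (by linarith) hτ0.le)]
    refine lt_of_le_of_lt (mul_le_mul_of_nonneg_left ?_ (div_nonneg (by linarith) hτ0.le)) h3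
    refine (norm_sub_le _ _).trans (add_le_add ?_ hβw)
    rw [norm_neg, norm_smul, Real.norm_eq_abs, abs_of_pos ht0]
  have hgW : q' - g ∈ W := by
    have e : q' - g = (1 - t) • (q - y) - (u + β • w) +
        ((1 - τ) / τ) • (-(t • (q - y)) - β • w) := by
      rw [hq', hyg, hg]
      module
    rw [e]
    refine W.add_mem (W.sub_mem (W.smul_mem _ hyq) (W.add_mem hu (W.smul_mem _ hw)))
      (W.smul_mem _ (W.sub_mem (W.neg_mem (W.smul_mem _ hyq)) (W.smul_mem _ hw)))
  have key := hcv g hmem q' hq'Ω hgW τ ⟨hτ0.le, hτ1⟩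
  have e : g + τ • (q' - g) = y + u + τ • (q - (y + u)) := by
    have h5 : τ • q' = τ • q + (1 - τ) • (y + u - g) := by
      rw [hq', smul_add, smul_smul, mul_div_cancel₀ _ hτ0.ne']
    rw [smul_sub, h5]
    module
  rwa [e] at key

/-- the covectors which are bounded above on a proper slice are proportional -/
theorem slab {Ω : Set E} (hΩ : IsOpen Ω) {W : Submodule ℝ E}
    (hcv : ∀ a ∈ Ω, ∀ b ∈ Ω, b - a ∈ W → ∀ t ∈ Icc (0 : ℝ) 1, a + t • (b - a) ∈ Ω)
    {δ : ℝ} (hδ : 0 < δ) (hP : ∀ q ∈ Ω, ∃ l : E →L[ℝ] ℝ, ∀ n ∈ W, l n = 0 → ‖n‖ < δ → q + n ∈ Ω)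
    {ι : Type} (L : ι → E → E) {ρ : ℝ} (hL : ∀ q ∈ Ω, ∃ i, ∀ u ∈ W, ‖u‖ < ρ → q + L i u ∈ Ω)
    (hLn : ∀ i u, L i (-u) = -L i u) (hLW : ∀ i, ∀ u ∈ W, L i u ∈ W)
    {q z : E} (hq : q ∈ Ω) (hz : z ∉ Ω) (hzq : z - q ∈ W) :
    ∃ l : E →L[ℝ] ℝ, (∃ u ∈ W, l u ≠ 0) ∧
      (∃ M : ℝ, ∀ y ∈ Ω, y - z ∈ W → l y ≤ M) ∧
      (∀ l' : E →L[ℝ] ℝ, (∃ M : ℝ, ∀ y ∈ Ω, y - z ∈ W → l' y ≤ M) →
        ∃ c : ℝ, ∀ u ∈ W, l' u = c * l u) ∧
      ∀ ε : ℝ, 0 < ε → ∃ i, ∀ u ∈ W, ‖u‖ < ρ → |l (L i u)| ≤ ε := by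
  obtain ⟨t0, ht0, ht1, hex, hin⟩ := exists_exit hΩ hq hz
  set b := q + t0 • (z - q) with hb
  obtain ⟨l, hl⟩ := exists_support hΩ hcv hex
  set w := z - q with hw
  have hbq : b - q ∈ W := by
    rw [hb, add_sub_cancel_left]
    exact W.smul_mem _ hzq
  have hqb : q - b ∈ W := by
    rw [← neg_sub]
    exact W.neg_mem hbq
  have hbz : b - z ∈ W := by
    have : b - z = (b - q) - (z - q) := by abel
    rw [this]
    exact W.sub_mem hbq hzq
  have hlw : 0 < l w := by
    have h1 := hl q hq hqb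
    rw [hb, map_add, map_smul, smul_eq_mul] at h1
    have h2 : 0 < t0 * l w := by linarith
    exact (pos_iff_pos_of_mul_pos h2).1 ht0
  have hl' : ∀ y ∈ Ω, y - z ∈ W → l y < l b := by
    intro y hy hyz
    refine hl y hy ?_
    have : y - b = (y - z) - (b - z) := by abel
    rw [this]
    exact W.sub_mem hyz hbz
  have hreach0 : Reach Ω q b := by
    intro t h0 h1
    have := hin ((1 - t) * t0) (mul_nonneg (by linarith) ht0.le) (by nlinarith)
    have e : b + t • (q - b) = q + ((1 - t) * t0) • (z - q) := by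
      rw [hb]
      module
    rw [e]
    exact this
  have hreach : ∀ u ∈ W, l u = 0 → Reach Ω q (b + u) := by
    intro u hu hlu
    obtain ⟨n, hn⟩ := exists_nat_gt (‖u‖ / δ)
    have hn0 : 0 < (n : ℝ) := (div_nonneg (norm_nonneg _) hδ.le).trans_lt hn
    have hstep : ∀ k : ℕ, Reach Ω q (b + (k : ℝ) • ((1 / (n : ℝ)) • u)) := by
      intro k
      induction k with
      | zero =>
        rw [Nat.cast_zero, zero_smul, add_zero]
        exact hreach0
      | succ k ih =>
        have e : b + ((k + 1 : ℕ) : ℝ) • ((1 / (n : ℝ)) • u) =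
            b + (k : ℝ) • ((1 / (n : ℝ)) • u) + (1 / (n : ℝ)) • u := by
          rw [Nat.cast_succ, add_smul, one_smul]
          abel
        rw [e]
        refine reach_disc hΩ hcv hP hq hqb hzq hl hlw ih ?_ ?_ (W.smul_mem _ hu) ?_ ?_
        · rw [add_sub_cancel_left]
          exact W.smul_mem _ (W.smul_mem _ hu)
        · rw [map_add, map_smul, map_smul, hlu, smul_zero, smul_zero, add_zero]
        · rw [map_smul, hlu, smul_zero]
        · rw [norm_smul, Real.norm_eq_abs, abs_of_pos (by positivity), one_div_mul_eq_div,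
            div_lt_iff₀ hn0]
          rw [div_lt_iff₀ hδ] at hn
          linarith
    have h1 := hstep n
    rwa [smul_smul, mul_one_div_cancel hn0.ne', one_smul] at h1
  refine ⟨l, ⟨w, hzq, hlw.ne'⟩, ⟨l b, fun y h1 h2 => (hl' y h1 h2).le⟩, ?_, ?_⟩
  · rintro l' ⟨M, hM⟩
    have hvan : ∀ u ∈ W, l u = 0 → l' u = 0 := by
      intro u hu hlu
      refine zero_of_bdd (M := 2 * M - l' b - l' q) fun s => ?_
      have h1 := hreach (s • u) (W.smul_mem _ hu) (by rw [map_smul, hlu, smul_zero]) (1 / 2)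
        (by norm_num) (by norm_num)
      have h2 := hM _ h1 (by
        have e : b + s • u + (1 / 2 : ℝ) • (q - (b + s • u)) - z =
            (b - z) + (1 / 2 : ℝ) • (q - b) + (1 / 2 * s) • u := by module
        rw [e]
        exact W.add_mem (W.add_mem hbz (W.smul_mem _ hqb)) (W.smul_mem _ hu))
      rw [map_add, map_smul, map_sub, map_add, map_smul, smul_eq_mul, smul_eq_mul] at h2
      linarith
    refine ⟨l' w / l w, fun u hu => ?_⟩
    have h1 : l (u - (l u / l w) • w) = 0 := by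
      rw [map_sub, map_smul, smul_eq_mul, div_mul_cancel₀ _ hlw.ne', sub_self]
    have h2 := hvan _ (W.sub_mem hu (W.smul_mem _ hzq)) h1
    rw [map_sub, map_smul, smul_eq_mul] at h2
    have h3 : l' u = l u / l w * l' w := by linarith
    rw [h3]
    ring
  · intro ε hε
    obtain ⟨t, h0, h1, h2⟩ : ∃ t : ℝ, 0 ≤ t ∧ t < t0 ∧ (t0 - t) * l w ≤ ε := by
      refine ⟨max 0 (t0 - ε / l w), le_max_left _ _, max_lt ht0 ?_, ?_⟩
      · have : 0 < ε / l w := div_pos hε hlw
        linarith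
      · have h1 := le_max_right 0 (t0 - ε / l w)
        have h2 : t0 - max 0 (t0 - ε / l w) ≤ ε / l w := by linarith
        calc (t0 - max 0 (t0 - ε / l w)) * l w ≤ ε / l w * l w :=
              mul_le_mul_of_nonneg_right h2 hlw.le
          _ = ε := div_mul_cancel₀ _ hlw.ne'
    have hqt := hin t h0 h1
    obtain ⟨i, hi⟩ := hL _ hqt
    refine ⟨i, fun u hu hun => ?_⟩
    have h4 : l b - l (q + t • (z - q)) = (t0 - t) * l w := by
      rw [hb, map_add, map_add, map_smul, map_smul, smul_eq_mul, smul_eq_mul]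
      ring
    have hmem : ∀ v ∈ W, q + t • (z - q) + v - b ∈ W := by
      intro v hv
      have e : q + t • (z - q) + v - b = (q - b) + t • (z - q) + v := by abel
      rw [e]
      exact W.add_mem (W.add_mem hqb (W.smul_mem _ hzq)) hv
    have k1 := hl _ (hi u hu hun) (hmem _ (hLW i u hu))
    have k2 := hl _ (hi (-u) (W.neg_mem hu) (by rwa [norm_neg]))
      (hmem _ (hLW i _ (W.neg_mem hu)))
    rw [map_add] at k1
    rw [hLn, map_add, map_neg] at k2
    rw [abs_le]
    constructor <;> linarith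

end

end Run7.h675
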