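import Pool.Agent.W689.Mk.Sec

/-!
Groups of affine maps whose linear parts act on the quotients of a flag by commuting maps.
-/

set_option autoImplicit false

open Set
open scoped commutatorElement
open Pool.Agent.W689.Mk

namespace Run7.h675

section
variable {Γ E : Type} [Group Γ] [NormedAddCommGroup E] [NormedSpace ℝ E]
  {hol : Γ →* (E ≃ᵃ[ℝ] E)}

theorem lin_sub (γ : Γ) (v w : E) : lin hol γ (v - w) = lin hol γ v - lin hol γ w :=
  map_sub (hol γ).linear v w

theorem lin_add (γ : Γ) (v w : E) : lin hol γ (v + w) = lin hol γ v + lin hol γ w :=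
  map_add (hol γ).linear v w

theorem lin_smul' (γ : Γ) (t : ℝ) (v : E) : lin hol γ (t • v) = t • lin hol γ v :=
  map_smul (hol γ).linear t v

theorem lin_one' (v : E) : lin hol (1 : Γ) v = v := by
  have h := lin_inv_apply (hol := hol) (1 : Γ) v
  rw [inv_one] at h
  have h2 := lin_mul (hol := hol) (1 : Γ) 1 v
  rw [mul_one] at h2
  rw [h2, h]

theorem lin_apply_inv (γ : Γ) (v : E) : lin hol γ (lin hol γ⁻¹ v) = v := by
  rw [← lin_mul, mul_inv_cancel, lin_one']

/-- the commutator acts as the difference -/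
theorem lin_comm (γ δ : Γ) (v : E) : lin hol ⁅γ, δ⁆ v - v =
    lin hol γ (lin hol δ (lin hol (δ * γ)⁻¹ v)) - lin hol δ (lin hol γ (lin hol (δ * γ)⁻¹ v)) := by
  rw [← lin_mul γ δ, ← lin_mul δ γ, lin_apply_inv, ← lin_mul, commutatorElement_def]
  congr 2
  group

theorem F_mono {F : ℕ → Submodule ℝ E} {N : ℕ} (hF : ∀ i < N, F i ≤ F (i + 1)) {i j : ℕ}
    (hij : i ≤ j) (hj : j ≤ N) : F i ≤ F j := by
  induction j, hij using Nat.le_induction with
  | base => exact le_rfl
  | succ j hij ih => exact (ih (by omega)).trans (hF j (by omega))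

/-- the iterated derived subgroups move down the flag -/
theorem derived_flag (D : ℕ → Subgroup Γ) (hD : ∀ j, D (j + 1) ≤ ⁅D j, D j⁆)
    {F : ℕ → Submodule ℝ E} {N : ℕ} (hF : ∀ i < N, F i ≤ F (i + 1))
    (hinv : ∀ γ ∈ D 0, ∀ i ≤ N, ∀ v ∈ F i, lin hol γ v ∈ F i)
    (hcomm : ∀ γ ∈ D 0, ∀ δ ∈ D 0, ∀ i < N, ∀ v ∈ F (i + 1),
      lin hol γ (lin hol δ v) - lin hol δ (lin hol γ v) ∈ F i) (j : ℕ) :
    ∀ γ ∈ D (j + 1), ∀ i ≤ N, ∀ v ∈ F i, lin hol γ v - v ∈ F (i - (j + 1)) := by
  have hD0 : ∀ j, D j ≤ D 0 := by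
    intro j
    induction j with
    | zero => exact le_rfl
    | succ j ih => exact ((hD j).trans (Subgroup.commutator_le_self _)).trans ih
  let U : ℕ → Subgroup Γ := fun j =>
    { carrier := {γ | γ ∈ D 0 ∧ ∀ i ≤ N, ∀ v ∈ F i, lin hol γ v - v ∈ F (i - j)}
      mul_mem' := by
        rintro a b ⟨ha, ha'⟩ ⟨hb, hb'⟩
        refine ⟨mul_mem ha hb, fun i hi v hv => ?_⟩
        have e : lin hol (a * b) v - v = lin hol a (lin hol b v - v) + (lin hol a v - v) := by
          rw [lin_mul, lin_sub]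
          abel
        rw [e]
        exact (F (i - j)).add_mem (hinv a ha _ (by omega) _ (hb' i hi v hv)) (ha' i hi v hv)
      one_mem' := ⟨one_mem _, fun i hi v hv => by
        rw [lin_one', sub_self]
        exact Submodule.zero_mem _⟩
      inv_mem' := by
        rintro a ⟨ha, ha'⟩
        refine ⟨inv_mem ha, fun i hi v hv => ?_⟩
        have e : lin hol a⁻¹ v - v = -(lin hol a⁻¹ (lin hol a v - v)) := by
          rw [lin_sub, lin_inv_apply]
          abel
        rw [e]
        exact (F (i - j)).neg_mem (hinv a⁻¹ (inv_mem ha) _ (by omega) _ (ha' i hi v hv)) }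
  have hU : ∀ j γ, γ ∈ U j ↔ γ ∈ D 0 ∧ ∀ i ≤ N, ∀ v ∈ F i, lin hol γ v - v ∈ F (i - j) :=
    fun j γ => Iff.rfl
  have main : ∀ j, D (j + 1) ≤ U (j + 1) := by
    intro j
    induction j with
    | zero =>
      refine (hD 0).trans (Subgroup.commutator_le.2 fun γ hγ δ hδ => ?_)
      rw [hU]
      refine ⟨Subgroup.commutator_le_self _ (Subgroup.commutator_mem_commutator hγ hδ),
        fun i hi v hv => ?_⟩
      rw [lin_comm]
      have hw : lin hol (δ * γ)⁻¹ v ∈ F i := hinv _ (inv_mem (mul_mem hδ hγ)) i hi v hv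
      rcases Nat.eq_zero_or_pos i with rfl | hi0
      · exact (F 0).sub_mem (hinv γ hγ 0 hi _ (hinv δ hδ 0 hi _ hw))
          (hinv δ hδ 0 hi _ (hinv γ hγ 0 hi _ hw))
      · obtain ⟨i', rfl⟩ : ∃ i', i = i' + 1 := ⟨i - 1, by omega⟩
        exact hcomm γ hγ δ hδ i' (by omega) _ hw
    | succ j ih =>
      refine (hD (j + 1)).trans ((Subgroup.commutator_mono ih ih).trans
        (Subgroup.commutator_le.2 fun γ hγ δ hδ => ?_))
      rw [hU] at hγ hδ ⊢
      refine ⟨Subgroup.commutator_le_self _ (Subgroup.commutator_mem_commutator hγ.1 hδ.1),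
        fun i hi v hv => ?_⟩
      rw [lin_comm]
      set w := lin hol (δ * γ)⁻¹ v with hw'
      have hw : w ∈ F i := hinv _ (inv_mem (mul_mem hδ.1 hγ.1)) i hi v hv
      have e : lin hol γ (lin hol δ w) - lin hol δ (lin hol γ w) =
          (lin hol γ (lin hol δ w - w) - (lin hol δ w - w)) -
            (lin hol δ (lin hol γ w - w) - (lin hol γ w - w)) := by
        rw [lin_sub, lin_sub]
        abel
      rw [e]
      have h1 := hγ.2 (i - (j + 1)) (by omega) _ (hδ.2 i hi w hw)
      have h2 := hδ.2 (i - (j + 1)) (by omega) _ (hγ.2 i hi w hw)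
      exact F_mono hF (by omega) (by omega) ((F _).sub_mem h1 h2)
  intro γ hγ i hi v hv
  exact (main j hγ).2 i hi v hv

/-- elements acting by scalars on the quotient `Q / P` commute on it -/
theorem comm_of_scalar {P Q : Submodule ℝ E} {γ δ : Γ} (hPγ : ∀ v ∈ P, lin hol γ v ∈ P)
    (hPδ : ∀ v ∈ P, lin hol δ v ∈ P) (hγ : ∃ c : ℝ, ∀ v ∈ Q, lin hol γ v - c • v ∈ P)
    (hδ : ∃ c : ℝ, ∀ v ∈ Q, lin hol δ v - c • v ∈ P) {v : E} (hv : v ∈ Q) :
    lin hol γ (lin hol δ v) - lin hol δ (lin hol γ v) ∈ P := by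
  obtain ⟨c, hc⟩ := hγ
  obtain ⟨d, hd⟩ := hδ
  have h1 := hPγ _ (hd v hv)
  have h2 := hPδ _ (hc v hv)
  have h3 := P.smul_mem d (hc v hv)
  have h4 := P.smul_mem c (hd v hv)
  have e : lin hol γ (lin hol δ v) - lin hol δ (lin hol γ v) =
      (lin hol γ (lin hol δ v - d • v) + d • (lin hol γ v - c • v)) -
        (lin hol δ (lin hol γ v - c • v) + c • (lin hol δ v - d • v)) := by
    rw [lin_sub, lin_sub, lin_smul', lin_smul']
    module
  rw [e]
  exact P.sub_mem (P.add_mem h1 h3) (P.add_mem h2 h4)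

/-- commutators of elements which act trivially on the vector space `E / B` act trivially on the
affine space `E / B` -/
theorem derived_affine {B : Submodule ℝ E} {K : Subgroup Γ}
    (hK : ∀ γ ∈ K, ∀ v, lin hol γ v - v ∈ B) : ∀ γ ∈ ⁅K, K⁆, ∀ q, hol γ q - q ∈ B := by
  let U : Subgroup Γ :=
    { carrier := {γ | ∀ q, hol γ q - q ∈ B}
      mul_mem' := by
        intro a b ha hb q
        have e : hol (a * b) q - q = (hol a (hol b q) - hol b q) + (hol b q - q) := by
          rw [map_mul]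
          show hol a (hol b q) - q = _
          abel
        rw [e]
        exact B.add_mem (ha _) (hb _)
      one_mem' := by
        intro q
        rw [map_one]
        show q - q ∈ B
        rw [sub_self]
        exact B.zero_mem
      inv_mem' := by
        intro a ha q
        have h1 := ha (hol a⁻¹ q)
        rw [hol_apply_inv] at h1
        have e : hol a⁻¹ q - q = -(q - hol a⁻¹ q) := by abel
        rw [e]
        exact B.neg_mem h1 }
  have hle : ⁅K, K⁆ ≤ U := by
    refine Subgroup.commutator_le.2 fun γ hγ δ hδ q => ?_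
    set q' := hol (δ * γ)⁻¹ q with hq'
    have h0 : hol (δ * γ) q' = q := hol_apply_inv _ _
    have h1 : hol ⁅γ, δ⁆ q = hol γ (hol δ q') := by
      have e1 : ⁅γ, δ⁆ = (γ * δ) * (δ * γ)⁻¹ := by
        rw [commutatorElement_def]
        group
      rw [e1, map_mul]
      show hol (γ * δ) (hol (δ * γ)⁻¹ q) = _
      rw [map_mul]
      rfl
    have h2 : q = hol δ (hol γ q') := by
      rw [← h0, map_mul]
      rfl
    have h3 : hol ⁅γ, δ⁆ q - q = hol γ (hol δ q') - hol δ (hol γ q') := by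
      rw [h1, ← h2]
    rw [h3]
    have e : hol γ (hol δ q') - hol δ (hol γ q') =
        (lin hol γ (hol δ q' - q') - (hol δ q' - q')) -
          (lin hol δ (hol γ q' - q') - (hol γ q' - q')) := by
      rw [← hol_sub, ← hol_sub]
      abel
    rw [e]
    exact B.sub_mem (hK γ hγ _) (hK δ hδ _)
  intro γ hγ
  exact hle hγ

/-- a group whose derived series acts trivially has solvable image -/
theorem solvable_image {n : ℕ} (h : ∀ γ ∈ derivedSeries Γ n, ∀ v, lin hol γ v = v) :
    Group.IsSolvable ((⊤ : Subgroup Γ).map (AffineEquiv.linearHom.comp hol)) := by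
  set f : Γ →* (E ≃ₗ[ℝ] E) := AffineEquiv.linearHom.comp hol with hf
  refine ⟨n, ?_⟩
  have hs : Function.Surjective (f.subgroupMap (⊤ : Subgroup Γ)) :=
    MonoidHom.subgroupMap_surjective f ⊤
  rw [← map_derivedSeries_eq hs n, eq_bot_iff]
  rintro _ ⟨γ, hγ, rfl⟩
  have h1 : (γ : Γ) ∈ derivedSeries Γ n := by
    have h2 := map_derivedSeries_le_derivedSeries (⊤ : Subgroup Γ).subtype n
    exact h2 ⟨γ, hγ, rfl⟩
  rw [Subgroup.mem_bot]
  apply Subtype.ext
  apply LinearEquiv.ext
  intro v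
  exact h γ h1 v

end

end Run7.h675
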