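import Pool.Agent.Y449.MS.All
import Pool.Agent.TH94.MK.Main
import Pool.Agent.Run7.h675.Leaf
import Pool.Agent.Run7.h675.Slab
import Pool.Agent.Run7.h675.Solv

/-!
Completeness: linear holonomy of discompacity at most one on an invariant subspace `W`, and solvable
modulo `W`.
-/

set_option autoImplicit false

open Set Filter Topology Metric
open Pool.Agent.W689.Mk

namespace Run7.h675

section
variable {Γ E : Type} [Group Γ] [NormedAddCommGroup E] [NormedSpace ℝ E]
  {hol : Γ →* (E ≃ᵃ[ℝ] E)}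

theorem map_derived_le (K : Subgroup Γ) (n : ℕ) :
    (derivedSeries K (n + 1)).map K.subtype ≤
      ⁅(derivedSeries K n).map K.subtype, (derivedSeries K n).map K.subtype⁆ := by
  rw [derivedSeries_succ, Subgroup.map_commutator]

theorem derived_add (a n : ℕ) :
    derivedSeries Γ (a + n) ≤ (derivedSeries (derivedSeries Γ a) n).map
      (derivedSeries Γ a).subtype := by
  induction n with
  | zero =>
    intro γ hγ
    rw [add_zero] at hγ
    exact ⟨⟨γ, hγ⟩, Subgroup.mem_top _, rfl⟩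
  | succ n ih =>
    rw [← add_assoc, derivedSeries_succ, derivedSeries_succ, Subgroup.map_commutator]
    exact Subgroup.commutator_mono ih ih

/-- every group of elements of the holonomy which preserves the covector `l` on `W` up to scalars
acts on `W` through a solvable group -/
def StabSolv (hol : Γ →* (E ≃ᵃ[ℝ] E)) (W : Submodule ℝ E) (l : E →L[ℝ] ℝ) : Prop :=
  ∀ K : Subgroup Γ, (∀ γ ∈ K, ∃ c : ℝ, ∀ u ∈ W, l (lin hol γ u) = c * l u) →
    ∃ n : ℕ, ∀ γ ∈ (derivedSeries K n).map K.subtype, ∀ v ∈ W, lin hol γ v = v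

/-- the images of the covector `l`, restricted to `W`, come arbitrarily close to zero -/
def Contract (hol : Γ →* (E ≃ᵃ[ℝ] E)) (W : Submodule ℝ E) (l : E →L[ℝ] ℝ) : Prop :=
  ∀ ε : ℝ, 0 < ε → ∃ γ : Γ, ∀ u ∈ W, ‖u‖ ≤ 1 → |l (lin hol γ u)| ≤ ε

/-- flags of `W` with commuting quotients -/
theorem stab_flag {W : Submodule ℝ E} {K : Subgroup Γ} {F : ℕ → Submodule ℝ E} {N : ℕ}
    (h0 : F 0 = ⊥) (hN : F N = W) (hF : ∀ i < N, F i ≤ F (i + 1))
    (hinv : ∀ γ ∈ K, ∀ i ≤ N, ∀ v ∈ F i, lin hol γ v ∈ F i)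
    (hcomm : ∀ γ ∈ K, ∀ δ ∈ K, ∀ i < N, ∀ v ∈ F (i + 1),
      lin hol γ (lin hol δ v) - lin hol δ (lin hol γ v) ∈ F i) :
    ∃ n : ℕ, ∀ γ ∈ (derivedSeries K n).map K.subtype, ∀ v ∈ W, lin hol γ v = v := by
  have hK : ∀ γ ∈ (derivedSeries K 0).map K.subtype, γ ∈ K := by
    rintro _ ⟨γ, -, rfl⟩
    exact γ.2
  have key := derived_flag (hol := hol) (fun j => (derivedSeries K j).map K.subtype)
    (fun j => map_derived_le K j) (F := F) (N := N) hF
    (fun γ hγ i hi v hv => hinv γ (hK γ hγ) i hi v hv)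
    (fun γ hγ δ hδ i hi v hv => hcomm γ (hK γ hγ) δ (hK δ hδ) i hi v hv) N
  refine ⟨N + 1, fun γ hγ v hv => ?_⟩
  have h1 := key γ hγ N le_rfl v (by rw [hN]; exact hv)
  have e : N - (N + 1) = 0 := by omega
  rw [e, h0, Submodule.mem_bot, sub_eq_zero] at h1
  exact h1

end

section
variable {X Γ E : Type} [TopologicalSpace X] [T2Space X] [Group Γ] [MulAction Γ X]
  [NormedAddCommGroup E] [NormedSpace ℝ E] [FiniteDimensional ℝ E]
  {dev : X → E} {hol : Γ →* (E ≃ᵃ[ℝ] E)}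

/-- the covector of a proper slice -/
theorem disc_slab [SecondCountableTopology X] [ConnectedSpace X] (D : AffData X Γ E dev hol)
    {W : Submodule ℝ E} (hW : ∀ γ : Γ, ∀ v ∈ W, lin hol γ v ∈ W) (hd : Disc1 hol W)
    (hc : Con dev W) {z : E} (hz : z ∉ range dev) :
    ∃ l : E →L[ℝ] ℝ, (∃ u ∈ W, l u ≠ 0) ∧ Contract hol W l ∧
      ∀ γ : Γ, (∀ q, hol γ q - q ∈ W) → ∃ c : ℝ, ∀ u ∈ W, l (lin hol γ u) = c * l u := by
  obtain ⟨x, hx⟩ := (hc z).nonempty
  have : ProperSpace E := FiniteDimensional.proper_real E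
  have hop : IsOpen (range dev) := D.loc.isOpenMap.isOpen_range
  obtain ⟨C0, hC0, hC0r, hcc⟩ := Pool.Agent.TH94.MK.range_cc D
  obtain ⟨ρ, hρ, hρΩ⟩ := hC0.exists_cthickening_subset_open hop hC0r
  have hL : ∀ q ∈ range dev, ∃ γ : Γ, ∀ u : E, ‖u‖ < ρ → q + lin hol γ u ∈ range dev := by
    intro q hq
    obtain ⟨γ, c, hc, hcq⟩ := hcc q hq
    refine ⟨γ, fun u hu => ?_⟩
    have h1 : c + u ∈ range dev := hρΩ (mem_cthickening_of_dist_le _ _ _ _ hc (by
      rw [dist_eq_norm, add_sub_cancel_left]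
      exact hu.le))
    have h2 := Pool.Agent.TH94.MK.range_inv D γ _ h1
    rw [hol_add, hcq] at h2
    exact h2
  obtain ⟨C, hC⟩ := hd
  have hP : ∀ q ∈ range dev, ∃ l : E →L[ℝ] ℝ, ∀ n ∈ W, l n = 0 → ‖n‖ < ρ / (|C| + 1) →
      q + n ∈ range dev := by
    intro q hq
    obtain ⟨γ, hγ⟩ := hL q hq
    obtain ⟨l, hl⟩ := hC γ⁻¹
    refine ⟨l, fun n hn hln hnn => ?_⟩
    have h1 : ‖lin hol γ⁻¹ n‖ < ρ := by
      refine (hl n hn hln).trans_lt ?_
      rw [lt_div_iff₀ (by positivity)] at hnn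
      have h2 : C * ‖n‖ ≤ |C| * ‖n‖ := mul_le_mul_of_nonneg_right (le_abs_self C) (norm_nonneg _)
      nlinarith [norm_nonneg n]
    have h2 := hγ _ h1
    rwa [lin_apply_inv] at h2
  obtain ⟨l, h1, ⟨M, h2⟩, h3, h4⟩ := slab hop (leaf_convex D ⟨C, hC⟩ hc)
    (δ := ρ / (|C| + 1)) (by positivity) hP (fun (γ : Γ) u => lin hol γ u) (ρ := ρ)
    (fun q hq => by
      obtain ⟨γ, hγ⟩ := hL q hq
      exact ⟨γ, fun u _ hu => hγ u hu⟩)
    (fun γ u => map_neg (hol γ).linear u) (fun γ u hu => hW γ u hu)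
    (mem_range_self x) hz (by
      rw [← neg_sub]
      exact W.neg_mem hx)
  refine ⟨l, h1, ?_, fun γ hγ => ?_⟩
  · intro ε hε
    obtain ⟨γ, hγ⟩ := h4 (ε * (ρ / 2)) (by positivity)
    refine ⟨γ, fun u hu hun => ?_⟩
    have h5 := hγ ((ρ / 2) • u) (W.smul_mem _ hu) (by
      rw [norm_smul, Real.norm_eq_abs, abs_of_pos (by positivity)]
      nlinarith [norm_nonneg u])
    beta_reduce at h5
    rw [lin_smul', map_smul, smul_eq_mul, abs_mul, abs_of_pos (by positivity)] at h5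
    have h6 : ρ / 2 * |l (lin hol γ u)| ≤ ρ / 2 * ε := by linarith
    exact le_of_mul_le_mul_left h6 (by positivity)
  · let T : E →L[ℝ] E := LinearMap.toContinuousLinearMap ((hol γ).linear : E →ₗ[ℝ] E)
    refine h3 (l.comp T) ⟨M - l (hol γ 0), fun y hy hyz => ?_⟩
    have h5 : hol γ y ∈ range dev := Pool.Agent.TH94.MK.range_inv D γ y hy
    have h6 : hol γ y - z ∈ W := by
      have : hol γ y - z = (hol γ y - y) + (y - z) := by abel
      rw [this]
      exact Submodule.add_mem _ (hγ y) hyz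
    have h7 := h2 _ h5 h6
    have h8 : hol γ y = hol γ 0 + lin hol γ y := by
      rw [← hol_add, zero_add]
    rw [h8, map_add] at h7
    show l (lin hol γ y) ≤ M - l (hol γ 0)
    linarith

/-- completeness -/
theorem disc_complete [SecondCountableTopology X] [ConnectedSpace X] (D : AffData X Γ E dev hol)
    {W : Submodule ℝ E} (hW : ∀ γ : Γ, ∀ v ∈ W, lin hol γ v ∈ W) (hd : Disc1 hol W)
    (hc : Con dev W) {a : ℕ} (ha : ∀ γ ∈ derivedSeries Γ a, ∀ v, lin hol γ v - v ∈ W)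
    (hr : ∀ l : E →L[ℝ] ℝ, (∃ u ∈ W, l u ≠ 0) → Contract hol W l → StabSolv hol W l) :
    IsHomeomorph dev := by
  have hinj := leaf_injective D hd hc
  by_cases h : range dev = univ
  · exact ⟨D.loc.continuous, D.loc.isOpenMap, hinj, range_eq_univ.1 h⟩
  obtain ⟨z, hz⟩ := (ne_univ_iff_exists_notMem _).1 h
  obtain ⟨l, hl0, hlc, hl⟩ := disc_slab D hW hd hc hz
  have haff : ∀ γ ∈ derivedSeries Γ (a + 1), ∀ q, hol γ q - q ∈ W := by
    rw [derivedSeries_succ]
    exact derived_affine ha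
  obtain ⟨n, hn⟩ := hr l hl0 hlc (derivedSeries Γ (a + 1)) (fun γ hγ => hl γ (haff γ hγ))
  have hWt : ∀ γ ∈ derivedSeries Γ (a + 1 + n), ∀ v ∈ W, lin hol γ v = v :=
    fun γ hγ => hn γ (derived_add (a + 1) n hγ)
  have hBt : ∀ γ ∈ derivedSeries Γ (a + 1 + n), ∀ v, lin hol γ v - v ∈ W := by
    intro γ hγ
    refine ha γ (derivedSeries_antitone Γ ?_ hγ)
    omega
  let F : ℕ → Submodule ℝ E := fun i => if i = 0 then ⊥ else if i = 1 then W else ⊤
  have F0 : F 0 = ⊥ := rfl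
  have F1 : F 1 = W := rfl
  have F2 : F 2 = ⊤ := rfl
  have key := derived_flag (hol := hol) (fun j => derivedSeries Γ (a + 1 + n + j))
    (fun j => (derivedSeries_succ Γ (a + 1 + n + j)).le) (F := F) (N := 2)
    (by
      intro i hi
      interval_cases i
      · rw [F0]; exact bot_le
      · rw [F2]; exact le_top)
    (by
      intro γ hγ i hi v hv
      interval_cases i
      · rw [F0, Submodule.mem_bot] at hv ⊢
        rw [hv]
        exact map_zero (hol γ).linear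
      · exact hW γ v hv
      · rw [F2]; exact Submodule.mem_top)
    (by
      intro γ hγ δ hδ i hi v hv
      interval_cases i
      · rw [zero_add, F1] at hv
        rw [F0, hWt δ hδ v hv, hWt γ hγ v hv, hWt δ hδ v hv, sub_self]
        exact Submodule.zero_mem _
      · rw [F1]
        have e : lin hol γ (lin hol δ v) - lin hol δ (lin hol γ v) =
            (lin hol γ (lin hol δ v) - lin hol δ v) + (lin hol δ v - v) -
              (lin hol δ (lin hol γ v) - lin hol γ v) - (lin hol γ v - v) := by abel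
        rw [e]
        exact W.sub_mem (W.sub_mem (W.add_mem (hBt γ hγ _) (hBt δ hδ _)) (hBt δ hδ _))
          (hBt γ hγ _)) 1
  have hsolv : Group.IsSolvable ((⊤ : Subgroup Γ).map (AffineEquiv.linearHom.comp hol)) := by
    refine solvable_image (n := a + 1 + n + (1 + 1)) fun γ hγ v => ?_
    have h1 := key γ hγ 2 le_rfl v (by rw [F2]; exact Submodule.mem_top)
    rw [show 2 - (1 + 1) = 0 from rfl, F0, Submodule.mem_bot, sub_eq_zero] at h1
    exact h1
  exact Pool.Agent.Y449.MS.Wrap.main Pool.Agent.Y449.MS.All.finv X Γ E dev hol D hinj ⊤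
    inferInstance hsolv

end

end Run7.h675
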