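import Mathlib

/-!
One-ended groups, in terms of almost invariant subsets; free products of two non-trivial groups are
not one-ended.
-/

set_option autoImplicit false

open Set

namespace Run7.h675

/-- A group is one-ended if it is infinite and every subset `S` which differs from each of its right
translates by finitely many elements is finite or has finite complement. -/
def OneEnded (G : Type) [Group G] : Prop :=
  Infinite G ∧ ∀ S : Set G, (∀ g : G, {s | s ∈ S ∧ s * g ∉ S}.Finite) → S.Finite ∨ Sᶜ.Finite

theorem OneEnded.left {G : Type} [Group G] (h : OneEnded G) (S : Set G)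
    (hS : ∀ g : G, {s | s ∈ S ∧ g * s ∉ S}.Finite) : S.Finite ∨ Sᶜ.Finite := by
  have h1 := h.2 (Inv.inv ⁻¹' S) (fun g => by
    refine ((hS g⁻¹).image Inv.inv).subset ?_
    rintro s ⟨hs1, hs2⟩
    refine ⟨s⁻¹, ⟨hs1, ?_⟩, inv_inv s⟩
    intro h3
    apply hs2
    show (s * g)⁻¹ ∈ S
    rw [mul_inv_rev]
    exact h3)
  have e : ∀ T : Set G, T = Inv.inv '' (Inv.inv ⁻¹' T) := fun T =>
    (image_preimage_eq T inv_surjective).symm
  rcases h1 with h1 | h1
  · left
    rw [e S]
    exact h1.image _
  · right
    rw [e Sᶜ]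
    exact h1.image _

theorem OneEnded.of_equiv {G H : Type} [Group G] [Group H] (h : OneEnded G) (e : G ≃* H) :
    OneEnded H := by
  obtain ⟨h1, h2⟩ := h
  refine ⟨e.toEquiv.infinite_iff.1 h1, fun S hS => ?_⟩
  have h3 := h2 (e ⁻¹' S) (fun g => by
    refine ((hS (e g)).preimage e.injective.injOn).subset ?_
    rintro s ⟨hs1, hs2⟩
    refine ⟨hs1, fun h4 => hs2 ?_⟩
    show e (s * g) ∈ S
    rw [map_mul]
    exact h4)
  have e' : ∀ T : Set H, T = e '' (e ⁻¹' T) := fun T =>
    (image_preimage_eq T e.surjective).symm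
  rcases h3 with h3 | h3
  · left
    rw [e' S]
    exact h3.image _
  · right
    rw [e' Sᶜ]
    exact h3.image _

section
open Monoid CoprodI
variable {ι : Type} {G : ι → Type} [∀ i, Group (G i)]

/-- index of the last letter -/
def lst (w : Word G) : Option ι := w.toList.getLast?.map Sigma.fst

theorem lst_cons_ne {i : ι} (m : G i) (w : Word G) (h1 : w.fstIdx ≠ some i) (h2 : m ≠ 1)
    (hw : w.toList ≠ []) : lst (Word.cons m w h1 h2) = lst w := by
  unfold lst Word.cons
  simp only [List.getLast?_cons]
  obtain ⟨a, ha⟩ : ∃ a, w.toList.getLast? = some a := by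
    rw [← Option.isSome_iff_exists, List.getLast?_isSome]
    exact hw
  rw [ha]
  rfl

theorem lst_cons_nil {i : ι} (m : G i) (w : Word G) (h1 : w.fstIdx ≠ some i) (h2 : m ≠ 1)
    (hw : w.toList = []) : lst (Word.cons m w h1 h2) = some i := by
  unfold lst Word.cons
  simp [hw]

variable [DecidableEq ι] [∀ i, DecidableEq (G i)]

theorem smul_of_ne {j : ι} (m : G j) (w : Word G) (h1 : w.fstIdx ≠ some j) :
    (m = 1 ∧ (of m : CoprodI G) • w = w) ∨
      ∃ h2 : m ≠ 1, (of m : CoprodI G) • w = Word.cons m w h1 h2 := by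
  by_cases h2 : m = 1
  · left
    refine ⟨h2, ?_⟩
    rw [h2, map_one, one_smul]
  · right
    refine ⟨h2, ?_⟩
    rw [Word.cons_eq_smul]

omit [DecidableEq ι] [∀ i, DecidableEq (G i)] in
theorem toList_ne_of_lst {w : Word G} {i : ι} (h : lst w = some i) : w.toList ≠ [] := by
  intro h1
  unfold lst at h
  rw [h1] at h
  simp at h

/-- multiplication by a letter changes the last letter of at most one word -/
theorem lst_smul {i j : ι} (m : G j) (w : Word G) (hw : lst w = some i) :
    lst ((of m : CoprodI G) • w) = some i ∨ w = (of m⁻¹ : CoprodI G) • (Word.empty : Word G) := by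
  have hne := toList_ne_of_lst hw
  by_cases h1 : w.fstIdx = some j
  · revert hw hne h1
    refine Word.consRecOn w ?_ ?_
    · intro hw hne
      exact (hne rfl).elim
    · intro k h t ht hh _ hw hne h1
      have hk : k = j := by
        rw [Word.fstIdx_cons] at h1
        exact Option.some_injective _ h1
      subst hk
      have e1 : (of m : CoprodI G) • Word.cons h t ht hh = (of (m * h) : CoprodI G) • t := by
        rw [Word.cons_eq_smul, map_mul, mul_smul]
      by_cases htl : t.toList = []
      · have hte : t = Word.empty := Word.ext htl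
        by_cases hmh : m * h = 1
        · right
          rw [Word.cons_eq_smul, hte]
          rw [eq_inv_of_mul_eq_one_right hmh]
        · left
          rw [e1]
          rcases smul_of_ne (m * h) t ht with ⟨h2, -⟩ | ⟨h2, h3⟩
          · exact (hmh h2).elim
          · rw [h3, lst_cons_nil _ _ _ _ htl]
            rw [lst_cons_nil _ _ _ _ htl] at hw
            exact hw
      · left
        rw [lst_cons_ne _ _ _ _ htl] at hw
        rw [e1]
        rcases smul_of_ne (m * h) t ht with ⟨-, h3⟩ | ⟨h2, h3⟩
        · rw [h3, hw]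
        · rw [h3, lst_cons_ne _ _ _ _ htl, hw]
  · left
    rcases smul_of_ne m w h1 with ⟨-, h3⟩ | ⟨h2, h3⟩
    · rw [h3, hw]
    · rw [h3, lst_cons_ne _ _ _ _ hne, hw]

/-- the elements whose reduced word has its last letter in the `i`-th factor -/
def endsIn (i : ι) : Set (CoprodI G) := {x | lst (Word.equiv x) = some i}

theorem equiv_mul (x y : CoprodI G) : Word.equiv (x * y) = x • Word.equiv y := by
  have h : ∀ z : CoprodI G, Word.equiv z = z • (Word.empty : Word G) := fun _ => rfl
  rw [h, h, mul_smul]

theorem endsIn_almost (i : ι) (g : CoprodI G) :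
    {s | s ∈ (endsIn i : Set (CoprodI G)) ∧ g * s ∉ (endsIn i : Set (CoprodI G))}.Finite := by
  induction g using CoprodI.induction_on with
  | one =>
    refine Set.finite_empty.subset ?_
    rintro s ⟨h1, h2⟩
    rw [one_mul] at h2
    exact h2 h1
  | of j m =>
    refine (Set.finite_singleton (of m⁻¹ : CoprodI G)).subset ?_
    rintro s ⟨h1, h2⟩
    rcases lst_smul m _ h1 with h3 | h3
    · exact (h2 (by
        show lst (Word.equiv (of m * s)) = some i
        rw [equiv_mul]
        exact h3)).elim
    · rw [mem_singleton_iff]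
      apply Word.equiv.injective
      rw [h3]
      rfl
  | mul x y hx hy =>
    refine (hy.union (hx.preimage (f := fun s => y * s) (mul_right_injective y).injOn)).subset ?_
    rintro s ⟨h1, h2⟩
    by_cases h3 : y * s ∈ (endsIn i : Set (CoprodI G))
    · right
      refine ⟨h3, ?_⟩
      rw [← mul_assoc]
      exact h2
    · left
      exact ⟨h1, h3⟩

theorem exists_alt {i j : ι} (hij : i ≠ j) {a : G i} {b : G j} (ha : a ≠ 1) (hb : b ≠ 1) (k : ℕ) :
    ∃ w : Word G, w.fstIdx = some i ∧ lst w = some i ∧ w.toList.length = 2 * k + 1 := by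
  induction k with
  | zero =>
    have h0 : (Word.empty : Word G).fstIdx ≠ some i := by
      simp [Word.fstIdx, Word.empty]
    refine ⟨Word.cons a Word.empty h0 ha, Word.fstIdx_cons _ _ _ _, lst_cons_nil _ _ _ _ rfl, ?_⟩
    rfl
  | succ k ih =>
    obtain ⟨w, h1, h2, h3⟩ := ih
    have hne := toList_ne_of_lst h2
    have h4 : w.fstIdx ≠ some j := by
      rw [h1]
      exact fun h => hij (Option.some_injective _ h)
    have h5 : (Word.cons b w h4 hb).fstIdx ≠ some i := by
      rw [Word.fstIdx_cons]
      exact fun h => hij (Option.some_injective _ h).symm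
    refine ⟨Word.cons a (Word.cons b w h4 hb) h5 ha, Word.fstIdx_cons _ _ _ _, ?_, ?_⟩
    · rw [lst_cons_ne _ _ _ _ (by simp [Word.cons]), lst_cons_ne _ _ _ _ hne, h2]
    · show ((w.toList).length + 1) + 1 = _
      rw [h3]
      ring

theorem endsIn_infinite {i j : ι} (hij : i ≠ j) {a : G i} {b : G j} (ha : a ≠ 1) (hb : b ≠ 1) :
    (endsIn i : Set (CoprodI G)).Infinite := by
  choose w h1 h2 h3 using exists_alt hij ha hb
  refine Set.infinite_of_injective_forall_mem (f := fun k => Word.equiv.symm (w k)) ?_ ?_
  · intro k l hkl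
    have h4 : w k = w l := Word.equiv.symm.injective hkl
    have h5 := h3 k
    rw [h4, h3 l] at h5
    omega
  · intro k
    show lst (Word.equiv (Word.equiv.symm (w k))) = some i
    rw [Equiv.apply_symm_apply]
    exact h2 k

theorem coprod_not_oneEnded {i j : ι} (hij : i ≠ j) {a : G i} {b : G j} (ha : a ≠ 1)
    (hb : b ≠ 1) : ¬ OneEnded (CoprodI G) := by
  intro h
  rcases h.left (endsIn i) (endsIn_almost i) with h1 | h1
  · exact endsIn_infinite hij ha hb h1
  · refine endsIn_infinite hij.symm hb ha (h1.subset ?_)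
    intro x hx hx'
    have h2 : lst (Word.equiv x) = some j := hx
    have h3 : lst (Word.equiv x) = some i := hx'
    rw [h2] at h3
    exact hij (Option.some_injective _ h3).symm

end

/-- a one-ended group is not a free product of a family of groups two of which are non-trivial -/
theorem OneEnded.not_coprod {H : Type} [Group H] (h : OneEnded H) {ι : Type} {G : ι → Type}
    [∀ i, Group (G i)] {i j : ι} (hij : i ≠ j) (hi : Nontrivial (G i)) (hj : Nontrivial (G j)) :
    IsEmpty (H ≃* Monoid.CoprodI G) := by
  classical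
  refine ⟨fun e => ?_⟩
  obtain ⟨a, ha⟩ := exists_ne (1 : G i)
  obtain ⟨b, hb⟩ := exists_ne (1 : G j)
  exact coprod_not_oneEnded hij ha hb (h.of_equiv e)

end Run7.h675
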