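import Pool.Agent.Run7.h675.Slice

/-!
The slices of the developing image are planes, half-planes or strips (times the complete
directions): the covectors which are bounded above on a slice are proportional.
-/

set_option autoImplicit false

open Set Filter Topology Metric
open Pool.Agent.W689.Mk

namespace Run7.h675

section
variable {E : Type} [NormedAddCommGroup E] [NormedSpace ℝ E] [FiniteDimensional ℝ E]

theorem zero_of_bdd {a M : ℝ} (h : ∀ s : ℝ, s * a ≤ M) : a = 0 := by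
  by_contra ha
  have h1 := h ((M + 1) / a)
  rw [div_mul_cancel₀ _ ha] at h1
  linarith

/-- separation inside the affine subspace `b + B` -/
theorem exists_support {Ω : Set E} (hΩ : IsOpen Ω) {B : Submodule ℝ E}
    (hcv : ∀ a ∈ Ω, ∀ b ∈ Ω, b - a ∈ B → ∀ t ∈ Icc (0 : ℝ) 1, a + t • (b - a) ∈ Ω)
    {b : E} (hb : b ∉ Ω) : ∃ l : E →L[ℝ] ℝ, ∀ q ∈ Ω, q - b ∈ B → l q < l b := by
  let C : Set B := {w | b + (w : E) ∈ Ω}
  have hC : IsOpen C := hΩ.preimage (continuous_const.add continuous_subtype_val)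
  have hCc : Convex ℝ C := by
    intro w hw w' hw' s t hs ht hst
    have h1 := hcv _ hw _ hw' (by
      have e : b + (w' : E) - (b + (w : E)) = w' - w := by abel
      rw [e]
      exact B.sub_mem w'.2 w.2) t ⟨ht, by linarith⟩
    show b + ((s • w + t • w' : B) : E) ∈ Ω
    have e : b + (w : E) + t • (b + (w' : E) - (b + (w : E))) = b + ((s • w + t • w' : B) : E) := by
      have hs' : s = 1 - t := by linarith
      rw [hs']
      simp only [Submodule.coe_add, Submodule.coe_smul]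
      module
    rwa [← e]
  have h0 : (0 : B) ∉ C := by
    intro h
    have h1 : b + ((0 : B) : E) ∈ Ω := h
    rw [Submodule.coe_zero, add_zero] at h1
    exact hb h1
  obtain ⟨f, hf⟩ := geometric_hahn_banach_open_point hCc hC h0
  obtain ⟨g, hg⟩ := LinearMap.exists_extend (f : B →ₗ[ℝ] ℝ)
  refine ⟨LinearMap.toContinuousLinearMap g, fun q hq hqB => ?_⟩
  have h1 : (⟨q - b, hqB⟩ : B) ∈ C := by
    show b + (q - b) ∈ Ω
    rwa [add_sub_cancel]
  have h2 := hf _ h1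
  rw [map_zero] at h2
  have h3 : g (q - b) = f ⟨q - b, hqB⟩ := by
    have := congrArg (fun φ : B →ₗ[ℝ] ℝ => φ ⟨q - b, hqB⟩) hg
    exact this
  show g q < g b
  rw [map_sub] at h3
  linarith

theorem exists_exit {Ω : Set E} (hΩ : IsOpen Ω) {q z : E} (hq : q ∈ Ω) (hz : z ∉ Ω) :
    ∃ t0 : ℝ, 0 < t0 ∧ t0 ≤ 1 ∧ q + t0 • (z - q) ∉ Ω ∧
      ∀ t, 0 ≤ t → t < t0 → q + t • (z - q) ∈ Ω := by
  let T : Set ℝ := Icc 0 1 ∩ (fun t : ℝ => q + t • (z - q)) ⁻¹' Ωᶜ
  have hT : IsCompact T := by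
    refine isCompact_Icc.inter_right (hΩ.isClosed_compl.preimage ?_)
    fun_prop
  have hne : T.Nonempty := ⟨1, ⟨zero_le_one, le_rfl⟩, by
    show q + (1 : ℝ) • (z - q) ∈ Ωᶜ
    rw [one_smul, add_sub_cancel]
    exact hz⟩
  obtain ⟨t0, ⟨ht0, ht0'⟩, hmin⟩ := hT.exists_isLeast hne
  refine ⟨t0, lt_of_le_of_ne ht0.1 ?_, ht0.2, ht0', fun t h0 h1 => ?_⟩
  · rintro rfl
    apply ht0'
    beta_reduce
    rw [zero_smul, add_zero]
    exact hq
  · by_contra hcon
    have := hmin ⟨⟨h0, by linarith [ht0.2]⟩, hcon⟩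
    linarith

/-- the covectors which are bounded above on a proper slice are proportional -/
theorem strip {Ω : Set E} (hΩ : IsOpen Ω) {A B : Submodule ℝ E} (hAB : A ≤ B)
    (hA : ∀ q ∈ Ω, ∀ v ∈ A, q + v ∈ Ω)
    (hcv : ∀ a ∈ Ω, ∀ b ∈ Ω, b - a ∈ B → ∀ t ∈ Icc (0 : ℝ) 1, a + t • (b - a) ∈ Ω)
    {ι : Type} (L : ι → E → E) {ρ : ℝ} (hρ : 0 < ρ) (hLs : ∀ i (s : ℝ) u, L i (s • u) = s • L i u)
    (hLB : ∀ i, ∀ u ∈ B, L i u ∈ B)
    (hL : ∀ q ∈ Ω, ∃ i, ∀ u : E, ‖u‖ < ρ → q + L i u ∈ Ω)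
    (har : ∀ (l l' : E →L[ℝ] ℝ), (∀ v ∈ A, l v = 0) → (∀ v ∈ A, l' v = 0) → ∀ i, ∀ u ∈ B, ∀ u' ∈ B,
      |l (L i u) * l' (L i u') - l (L i u') * l' (L i u)| = |l u * l' u' - l u' * l' u|)
    {p q z : E} (hq : q ∈ Ω) (hqp : q - p ∈ B) (hz : z ∉ Ω) (hzp : z - p ∈ B) :
    ∃ l : E →L[ℝ] ℝ, (∀ v ∈ A, l v = 0) ∧ (∃ u ∈ B, l u ≠ 0) ∧
      (∃ M : ℝ, ∀ y ∈ Ω, y - p ∈ B → l y ≤ M) ∧
      ∀ l' : E →L[ℝ] ℝ, (∃ M : ℝ, ∀ y ∈ Ω, y - p ∈ B → l' y ≤ M) →
        ∃ c : ℝ, ∀ u ∈ B, l' u = c * l u := by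
  obtain ⟨t0, ht0, ht1, hex, hin⟩ := exists_exit hΩ hq hz
  set b := q + t0 • (z - q) with hb
  have hzq : z - q ∈ B := by
    have : z - q = (z - p) - (q - p) := by abel
    rw [this]
    exact B.sub_mem hzp hqp
  obtain ⟨l, hl⟩ := exists_support hΩ hcv hex
  have hbp : b - p ∈ B := by
    have : b - p = (q - p) + t0 • (z - q) := by rw [hb]; abel
    rw [this]
    exact B.add_mem hqp (B.smul_mem _ hzq)
  have hl' : ∀ y ∈ Ω, y - p ∈ B → l y < l b := by
    intro y hy hyp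
    refine hl y hy ?_
    have : y - b = (y - p) - (b - p) := by abel
    rw [this]
    exact B.sub_mem hyp hbp
  have hvan : ∀ (l' : E →L[ℝ] ℝ) (M : ℝ), (∀ y ∈ Ω, y - p ∈ B → l' y ≤ M) → ∀ v ∈ A, l' v = 0 := by
    intro l' M hM v hv
    refine zero_of_bdd (M := M - l' q) fun s => ?_
    have h1 := hM (q + s • v) (hA q hq _ (A.smul_mem s hv)) (by
      have : q + s • v - p = (q - p) + s • v := by abel
      rw [this]
      exact B.add_mem hqp (B.smul_mem _ (hAB hv)))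
    rw [map_add, map_smul, smul_eq_mul] at h1
    linarith
  have hpos : 0 < l (z - q) := by
    have h1 := hl' q hq hqp
    rw [hb, map_add, map_smul, smul_eq_mul] at h1
    have h2 : 0 < t0 * l (z - q) := by linarith
    exact (pos_iff_pos_of_mul_pos h2).1 ht0
  refine ⟨l, hvan l (l b) fun y h1 h2 => (hl' y h1 h2).le, ⟨z - q, hzq, hpos.ne'⟩,
    ⟨l b, fun y h1 h2 => (hl' y h1 h2).le⟩, ?_⟩
  rintro l' ⟨M, hM⟩
  refine ⟨l' (z - q) / l (z - q), ?_⟩
  by_contra hcon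
  push Not at hcon
  obtain ⟨u, hu, hne⟩ := hcon
  set w := z - q with hw
  have hD : l w * l' u - l u * l' w ≠ 0 := by
    intro h
    apply hne
    rw [div_mul_eq_mul_div, eq_div_iff hpos.ne']
    linarith
  have hDpos : 0 < |l w * l' u - l u * l' w| := abs_pos.2 hD
  set s := ρ / (2 * (‖w‖ + ‖u‖ + 1)) with hs
  have hs0 : 0 < s := by positivity
  have hsw : ∀ v : E, ‖v‖ ≤ ‖w‖ + ‖u‖ → ‖s • v‖ < ρ := by
    intro v hv
    rw [norm_smul, Real.norm_eq_abs, abs_of_pos hs0, hs, div_mul_eq_mul_div,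
      div_lt_iff₀ (by positivity)]
    have h0 := norm_nonneg v
    nlinarith [norm_nonneg w, norm_nonneg u]
  set M2 := |M| + |l' q| + |l' w| + 1 with hM2
  -- the main estimate
  have key : ∀ t, 0 ≤ t → t < t0 →
      |l w * l' u - l u * l' w| ≤ 2 * (((t0 - t) * l w) / s * (M2 / s)) := by
    intro t h0 h1
    have hqt := hin t h0 h1
    set y := q + t • w with hy
    obtain ⟨i, hi⟩ := hL y hqt
    have hyp : y - p ∈ B := by
      have : y - p = (q - p) + t • w := by rw [hy]; abel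
      rw [this]
      exact B.add_mem hqp (B.smul_mem _ hzq)
    have mem : ∀ v ∈ B, ‖v‖ ≤ ‖w‖ + ‖u‖ → ∀ σ : ℝ, (σ = s ∨ σ = -s) →
        y + σ • L i v ∈ Ω ∧ y + σ • L i v - p ∈ B := by
      intro v hv hvn σ hσ
      have h2 : ‖σ • v‖ < ρ := by
        have h3 := hsw v hvn
        rcases hσ with rfl | rfl
        · exact h3
        · rwa [neg_smul, norm_neg]
      have h3 := hi (σ • v) h2
      rw [hLs] at h3
      refine ⟨h3, ?_⟩
      have : y + σ • L i v - p = (y - p) + σ • L i v := by abel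
      rw [this]
      exact B.add_mem hyp (B.smul_mem _ (hLB i v hv))
    have b1 : ∀ v ∈ B, ‖v‖ ≤ ‖w‖ + ‖u‖ → |l (L i v)| ≤ ((t0 - t) * l w) / s := by
      intro v hv hvn
      have h2 := hl' _ (mem v hv hvn s (Or.inl rfl)).1 (mem v hv hvn s (Or.inl rfl)).2
      have h3 := hl' _ (mem v hv hvn (-s) (Or.inr rfl)).1 (mem v hv hvn (-s) (Or.inr rfl)).2
      rw [map_add, map_smul, smul_eq_mul] at h2 h3
      have h4 : l b - l y = (t0 - t) * l w := by
        rw [hb, hy, map_add, map_add, map_smul, map_smul, smul_eq_mul, smul_eq_mul]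
        ring
      rw [le_div_iff₀ hs0, ← h4]
      have h5 : |l (L i v)| * s = |s * l (L i v)| := by rw [abs_mul, abs_of_pos hs0]; ring
      rw [h5, abs_le]
      constructor <;> linarith
    have b2 : ∀ v ∈ B, ‖v‖ ≤ ‖w‖ + ‖u‖ → |l' (L i v)| ≤ M2 / s := by
      intro v hv hvn
      have h2 := hM _ (mem v hv hvn s (Or.inl rfl)).1 (mem v hv hvn s (Or.inl rfl)).2
      have h3 := hM _ (mem v hv hvn (-s) (Or.inr rfl)).1 (mem v hv hvn (-s) (Or.inr rfl)).2
      rw [map_add, map_smul, smul_eq_mul] at h2 h3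
      have h4 : M - l' y ≤ M2 := by
        rw [hy, map_add, map_smul, smul_eq_mul, hM2]
        have h5 : |t * l' w| ≤ |l' w| := by
          rw [abs_mul, abs_of_nonneg h0]
          have : t ≤ 1 := by linarith
          nlinarith [abs_nonneg (l' w)]
        have h6 := le_abs_self M
        have h7 := neg_abs_le (l' q)
        have h8 := neg_abs_le (t * l' w)
        linarith
      rw [le_div_iff₀ hs0]
      have h5 : |l' (L i v)| * s = |s * l' (L i v)| := by rw [abs_mul, abs_of_pos hs0]; ring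
      rw [h5, abs_le]
      constructor <;> linarith
    have hwn : ‖w‖ ≤ ‖w‖ + ‖u‖ := by linarith [norm_nonneg u]
    have hun : ‖u‖ ≤ ‖w‖ + ‖u‖ := by linarith [norm_nonneg w]
    rw [← har l l' (hvan l (l b) fun y h1 h2 => (hl' y h1 h2).le) (hvan l' M hM) i w hzq u hu]
    have h2 : ∀ a b c d P Q : ℝ, |a| ≤ P → |b| ≤ Q → |c| ≤ P → |d| ≤ Q →
        |a * b - c * d| ≤ 2 * (P * Q) := by
      intro a b c d P Q ha hb hc hd
      have hP : 0 ≤ P := (abs_nonneg a).trans ha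
      have h3 : |a * b| ≤ P * Q := by
        rw [abs_mul]
        exact mul_le_mul ha hb (abs_nonneg _) hP
      have h4 : |c * d| ≤ P * Q := by
        rw [abs_mul]
        exact mul_le_mul hc hd (abs_nonneg _) hP
      have h5 := abs_sub (a * b) (c * d)
      linarith
    exact h2 _ _ _ _ _ _ (b1 w hzq hwn) (b2 u hu hun) (b1 u hu hun) (b2 w hzq hwn)
  -- the limit
  have hlim : Tendsto (fun t : ℝ => 2 * (((t0 - t) * l w) / s * (M2 / s))) (𝓝[<] t0) (𝓝 0) := by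
    have h1 : Continuous (fun t : ℝ => 2 * (((t0 - t) * l w) / s * (M2 / s))) := by fun_prop
    have h2 := h1.tendsto t0
    simp only [sub_self, zero_mul, zero_div, mul_zero] at h2
    exact h2.mono_left nhdsWithin_le_nhds
  have hev : ∀ᶠ t in 𝓝[<] t0, |l w * l' u - l u * l' w| ≤
      2 * (((t0 - t) * l w) / s * (M2 / s)) := by
    have h1 : ∀ᶠ t in 𝓝[<] t0, 0 < t :=
      nhdsWithin_le_nhds (lt_mem_nhds ht0)
    filter_upwards [h1, self_mem_nhdsWithin] with t h2 h3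
    exact key t h2.le h3
  have := ge_of_tendsto hlim hev
  linarith

end

end Run7.h675
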