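import Pool.Agent.TH569.MK.Chain
import Pool.Agent.Run7.h675.Strip
import Pool.Agent.Run7.h675.Area
import Pool.Agent.Run7.h675.Solv

/-!
Flags with quotients on which the linear holonomy is `± 1`, except for one two-dimensional quotient
with a dense set of good covectors.
-/

set_option autoImplicit false

open Set Filter Topology Metric
open Pool.Agent.W689.Mk

namespace Run7.h675

section
variable {X Γ E : Type} [TopologicalSpace X] [T2Space X] [Group Γ] [MulAction Γ X]
  [NormedAddCommGroup E] [NormedSpace ℝ E] [FiniteDimensional ℝ E]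
  {dev : X → E} {hol : Γ →* (E ≃ᵃ[ℝ] E)}

/-- flags with quotients on which the linear holonomy is `± 1`, except for one quotient of dimension
two with a dense set of good covectors -/
structure QFlag (hol : Γ →* (E ≃ᵃ[ℝ] E)) (S : ℕ → Submodule ℝ E) (m k : ℕ) : Prop where
  bot : S 0 = ⊥
  top : S m = ⊤
  lt : k < m
  le : ∀ i < m, S i ≤ S (i + 1)
  inv : ∀ i ≤ m, ∀ γ : Γ, ∀ v ∈ S i, lin hol γ v ∈ S i
  sign : ∀ i < m, i ≠ k → ∀ γ : Γ, ∃ c : ℝ, (c = 1 ∨ c = -1) ∧
    ∀ v ∈ S (i + 1), lin hol γ v - c • v ∈ S i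
  rank : Module.finrank ℝ (S (k + 1)) = Module.finrank ℝ (S k) + 2
  dense : DenseCov (S k) (GoodPair hol (S (k + 1)))

variable {S : ℕ → Submodule ℝ E} {m k : ℕ}

theorem QFlag.bdd (Q : QFlag hol S m k) {i : ℕ} (hi : i < m) (hik : i ≠ k) :
    BddBlock hol (S i) (S (i + 1)) := by
  refine ⟨1, fun γ w hw => ?_⟩
  obtain ⟨c, hc, h⟩ := Q.sign i hi hik γ
  have hcc : c * c = 1 := by rcases hc with rfl | rfl <;> norm_num
  have habs : |c| = 1 := by rcases hc with rfl | rfl <;> simp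
  refine ⟨c • w, (S (i + 1)).smul_mem _ hw, ?_, ?_⟩
  · rw [norm_smul, Real.norm_eq_abs, habs]
  · have e : lin hol γ (c • w) - w = c • (lin hol γ w - c • w) := by
      rw [lin_smul', smul_sub, smul_smul, hcc, one_smul]
    rw [e]
    exact (S i).smul_mem _ (h w hw)

theorem QFlag.mono (Q : QFlag hol S m k) {i j : ℕ} (hij : i ≤ j) (hj : j ≤ m) : S i ≤ S j :=
  F_mono Q.le hij hj

/-- all sections parallel to `S (k + 1)` are connected -/
theorem QFlag.con_block [ConnectedSpace X] (D : AffData X Γ E dev hol) (Q : QFlag hol S m k) :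
    Con dev (S (k + 1)) := by
  have h1 : Con dev (S m ⊔ ⊥) := by
    rw [Q.top, sup_bot_eq]
    exact Con.top
  have h2 := Con.flag D (S := S) (N := ⊥) (i := k + 1) (j := m) Q.lt
    (fun l _ h2 => Q.le l h2) (fun l h1 h2 => Q.bdd h2 (by omega)) h1
  rwa [sup_bot_eq] at h2

/-- all sections parallel to a line annihilated by a good covector are connected -/
theorem QFlag.con_line [ConnectedSpace X] (D : AffData X Γ E dev hol) (Q : QFlag hol S m k)
    {η : E →L[ℝ] ℝ} {w : E} (hA : ∀ v ∈ S k, η v = 0) (hG : GoodPair hol (S (k + 1)) η)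
    (hw : w ∈ S (k + 1)) (hηw : η w = 0) (hwA : w ∉ S k) (hu : ∃ u ∈ S (k + 1), η u ≠ 0) :
    Con dev (Submodule.span ℝ {w}) := by
  have h1 := (Q.con_block D).step D hG
  obtain ⟨u, hu, hηu⟩ := hu
  rw [ker_eq (Q.le k Q.lt) Q.rank hA hw hηw hwA hu hηu] at h1
  have h2 := Con.flag D (S := S) (N := Submodule.span ℝ {w}) (i := 0) (j := k) (Nat.zero_le _)
    (fun l _ h2 => Q.le l (h2.trans Q.lt)) (fun l _ h2 => Q.bdd (h2.trans Q.lt) (by omega)) h1
  rwa [Q.bot, bot_sup_eq] at h2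

theorem QFlag.exists_line (Q : QFlag hol S m k) :
    ∃ (η : E →L[ℝ] ℝ) (w : E), (∀ v ∈ S k, η v = 0) ∧ GoodPair hol (S (k + 1)) η ∧
      w ∈ S (k + 1) ∧ η w = 0 ∧ w ∉ S k ∧ (∃ u ∈ S (k + 1), η u ≠ 0) := by
  have h1 : ¬ S (k + 1) ≤ S k := by
    intro h
    have := Submodule.finrank_mono h
    have := Q.rank
    omega
  obtain ⟨d, hd, hdA⟩ := SetLike.not_le_iff_exists.1 h1
  obtain ⟨η, w, h1, h2, h3, h4, h5, -, h6⟩ :=
    exists_dir (Q.le k Q.lt) Q.rank Q.dense hd hdA one_pos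
  exact ⟨η, w, h1, h2, h3, h4, h5, h6⟩

/-- the developing map is injective -/
theorem QFlag.injective [ConnectedSpace X] (D : AffData X Γ E dev hol) (Q : QFlag hol S m k) :
    Function.Injective dev := by
  obtain ⟨η, w, h1, h2, h3, h4, h5, h6⟩ := Q.exists_line
  refine injective_of_con D.loc (w := w) ?_ (Q.con_line D h1 h2 h3 h4 h5 h6)
  rintro rfl
  exact h5 (Submodule.zero_mem _)

/-- the directions of `S k` are complete -/
theorem QFlag.low [SecondCountableTopology X] [ConnectedSpace X] (D : AffData X Γ E dev hol)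
    (Q : QFlag hol S m k) : ∀ q ∈ range dev, ∀ v ∈ S k, q + v ∈ range dev := by
  rintro _ ⟨x, rfl⟩ v hv
  obtain ⟨y, hy⟩ := Pool.Agent.TH569.MK.chain_complete D S k
    (fun x v hv => by
      rw [Q.bot, Submodule.mem_bot] at hv
      subst hv
      exact Geod.ex D.loc ⟨fun _ => x, continuousOn_const, rfl, fun t _ => by simp⟩)
    (fun i hi => by
      refine ⟨1, fun γ v hv => ?_⟩
      obtain ⟨c, hc, h⟩ := Q.sign i (hi.trans Q.lt) (by omega) γ
      have habs : |c| = 1 := by rcases hc with rfl | rfl <;> simp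
      refine ⟨_, h v hv, ?_⟩
      rw [sub_sub_cancel, norm_smul, Real.norm_eq_abs, habs]) x v hv
  exact ⟨y, hy.dev_eq⟩

/-- the slices are convex -/
theorem QFlag.convex [SecondCountableTopology X] [ConnectedSpace X] (D : AffData X Γ E dev hol)
    (Q : QFlag hol S m k) : ∀ a ∈ range dev, ∀ b ∈ range dev, b - a ∈ S (k + 1) →
      ∀ t ∈ Icc (0 : ℝ) 1, a + t • (b - a) ∈ range dev := by
  intro a ha b hb hab t ht
  refine slice_convex D.loc.isOpenMap.isOpen_range (Q.le k Q.lt) Q.rank (Q.low D) Q.dense ?_ ha hb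
    hab ht
  intro η w h1 h2 h3 h4 h5 h6 p
  refine line_preconnected D.loc.continuous ?_ (Q.con_line D h1 h2 h3 h4 h5 h6) p
  rintro rfl
  exact h5 (Submodule.zero_mem _)

theorem QFlag.dt_low (D : AffData X Γ E dev hol) (Q : QFlag hol S m k) (γ : Γ) :
    ∀ i (hi : i ≤ k), |dt ((hol γ).linear : E →ₗ[ℝ] E) (S i)
      (fun v hv => Q.inv i (hi.trans Q.lt.le) γ v hv)| = 1 := by
  intro i
  induction i with
  | zero =>
    intro hi
    rw [dt_congr _ Q.bot _ (fun v hv => by
      rw [Submodule.mem_bot] at hv ⊢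
      rw [hv, map_zero]), dt_bot, abs_one]
  | succ i ih =>
    intro hi
    obtain ⟨c, hc, h⟩ := Q.sign i (by have := Q.lt; omega) (by omega) γ
    rw [dt_sign (Q.le i (by have := Q.lt; omega))
      (fun v hv => Q.inv i (by have := Q.lt; omega) γ v hv) _ hc h]
    exact ih (by omega)

theorem QFlag.dt_high (D : AffData X Γ E dev hol) (Q : QFlag hol S m k) (γ : Γ) :
    ∀ n i (hi : i ≤ m), i = m - n → k + 1 ≤ i → |dt ((hol γ).linear : E →ₗ[ℝ] E) (S i)
      (fun v hv => Q.inv i hi γ v hv)| = 1 := by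
  intro n
  induction n with
  | zero =>
    intro i hi hin hki
    have him : i = m := by omega
    subst him
    rw [dt_congr _ Q.top _ (fun v _ => Submodule.mem_top), dt_top]
    exact D.unimod γ
  | succ n ih =>
    intro i hi hin hki
    rcases Nat.lt_or_ge i m with him | him
    · have h1 := ih (i + 1) him (by omega) (by omega)
      obtain ⟨c, hc, h⟩ := Q.sign i him (by omega) γ
      rw [dt_sign (Q.le i him) (fun v hv => Q.inv i hi γ v hv) _ hc h] at h1
      exact h1
    · have him' : i = m := by omega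
      subst him'
      rw [dt_congr _ Q.top _ (fun v _ => Submodule.mem_top), dt_top]
      exact D.unimod γ

/-- the area forms of the two-dimensional quotient are preserved up to sign -/
theorem QFlag.area (D : AffData X Γ E dev hol) (Q : QFlag hol S m k)
    (l l' : E →L[ℝ] ℝ) (hl : ∀ v ∈ S k, l v = 0) (hl' : ∀ v ∈ S k, l' v = 0) (γ : Γ) {u u' : E}
    (hu : u ∈ S (k + 1)) (hu' : u' ∈ S (k + 1)) :
    |l (lin hol γ u) * l' (lin hol γ u') - l (lin hol γ u') * l' (lin hol γ u)| =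
      |l u * l' u' - l u' * l' u| :=
  area_quot (T := ((hol γ).linear : E →ₗ[ℝ] E)) (Q.le k Q.lt) Q.rank
    (fun v hv => Q.inv k Q.lt.le γ v hv) (fun v hv => Q.inv (k + 1) Q.lt γ v hv)
    (Q.dt_low D γ k le_rfl) (Q.dt_high D γ (m - (k + 1)) (k + 1) Q.lt (by have := Q.lt; omega) le_rfl)
    (l : E →ₗ[ℝ] ℝ) (l' : E →ₗ[ℝ] ℝ) hl hl' hu hu'

end

end Run7.h675
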