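import Pool.Agent.Y449.MS.All
import Pool.Agent.TH94.MK.Main
import Pool.Agent.Run7.h675.Flag

/-!
Completeness for flags with one two-dimensional quotient.
-/

set_option autoImplicit false

open Set Filter Topology Metric
open Pool.Agent.W689.Mk

namespace Run7.h675

section
variable {X Γ E : Type} [TopologicalSpace X] [T2Space X] [Group Γ] [MulAction Γ X]
  [NormedAddCommGroup E] [NormedSpace ℝ E] [FiniteDimensional ℝ E]
  {dev : X → E} {hol : Γ →* (E ≃ᵃ[ℝ] E)} {S : ℕ → Submodule ℝ E} {m k : ℕ}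

/-- a proper slice has a unique invariant hyperplane direction -/
theorem QFlag.strip [SecondCountableTopology X] [ConnectedSpace X] (D : AffData X Γ E dev hol)
    (Q : QFlag hol S m k) {z : E} (hz : z ∉ range dev) :
    ∃ l : E →L[ℝ] ℝ, (∀ v ∈ S k, l v = 0) ∧ (∃ u ∈ S (k + 1), l u ≠ 0) ∧
      ∀ γ : Γ, (∀ q, hol γ q - q ∈ S (k + 1)) → ∃ c : ℝ, ∀ u ∈ S (k + 1),
        l (lin hol γ u) = c * l u := by
  obtain ⟨x, hx⟩ := (Q.con_block D z).nonempty
  have : ProperSpace E := FiniteDimensional.proper_real E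
  have hop : IsOpen (range dev) := D.loc.isOpenMap.isOpen_range
  obtain ⟨C0, hC0, hC0r, hcc⟩ := Pool.Agent.TH94.MK.range_cc D
  obtain ⟨ρ, hρ, hρΩ⟩ := hC0.exists_cthickening_subset_open hop hC0r
  obtain ⟨l, h1, h2, ⟨M, h3⟩, h4⟩ := Run7.h675.strip hop (Q.le k Q.lt) (Q.low D) (Q.convex D)
    (L := fun γ u => lin hol γ u) hρ (fun γ s u => lin_smul' γ s u)
    (fun γ u hu => Q.inv (k + 1) Q.lt γ u hu)
    (by
      intro q hq
      obtain ⟨γ, c, hc, hcq⟩ := hcc q hq
      refine ⟨γ, fun u hu => ?_⟩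
      have h1 : c + u ∈ range dev := hρΩ (mem_cthickening_of_dist_le _ _ _ _ hc (by
        rw [dist_eq_norm, add_sub_cancel_left]
        exact hu.le))
      have h2 := Pool.Agent.TH94.MK.range_inv D γ _ h1
      rw [hol_add, hcq] at h2
      exact h2)
    (fun l l' hl hl' γ u hu u' hu' => Q.area D l l' hl hl' γ hu hu')
    (mem_range_self x) hx hz (by rw [sub_self]; exact Submodule.zero_mem _)
  refine ⟨l, h1, h2, fun γ hγ => ?_⟩
  let T : E →L[ℝ] E := LinearMap.toContinuousLinearMap ((hol γ).linear : E →ₗ[ℝ] E)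
  refine h4 (l.comp T) ⟨M - l (hol γ 0), fun y hy hyz => ?_⟩
  have h5 : hol γ y ∈ range dev := Pool.Agent.TH94.MK.range_inv D γ y hy
  have h6 : hol γ y - z ∈ S (k + 1) := by
    have : hol γ y - z = (hol γ y - y) + (y - z) := by abel
    rw [this]
    exact Submodule.add_mem _ (hγ y) hyz
  have h7 := h3 _ h5 h6
  have h8 : hol γ y = hol γ 0 + lin hol γ y := by
    rw [← hol_add, zero_add]
  rw [h8, map_add] at h7
  show l (lin hol γ y) ≤ M - l (hol γ 0)
  linarith

/-- far derived subgroups act trivially on the affine space `E / S (k + 1)` -/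
theorem QFlag.high (Q : QFlag hol S m k) :
    ∃ a : ℕ, ∀ γ ∈ derivedSeries Γ a, ∀ q, hol γ q - q ∈ S (k + 1) := by
  have hlt := Q.lt
  have key := derived_flag (hol := hol) (fun j => derivedSeries Γ j)
    (fun j => (derivedSeries_succ Γ j).le) (F := fun i => S (k + 1 + i)) (N := m - (k + 1))
    (fun i hi => Q.le _ (by omega)) (fun γ _ i hi v hv => Q.inv _ (by omega) γ v hv)
    (fun γ _ δ _ i hi v hv => by
      obtain ⟨c, -, hc⟩ := Q.sign (k + 1 + i) (by omega) (by omega) γ
      obtain ⟨d, -, hd⟩ := Q.sign (k + 1 + i) (by omega) (by omega) δ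
      exact comm_of_scalar (fun v hv => Q.inv _ (by omega) γ v hv)
        (fun v hv => Q.inv _ (by omega) δ v hv) ⟨c, hc⟩ ⟨d, hd⟩ hv) (m - (k + 1))
  refine ⟨m - (k + 1) + 1 + 1, ?_⟩
  rw [derivedSeries_succ]
  refine derived_affine fun γ hγ v => ?_
  have h1 := key γ hγ (m - (k + 1)) le_rfl v (by
    show v ∈ S (k + 1 + (m - (k + 1)))
    have e : k + 1 + (m - (k + 1)) = m := by omega
    rw [e, Q.top]
    exact Submodule.mem_top)
  have e : k + 1 + (m - (k + 1) - (m - (k + 1) + 1)) = k + 1 := by omega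
  beta_reduce at h1
  rwa [e] at h1

/-- if some slice is proper, the linear holonomy is solvable -/
theorem QFlag.solvable [SecondCountableTopology X] [ConnectedSpace X] (D : AffData X Γ E dev hol)
    (Q : QFlag hol S m k) {z : E} (hz : z ∉ range dev) :
    Group.IsSolvable ((⊤ : Subgroup Γ).map (AffineEquiv.linearHom.comp hol)) := by
  obtain ⟨l, hlA, ⟨u, hu, hlu⟩, hl⟩ := Q.strip D hz
  obtain ⟨a, ha⟩ := Q.high
  have hlt := Q.lt
  set P : Submodule ℝ E := S (k + 1) ⊓ LinearMap.ker (l : E →ₗ[ℝ] ℝ) with hP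
  have hSP : S k ≤ P := le_inf (Q.le k Q.lt) fun v hv => hlA v hv
  have hPS : P ≤ S (k + 1) := inf_le_left
  obtain ⟨w, hwP, hwA⟩ : ∃ w ∈ P, w ∉ S k := by
    apply SetLike.not_le_iff_exists.1
    intro hcon
    have h1 : S (k + 1) ≤ P ⊔ Submodule.span ℝ {u} := by
      intro v hv
      have h2 : v - (l v / l u) • u ∈ P := by
        refine ⟨Submodule.sub_mem _ hv (Submodule.smul_mem _ _ hu), ?_⟩
        show l (v - (l v / l u) • u) = 0
        rw [map_sub, map_smul, smul_eq_mul, div_mul_cancel₀ _ hlu, sub_self]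
      have h3 : v = (v - (l v / l u) • u) + (l v / l u) • u := by abel
      rw [h3]
      exact Submodule.add_mem_sup h2
        (Submodule.smul_mem _ _ (Submodule.mem_span_singleton_self u))
    have h2 := Submodule.finrank_mono h1
    have h3 := Submodule.finrank_add_le_finrank_add_finrank P (Submodule.span ℝ {u})
    have h4 : Module.finrank ℝ (Submodule.span ℝ {u}) ≤ 1 := by
      have := finrank_span_le_card (R := ℝ) ({u} : Set E)
      simpa using this
    have h5 := Submodule.finrank_mono hcon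
    have := Q.rank
    omega
  have hPeq : P = S k ⊔ Submodule.span ℝ {w} :=
    ker_eq (Q.le k Q.lt) Q.rank hlA (hPS hwP) hwP.2 hwA hu hlu
  let F : ℕ → Submodule ℝ E := fun i => if i ≤ k then S i else if i = k + 1 then P else S (i - 1)
  have F1 : ∀ i, i ≤ k → F i = S i := fun i hi => if_pos hi
  have F2 : F (k + 1) = P := by
    show (if k + 1 ≤ k then S (k + 1) else if k + 1 = k + 1 then P else S (k + 1 - 1)) = P
    rw [if_neg (by omega), if_pos rfl]
  have F3 : ∀ i, k + 1 ≤ i → F (i + 1) = S i := by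
    intro i hi
    show (if i + 1 ≤ k then S (i + 1) else if i + 1 = k + 1 then P else S (i + 1 - 1)) = S i
    rw [if_neg (by omega), if_neg (by omega), Nat.add_sub_cancel]
  -- the flag is increasing
  have Fle : ∀ i < m + 1, F i ≤ F (i + 1) := by
    intro i hi
    rcases Nat.lt_or_ge i k with h | h
    · rw [F1 i h.le, F1 (i + 1) h]
      exact Q.le i (by omega)
    rcases Nat.eq_or_lt_of_le h with rfl | h
    · rw [F1 k le_rfl, F2]
      exact hSP
    rcases Nat.eq_or_lt_of_le h with h' | h'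
    · have h'' : i = k + 1 := by omega
      subst h''
      rw [F2, F3 (k + 1) le_rfl]
      exact hPS
    · obtain ⟨i', rfl⟩ : ∃ i', i = i' + 1 := ⟨i - 1, by omega⟩
      rw [F3 i' (by omega), F3 (i' + 1) (by omega)]
      exact Q.le i' (by omega)
  have hPinv : ∀ γ ∈ derivedSeries Γ a, ∀ v ∈ P, lin hol γ v ∈ P := by
    intro γ hγ v hv
    refine ⟨Q.inv (k + 1) Q.lt γ v (hPS hv), ?_⟩
    obtain ⟨c, hc⟩ := hl γ (ha γ hγ)
    show l (lin hol γ v) = 0
    have h1 : l v = 0 := hv.2
    rw [hc v (hPS hv), h1, mul_zero]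
  have Finv : ∀ γ ∈ derivedSeries Γ a, ∀ i ≤ m + 1, ∀ v ∈ F i, lin hol γ v ∈ F i := by
    intro γ hγ i hi v hv
    rcases Nat.lt_or_ge k i with h | h
    · rcases Nat.eq_or_lt_of_le h with h' | h'
      · have h'' : i = k + 1 := by omega
        subst h''
        rw [F2] at hv ⊢
        exact hPinv γ hγ v hv
      · obtain ⟨i', rfl⟩ : ∃ i', i = i' + 1 := ⟨i - 1, by omega⟩
        rw [F3 i' (by omega)] at hv ⊢
        exact Q.inv i' (by omega) γ v hv
    · rw [F1 i h] at hv ⊢
      exact Q.inv i (by omega) γ v hv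
  have Fsc : ∀ γ ∈ derivedSeries Γ a, ∀ i < m + 1, ∃ c : ℝ, ∀ v ∈ F (i + 1),
      lin hol γ v - c • v ∈ F i := by
    intro γ hγ i hi
    rcases Nat.lt_or_ge i k with h | h
    · rw [F1 i h.le, F1 (i + 1) h]
      obtain ⟨c, -, hc⟩ := Q.sign i (by omega) (by omega) γ
      exact ⟨c, hc⟩
    rcases Nat.eq_or_lt_of_le h with rfl | h
    · rw [F1 k le_rfl, F2]
      have h1 := hPinv γ hγ w hwP
      rw [hPeq] at h1
      obtain ⟨a0, ha0, b0, hb0, hab⟩ := Submodule.mem_sup.1 h1
      obtain ⟨c, rfl⟩ := Submodule.mem_span_singleton.1 hb0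
      refine ⟨c, fun v hv => ?_⟩
      rw [hPeq] at hv
      obtain ⟨a1, ha1, b1, hb1, rfl⟩ := Submodule.mem_sup.1 hv
      obtain ⟨t, rfl⟩ := Submodule.mem_span_singleton.1 hb1
      have e : lin hol γ (a1 + t • w) - c • (a1 + t • w) =
          (lin hol γ a1 - c • a1) + t • a0 := by
        rw [lin_add, lin_smul', ← hab]
        module
      rw [e]
      exact Submodule.add_mem _ (Submodule.sub_mem _ (Q.inv k (by omega) γ a1 ha1)
        (Submodule.smul_mem _ _ ha1)) (Submodule.smul_mem _ _ ha0)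
    rcases Nat.eq_or_lt_of_le h with h' | h'
    · have h'' : i = k + 1 := by omega
      subst h''
      rw [F2, F3 (k + 1) le_rfl]
      obtain ⟨c, hc⟩ := hl γ (ha γ hγ)
      refine ⟨c, fun v hv => ⟨Submodule.sub_mem _ (Q.inv (k + 1) Q.lt γ v hv)
        (Submodule.smul_mem _ _ hv), ?_⟩⟩
      show l (lin hol γ v - c • v) = 0
      rw [map_sub, map_smul, smul_eq_mul, hc v hv, sub_self]
    · obtain ⟨i', rfl⟩ : ∃ i', i = i' + 1 := ⟨i - 1, by omega⟩
      rw [F3 i' (by omega), F3 (i' + 1) (by omega)]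
      obtain ⟨c, -, hc⟩ := Q.sign i' (by omega) (by omega) γ
      exact ⟨c, hc⟩
  have key := derived_flag (hol := hol) (fun j => derivedSeries Γ (a + j))
    (fun j => (derivedSeries_succ Γ (a + j)).le) (F := F) (N := m + 1) Fle Finv
    (fun γ hγ δ hδ i hi v hv => comm_of_scalar (fun v hv => Finv γ hγ i (by omega) v hv)
      (fun v hv => Finv δ hδ i (by omega) v hv) (Fsc γ hγ i hi) (Fsc δ hδ i hi) hv) (m + 1)
  refine solvable_image (n := a + (m + 1 + 1)) fun γ hγ v => ?_
  have h1 := key γ hγ (m + 1) le_rfl v (by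
    rw [F3 m hlt, Q.top]
    exact Submodule.mem_top)
  have e : m + 1 - (m + 1 + 1) = 0 := by omega
  rw [e, F1 0 (Nat.zero_le _), Q.bot, Submodule.mem_bot, sub_eq_zero] at h1
  exact h1

/-- completeness -/
theorem QFlag.complete [SecondCountableTopology X] [ConnectedSpace X]
    (D : AffData X Γ E dev hol) (Q : QFlag hol S m k) : IsHomeomorph dev := by
  have hinj := Q.injective D
  by_cases h : range dev = univ
  · exact ⟨D.loc.continuous, D.loc.isOpenMap, hinj, range_eq_univ.1 h⟩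
  · obtain ⟨z, hz⟩ := (ne_univ_iff_exists_notMem _).1 h
    exact Pool.Agent.Y449.MS.Wrap.main Pool.Agent.Y449.MS.All.finv X Γ E dev hol D hinj ⊤
      inferInstance (Q.solvable D hz)

end

end Run7.h675
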