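import Pool.Agent.Run7.h675.FlagMain

/-!
Rational subspaces of a vector space with a lattice; integral linear holonomy.
-/

set_option autoImplicit false

open Set Filter Topology Metric
open Pool.Agent.W689.Mk

namespace Run7.h675

section lattice
variable {E : Type} [NormedAddCommGroup E] [NormedSpace ℝ E] [FiniteDimensional ℝ E]
  {ι : Type} [Fintype ι] (b : Module.Basis ι ℝ E)

/-- `v` has integral coordinates -/
def IsInt (v : E) : Prop := ∀ i, ∃ z : ℤ, b.repr v i = z

/-- the subspace is spanned by vectors with integral coordinates -/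
def RatSub (S : Submodule ℝ E) : Prop := S ≤ Submodule.span ℝ {v | IsInt b v ∧ v ∈ S}

variable {b}

/-- combination with rational coefficients -/
noncomputable def ratv (b : Module.Basis ι ℝ E) (q : ι → ℚ) : E := ∑ i, (q i : ℝ) • b i

theorem ratv_add (q q' : ι → ℚ) : ratv b (q + q') = ratv b q + ratv b q' := by
  unfold ratv
  rw [← Finset.sum_add_distrib]
  refine Finset.sum_congr rfl fun i _ => ?_
  rw [Pi.add_apply, Rat.cast_add, add_smul]

theorem ratv_smul (c : ℚ) (q : ι → ℚ) : ratv b (c • q) = (c : ℝ) • ratv b q := by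
  unfold ratv
  rw [Finset.smul_sum]
  refine Finset.sum_congr rfl fun i _ => ?_
  rw [Pi.smul_apply, smul_eq_mul, Rat.cast_mul, mul_smul]

theorem ratv_zero : ratv b (0 : ι → ℚ) = 0 := by
  unfold ratv
  exact Finset.sum_eq_zero fun i _ => by rw [Pi.zero_apply, Rat.cast_zero, zero_smul]

theorem IsInt.eq_ratv {v : E} (hv : IsInt b v) : ∃ z : ι → ℤ, v = ratv b (fun i => (z i : ℚ)) := by
  choose z hz using hv
  refine ⟨z, ?_⟩
  unfold ratv
  conv_lhs => rw [← b.sum_repr v]
  refine Finset.sum_congr rfl fun i _ => ?_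
  rw [hz i]
  simp

/-- the rational vectors of a subspace -/
def ratSub (b : Module.Basis ι ℝ E) (S : Submodule ℝ E) : Submodule ℚ (ι → ℚ) where
  carrier := {q | ratv b q ∈ S}
  add_mem' := by
    intro q q' hq hq'
    show ratv b (q + q') ∈ S
    rw [ratv_add]
    exact S.add_mem hq hq'
  zero_mem' := by
    show ratv b 0 ∈ S
    rw [ratv_zero]
    exact S.zero_mem
  smul_mem' := by
    intro c q hq
    show ratv b (c • q) ∈ S
    rw [ratv_smul]
    exact S.smul_mem _ hq

/-- extension of a rational linear form -/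
noncomputable def extf (b : Module.Basis ι ℝ E) (t : ι → ℝ) : E →L[ℝ] ℝ :=
  LinearMap.toContinuousLinearMap (b.constr ℝ t)

theorem extf_apply (t : ι → ℝ) (v : E) : extf b t v = ∑ i, b.repr v i * t i := by
  show (b.constr ℝ t) v = _
  rw [Module.Basis.constr_apply_fintype]
  refine Finset.sum_congr rfl fun i _ => ?_
  rw [smul_eq_mul]
  rfl

theorem extf_basis (t : ι → ℝ) (i : ι) : extf b t (b i) = t i := by
  show (b.constr ℝ t) (b i) = _
  rw [Module.Basis.constr_basis]

theorem extf_ratv (t : ι → ℝ) (q : ι → ℚ) : extf b t (ratv b q) = ∑ i, (q i : ℝ) * t i := by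
  unfold ratv
  rw [map_sum]
  refine Finset.sum_congr rfl fun i _ => ?_
  rw [map_smul, extf_basis, smul_eq_mul]

/-- an integral covector vanishing on a rational subspace, nonzero at a lattice vector -/
theorem exists_int_functional {P : Submodule ℝ E} (hP : RatSub b P) {v : E} (hv : IsInt b v)
    (hvP : v ∉ P) : ∃ f : E →L[ℝ] ℝ, (∀ u, IsInt b u → ∃ z : ℤ, f u = z) ∧ (∀ u ∈ P, f u = 0) ∧
      f v ≠ 0 := by
  classical
  obtain ⟨z, rfl⟩ := hv.eq_ratv
  have h1 : (fun i => (z i : ℚ)) ∉ ratSub b P := hvP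
  obtain ⟨g, hg, hgP⟩ := Submodule.exists_dual_map_eq_bot_of_notMem h1 inferInstance
  set N : ℕ := ∏ i, (g (Pi.single i 1)).den with hN
  have hN0 : N ≠ 0 := Finset.prod_ne_zero_iff.2 fun i _ => Rat.den_nz _
  have hNi : ∀ i, ∃ w : ℤ, (N : ℚ) * g (Pi.single i 1) = w := by
    intro i
    obtain ⟨c, hc⟩ := Finset.dvd_prod_of_mem (fun i => (g (Pi.single i 1)).den) (Finset.mem_univ i)
    refine ⟨c * (g (Pi.single i 1)).num, ?_⟩
    have h2 : (N : ℚ) = (g (Pi.single i 1)).den * c := by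
      rw [hN, hc]
      push_cast
      ring
    rw [h2]
    have h3 := Rat.den_mul_eq_num (g (Pi.single i 1))
    push_cast
    rw [← h3]
    ring
  choose w hw using hNi
  have hgq : ∀ q : ι → ℚ, ((N : ℚ) * g q : ℚ) = ∑ i, q i * w i := by
    intro q
    have h2 : q = ∑ i, q i • (Pi.single i (1 : ℚ) : ι → ℚ) := by
      ext j
      rw [Finset.sum_apply]
      simp [Pi.single_apply]
    conv_lhs => rw [h2]
    rw [map_sum, Finset.mul_sum]
    refine Finset.sum_congr rfl fun i _ => ?_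
    rw [map_smul, smul_eq_mul, ← hw i]
    ring
  have hf : ∀ q : ι → ℚ, extf b (fun i => (w i : ℝ)) (ratv b q) = (((N : ℚ) * g q : ℚ) : ℝ) := by
    intro q
    rw [extf_ratv, hgq]
    push_cast
    rfl
  refine ⟨extf b fun i => (w i : ℝ), ?_, ?_, ?_⟩
  · intro u hu
    obtain ⟨y, rfl⟩ := hu.eq_ratv
    refine ⟨∑ i, y i * w i, ?_⟩
    rw [extf_ratv]
    push_cast
    rfl
  · intro u hu
    have h2 := hP hu
    have h3 : Submodule.span ℝ {v | IsInt b v ∧ v ∈ P} ≤
        LinearMap.ker ((extf b fun i => (w i : ℝ)) : E →ₗ[ℝ] ℝ) := by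
      rw [Submodule.span_le]
      rintro y ⟨hy, hyP⟩
      obtain ⟨z', rfl⟩ := hy.eq_ratv
      show extf b (fun i => (w i : ℝ)) (ratv b fun i => (z' i : ℚ)) = 0
      rw [hf]
      have h4 : g (fun i => (z' i : ℚ)) ∈ (ratSub b P).map g := Submodule.mem_map_of_mem hyP
      rw [hgP, Submodule.mem_bot] at h4
      rw [h4, mul_zero, Rat.cast_zero]
    exact h3 h2
  · rw [hf]
    have : ((N : ℚ) * g (fun i => (z i : ℚ)) : ℚ) ≠ 0 := mul_ne_zero (by exact_mod_cast hN0) hg
    exact_mod_cast this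

/-- rational covectors with bounded denominator take values bounded below -/
def HasDenom (b : Module.Basis ι ℝ E) (η : E →L[ℝ] ℝ) : Prop :=
  ∃ N : ℕ, 0 < N ∧ ∀ u, IsInt b u → ∃ z : ℤ, N * η u = z

theorem hasDenom_of_rat {η : E →L[ℝ] ℝ} (h : ∀ i, ∃ q : ℚ, η (b i) = q) : HasDenom b η := by
  choose q hq using h
  set N : ℕ := ∏ i, (q i).den with hN
  have hN0 : N ≠ 0 := Finset.prod_ne_zero_iff.2 fun i _ => Rat.den_nz _
  have hNi : ∀ i, ∃ w : ℤ, (N : ℚ) * q i = w := by
    intro i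
    obtain ⟨c, hc⟩ := Finset.dvd_prod_of_mem (fun i => (q i).den) (Finset.mem_univ i)
    refine ⟨c * (q i).num, ?_⟩
    have h2 : (N : ℚ) = (q i).den * c := by
      rw [hN, hc]
      push_cast
      ring
    rw [h2]
    have h3 := Rat.den_mul_eq_num (q i)
    push_cast
    rw [← h3]
    ring
  choose w hw using hNi
  refine ⟨N, Nat.pos_of_ne_zero hN0, fun u hu => ?_⟩
  obtain ⟨z, rfl⟩ := hu.eq_ratv
  refine ⟨∑ i, z i * w i, ?_⟩
  unfold ratv
  rw [map_sum, Finset.mul_sum]
  push_cast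
  refine Finset.sum_congr rfl fun i _ => ?_
  rw [map_smul, hq, smul_eq_mul]
  have h3 : (N : ℝ) * (q i : ℝ) = w i := by exact_mod_cast hw i
  rw [← h3]
  push_cast
  ring

theorem HasDenom.ge {η : E →L[ℝ] ℝ} {N : ℕ} (hN : 0 < N)
    (h : ∀ u, IsInt b u → ∃ z : ℤ, N * η u = z) {u : E} (hu : IsInt b u) (h0 : η u ≠ 0) :
    1 / (N : ℝ) ≤ |η u| := by
  obtain ⟨z, hz⟩ := h u hu
  have hN' : (0 : ℝ) < N := by exact_mod_cast hN
  have hz0 : z ≠ 0 := by
    rintro rfl
    rw [Int.cast_zero] at hz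
    rcases mul_eq_zero.1 hz with h1 | h1
    · exact hN'.ne' h1
    · exact h0 h1
  have h1 : (1 : ℝ) ≤ |(z : ℝ)| := by
    rw [← Int.cast_abs]
    exact_mod_cast Int.one_le_abs hz0
  rw [← hz, abs_mul, abs_of_pos hN'] at h1
  rw [div_le_iff₀ hN']
  linarith

/-- rational covectors are dense among the covectors vanishing on a rational subspace -/
theorem exists_rat_near {A : Submodule ℝ E} (hA : RatSub b A) {f : E →L[ℝ] ℝ}
    (hf : ∀ v ∈ A, f v = 0) {ε : ℝ} (hε : 0 < ε) :
    ∃ η : E →L[ℝ] ℝ, (∀ v ∈ A, η v = 0) ∧ HasDenom b η ∧ ‖η - f‖ < ε := by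
  classical
  -- a rational projection onto `A`
  obtain ⟨p, hp⟩ := LinearMap.exists_leftInverse_of_injective (ratSub b A).subtype
    (LinearMap.ker_eq_bot.2 (ratSub b A).injective_subtype)
  have hp' : ∀ q (hq : q ∈ ratSub b A), (p q : ι → ℚ) = q := by
    intro q hq
    have := congrArg (fun φ : (ratSub b A) →ₗ[ℚ] (ratSub b A) => (φ ⟨q, hq⟩ : ι → ℚ)) hp
    exact this
  let π : E →ₗ[ℝ] E := b.constr ℝ fun i => ratv b (p (Pi.single i 1))
  have hπb : ∀ i, π (b i) = ratv b (p (Pi.single i 1)) := fun i => b.constr_basis ℝ _ i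
  have hratv_sum : ∀ (s : Finset ι) (c : ι → ℚ) (q : ι → ι → ℚ),
      ratv b (∑ i ∈ s, c i • q i) = ∑ i ∈ s, (c i : ℝ) • ratv b (q i) := by
    intro s c q
    induction s using Finset.induction_on with
    | empty => rw [Finset.sum_empty, Finset.sum_empty, ratv_zero]
    | insert a s ha ih => rw [Finset.sum_insert ha, Finset.sum_insert ha, ratv_add, ih, ratv_smul]
  have hπ : ∀ q : ι → ℚ, π (ratv b q) = ratv b (p q) := by
    intro q
    have h2 : q = ∑ i, q i • (Pi.single i (1 : ℚ) : ι → ℚ) := by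
      ext j
      rw [Finset.sum_apply]
      simp [Pi.single_apply]
    have h3 : (p q : ι → ℚ) = ∑ i, q i • (p (Pi.single i (1 : ℚ)) : ι → ℚ) := by
      conv_lhs => rw [h2]
      rw [map_sum]
      simp
    rw [h3, hratv_sum]
    unfold ratv
    rw [map_sum]
    refine Finset.sum_congr rfl fun i _ => ?_
    rw [map_smul, hπb]
    rfl
  have hπA : ∀ v ∈ A, π v = v := by
    intro v hv
    have h2 : Submodule.span ℝ {v | IsInt b v ∧ v ∈ A} ≤ LinearMap.ker (π - LinearMap.id) := by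
      rw [Submodule.span_le]
      rintro y ⟨hy, hyA⟩
      obtain ⟨z, rfl⟩ := hy.eq_ratv
      show π (ratv b fun i => (z i : ℚ)) - ratv b (fun i => (z i : ℚ)) = 0
      rw [hπ, hp' _ hyA, sub_self]
    have h3 : π v - v = 0 := h2 (hA hv)
    exact sub_eq_zero.1 h3
  have hπm : ∀ v, π v ∈ A := by
    intro v
    rw [← b.sum_repr v, map_sum]
    refine A.sum_mem fun i _ => ?_
    rw [map_smul, hπb]
    exact A.smul_mem _ (p (Pi.single i 1)).2
  let T : E →L[ℝ] E := LinearMap.toContinuousLinearMap (LinearMap.id - π)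
  have hT : ∀ v, T v = v - π v := fun v => rfl
  have hfT : f.comp T = f := by
    ext v
    rw [ContinuousLinearMap.comp_apply, hT, map_sub, hf _ (hπm v), sub_zero]
  -- rational covectors are dense
  let Ψ : (ι → ℝ) →ₗ[ℝ] (E →L[ℝ] ℝ) :=
    { toFun := fun t => extf b t
      map_add' := fun s t => by
        ext v
        rw [add_apply, extf_apply, extf_apply, extf_apply, ← Finset.sum_add_distrib]
        exact Finset.sum_congr rfl fun i _ => by rw [Pi.add_apply]; ring
      map_smul' := fun c t => by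
        ext v
        rw [RingHom.id_apply, smul_apply, extf_apply, extf_apply, smul_eq_mul,
          Finset.mul_sum]
        exact Finset.sum_congr rfl fun i _ => by rw [Pi.smul_apply, smul_eq_mul]; ring }
  have hΨc : Continuous Ψ := Ψ.continuous_of_finiteDimensional
  have hΨf : Ψ (fun i => f (b i)) = f := by
    ext v
    show extf b (fun i => f (b i)) v = f v
    rw [extf_apply]
    conv_rhs => rw [← b.sum_repr v]
    rw [map_sum]
    exact Finset.sum_congr rfl fun i _ => by rw [map_smul, smul_eq_mul]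
  have hdense : DenseRange (fun q : ι → ℚ => fun i => ((q i : ℚ) : ℝ)) :=
    DenseRange.piMap fun _ => Rat.denseRange_cast
  have hopen : IsOpen {t : ι → ℝ | ‖Ψ t - f‖ < ε / (‖T‖ + 1)} :=
    isOpen_lt (continuous_norm.comp (hΨc.sub continuous_const)) continuous_const
  obtain ⟨g, hg⟩ := hdense.exists_mem_open hopen ⟨fun i => f (b i), by
    show ‖Ψ (fun i => f (b i)) - f‖ < ε / (‖T‖ + 1)
    rw [hΨf, sub_self, norm_zero]
    positivity⟩
  have hg' : ‖Ψ (fun i => ((g i : ℚ) : ℝ)) - f‖ < ε / (‖T‖ + 1) := hg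
  refine ⟨(Ψ fun i => ((g i : ℚ) : ℝ)).comp T, ?_, ?_, ?_⟩
  · intro v hv
    rw [ContinuousLinearMap.comp_apply, hT, hπA v hv, sub_self, map_zero]
  · refine hasDenom_of_rat fun i => ?_
    refine ⟨g i - ∑ j, (p (Pi.single i 1) : ι → ℚ) j * g j, ?_⟩
    rw [ContinuousLinearMap.comp_apply, hT, hπb, map_sub]
    show extf b (fun i => ((g i : ℚ) : ℝ)) (b i) -
      extf b (fun i => ((g i : ℚ) : ℝ)) (ratv b (p (Pi.single i 1))) = _
    rw [extf_basis, extf_ratv]
    push_cast
    rfl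
  · have h2 : (Ψ fun i => ((g i : ℚ) : ℝ)).comp T - f = ((Ψ fun i => ((g i : ℚ) : ℝ)) - f).comp T := by
      rw [ContinuousLinearMap.sub_comp, hfT]
    rw [h2]
    refine (ContinuousLinearMap.opNorm_comp_le _ _).trans_lt ?_
    rw [lt_div_iff₀ (by positivity)] at hg'
    nlinarith [norm_nonneg T, norm_nonneg ((Ψ fun i => ((g i : ℚ) : ℝ)) - f)]

end lattice

end Run7.h675
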