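import Pool.Agent.Run7.h675.Chain
import Pool.Agent.W689.Mk.Tube

/-!
A local homeomorphism from a connected Hausdorff space to the line is injective; hence the developing
map is injective as soon as the sections parallel to one line are connected.
-/

set_option autoImplicit false

open Set Filter Topology Metric
open Pool.Agent.W689.Mk

namespace Run7.h675

theorem injective_of_line {Y : Type} [TopologicalSpace Y] [T2Space Y] [ConnectedSpace Y]
    {f : Y → ℝ} (hf : IsLocalHomeomorph f) : Function.Injective f := by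
  intro x y hxy
  let A : Set Y := {y | ∃ (U : Set ℝ) (σ : ℝ → Y), Sec f U σ ∧ f x ∈ U ∧ σ (f x) = x ∧
    f y ∈ U ∧ σ (f y) = y}
  have hop : IsOpen A := by
    rw [isOpen_iff_mem_nhds]
    rintro z ⟨U, σ, h1, h2, h3, h4, h5⟩
    have h6 := h1.isOpen_image hf h1.isOpen Subset.rfl
    refine mem_of_superset (h6.mem_nhds ⟨f z, h4, h5⟩) ?_
    rintro _ ⟨q, hq, rfl⟩
    exact ⟨U, σ, h1, h2, h3, by rw [h1.inv q hq]; exact hq, by rw [h1.inv q hq]⟩
  have hcl : IsClosed A := by
    rw [← closure_subset_iff_isClosed]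
    intro z hz
    obtain ⟨e, r, hze, he, hr, hrt⟩ := exists_sec hf z
    have hτ := sec_of_target e he (f z) r hrt
    have hτz : e.symm (f z) = z := by rw [he]; exact e.left_inv hze
    have h6 := hτ.isOpen_image hf hτ.isOpen Subset.rfl
    obtain ⟨_, ⟨q, hq, rfl⟩, U, σ, h1, h2, h3, h4, h5⟩ :=
      mem_closure_iff_nhds.1 hz _ (h6.mem_nhds ⟨f z, mem_ball_self hr, hτz⟩)
    have h7 := hτ.inv q hq
    rw [h7] at h4 h5
    have hc : Convex ℝ (U ∪ ball (f z) r) := by
      rw [Real.convex_iff_isPreconnected]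
      exact IsPreconnected.union q h4 hq h1.convex.isPreconnected (convex_ball _ _).isPreconnected
    obtain ⟨ρ, hρ1, hρ2, hρ3⟩ := h1.glue hf hτ h4 hq h5 (h1.isOpen.union isOpen_ball) hc
      Subset.rfl
    exact ⟨U ∪ ball (f z) r, ρ, hρ1, Or.inl h2, by rw [hρ2 _ h2, h3],
      Or.inr (mem_ball_self hr), by rw [hρ3 _ (mem_ball_self hr), hτz]⟩
  have hx : x ∈ A := by
    obtain ⟨e, r, hxe, he, hr, hrt⟩ := exists_sec hf x
    have hτ := sec_of_target e he (f x) r hrt
    have hτx : e.symm (f x) = x := by rw [he]; exact e.left_inv hxe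
    exact ⟨_, _, hτ, mem_ball_self hr, hτx, mem_ball_self hr, hτx⟩
  have huniv : A = univ := IsClopen.eq_univ ⟨hcl, hop⟩ ⟨x, hx⟩
  obtain ⟨U, σ, h1, h2, h3, h4, h5⟩ : y ∈ A := by rw [huniv]; trivial
  rw [← h3, ← h5, hxy]

section
variable {X E : Type} [TopologicalSpace X] [T2Space X]
  [NormedAddCommGroup E] [NormedSpace ℝ E] [FiniteDimensional ℝ E] {dev : X → E}

omit [T2Space X] [FiniteDimensional ℝ E] in
theorem localHomeo_sect (hloc : IsLocalHomeomorph dev) (W : Submodule ℝ E) (p : E) :
    IsLocalHomeomorph (fun x : Sect dev W p => (⟨dev x.1 - p, x.2⟩ : W)) := by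
  set g : Sect dev W p → W := fun x => ⟨dev x.1 - p, x.2⟩ with hg
  have gc : Continuous g :=
    ((hloc.continuous.comp continuous_subtype_val).sub continuous_const).subtype_mk _
  have hopen : IsOpenMap fun x : X => dev x - p := by
    have := (Homeomorph.addRight (-p)).isOpenMap.comp hloc.isOpenMap
    simpa [Function.comp_def, sub_eq_add_neg] using this
  have gopen : IsOpenMap g := by
    intro U hU
    obtain ⟨V, hV, rfl⟩ := isOpen_induced_iff.1 hU
    refine isOpen_induced_iff.2 ⟨(fun x => dev x - p) '' V, hopen V hV, ?_⟩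
    ext q
    constructor
    · rintro ⟨x, hx, hxp⟩
      beta_reduce at hxp
      refine ⟨⟨x, ?_⟩, hx, Subtype.ext hxp⟩
      show dev x - p ∈ W
      rw [hxp]
      exact q.2
    · rintro ⟨x, hx, rfl⟩
      exact ⟨x.1, hx, rfl⟩
  rw [isLocalHomeomorph_iff_isOpenEmbedding_restrict]
  intro x
  obtain ⟨e, hxe, he⟩ := hloc x.1
  refine ⟨Subtype.val ⁻¹' e.source,
    continuous_subtype_val.continuousAt (e.open_source.mem_nhds hxe), ?_⟩
  have ho : IsOpen ((Subtype.val : Sect dev W p → X) ⁻¹' e.source) :=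
    e.open_source.preimage continuous_subtype_val
  refine IsOpenEmbedding.of_continuous_injective_isOpenMap ?_ ?_ ?_
  · exact gc.comp continuous_subtype_val
  · intro a b hab
    have h1 : dev a.1.1 - p = dev b.1.1 - p := congrArg Subtype.val hab
    have h2 : dev a.1.1 = dev b.1.1 := sub_left_injective h1
    have h3 := e.injOn a.2 b.2 (by rw [← he]; exact h2)
    exact Subtype.ext (Subtype.ext h3)
  · exact gopen.comp ho.isOpenMap_subtype_val

/-- the developing map is injective if all sections parallel to one line are connected -/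
theorem injective_of_con (hloc : IsLocalHomeomorph dev) {w : E} (hw : w ≠ 0)
    (hc : Con dev (Submodule.span ℝ {w})) : Function.Injective dev := by
  intro x y hxy
  let e : Submodule.span ℝ {w} ≃L[ℝ] ℝ :=
    (LinearEquiv.toSpanNonzeroSingleton ℝ E w hw).symm.toContinuousLinearEquiv
  have : ConnectedSpace (Sect dev (Submodule.span ℝ {w}) (dev x)) :=
    Subtype.connectedSpace (hc (dev x))
  have h1 := localHomeo_sect hloc (Submodule.span ℝ {w}) (dev x)
  have h2 : IsLocalHomeomorph (e ∘ fun z : Sect dev (Submodule.span ℝ {w}) (dev x) =>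
      (⟨dev z.1 - dev x, z.2⟩ : Submodule.span ℝ {w})) :=
    e.toHomeomorph.isLocalHomeomorph.comp h1
  have h3 := injective_of_line h2
  have hx : x ∈ Sect dev (Submodule.span ℝ {w}) (dev x) := by
    show dev x - dev x ∈ Submodule.span ℝ {w}
    rw [sub_self]
    exact Submodule.zero_mem _
  have hy : y ∈ Sect dev (Submodule.span ℝ {w}) (dev x) := by
    show dev y - dev x ∈ Submodule.span ℝ {w}
    rw [hxy, sub_self]
    exact Submodule.zero_mem _
  have h4 : (⟨x, hx⟩ : Sect dev (Submodule.span ℝ {w}) (dev x)) = ⟨y, hy⟩ := by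
    apply h3
    show e ⟨dev x - dev x, hx⟩ = e ⟨dev y - dev x, hy⟩
    congr 2
    rw [hxy]
  exact congrArg Subtype.val h4

end

end Run7.h675
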