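import Pool.Agent.Run7.h675.Disc

/-!
Invariant Lorentz forms on an invariant subspace of dimension three.
-/

set_option autoImplicit false
set_option linter.unusedSectionVars false

open Set Filter Topology Metric
open Pool.Agent.W689.Mk

namespace Run7.h675

section
variable {Γ E : Type} [Group Γ] [NormedAddCommGroup E] [NormedSpace ℝ E] [FiniteDimensional ℝ E]
  {hol : Γ →* (E ≃ᵃ[ℝ] E)}

/-- a symmetric form on `W` of Lorentz signature, invariant under the linear holonomy -/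
structure Lor (hol : Γ →* (E ≃ᵃ[ℝ] E)) (W : Submodule ℝ E) (B : E →L[ℝ] E →L[ℝ] ℝ) (e : E) :
    Prop where
  symm : ∀ v ∈ W, ∀ w ∈ W, B v w = B w v
  mem : e ∈ W
  neg : B e e < 0
  pos : ∀ v ∈ W, v ≠ 0 → B v e = 0 → 0 < B v v
  inv : ∀ γ : Γ, ∀ v ∈ W, ∀ w ∈ W, B (lin hol γ v) (lin hol γ w) = B v w

variable {W : Submodule ℝ E} {B : E →L[ℝ] E →L[ℝ] ℝ} {e : E}

theorem Lor.nondeg (L : Lor hol W B e) {v : E} (hv : v ∈ W) (h : ∀ w ∈ W, B w v = 0) : v = 0 := by
  by_contra h0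
  have h1 := L.pos v hv h0 (by rw [L.symm v hv e L.mem]; exact h e L.mem)
  rw [h v hv] at h1
  exact lt_irrefl _ h1

theorem Lor.adj (L : Lor hol W B e) (hW : ∀ γ : Γ, ∀ v ∈ W, lin hol γ v ∈ W) (γ : Γ) {v w : E}
    (hv : v ∈ W) (hw : w ∈ W) : B (lin hol γ v) w = B v (lin hol γ⁻¹ w) := by
  have h1 := L.inv γ v hv (lin hol γ⁻¹ w) (hW γ⁻¹ w hw)
  rwa [lin_apply_inv] at h1

/-- Lorentz forms give discompacity at most one -/
theorem Lor.disc (L : Lor hol W B e) (hW : ∀ γ : Γ, ∀ v ∈ W, lin hol γ v ∈ W) :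
    Disc1 hol W := by
  have : ProperSpace E := FiniteDimensional.proper_real E
  -- positivity on the complement of `e`
  obtain ⟨c, hc, hcp⟩ : ∃ c : ℝ, 0 < c ∧ ∀ v ∈ W, B v e = 0 → c * (‖v‖ * ‖v‖) ≤ B v v := by
    let S : Set E := {v | v ∈ W ∧ B v e = 0} ∩ sphere 0 1
    have hScl : IsClosed {v : E | v ∈ W ∧ B v e = 0} := by
      refine IsClosed.inter W.closed_of_finiteDimensional ?_
      exact isClosed_eq (by fun_prop) continuous_const
    have hS : IsCompact S := (isCompact_sphere 0 1).inter_left hScl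
    have hBc : Continuous fun v : E => B v v := by fun_prop
    rcases S.eq_empty_or_nonempty with h | h
    · refine ⟨1, one_pos, fun v hv hve => ?_⟩
      have h0 : v = 0 := by
        by_contra h0
        have h1 : (‖v‖⁻¹) • v ∈ S := by
          refine ⟨⟨W.smul_mem _ hv, ?_⟩, ?_⟩
          · rw [map_smul]
            show ‖v‖⁻¹ * B v e = 0
            rw [hve, mul_zero]
          · rw [mem_sphere_zero_iff_norm, norm_smul, norm_inv, norm_norm,
              inv_mul_cancel₀ (norm_ne_zero_iff.2 h0)]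
        rw [h] at h1
        exact h1
      subst h0
      simp
    · obtain ⟨v0, hv0, hmin⟩ := hS.exists_isMinOn h hBc.continuousOn
      have hv00 : v0 ≠ 0 := by
        rintro rfl
        have := hv0.2
        rw [mem_sphere_zero_iff_norm, norm_zero] at this
        exact zero_ne_one this
      refine ⟨B v0 v0, L.pos v0 hv0.1.1 hv00 hv0.1.2, fun v hv hve => ?_⟩
      by_cases h0 : v = 0
      · subst h0
        simp
      have hn : 0 < ‖v‖ := norm_pos_iff.2 h0
      have h1 : (‖v‖⁻¹) • v ∈ S := by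
        refine ⟨⟨W.smul_mem _ hv, ?_⟩, ?_⟩
        · rw [map_smul]
          show ‖v‖⁻¹ * B v e = 0
          rw [hve, mul_zero]
        · rw [mem_sphere_zero_iff_norm, norm_smul, norm_inv, norm_norm,
            inv_mul_cancel₀ hn.ne']
      have h2 : B v0 v0 ≤ B (‖v‖⁻¹ • v) (‖v‖⁻¹ • v) := hmin h1
      have h3 : B (‖v‖⁻¹ • v) (‖v‖⁻¹ • v) = B v v / (‖v‖ * ‖v‖) := by
        rw [map_smul, map_smul]
        show ‖v‖⁻¹ * (‖v‖⁻¹ * B v v) = _
        field_simp
      rw [h3, le_div_iff₀ (by positivity)] at h2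
      exact h2
  refine ⟨Real.sqrt (‖B‖ / c), fun γ => ⟨B.flip (lin hol γ⁻¹ e), fun v hv hle => ?_⟩⟩
  have h1 : B v (lin hol γ⁻¹ e) = 0 := hle
  have h2 : B (lin hol γ v) e = 0 := by rw [L.adj hW γ hv L.mem]; exact h1
  have h3 := hcp _ (hW γ v hv) h2
  rw [L.inv γ v hv v hv] at h3
  have h4 : B v v ≤ ‖B‖ * (‖v‖ * ‖v‖) := by
    have h5 := B.le_opNorm₂ v v
    rw [mul_assoc] at h5
    exact (le_abs_self _).trans h5
  have h5 : ‖lin hol γ v‖ * ‖lin hol γ v‖ ≤ ‖B‖ / c * (‖v‖ * ‖v‖) := by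
    rw [div_mul_eq_mul_div, le_div_iff₀ hc]
    linarith
  have h6 : ‖lin hol γ v‖ = Real.sqrt (‖lin hol γ v‖ * ‖lin hol γ v‖) :=
    (Real.sqrt_mul_self (norm_nonneg _)).symm
  rw [h6]
  refine (Real.sqrt_le_sqrt h5).trans (le_of_eq ?_)
  rw [Real.sqrt_mul (by positivity), Real.sqrt_mul_self (norm_nonneg _)]

/-- the covectors on `W` as inner products, with control of norms -/
theorem Lor.riesz (L : Lor hol W B e) : ∃ K : ℝ, 0 ≤ K ∧
    (∀ l : E →L[ℝ] ℝ, ∃ u ∈ W, ∀ v ∈ W, l v = B v u) ∧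
    ∀ u ∈ W, ∀ ε : ℝ, 0 ≤ ε → (∀ v ∈ W, ‖v‖ ≤ 1 → |B v u| ≤ ε) → ‖u‖ ≤ K * ε := by
  let f : W →ₗ[ℝ] (W →ₗ[ℝ] ℝ) :=
    { toFun := fun u => ((B.flip (u : E) : E →L[ℝ] ℝ) : E →ₗ[ℝ] ℝ).comp W.subtype
      map_add' := by
        intro u u'
        ext v
        show B v ((u : E) + u') = B v u + B v u'
        rw [map_add]
      map_smul' := by
        intro t u
        ext v
        show B v (t • (u : E)) = t * B v u
        rw [map_smul, smul_eq_mul] }
  have hf : ∀ (u v : W), f u v = B v u := fun u v => rfl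
  have hinj : Function.Injective f := by
    rw [injective_iff_map_eq_zero]
    intro u hu
    apply Subtype.ext
    refine L.nondeg u.2 fun w hw => ?_
    have h1 := congrArg (fun g : W →ₗ[ℝ] ℝ => g ⟨w, hw⟩) hu
    exact h1
  have hdim : Module.finrank ℝ W = Module.finrank ℝ (W →ₗ[ℝ] ℝ) :=
    (Subspace.dual_finrank_eq (K := ℝ) (V := W)).symm
  have hsurj : Function.Surjective f :=
    (LinearMap.injective_iff_surjective_of_finrank_eq_finrank hdim).1 hinj
  -- coordinates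
  let bs := Module.finBasis ℝ W
  set M : ℝ := ∑ i, ‖(bs i : E)‖ + 1 with hM
  have hM0 : 0 < M := by positivity
  have hbM : ∀ i, ‖(bs i : E)‖ ≤ M := by
    intro i
    have := Finset.single_le_sum (f := fun i => ‖(bs i : E)‖) (fun i _ => norm_nonneg _)
      (Finset.mem_univ i)
    rw [hM]
    linarith
  let g : W →ₗ[ℝ] (Fin (Module.finrank ℝ W) → ℝ) :=
    { toFun := fun u i => B (M⁻¹ • (bs i : E)) u
      map_add' := by
        intro u u'
        ext i
        show B (M⁻¹ • (bs i : E)) ((u : E) + u') = _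
        rw [map_add]
        rfl
      map_smul' := by
        intro t u
        ext i
        show B (M⁻¹ • (bs i : E)) (t • (u : E)) = _
        rw [map_smul]
        rfl }
  have hg : ∀ u i, g u i = B (M⁻¹ • (bs i : E)) u := fun u i => rfl
  have ginj : Function.Injective g := by
    rw [injective_iff_map_eq_zero]
    intro u hu
    apply hinj
    rw [map_zero]
    refine bs.ext fun i => ?_
    have h1 := congrFun hu i
    rw [hg, map_smul] at h1
    have h2 : M⁻¹ * B (bs i : E) u = 0 := h1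
    rw [hf]
    exact (mul_eq_zero.1 h2).resolve_left (inv_ne_zero hM0.ne')
  obtain ⟨K, hK0, hK⟩ := LinearMap.exists_antilipschitzWith g (LinearMap.ker_eq_bot.2 ginj)
  refine ⟨K, K.2, ?_, ?_⟩
  · intro l
    obtain ⟨u, hu⟩ := hsurj ((l : E →ₗ[ℝ] ℝ).comp W.subtype)
    refine ⟨u, u.2, fun v hv => ?_⟩
    have h2 := congrArg (fun g : W →ₗ[ℝ] ℝ => g ⟨v, hv⟩) hu
    exact h2.symm
  · intro u hu ε hε h
    have h1 : ‖g ⟨u, hu⟩‖ ≤ ε := by
      rw [pi_norm_le_iff_of_nonneg hε]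
      intro i
      rw [Real.norm_eq_abs, hg]
      refine h _ (W.smul_mem _ (bs i).2) ?_
      rw [norm_smul, norm_inv, Real.norm_eq_abs, abs_of_pos hM0, inv_mul_le_iff₀ hM0, mul_one]
      exact hbM i
    have h2 := hK.le_mul_dist ⟨u, hu⟩ 0
    rw [map_zero, dist_zero_right, dist_zero_right] at h2
    exact h2.trans (mul_le_mul_of_nonneg_left h1 K.2)

/-- contractible covectors are null -/
theorem Lor.null (L : Lor hol W B e) (hW : ∀ γ : Γ, ∀ v ∈ W, lin hol γ v ∈ W)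
    {l : E →L[ℝ] ℝ} (hl : ∃ u ∈ W, l u ≠ 0) (hc : Contract hol W l) :
    ∃ u ∈ W, u ≠ 0 ∧ B u u = 0 ∧ ∀ v ∈ W, l v = B v u := by
  obtain ⟨K, hK, hr, hn⟩ := L.riesz
  obtain ⟨u, hu, hlu⟩ := hr l
  refine ⟨u, hu, ?_, ?_, hlu⟩
  · rintro rfl
    obtain ⟨w, hw, hlw⟩ := hl
    apply hlw
    rw [hlu w hw, map_zero]
  · by_contra hne
    have hpos : 0 < |B u u| := abs_pos.2 hne
    -- choose `ε`
    obtain ⟨ε, hε, hεs⟩ : ∃ ε : ℝ, 0 < ε ∧ ε * (K * ε) < |B u u| := by
      have h1 : Continuous fun ε : ℝ => ε * (K * ε) := by fun_prop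
      have h2 : ∀ᶠ ε in 𝓝[>] (0 : ℝ), ε * (K * ε) < |B u u| := by
        refine nhdsWithin_le_nhds ((h1.tendsto 0).eventually_lt_const ?_)
        rw [zero_mul]
        exact hpos
      obtain ⟨ε, h3, h4⟩ := (h2.and self_mem_nhdsWithin).exists
      exact ⟨ε, h4, h3⟩
    obtain ⟨γ, hγ⟩ := hc ε hε
    set y := lin hol γ⁻¹ u with hy
    have hyW : y ∈ W := hW γ⁻¹ u hu
    have h1 : ∀ v ∈ W, ‖v‖ ≤ 1 → |B v y| ≤ ε := by
      intro v hv hvn
      have h2 := hγ v hv hvn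
      rw [hlu _ (hW γ v hv), L.adj hW γ hv hu] at h2
      exact h2
    have h2 := hn y hyW ε hε.le h1
    have h3 : B y y = B u u := L.inv γ⁻¹ u hu u hu
    have h4 : |B y y| ≤ ε * ‖y‖ := by
      by_cases hy0 : y = 0
      · rw [hy0]
        simp
      have hyn : 0 < ‖y‖ := norm_pos_iff.2 hy0
      have h5 := h1 (‖y‖⁻¹ • y) (W.smul_mem _ hyW) (by
        rw [norm_smul, norm_inv, norm_norm, inv_mul_cancel₀ hyn.ne'])
      have h6 : B (‖y‖⁻¹ • y) y = B y y / ‖y‖ := by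
        rw [map_smul]
        show ‖y‖⁻¹ * B y y = _
        rw [inv_mul_eq_div]
      rw [h6, abs_div, abs_of_pos hyn, div_le_iff₀ hyn] at h5
      exact h5
    rw [h3] at h4
    have h5 : ε * ‖y‖ ≤ ε * (K * ε) := mul_le_mul_of_nonneg_left h2 hε.le
    linarith

end

end Run7.h675
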