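import Pool.Agent.N520.RO.Plane
import Pool.Agent.N520.RO.Asm
import Pool.Agent.Run7.h675.DiscFlag

/-!
Invariant Lorentz forms in any dimension, through the starting results on groups of rank one.
-/

set_option autoImplicit false
set_option linter.unusedSectionVars false

open Set Filter Topology Metric Matrix
open Pool.Agent.W689.Mk Pool.Agent.N520.RO

namespace Run7.h675

section
variable {V : Type} [NormedAddCommGroup V] [NormedSpace ℝ V] {k : ℕ}

/-- matrices acting through a basis -/
noncomputable def matRep {G : Type} [Group G] (b : Module.Basis (Fin k) ℝ V)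
    (μ : G →* Matrix (Fin k) (Fin k) ℝ) : G →* (V ≃ₗ[ℝ] V) where
  toFun g := LinearEquiv.ofLinearMap (Matrix.toLin b b (μ g)) (Matrix.toLin b b (μ g⁻¹))
    (by rw [← Matrix.toLin_mul, ← map_mul, mul_inv_cancel, map_one, Matrix.toLin_one])
    (by rw [← Matrix.toLin_mul, ← map_mul, inv_mul_cancel, map_one, Matrix.toLin_one])
  map_one' := by
    refine LinearEquiv.ext fun v => ?_
    show Matrix.toLin b b (μ 1) v = v
    rw [map_one, Matrix.toLin_one]
    rfl
  map_mul' g h := by
    refine LinearEquiv.ext fun v => ?_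
    show Matrix.toLin b b (μ (g * h)) v = Matrix.toLin b b (μ g) (Matrix.toLin b b (μ h) v)
    rw [map_mul, Matrix.toLin_mul b b b]
    rfl

theorem matRep_apply {G : Type} [Group G] (b : Module.Basis (Fin k) ℝ V)
    (μ : G →* Matrix (Fin k) (Fin k) ℝ) (g : G) (v : V) :
    matRep b μ g v = ∑ i, (μ g *ᵥ b.repr v) i • b i := by
  show Matrix.toLin b b (μ g) v = _
  rw [Matrix.toLin_apply]

/-- the matrices of the Lorentz group -/
noncomputable def lorMat (n : ℕ) : LorGroup ℝ n →* Matrix (Fin (n + 2)) (Fin (n + 2)) ℝ :=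
  (Units.coeHom _).comp (LorGroup ℝ n).subtype

theorem lorMat_apply (n : ℕ) (g : LorGroup ℝ n) : lorMat n g = mat g := rfl

theorem continuous_lorMat (n : ℕ) : Continuous (lorMat n) :=
  Units.continuous_val.comp continuous_subtype_val

theorem lor_isRep {n : ℕ} (b : Module.Basis (Fin (n + 2)) ℝ V) {T : ℝ → LorGroup ℝ n}
    (hT : IsBoost ℝ n T) : IsRep T (matRep b (lorMat n)) := by
  have hTm : ∀ t, lorMat n (T t) = boostM ℝ n t := hT
  have hbas : ∀ (t : ℝ) (j : Fin (n + 2)), matRep b (lorMat n) (T t) (b j) =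
      ∑ i, boostM ℝ n t i j • b i := by
    intro t j
    rw [matRep_apply, hTm, b.repr_self, Finsupp.single_eq_pi_single]
    refine Finset.sum_congr rfl fun i _ => ?_
    rw [Matrix.mulVec_single_one]
    rfl
  have h01 : (0 : Fin (n + 2)) ≠ 1 := by
    intro h
    exact absurd (congrArg Fin.val h) (by simp)
  have b0 : ∀ t, matRep b (lorMat n) (T t) (b 0) = Real.cosh t • b 0 + Real.sinh t • b 1 := by
    intro t
    rw [hbas]
    have h1 : ∀ i : Fin (n + 2), boostM ℝ n t i 0 • b i =
        (if i = 0 then Real.cosh t • b 0 else 0) + (if i = 1 then Real.sinh t • b 1 else 0) := by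
      intro i
      unfold boostM
      by_cases hi0 : i = 0
      · subst hi0
        simp
      · by_cases hi1 : i = 1
        · subst hi1
          simp
        · simp [hi0, hi1]
    rw [Finset.sum_congr rfl fun i _ => h1 i, Finset.sum_add_distrib,
      Finset.sum_ite_eq' Finset.univ (0 : Fin (n + 2)), Finset.sum_ite_eq' Finset.univ (1 : Fin (n + 2))]
    simp
  have b1 : ∀ t, matRep b (lorMat n) (T t) (b 1) = Real.sinh t • b 0 + Real.cosh t • b 1 := by
    intro t
    rw [hbas]
    have h1 : ∀ i : Fin (n + 2), boostM ℝ n t i 1 • b i =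
        (if i = 0 then Real.sinh t • b 0 else 0) + (if i = 1 then Real.cosh t • b 1 else 0) := by
      intro i
      unfold boostM
      by_cases hi0 : i = 0
      · subst hi0
        simp
      · by_cases hi1 : i = 1
        · subst hi1
          simp
        · simp [hi0, hi1]
    rw [Finset.sum_congr rfl fun i _ => h1 i, Finset.sum_add_distrib,
      Finset.sum_ite_eq' Finset.univ (0 : Fin (n + 2)), Finset.sum_ite_eq' Finset.univ (1 : Fin (n + 2))]
    simp
  have bj : ∀ (j : Fin (n + 2)), j ≠ 0 → j ≠ 1 → ∀ t, matRep b (lorMat n) (T t) (b j) = b j := by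
    intro j hj0 hj1 t
    rw [hbas]
    have h1 : ∀ i : Fin (n + 2), boostM ℝ n t i j • b i = if i = j then b j else 0 := by
      intro i
      unfold boostM
      by_cases hij : i = j
      · subst hij
        simp [hj0, hj1]
      · simp [hij, hj0, hj1]
    rw [Finset.sum_congr rfl fun i _ => h1 i, Finset.sum_ite_eq' Finset.univ j]
    simp
  refine ⟨fun v => ?_, ?_⟩
  · have : (fun g => matRep b (lorMat n) g v) =
        fun g => ∑ i, (lorMat n g *ᵥ b.repr v) i • b i := by
      funext g
      exact matRep_apply b (lorMat n) g v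
    rw [this]
    refine continuous_finsetSum _ fun i _ => Continuous.smul ?_ continuous_const
    exact (continuous_apply i).comp ((continuous_lorMat n).matrix_mulVec continuous_const)
  · set S := Submodule.span ℝ {v : V | ∃ c : ℝ, ∀ t : ℝ, matRep b (lorMat n) (T t) v =
      Real.exp (c * t) • v} with hS
    have hp : b 0 + b 1 ∈ S := by
      refine Submodule.subset_span ⟨1, fun t => ?_⟩
      rw [map_add, b0, b1, one_mul, ← Real.cosh_add_sinh]
      module
    have hm : b 0 - b 1 ∈ S := by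
      refine Submodule.subset_span ⟨-1, fun t => ?_⟩
      rw [map_sub, b0, b1, neg_one_mul, ← Real.cosh_sub_sinh]
      module
    rw [eq_top_iff, ← b.span_eq, Submodule.span_le]
    rintro _ ⟨j, rfl⟩
    by_cases hj0 : j = 0
    · subst hj0
      have : b 0 = (1 / 2 : ℝ) • (b 0 + b 1) + (1 / 2 : ℝ) • (b 0 - b 1) := by module
      rw [this]
      exact S.add_mem (S.smul_mem _ hp) (S.smul_mem _ hm)
    · by_cases hj1 : j = 1
      · subst hj1
        have : b 1 = (1 / 2 : ℝ) • (b 0 + b 1) - (1 / 2 : ℝ) • (b 0 - b 1) := by module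
        rw [this]
        exact S.sub_mem (S.smul_mem _ hp) (S.smul_mem _ hm)
      · refine Submodule.subset_span ⟨0, fun t => ?_⟩
        rw [bj j hj0 hj1, zero_mul, Real.exp_zero, one_smul]

end

section
variable {Γ E : Type} [Group Γ] [NormedAddCommGroup E] [NormedSpace ℝ E] [FiniteDimensional ℝ E]
  {hol : Γ →* (E ≃ᵃ[ℝ] E)} {W : Submodule ℝ E} {B : E →L[ℝ] E →L[ℝ] ℝ} {e : E}

/-- orthonormal bases of definite subspaces -/
theorem Lor.ortho (L : Lor hol W B e) {U : Submodule ℝ E} (hUW : U ≤ W)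
    (hU : ∀ v ∈ U, B v e = 0) {k : ℕ} (hk : Module.finrank ℝ U = k) :
    ∃ f : Fin k → E, (∀ i, f i ∈ U) ∧ ∀ i j, B (f i) (f j) = if i = j then 1 else 0 := by
  subst hk
  let BU : LinearMap.BilinForm ℝ U := LinearMap.mk₂ ℝ (fun x y : U => B (x : E) (y : E))
    (fun x y z => form_add B x y z) (fun c x y => form_smul B c x y)
    (fun x y z => map_add (B (x : E)) (y : E) (z : E))
    (fun c x y => map_smul (B (x : E)) c (y : E))
  have hBU : ∀ x y : U, BU x y = B (x : E) (y : E) := fun x y => rfl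
  have hsymm : LinearMap.IsSymm BU := ⟨fun x y => L.symm x (hUW x.2) y (hUW y.2)⟩
  have : Invertible (2 : ℝ) := invertibleOfNonzero two_ne_zero
  obtain ⟨v, hv⟩ := LinearMap.BilinForm.exists_orthogonal_basis hsymm
  have hpos : ∀ i, 0 < B (v i : E) (v i : E) := by
    intro i
    refine L.pos _ (hUW (v i).2) ?_ (hU _ (v i).2)
    intro h
    exact v.ne_zero i (Subtype.ext h)
  refine ⟨fun i => (Real.sqrt (B (v i : E) (v i : E)))⁻¹ • (v i : E),
    fun i => U.smul_mem _ (v i).2, fun i j => ?_⟩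
  rw [form_smul, map_smul, smul_eq_mul]
  by_cases hij : i = j
  · subst hij
    rw [if_pos rfl]
    have h1 := hpos i
    have h2 : 0 < Real.sqrt (B (v i : E) (v i : E)) := Real.sqrt_pos.2 h1
    have h3 : Real.sqrt (B (v i : E) (v i : E)) * Real.sqrt (B (v i : E) (v i : E)) =
      B (v i : E) (v i : E) := Real.mul_self_sqrt h1.le
    have h4 := h2.ne'
    field_simp
    rw [sq, h3]
  · rw [if_neg hij]
    have h1 : BU (v i) (v j) = 0 := hv hij
    rw [hBU] at h1
    rw [h1, mul_zero, mul_zero]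

/-- Lorentz bases -/
theorem Lor.basis (L : Lor hol W B e) {n : ℕ} (hn : Module.finrank ℝ W = n + 2) :
    ∃ b : Module.Basis (Fin (n + 2)) ℝ W, ∀ i j,
      B (b i : E) (b j : E) = lor ℝ n i j := by
  set U : Submodule ℝ E := W ⊓ LinearMap.ker ((B.flip e : E →L[ℝ] ℝ) : E →ₗ[ℝ] ℝ) with hUdef
  have hUW : U ≤ W := inf_le_left
  have hUe : ∀ v ∈ U, B v e = 0 := fun v hv => hv.2
  have heU : e ∉ U := by
    intro h
    have := hUe e h
    have h2 := L.neg
    linarith
  have hsup : W = U ⊔ Submodule.span ℝ {e} := by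
    refine le_antisymm (fun v hv => ?_)
      (sup_le hUW ((Submodule.span_singleton_le_iff_mem e W).2 L.mem))
    have h1 : v - (B v e / B e e) • e ∈ U := by
      refine ⟨W.sub_mem hv (W.smul_mem _ L.mem), ?_⟩
      show B (v - (B v e / B e e) • e) e = 0
      rw [form_sub, form_smul, div_mul_cancel₀ _ L.neg.ne, sub_self]
    have h2 : v = (v - (B v e / B e e) • e) + (B v e / B e e) • e := by abel
    rw [h2]
    exact Submodule.add_mem_sup h1
      (Submodule.smul_mem _ _ (Submodule.mem_span_singleton_self e))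
  have hUr : Module.finrank ℝ U = n + 1 := by
    have h3 := Submodule.finrank_add_le_finrank_add_finrank U (Submodule.span ℝ {e})
    have h4 : Module.finrank ℝ (Submodule.span ℝ {e}) ≤ 1 := by
      have := finrank_span_le_card (R := ℝ) ({e} : Set E)
      simpa using this
    rw [← hsup, hn] at h3
    have h5 : U < W := by
      refine lt_of_le_of_ne hUW fun he => heU ?_
      rw [he]
      exact L.mem
    have h6 := Submodule.finrank_lt_finrank_of_lt h5
    omega
  obtain ⟨f, hfU, hf⟩ := L.ortho hUW hUe hUr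
  have hsq : 0 < Real.sqrt (-(B e e)) := Real.sqrt_pos.2 (by linarith [L.neg])
  set e0 : E := (Real.sqrt (-(B e e)))⁻¹ • e with he0
  have he0W : e0 ∈ W := W.smul_mem _ L.mem
  have he00 : B e0 e0 = -1 := by
    rw [he0, form_smul, map_smul, smul_eq_mul]
    have h3 : Real.sqrt (-(B e e)) * Real.sqrt (-(B e e)) = -(B e e) :=
      Real.mul_self_sqrt (by linarith [L.neg])
    have h4 := hsq.ne'
    field_simp
    rw [sq, h3]
    ring
  have hfe : ∀ i, B (f i) e0 = 0 := by
    intro i
    rw [he0, map_smul, hUe _ (hfU i), smul_zero]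
  have hef : ∀ i, B e0 (f i) = 0 := fun i => by
    rw [L.symm e0 he0W _ (hUW (hfU i))]
    exact hfe i
  let c : Fin (n + 2) → W := Fin.cons ⟨e0, he0W⟩ fun i => ⟨f i, hUW (hfU i)⟩
  have c0 : (c 0 : E) = e0 := rfl
  have cs : ∀ i : Fin (n + 1), (c i.succ : E) = f i := fun i => rfl
  have hc : ∀ i j, B (c i : E) (c j : E) = lor ℝ n i j := by
    intro i j
    unfold lor
    rw [Matrix.diagonal_apply]
    refine Fin.cases ?_ (fun i => ?_) i <;> refine Fin.cases ?_ (fun j => ?_) j
    · rw [c0, if_pos rfl, if_pos rfl, he00]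
    · rw [c0, cs, if_neg (Fin.succ_ne_zero j).symm, hef]
    · rw [c0, cs, if_neg (Fin.succ_ne_zero i), hfe]
    · rw [cs, cs, hf, if_neg (Fin.succ_ne_zero i)]
      simp only [Fin.succ_inj]
  have hli : LinearIndependent ℝ c := by
    rw [Fintype.linearIndependent_iff]
    intro g hg i
    have h1 : (∑ j, g j • (c j : E)) = 0 := by
      have := congrArg Subtype.val hg
      simpa using this
    have h2 : B (∑ j, g j • (c j : E)) (c i : E) = 0 := by
      rw [h1, map_zero]
      rfl
    have h3 : B (∑ j, g j • (c j : E)) (c i : E) = g i * lor ℝ n i i := by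
      rw [map_sum, _root_.sum_apply]
      rw [Finset.sum_eq_single i]
      · rw [form_smul, hc]
      · intro j _ hji
        rw [form_smul, hc]
        unfold lor
        rw [Matrix.diagonal_apply, if_neg hji, mul_zero]
      · intro h
        exact absurd (Finset.mem_univ i) h
    rw [h3] at h2
    refine (mul_eq_zero.1 h2).resolve_right ?_
    unfold lor
    rw [Matrix.diagonal_apply_eq]
    split_ifs <;> norm_num
  let b := basisOfLinearIndependentOfCardEqFinrank hli (by rw [Fintype.card_fin, hn])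
  refine ⟨b, fun i j => ?_⟩
  have hb : ∀ i, b i = c i := fun i => by
    rw [coe_basisOfLinearIndependentOfCardEqFinrank]
  rw [hb, hb]
  exact hc i j

/-- the holonomy on `W` in a Lorentz basis -/
theorem Lor.exists_mat (L : Lor hol W B e) (hW : ∀ γ : Γ, ∀ v ∈ W, lin hol γ v ∈ W) {n : ℕ}
    {b : Module.Basis (Fin (n + 2)) ℝ W}
    (hb : ∀ i j, B (b i : E) (b j : E) = lor ℝ n i j) (γ : Γ) :
    ∃ g : LorGroup ℝ n, ∀ v : W, lin hol γ v = (matRep b (lorMat n) g v : E) := by
  let f : Γ → W →ₗ[ℝ] W := fun γ => ((hol γ).linear : E →ₗ[ℝ] E).restrict (hW γ)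
  have hf : ∀ γ (v : W), (f γ v : E) = lin hol γ v := fun γ v => rfl
  have hmul : ∀ γ : Γ, LinearMap.toMatrix b b (f γ) * LinearMap.toMatrix b b (f γ⁻¹) = 1 := by
    intro γ
    rw [← LinearMap.toMatrix_comp b b b]
    have h1 : (f γ).comp (f γ⁻¹) = LinearMap.id := by
      refine LinearMap.ext fun v => Subtype.ext ?_
      show lin hol γ (lin hol γ⁻¹ v) = v
      exact lin_apply_inv γ _
    rw [h1, LinearMap.toMatrix_id]
  have hmul' : LinearMap.toMatrix b b (f γ⁻¹) * LinearMap.toMatrix b b (f γ) = 1 := by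
    have := hmul γ⁻¹
    rwa [inv_inv] at this
  set M := LinearMap.toMatrix b b (f γ) with hM
  let u : GL (Fin (n + 2)) ℝ := ⟨M, LinearMap.toMatrix b b (f γ⁻¹), hmul γ, hmul'⟩
  have hcol : ∀ j, lin hol γ (b j : E) = ∑ k, M k j • (b k : E) := by
    intro j
    have h1 : f γ (b j) = ∑ k, M k j • b k := by
      conv_lhs => rw [← b.sum_repr (f γ (b j))]
      refine Finset.sum_congr rfl fun k _ => ?_
      rw [hM, LinearMap.toMatrix_apply]
    have h2 := congrArg Subtype.val h1
    rw [hf] at h2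
    rw [h2]
    simp
  have hB : ∀ x y : Fin (n + 2) → ℝ, B (∑ k, x k • (b k : E)) (∑ l, y l • (b l : E)) =
      ∑ k, ∑ l, x k * (y l * lor ℝ n k l) := by
    intro x y
    rw [map_sum B, _root_.sum_apply]
    refine Finset.sum_congr rfl fun k _ => ?_
    rw [form_smul, map_sum, Finset.mul_sum]
    refine Finset.sum_congr rfl fun l _ => ?_
    rw [map_smul, smul_eq_mul, hb]
  have hlor : Mᴴ * lor ℝ n * M = lor ℝ n := by
    ext i j
    have h1 := L.inv γ (b i) (b i).2 (b j) (b j).2
    rw [hb, hcol i, hcol j, hB (fun k => M k i) (fun l => M l j)] at h1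
    rw [← h1, Matrix.mul_apply]
    have h2 : ∀ l, (Mᴴ * lor ℝ n) i l * M l j = ∑ k, M k i * (M l j * lor ℝ n k l) := by
      intro l
      rw [Matrix.mul_apply, Finset.sum_mul]
      refine Finset.sum_congr rfl fun k _ => ?_
      rw [Matrix.conjTranspose_apply, star_trivial]
      ring
    rw [Finset.sum_congr rfl fun l _ => h2 l, Finset.sum_comm]
  refine ⟨⟨u, hlor⟩, fun v => ?_⟩
  rw [matRep_apply]
  have h3 : lorMat n ⟨u, hlor⟩ = M := rfl
  rw [h3, hM, LinearMap.toMatrix_mulVec_repr, b.sum_repr]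
  rfl

end

section
variable {X Γ E : Type} [TopologicalSpace X] [T2Space X] [Group Γ] [MulAction Γ X]
  [NormedAddCommGroup E] [NormedSpace ℝ E] [FiniteDimensional ℝ E]
  {dev : X → E} {hol : Γ →* (E ≃ᵃ[ℝ] E)} {W : Submodule ℝ E} {B : E →L[ℝ] E →L[ℝ] ℝ} {e : E}
  {S : ℕ → Submodule ℝ E} {m : ℕ}

/-- Lorentz spaces of any dimension -/
theorem BFlag.lorAny [SecondCountableTopology X] [ConnectedSpace X] (D : AffData X Γ E dev hol)
    (F : BFlag hol W S m) (L : Lor hol W B e) {a : ℕ}
    (ha : ∀ γ ∈ derivedSeries Γ a, ∀ v, lin hol γ v - v ∈ W) : IsHomeomorph dev := by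
  rcases Nat.lt_or_ge 4 (Module.finrank ℝ W) with hr | hr
  swap
  · exact F.lor D hr L ha
  obtain ⟨n, hn⟩ : ∃ n, Module.finrank ℝ W = n + 2 := ⟨Module.finrank ℝ W - 2, by omega⟩
  obtain ⟨b, hb⟩ := L.basis hn
  have hinj : Function.Injective dev := leaf_injective D (L.disc F.invW) (F.con D)
  obtain ⟨K, P, T, w, hT, hR⟩ := inst_all ℝ n
  let S' : ℕ → Submodule ℝ E := fun i => if i = 0 then W else if i ≤ m then S i else ⊤
  have S'0 : S' 0 = W := rfl
  have S's : ∀ i, S' (i + 1) = if i + 1 ≤ m then S (i + 1) else ⊤ := fun i =>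
    if_neg (Nat.succ_ne_zero i)
  have hS' : ∀ i ≤ m, S' i = S i := by
    intro i hi
    rcases Nat.eq_zero_or_pos i with rfl | h0
    · exact F.bot.symm
    · obtain ⟨i', rfl⟩ : ∃ i', i = i' + 1 := ⟨i - 1, by omega⟩
      rw [S's, if_pos hi]
  -- the constant
  choose C hC using fun i : Fin m => F.bdd i i.2
  set C0 : ℝ := ∑ i, |C i| with hC0
  have hC0p : 0 ≤ C0 := Finset.sum_nonneg fun i _ => abs_nonneg _
  have hCi : ∀ i, C i ≤ C0 := fun i => (le_abs_self _).trans
    (Finset.single_le_sum (f := fun i => |C i|) (fun i _ => abs_nonneg _) (Finset.mem_univ i))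
  let b' : Module.Basis (Fin (n + 2)) ℝ (S' 0) := b
  refine rankC (K := K) (P := P) (T := T) (w := w) (lor_group ℝ n) hR X Γ E dev hol D hinj ⊤
    inferInstance S' m ⟨?_, ?_, ?_, C0, ?_, ?_⟩ (matRep b' (lorMat n))
    (lor_isRep b' hT) ?_ (a + 1) ?_
  · rw [S's, if_neg (by omega)]
  · intro i hi
    rcases Nat.lt_or_ge i m with h | h
    · rw [hS' i hi, hS' (i + 1) h]
      exact F.le i h
    · have him : i = m := by omega
      subst him
      rw [S's, if_neg (by omega)]
      exact le_top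
  · intro i hi γ _ v hv
    rw [hS' i hi] at hv ⊢
    exact F.inv i hi γ v hv
  · intro i hi γ _ v hv
    rw [hS' (i + 1) hi] at hv
    obtain ⟨y, hy, hyn, hyS⟩ := hC ⟨i, hi⟩ γ⁻¹ v hv
    refine ⟨lin hol γ v - y, ?_, ?_⟩
    · rw [hS' i hi.le]
      have h1 := F.inv i hi.le γ _ hyS
      rw [lin_sub, lin_apply_inv] at h1
      rw [← neg_sub]
      exact (S i).neg_mem h1
    · show ‖lin hol γ v - (lin hol γ v - y)‖ ≤ _
      rw [sub_sub_cancel]
      exact hyn.trans (mul_le_mul_of_nonneg_right (hCi ⟨i, hi⟩) (norm_nonneg _))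
  · intro γ _
    refine ⟨1, one_pos, fun v => ⟨⟨(hol γ).linear v, ?_, ?_⟩, (hol γ⁻¹).linear v, ?_, ?_⟩⟩
    · rw [hS' m le_rfl, F.top]
      exact Submodule.mem_top
    · rw [sub_self, norm_zero]
      positivity
    · rw [hS' m le_rfl, F.top]
      exact Submodule.mem_top
    · rw [sub_self, norm_zero]
      positivity
  · intro γ _
    exact L.exists_mat F.invW hb γ
  · intro γ hγ v
    have h1 : (γ : Γ) ∈ derivedSeries Γ (a + 1) :=
      map_derivedSeries_le_derivedSeries (⊤ : Subgroup Γ).subtype (a + 1) ⟨γ, hγ, rfl⟩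
    rw [derivedSeries_succ] at h1
    exact derived_affine ha _ h1 v

end

end Run7.h675
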