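import Pool.Agent.Run7.h675.Top

/-!
Closed manifolds with an integral affine structure: integral affine functions on the universal
covering are projections of products, and the fundamental group is one-ended.
-/

set_option autoImplicit false

open Set Filter Topology
open Pool.Agent.W689.Mk

namespace Run7.h675

/-- `u` is an integral affine function on the space `X` over `B`: near every point it is
`y ↦ ⟨m, e (p y)⟩ + c` for a chart `e` of the atlas, a non-zero integer vector `m` and a real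
number `c`. -/
def IntAtlas.IsAffFun {n : ℕ} {X B : Type} [TopologicalSpace X] [TopologicalSpace B]
    (𝒜 : IntAtlas n B) (p : X → B) (u : X → ℝ) : Prop :=
  ∀ x, ∃ e ∈ 𝒜.charts, p x ∈ e.source ∧ ∃ m : Fin n → ℤ, m ≠ 0 ∧ ∃ c : ℝ,
    ∀ᶠ y in 𝓝 x, u y = ∑ i, (m i : ℝ) * e (p y) i + c

section
variable {n : ℕ}

/-- a non-constant affine function with integral linear part -/
def IntFun (α : Eu n →ᵃ[ℝ] ℝ) : Prop :=
  (∀ v, IsInt v → ∃ k : ℤ, α.linear v = k) ∧ α.linear ≠ 0

/-- the affine function with given coefficients -/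
noncomputable def affOf (m : Fin n → ℤ) (c : ℝ) : Eu n →ᵃ[ℝ] ℝ :=
  (∑ i, (m i : ℝ) • (EuclideanSpace.proj i : Eu n →L[ℝ] ℝ).toLinearMap).toAffineMap +
    AffineMap.const ℝ (Eu n) c

theorem affOf_apply (m : Fin n → ℤ) (c : ℝ) (v : Eu n) :
    affOf m c v = ∑ i, (m i : ℝ) * v i + c := by
  simp [affOf]

theorem affOf_linear (m : Fin n → ℤ) (c : ℝ) (v : Eu n) :
    (affOf m c).linear v = ∑ i, (m i : ℝ) * v i := by
  simp [affOf, LinearMap.sum_apply]

theorem isInt_single (i : Fin n) : IsInt (EuclideanSpace.single i (1 : ℝ)) := by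
  intro j
  by_cases h : j = i
  · exact ⟨1, by simp [h]⟩
  · exact ⟨0, by simp [h]⟩

theorem affOf_intFun {m : Fin n → ℤ} (hm : m ≠ 0) (c : ℝ) : IntFun (affOf m c) := by
  constructor
  · intro v hv
    choose k hk using hv
    refine ⟨∑ i, m i * k i, ?_⟩
    rw [affOf_linear]
    push_cast
    exact Finset.sum_congr rfl fun i _ => by rw [hk]
  · intro h
    apply hm
    funext i
    have h1 : (affOf m c).linear (EuclideanSpace.single i (1 : ℝ)) = 0 := by rw [h]; rfl
    rw [affOf_linear] at h1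
    have h2 : ∑ j, (m j : ℝ) * (EuclideanSpace.single i (1 : ℝ) : Eu n) j = m i := by
      rw [Finset.sum_eq_single i]
      · simp
      · intro j _ hj
        simp [hj]
      · intro h3
        exact (h3 (Finset.mem_univ _)).elim
    rw [h2] at h1
    simpa using h1

theorem IntFun.exists_affOf {α : Eu n →ᵃ[ℝ] ℝ} (h : IntFun α) :
    ∃ m : Fin n → ℤ, m ≠ 0 ∧ ∃ c : ℝ, α = affOf m c := by
  choose m hm using fun i => h.1 _ (isInt_single i)
  have key : ∀ v : Eu n, α.linear v = ∑ i, (m i : ℝ) * v i := by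
    intro v
    have hv : v = ∑ i, v i • EuclideanSpace.single i (1 : ℝ) := by
      ext j
      simp [Finset.sum_apply, Pi.single_apply]
    conv_lhs => rw [hv]
    rw [map_sum]
    refine Finset.sum_congr rfl fun i _ => ?_
    rw [map_smul, hm, smul_eq_mul, mul_comm]
  refine ⟨m, ?_, α 0, ?_⟩
  · rintro rfl
    apply h.2
    ext v : 1
    rw [key]
    simp
  · ext v : 1
    rw [affOf_apply, ← key]
    have := α.map_vadd 0 v
    simpa using this

theorem IntFun.comp {α : Eu n →ᵃ[ℝ] ℝ} (h : IntFun α) {a : Eu n ≃ᵃ[ℝ] Eu n} (ha : IntAff a) :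
    IntFun (α.comp a.toAffineMap) := by
  constructor
  · intro v hv
    exact h.1 _ ((ha v).2 hv)
  · intro h1
    apply h.2
    ext v : 1
    have h2 : α.linear (a.linear (a.linear.symm v)) = 0 := by
      have := LinearMap.congr_fun h1 (a.linear.symm v)
      exact this
    rw [a.linear.apply_symm_apply] at h2
    rw [h2]
    rfl

theorem germ_unique' {Y : Type} [TopologicalSpace Y] {f : Y → Eu n} {y : Y}
    (hf : map f (𝓝 y) = 𝓝 (f y)) {α β : Eu n →ᵃ[ℝ] ℝ}
    (h : ∀ᶠ z in 𝓝 y, α (f z) = β (f z)) : α = β := by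
  have h1 : ∀ᶠ p in 𝓝 (f y), α p = β p := by
    rw [← hf]
    exact h
  obtain ⟨U, hU, hUo, hy⟩ := eventually_nhds_iff.1 h1
  exact AffineMap.ext_on (hUo.affineSpan_eq_top ⟨_, hy⟩) hU

theorem rigid' {X : Type} [TopologicalSpace X] [PreconnectedSpace X] [Nonempty X] {dev : X → Eu n}
    {u : X → ℝ} (hdev : ∀ x, map dev (𝓝 x) = 𝓝 (dev x))
    (h : ∀ x, ∃ α : Eu n →ᵃ[ℝ] ℝ, IntFun α ∧ ∀ᶠ y in 𝓝 x, u y = α (dev y)) :
    ∃ α : Eu n →ᵃ[ℝ] ℝ, IntFun α ∧ ∀ x, u x = α (dev x) := by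
  choose a ha hae using h
  have h1 : IsLocallyConstant a := by
    rw [IsLocallyConstant.iff_eventually_eq]
    intro x
    filter_upwards [(hae x).eventually_nhds] with y hy
    refine germ_unique' (hdev y) ?_
    filter_upwards [hy, hae y] with z hz hz'
    rw [← hz, ← hz']
  obtain ⟨x0⟩ := ‹Nonempty X›
  refine ⟨a x0, ha x0, fun x => ?_⟩
  rw [h1.apply_eq_of_preconnectedSpace x0 x]
  exact (hae x).self_of_nhds

/-- integral covectors stay away from zero under the linear holonomy -/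
theorem IntFun.bounded {α : Eu n →ᵃ[ℝ] ℝ} (h : IntFun α) {a : Eu n ≃ᵃ[ℝ] Eu n} (ha : IntAff a) :
    ∃ v : Eu n, ‖v‖ ≤ 1 ∧ α.linear (a.linear v) = 1 := by
  obtain ⟨m, hm, c, hc⟩ := (h.comp ha).exists_affOf
  have h1 : ∀ v, α.linear (a.linear v) = ∑ i, (m i : ℝ) * v i := by
    intro v
    have h2 : (α.comp a.toAffineMap).linear v = (affOf m c).linear v := by rw [hc]
    rw [affOf_linear] at h2
    exact h2
  obtain ⟨i, hi⟩ : ∃ i, m i ≠ 0 := by
    by_contra hcon
    push Not at hcon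
    exact hm (funext hcon)
  refine ⟨(m i : ℝ)⁻¹ • EuclideanSpace.single i (1 : ℝ), ?_, ?_⟩
  · rw [norm_smul, PiLp.norm_single, norm_one, mul_one, norm_inv]
    have h2 : (1 : ℝ) ≤ ‖(m i : ℝ)‖ := by
      rw [Real.norm_eq_abs]
      exact_mod_cast Int.one_le_abs hi
    exact inv_le_one_of_one_le₀ h2
  · rw [map_smul, map_smul, h1, Finset.sum_eq_single i]
    · have : (m i : ℝ) ≠ 0 := by exact_mod_cast hi
      simp [this]
    · intro j _ hj
      simp [hj]
    · intro h3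
      exact (h3 (Finset.mem_univ _)).elim

end

section
variable {X Γ : Type} {n : ℕ} [TopologicalSpace X] [T2Space X] [Group Γ] [MulAction Γ X]
  {dev : X → Eu n} {hol : Γ →* (Eu n ≃ᵃ[ℝ] Eu n)}

/-- integral affine functions on the universal covering are projections of products -/
theorem product_of_intFun [Nonempty X] (D : AffData X Γ (Eu n) dev hol)
    (hhol : ∀ γ, IntAff (hol γ)) {α : Eu n →ᵃ[ℝ] ℝ} (hα : IntFun α) :
    ∃ Φ : X ≃ₜ {x : X // α (dev x) = 0} × ℝ, ∀ x, (Φ x).2 = α (dev x) := by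
  let ξ : Eu n →L[ℝ] ℝ := LinearMap.toContinuousLinearMap α.linear
  obtain ⟨Z, r, L, M, C, hZ, ⟨w⟩⟩ := exists_field D ξ 1 (fun γ => hα.bounded (hhol γ))
  obtain ⟨a, ha, k, h0, hd, hk, hk', hc, kc⟩ := w.push D.loc
  have hα' : ∀ v w : Eu n, α (v + w) = α v + ξ w := by
    intro v w
    have := α.map_vadd v w
    rw [vadd_eq_add, vadd_eq_add] at this
    rw [add_comm v w, this, add_comm]
    rfl
  have hαc : Continuous α := α.continuous_of_finiteDimensional
  refine exists_split (ξ := fun x => α (dev x)) (hαc.comp D.loc.continuous) ha h0 ?_ hk hk' hc kc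
  intro s hs x
  beta_reduce
  rw [hd s hs, hα', map_smul, hZ, smul_eq_mul, mul_one]

/-- the level sets -/
theorem level_of_intFun (hn : 1 ≤ n) (hloc : IsLocalHomeomorph dev) {α : Eu n →ᵃ[ℝ] ℝ}
    (hα : IntFun α) (hne : Nonempty {x : X // α (dev x) = 0}) :
    Nonempty (ChartedSpace (Eu (n - 1)) {x : X // α (dev x) = 0}) ∧
      (2 ≤ n → NoncompactSpace {x : X // α (dev x) = 0}) := by
  let ξ : Eu n →L[ℝ] ℝ := LinearMap.toContinuousLinearMap α.linear
  have hα' : ∀ v w : Eu n, α (v + w) = α v + ξ w := by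
    intro v w
    have := α.map_vadd v w
    rw [vadd_eq_add, vadd_eq_add] at this
    rw [add_comm v w, this, add_comm]
    rfl
  obtain ⟨w, hw⟩ : ∃ w, α.linear w ≠ 0 := by
    by_contra hcon
    push Not at hcon
    exact hα.2 (LinearMap.ext hcon)
  have hwξ : ξ w ≠ 0 := hw
  obtain ⟨v0, hv0⟩ : ∃ v0, α v0 = 0 := by
    refine ⟨0 + (-(α 0) / ξ w) • w, ?_⟩
    rw [hα', map_smul, smul_eq_mul, div_mul_cancel₀ _ hwξ]
    ring
  have hdev' : IsLocalHomeomorph (fun x => dev x - v0) :=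
    (Homeomorph.subRight v0).isLocalHomeomorph.comp hloc
  have heq : ∀ x, ξ (dev x - v0) = α (dev x) := by
    intro x
    have h1 := hα' v0 (dev x - v0)
    rw [add_sub_cancel, hv0, zero_add] at h1
    exact h1.symm
  have hset : {x : X // α (dev x) = 0} = {x : X // ξ (dev x - v0) = 0} := by
    congr 1
    funext x
    rw [heq]
  have hS : ∀ x, α (dev x) = 0 ↔ ξ (dev x - v0) = 0 := fun x => by rw [heq]
  let Ψ : {x : X // α (dev x) = 0} ≃ₜ {x : X // ξ (dev x - v0) = 0} :=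
    Homeomorph.subtype (Homeomorph.refl X) hS
  have h1 := (localHomeo_level hdev' ξ).comp Ψ.isLocalHomeomorph
  have hfr : Module.finrank ℝ (LinearMap.ker (ξ : Eu n →ₗ[ℝ] ℝ)) = n - 1 := by
    have h2 := LinearMap.finrank_range_add_finrank_ker (ξ : Eu n →ₗ[ℝ] ℝ)
    have h3 : LinearMap.range (ξ : Eu n →ₗ[ℝ] ℝ) = ⊤ := by
      rw [LinearMap.range_eq_top]
      exact LinearMap.surjective (fun h => hwξ (by
        have := LinearMap.congr_fun h w
        exact this))
    rw [h3, finrank_top, Module.finrank_self, finrank_euclideanSpace_fin] at h2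
    omega
  constructor
  · have e1 : (LinearMap.ker (ξ : Eu n →ₗ[ℝ] ℝ)) ≃L[ℝ] Eu (n - 1) :=
      ContinuousLinearEquiv.ofFinrankEq (by rw [hfr, finrank_euclideanSpace_fin])
    have h2 := e1.toHomeomorph.isLocalHomeomorph.comp h1
    exact ⟨{ atlas := univ
             chartAt := fun x => (h2 x).choose
             mem_chart_source := fun x => (h2 x).choose_spec.1
             chart_mem_atlas := fun _ => trivial }⟩
  · intro hn2
    have : Nontrivial (LinearMap.ker (ξ : Eu n →ₗ[ℝ] ℝ)) := by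
      apply Module.nontrivial_of_finrank_pos (R := ℝ)
      rw [hfr]
      omega
    exact noncompact_level h1

end

section
variable {n : ℕ} {X B : Type} [TopologicalSpace X] [TopologicalSpace B] (𝒜 : IntAtlas n B)

theorem IntAtlas.structure_theorem [T2Space B] [CompactSpace B] [SimplyConnectedSpace X]
    (hn : 1 ≤ n) {p : X → B} (cov : IsCoveringMap p) (hs : Function.Surjective p) :
    (∀ x, ∀ e ∈ 𝒜.charts, p x ∈ e.source → ∀ (m : Fin n → ℤ) (c : ℝ), m ≠ 0 →
      ∃ u : X → ℝ, 𝒜.IsAffFun p u ∧ ∀ᶠ y in 𝓝 x, u y = ∑ i, (m i : ℝ) * e (p y) i + c) ∧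
    (∀ u : X → ℝ, 𝒜.IsAffFun p u →
      SimplyConnectedSpace {x : X // u x = 0} ∧
      Nonempty (ChartedSpace (Eu (n - 1)) {x : X // u x = 0}) ∧
      (2 ≤ n → NoncompactSpace {x : X // u x = 0}) ∧
      ∃ Φ : X ≃ₜ {x : X // u x = 0} × ℝ, ∀ x, (Φ x).2 = u x) ∧
    (2 ≤ n → ∀ b : B, OneEnded (FundamentalGroup B b)) := by
  obtain ⟨dev, hol, D, hhol, hdev⟩ := 𝒜.exists_affData cov hs
  have := t2_of_cover cov
  have hlpc := 𝒜.lpc cov.isLocalHomeomorph
  have hlc := 𝒜.lc cov.isLocalHomeomorph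
  have hne : Nonempty X := inferInstance
  have hdn : ∀ x, map dev (𝓝 x) = 𝓝 (dev x) := fun x => D.loc.map_nhds_eq x
  have ha : ∀ x, ∀ e ∈ 𝒜.charts, p x ∈ e.source → ∀ (m : Fin n → ℤ) (c : ℝ), m ≠ 0 →
      ∃ u : X → ℝ, 𝒜.IsAffFun p u ∧ ∀ᶠ y in 𝓝 x, u y = ∑ i, (m i : ℝ) * e (p y) i + c := by
    intro x e he hx m c hm
    obtain ⟨e', he', hx', a, ha, hae⟩ := hdev x
    obtain ⟨T, hT, hTe⟩ := 𝒜.compat e' he' e he (p x) hx' hx
    have hg : IntAff (T * a⁻¹) := (intAffGroup n).mul_mem hT ((intAffGroup n).inv_mem ha)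
    have hα := (affOf_intFun hm c).comp hg
    refine ⟨fun y => (affOf m c).comp (T * a⁻¹ : Eu n ≃ᵃ[ℝ] Eu n).toAffineMap (dev y), ?_, ?_⟩
    · intro y
      obtain ⟨e2, he2, hy2, a2, ha2, hae2⟩ := hdev y
      obtain ⟨m', hm', c', hc'⟩ := (hα.comp ha2).exists_affOf
      refine ⟨e2, he2, hy2, m', hm', c', ?_⟩
      filter_upwards [hae2] with z hz
      rw [hz, ← affOf_apply, ← hc']
      rfl
    · have h2 : ∀ᶠ y in 𝓝 x, e (p y) = T (e' (p y)) :=
        cov.continuous.continuousAt.eventually hTe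
      filter_upwards [hae, h2] with y h3 h4
      rw [h3, h4, ← affOf_apply]
      show affOf m c (T (a.symm (a (e' (p y))))) = _
      rw [a.symm_apply_apply]
  have hb : ∀ u : X → ℝ, 𝒜.IsAffFun p u →
      SimplyConnectedSpace {x : X // u x = 0} ∧
      Nonempty (ChartedSpace (Eu (n - 1)) {x : X // u x = 0}) ∧
      (2 ≤ n → NoncompactSpace {x : X // u x = 0}) ∧
      ∃ Φ : X ≃ₜ {x : X // u x = 0} × ℝ, ∀ x, (Φ x).2 = u x := by
    intro u hu
    obtain ⟨α, hα, hue⟩ : ∃ α : Eu n →ᵃ[ℝ] ℝ, IntFun α ∧ ∀ x, u x = α (dev x) := by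
      refine rigid' hdn fun x => ?_
      obtain ⟨e, he, hx, m, hm, c, hu'⟩ := hu x
      obtain ⟨e', he', hx', a, ha, hae⟩ := hdev x
      obtain ⟨T, hT, hTe⟩ := 𝒜.compat e' he' e he (p x) hx' hx
      have hg : IntAff (T * a⁻¹) := (intAffGroup n).mul_mem hT ((intAffGroup n).inv_mem ha)
      refine ⟨_, (affOf_intFun hm c).comp hg, ?_⟩
      have h2 : ∀ᶠ y in 𝓝 x, e (p y) = T (e' (p y)) :=
        cov.continuous.continuousAt.eventually hTe
      filter_upwards [hae, h2, hu'] with y h3 h4 h5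
      rw [h5, h3, h4, ← affOf_apply]
      show _ = affOf m c (T (a.symm (a (e' (p y)))))
      rw [a.symm_apply_apply]
    have hue' : u = fun x => α (dev x) := funext hue
    subst hue'
    obtain ⟨Φ, hΦ⟩ := product_of_intFun D hhol hα
    have hsc : SimplyConnectedSpace {x : X // α (dev x) = 0} := simplyConnected_factor Φ
    have hne' : Nonempty {x : X // α (dev x) = 0} := inferInstance
    obtain ⟨h1, h2⟩ := level_of_intFun hn D.loc hα hne'
    exact ⟨hsc, h1, h2, Φ, hΦ⟩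
  refine ⟨ha, hb, fun hn2 b => ?_⟩
  obtain ⟨x0⟩ := hne
  obtain ⟨e, he, hx⟩ := 𝒜.cover (p x0)
  have hm : (fun _ => 1 : Fin n → ℤ) ≠ 0 := by
    intro h
    have := congrFun h ⟨0, by omega⟩
    simp at this
  obtain ⟨u, hu, -⟩ := ha x0 e he hx _ 0 hm
  obtain ⟨h1, -, h3, Φ, -⟩ := hb u hu
  have := h3 hn2
  have hone : OneEnded (Deck p) := oneEnded_of_product D.cont D.pd D.cc Φ
  obtain ⟨x1, hx1⟩ := hs b
  have hq := deck_quotient cov hs
  have E := hq.fundamentalGroupEquiv (x := b) ⟨x1, hx1⟩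
  exact hone.of_equiv ((MulEquiv.inv' (Deck p)).trans E.symm)

end

end Run7.h675
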