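import Pool.Agent.Run7.h675.Field

/-!
Good pairs: the affine functions with linear part `ξ` on the affine subspaces parallel to `W` are
pushed by a uniformly bounded and Lipschitz field tangent to `W`; the levels of `ξ` in the connected
sections parallel to `W` are connected.
-/

set_option autoImplicit false

open Set Filter Topology Metric
open Pool.Agent.W689.Mk
open scoped ENNReal

namespace Run7.h675

/-- the images of `W` and `ξ` under the linear holonomy stay uniformly transverse: `ξ` has norm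
bounded below on `W`, in all charts -/
def GoodPair {Γ E : Type} [Group Γ] [NormedAddCommGroup E] [NormedSpace ℝ E]
    (hol : Γ →* (E ≃ᵃ[ℝ] E)) (W : Submodule ℝ E) (ξ : E →L[ℝ] ℝ) : Prop :=
  ∃ M0 : ℝ, ∀ γ : Γ, ∃ v : E, ‖v‖ ≤ M0 ∧ lin hol γ v ∈ W ∧ ξ (lin hol γ v) = 1

section
variable {X Γ E : Type} [TopologicalSpace X] [T2Space X] [Group Γ] [MulAction Γ X]
  [NormedAddCommGroup E] [NormedSpace ℝ E] [FiniteDimensional ℝ E]
  {dev : X → E} {hol : Γ →* (E ≃ᵃ[ℝ] E)}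

theorem exists_field_in [Nonempty X] (D : AffData X Γ E dev hol) (W : Submodule ℝ E) (ξ : E →L[ℝ] ℝ)
    (hg : GoodPair hol W ξ) :
    ∃ (Z : X → E) (r L M C : ℝ), (∀ x, ξ (Z x) = 1) ∧ (∀ x, Z x ∈ W) ∧
      Nonempty (UCh dev Z r L M C) := by
  obtain ⟨M0, hξ⟩ := hg
  classical
  obtain ⟨R, hRL, hR0, hR1, K0, hK0, hRK⟩ := exists_bump D
  choose N hN hNW hNξ using hξ
  -- the bounded functions on the group
  have hPb : ∀ γ : Γ, Memℓp (fun δ : Γ => lin hol γ⁻¹ (N (δ * γ⁻¹))) ∞ := by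
    intro γ
    refine memℓp_infty ⟨‖(clin hol γ⁻¹ : E →L[ℝ] E)‖ * M0, ?_⟩
    rintro _ ⟨δ, rfl⟩
    exact ((clin hol γ⁻¹ : E →L[ℝ] E).le_opNorm _).trans
      (mul_le_mul_of_nonneg_left (hN _) (norm_nonneg _))
  let P : Γ → lp (fun _ : Γ => E) ∞ := fun γ => ⟨_, hPb γ⟩
  let u : X → lp (fun _ : Γ => E) ∞ := fun x => ∑' γ : Γ, R (γ • x) • P γ
  have hu : LL dev u := LL.tsum D hK0 hRL hRK P
  have hfin : ∀ x, ∃ F : Finset Γ, ∀ γ, γ ∉ F → R (γ • x) = 0 := by
    intro x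
    obtain ⟨V, hV, F, hF⟩ := locfin D hK0 x
    exact ⟨F, fun γ hγ => hRK _ fun h => hγ (hF x (mem_of_mem_nhds hV) γ h)⟩
  have hu_apply : ∀ x δ, (u x : ∀ _ : Γ, E) δ = ∑' γ : Γ, R (γ • x) • lin hol γ⁻¹ (N (δ * γ⁻¹)) := by
    intro x δ
    obtain ⟨F, hF⟩ := hfin x
    have e1 : u x = ∑ γ ∈ F, R (γ • x) • P γ := by
      refine tsum_eq_sum fun γ hγ => ?_
      rw [hF γ hγ, zero_smul]
    have e2 : ∑' γ : Γ, R (γ • x) • lin hol γ⁻¹ (N (δ * γ⁻¹)) =
        ∑ γ ∈ F, R (γ • x) • lin hol γ⁻¹ (N (δ * γ⁻¹)) := by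
      refine tsum_eq_sum fun γ hγ => ?_
      rw [hF γ hγ, zero_smul]
    rw [e1, e2, lp.coeFn_sum, Finset.sum_apply]
    rfl
  let Z : X → E := fun x => ∑' γ : Γ, R (γ • x) • lin hol γ⁻¹ (N γ⁻¹)
  have hZu : ∀ (δ : Γ) x, lin hol δ⁻¹ (Z (δ • x)) = (u x : ∀ _ : Γ, E) δ := by
    intro δ x
    rw [hu_apply]
    obtain ⟨F, hF⟩ := hfin (δ • x)
    have e1 : Z (δ • x) = ∑ γ ∈ F, R (γ • δ • x) • lin hol γ⁻¹ (N γ⁻¹) := by
      refine tsum_eq_sum fun γ hγ => ?_
      rw [hF γ hγ, zero_smul]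
    have e2 : ∑' γ : Γ, R (γ • x) • lin hol γ⁻¹ (N (δ * γ⁻¹)) =
        ∑' γ : Γ, R (γ • δ • x) • lin hol δ⁻¹ (lin hol γ⁻¹ (N γ⁻¹)) := by
      rw [← Equiv.tsum_eq (Equiv.mulRight δ) (fun γ : Γ => R (γ • x) • lin hol γ⁻¹ (N (δ * γ⁻¹)))]
      refine tsum_congr fun γ => ?_
      rw [Equiv.coe_mulRight, mul_smul, mul_inv_rev, lin_mul, mul_inv_cancel_left]
    have e3 : ∑' γ : Γ, R (γ • δ • x) • lin hol δ⁻¹ (lin hol γ⁻¹ (N γ⁻¹)) =
        ∑ γ ∈ F, R (γ • δ • x) • lin hol δ⁻¹ (lin hol γ⁻¹ (N γ⁻¹)) := by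
      refine tsum_eq_sum fun γ hγ => ?_
      rw [hF γ hγ, zero_smul]
    rw [e2, e3, e1]
    show (hol δ⁻¹).linear (∑ γ ∈ F, R (γ • δ • x) • lin hol γ⁻¹ (N γ⁻¹)) = _
    rw [map_sum]
    exact Finset.sum_congr rfl fun γ _ => (hol δ⁻¹).linear.map_smul _ _
  have hξZ : ∀ x, ξ (Z x) = 1 := by
    intro x
    obtain ⟨F, hF⟩ := hfin x
    have e1 : Z x = ∑ γ ∈ F, R (γ • x) • lin hol γ⁻¹ (N γ⁻¹) := by
      refine tsum_eq_sum fun γ hγ => ?_
      rw [hF γ hγ, zero_smul]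
    have e2 : ∑' γ : Γ, R (γ • x) = ∑ γ ∈ F, R (γ • x) :=
      tsum_eq_sum fun γ hγ => hF γ hγ
    rw [e1, map_sum, ← hR1 x, e2]
    refine Finset.sum_congr rfl fun γ _ => ?_
    rw [map_smul, hNξ, smul_eq_mul, mul_one]
  have hZW : ∀ x, Z x ∈ W := by
    intro x
    obtain ⟨F, hF⟩ := hfin x
    have e1 : Z x = ∑ γ ∈ F, R (γ • x) • lin hol γ⁻¹ (N γ⁻¹) := by
      refine tsum_eq_sum fun γ hγ => ?_
      rw [hF γ hγ, zero_smul]
    rw [e1]
    exact W.sum_mem fun γ _ => W.smul_mem _ (hNW _)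
  -- charts
  choose σ rr LL' BB hrr hLL' hBB hsec hσ hlip hbd using fun x => exists_cht_w D.loc hu x
  obtain ⟨K, hK, hKc⟩ := D.cc
  have hNh : ∀ x ∈ K, σ x '' ball (dev x) (rr x) ∈ 𝓝 x := by
    intro x _
    have ho := (hsec x).isOpen_image D.loc (V := ball (dev x) (rr x)) isOpen_ball
      (ball_subset_ball (by linarith [hrr x]))
    exact ho.mem_nhds ⟨dev x, mem_ball_self (hrr x), hσ x⟩
  obtain ⟨T, hTK, hT⟩ := hK.elim_nhds_subcover _ hNh
  have hTne : T.Nonempty := by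
    obtain ⟨x0⟩ := ‹Nonempty X›
    obtain ⟨γ, k, hk, -⟩ := hKc x0
    obtain ⟨y, hy, -⟩ := mem_iUnion₂.1 (hT hk)
    exact ⟨y, hy⟩
  obtain ⟨r, hr, hrT⟩ : ∃ r : ℝ, 0 < r ∧ ∀ y ∈ T, 2 * r ≤ rr y := by
    obtain ⟨y, hy, hmin⟩ := T.exists_min_image rr hTne
    exact ⟨rr y / 2, by linarith [hrr y], fun z hz => by linarith [hmin z hz]⟩
  have hsel : ∀ x, ∃ (γ : Γ) (y : X) (q : E), y ∈ T ∧ q ∈ ball (dev y) (rr y) ∧ x = γ • σ y q := by
    intro x
    obtain ⟨γ, k, hk, rfl⟩ := hKc x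
    obtain ⟨y, hy, q, hq, hqk⟩ := mem_iUnion₂.1 (hT hk)
    exact ⟨γ, y, q, hy, hq, by rw [hqk]⟩
  choose γ y q hy hq hx using hsel
  have inb : ∀ x, ∀ p ∈ ball (0 : E) (4 * r), q x + p ∈ ball (dev (y x)) (4 * rr (y x)) := by
    intro x p hp
    have h1 := hq x
    rw [mem_ball, dist_eq_norm] at h1 ⊢
    rw [mem_ball, dist_zero_right] at hp
    have h2 := hrT _ (hy x)
    have h3 : q x + p - dev (y x) = (q x - dev (y x)) + p := by abel
    rw [h3]
    have := norm_add_le (q x - dev (y x)) p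
    linarith [hrr (y x)]
  have inb2 : ∀ x, ∀ p ∈ ball (0 : E) r, q x + p ∈ closedBall (dev (y x)) (2 * rr (y x)) := by
    intro x p hp
    have h1 := hq x
    rw [mem_ball, dist_eq_norm] at h1
    rw [mem_closedBall, dist_eq_norm]
    rw [mem_ball, dist_zero_right] at hp
    have h2 := hrT _ (hy x)
    have h3 : q x + p - dev (y x) = (q x - dev (y x)) + p := by abel
    rw [h3]
    have := norm_add_le (q x - dev (y x)) p
    linarith [hrr (y x)]
  -- the compact set and the finite set of group elements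
  let K' : Set X := ⋃ z ∈ T, σ z '' closedBall (dev z) (2 * rr z)
  have hK' : IsCompact K' := by
    refine T.isCompact_biUnion fun z _ => (isCompact_closedBall _ _).image_of_continuousOn ?_
    exact (hsec z).cont.mono (closedBall_subset_ball (by linarith [hrr z]))
  have hF := D.pd K' hK'
  refine ⟨Z, r, ∑ z ∈ T, LL' z, ∑ z ∈ T, BB z, ∑ δ ∈ hF.toFinset, ‖(clin hol δ : E →L[ℝ] E)‖, hξZ, hZW, ⟨?_⟩⟩
  refine
    { g := fun x => clin hol (γ x)
      c := fun x p => γ x • σ (y x) (q x + p)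
      hr := hr
      hL := Finset.sum_nonneg fun z _ => hLL' z
      hM := Finset.sum_nonneg fun z _ => hBB z
      hC := Finset.sum_nonneg fun z _ => norm_nonneg _
      cont := ?_
      zero := ?_
      dev_c := ?_
      lip := ?_
      bd := ?_
      comp := ?_ }
  · intro x
    refine (D.cont (γ x)).comp_continuousOn ((hsec (y x)).cont.comp ?_ (inb x))
    exact (continuous_const.add continuous_id).continuousOn
  · intro x
    rw [add_zero]
    exact (hx x).symm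
  · intro x p hp
    have h1 := (hsec (y x)).inv _ (inb x p hp)
    have h2 : dev x = hol (γ x) (q x) := by
      have h3 := (hsec (y x)).inv (q x) (by
        have := inb x 0 (mem_ball_self (by linarith))
        rwa [add_zero] at this)
      conv_lhs => rw [hx x, D.equi, h3]
    rw [D.equi, h1, hol_add, h2]
    rfl
  · intro x p hp p' hp'
    rw [clin_symm_apply, clin_symm_apply, hZu, hZu]
    have h1 := hlip (y x) _ (inb x p hp) _ (inb x p' hp')
    have h2 := lp.norm_apply_le_norm (p := ∞) (by simp)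
      (u (σ (y x) (q x + p)) - u (σ (y x) (q x + p'))) (γ x)
    rw [lp.coeFn_sub, Pi.sub_apply] at h2
    refine h2.trans (h1.trans ?_)
    rw [add_sub_add_left_eq_sub]
    exact mul_le_mul_of_nonneg_right
      (Finset.single_le_sum (f := LL') (fun z _ => hLL' z) (hy x)) (norm_nonneg _)
  · intro x p hp
    rw [clin_symm_apply, hZu]
    have h1 := hbd (y x) _ (inb x p hp)
    have h2 := lp.norm_apply_le_norm (p := ∞) (by simp) (u (σ (y x) (q x + p))) (γ x)
    exact h2.trans (h1.trans (Finset.single_le_sum (f := BB) (fun z _ => hBB z) (hy x)))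
  · intro x p hp v
    set x' := γ x • σ (y x) (q x + p) with hx'
    rw [clin_symm_apply, clin_apply, ← lin_mul]
    have h1 : (γ x')⁻¹ * γ x ∈ hF.toFinset := by
      rw [Set.Finite.mem_toFinset]
      refine ⟨σ (y x) (q x + p), mem_iUnion₂.2 ⟨y x, hy x, _, inb2 x p hp, rfl⟩, ?_⟩
      have h2 : ((γ x')⁻¹ * γ x) • σ (y x) (q x + p) = σ (y x') (q x') := by
        rw [mul_smul, ← hx', inv_smul_eq_iff]
        exact hx x'
      rw [h2]
      refine mem_iUnion₂.2 ⟨y x', hy x', _, ?_, rfl⟩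
      exact closedBall_subset_closedBall (by linarith [hrr (y x')])
        (ball_subset_closedBall (hq x'))
    have h2 : ‖(clin hol ((γ x')⁻¹ * γ x) : E →L[ℝ] E)‖ ≤
        ∑ δ ∈ hF.toFinset, ‖(clin hol δ : E →L[ℝ] E)‖ :=
      Finset.single_le_sum (f := fun δ => ‖(clin hol δ : E →L[ℝ] E)‖)
        (fun δ _ => norm_nonneg _) h1
    exact ((clin hol ((γ x')⁻¹ * γ x) : E →L[ℝ] E).le_opNorm v).trans
      (mul_le_mul_of_nonneg_right h2 (norm_nonneg _))


/-- sections of the developing map by affine subspaces: all points developed to `p + W` -/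
def Sect (dev : X → E) (W : Submodule ℝ E) (p : E) : Set X := {x | dev x - p ∈ W}

theorem Sect.step [Nonempty X] (D : AffData X Γ E dev hol) {W : Submodule ℝ E} {ξ : E →L[ℝ] ℝ}
    (hg : GoodPair hol W ξ) {p : E} (hc : IsConnected (Sect dev W p)) :
    IsConnected (Sect dev (W ⊓ LinearMap.ker (ξ : E →ₗ[ℝ] ℝ)) p) := by
  classical
  obtain ⟨Z, r, L, M, C, hZ, hZW, ⟨u⟩⟩ := exists_field_in D W ξ hg
  haveI : CompleteSpace E := FiniteDimensional.complete ℝ E
  obtain ⟨a, ha, k, h0, hd, hk, hk', hhc, hkc⟩ := u.push D.loc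
  have hm : ∀ s ∈ Icc 0 a, ∀ x ∈ Sect dev W p, u.h s x ∈ Sect dev W p := by
    intro s hs x hx
    show dev (u.h s x) - p ∈ W
    rw [hd s hs]
    have e : dev x + s • Z x - p = (dev x - p) + s • Z x := by abel
    rw [e]
    exact W.add_mem hx (W.smul_mem _ (hZW x))
  have km : ∀ s ∈ Icc 0 a, ∀ x ∈ Sect dev W p, k s x ∈ Sect dev W p := by
    intro s hs x hx
    show dev (k s x) - p ∈ W
    have h1 := hd s hs (k s x)
    rw [hk' s hs] at h1
    have e : dev (k s x) - p = (dev x - p) - s • Z (k s x) := by rw [h1]; abel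
    rw [e]
    exact W.sub_mem hx (W.smul_mem _ (hZW _))
  let Y := Sect dev W p
  let f : Y → ℝ := fun y => ξ (dev y.1 - p)
  let h : ℝ → Y → Y := fun s y => if hs : s ∈ Icc 0 a then ⟨u.h s y.1, hm s hs y.1 y.2⟩ else y
  let k' : ℝ → Y → Y := fun s y => if hs : s ∈ Icc 0 a then ⟨k s y.1, km s hs y.1 y.2⟩ else y
  have hh : ∀ s (hs : s ∈ Icc 0 a) (y : Y), h s y = ⟨u.h s y.1, hm s hs y.1 y.2⟩ :=
    fun s hs y => dif_pos hs
  have hkk : ∀ s (hs : s ∈ Icc 0 a) (y : Y), k' s y = ⟨k s y.1, km s hs y.1 y.2⟩ :=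
    fun s hs y => dif_pos hs
  have hcont : Continuous f := by
    refine ξ.continuous.comp ?_
    exact (D.loc.continuous.comp continuous_subtype_val).sub continuous_const
  obtain ⟨Φ, hΦ⟩ := exists_split (ξ := f) (h := h) (k := k') hcont ha
    (fun y => by
      rw [hh 0 ⟨le_rfl, ha.le⟩]
      exact Subtype.ext (h0 _))
    (fun s hs y => by
      rw [hh s hs]
      show ξ (dev (u.h s y.1) - p) = ξ (dev y.1 - p) + s
      rw [hd s hs]
      have e : dev y.1 + s • Z y.1 - p = (dev y.1 - p) + s • Z y.1 := by abel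
      rw [e, map_add, map_smul, hZ, smul_eq_mul, mul_one])
    (fun s hs y => by
      rw [hh s hs, hkk s hs]
      exact Subtype.ext (hk s hs _))
    (fun s hs y => by
      rw [hkk s hs, hh s hs]
      exact Subtype.ext (hk' s hs _))
    (by
      rw [Topology.IsInducing.subtypeVal.continuousOn_iff]
      refine ContinuousOn.congr (f := fun z : ℝ × Y => u.h z.1 z.2.1) ?_ ?_
      · exact hhc.comp (f := fun z : ℝ × Y => ((z.1, z.2.1) : ℝ × X))
          (by fun_prop) (fun z hz => ⟨hz.1, mem_univ _⟩)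
      · intro z hz
        show (h z.1 z.2).1 = _
        rw [hh z.1 hz.1])
    (by
      rw [Topology.IsInducing.subtypeVal.continuousOn_iff]
      refine ContinuousOn.congr (f := fun z : ℝ × Y => k z.1 z.2.1) ?_ ?_
      · exact hkc.comp (f := fun z : ℝ × Y => ((z.1, z.2.1) : ℝ × X))
          (by fun_prop) (fun z hz => ⟨hz.1, mem_univ _⟩)
      · intro z hz
        show (k' z.1 z.2).1 = _
        rw [hkk z.1 hz.1])
  haveI : ConnectedSpace Y := Subtype.connectedSpace hc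
  haveI : ConnectedSpace {y : Y // f y = 0} := by
    have h1 : Function.Surjective (fun y : Y => (Φ y).1) := by
      intro z
      obtain ⟨y, hy⟩ := Φ.surjective (z, 0)
      exact ⟨y, by beta_reduce; rw [hy]⟩
    exact h1.connectedSpace (continuous_fst.comp Φ.continuous)
  have h2 : Sect dev (W ⊓ LinearMap.ker (ξ : E →ₗ[ℝ] ℝ)) p =
      range (fun y : {y : Y // f y = 0} => y.1.1) := by
    ext x
    constructor
    · intro hx
      have hx' : dev x - p ∈ W ⊓ LinearMap.ker (ξ : E →ₗ[ℝ] ℝ) := hx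
      rw [Submodule.mem_inf] at hx'
      exact ⟨⟨⟨x, hx'.1⟩, hx'.2⟩, rfl⟩
    · rintro ⟨y, rfl⟩
      show dev y.1.1 - p ∈ W ⊓ LinearMap.ker (ξ : E →ₗ[ℝ] ℝ)
      rw [Submodule.mem_inf]
      exact ⟨y.1.2, y.2⟩
  rw [h2]
  exact isConnected_range (continuous_subtype_val.comp continuous_subtype_val)

end

end Run7.h675
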