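import Pool.Agent.Y449.MK.Sub
import Pool.Agent.Run7.h675.Integral

/-!
Rational flags invariant under an integral linear holonomy.
-/

set_option autoImplicit false

open Set Filter Topology Metric
open Pool.Agent.W689.Mk

namespace Run7.h675

section
variable {X Γ E : Type} [TopologicalSpace X] [T2Space X] [Group Γ] [MulAction Γ X]
  [NormedAddCommGroup E] [NormedSpace ℝ E] [FiniteDimensional ℝ E]
  {dev : X → E} {hol : Γ →* (E ≃ᵃ[ℝ] E)} {ι : Type} [Fintype ι] {b : Module.Basis ι ℝ E}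

theorem eq_sup_of_rank {P Q : Submodule ℝ E} (hPQ : P ≤ Q)
    (hr : Module.finrank ℝ Q ≤ Module.finrank ℝ P + 1) {v : E} (hv : v ∈ Q) (hvP : v ∉ P) :
    Q = P ⊔ Submodule.span ℝ {v} := by
  symm
  refine Submodule.eq_of_le_of_finrank_le (sup_le hPQ
    ((Submodule.span_singleton_le_iff_mem v Q).2 hv)) ?_
  have h4 : P < P ⊔ Submodule.span ℝ {v} := by
    refine lt_of_le_of_ne le_sup_left fun he => hvP ?_
    rw [he]
    exact Submodule.mem_sup_right (Submodule.mem_span_singleton_self v)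
  have h5 := Submodule.finrank_lt_finrank_of_lt h4
  omega

theorem sign_of_rat {P Q : Submodule ℝ E} (hPQ : P ≤ Q) (hP : RatSub b P) (hQ : RatSub b Q)
    (hr : Module.finrank ℝ Q ≤ Module.finrank ℝ P + 1)
    (hint : ∀ (γ : Γ) (v : E), IsInt b v → IsInt b (lin hol γ v))
    (hPi : ∀ (γ : Γ), ∀ v ∈ P, lin hol γ v ∈ P) (hQi : ∀ (γ : Γ), ∀ v ∈ Q, lin hol γ v ∈ Q)
    (γ : Γ) : ∃ c : ℝ, (c = 1 ∨ c = -1) ∧ ∀ v ∈ Q, lin hol γ v - c • v ∈ P := by
  by_cases hle : Q ≤ P
  · refine ⟨1, Or.inl rfl, fun v hv => ?_⟩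
    rw [one_smul]
    exact P.sub_mem (hPi γ v (hle hv)) (hle hv)
  obtain ⟨v0, hv0, hv0Q, hv0P⟩ : ∃ v0, IsInt b v0 ∧ v0 ∈ Q ∧ v0 ∉ P := by
    by_contra hcon
    push Not at hcon
    apply hle
    refine hQ.trans ?_
    rw [Submodule.span_le]
    rintro v ⟨h1, h2⟩
    exact hcon v h1 h2
  obtain ⟨f, hfi, hfP, hfv⟩ := exists_int_functional hP hv0 hv0P
  have hQe := eq_sup_of_rank hPQ hr hv0Q hv0P
  have hex : ∀ γ : Γ, ∃ c : ℝ, lin hol γ v0 - c • v0 ∈ P := by
    intro γ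
    have h1 := hQi γ v0 hv0Q
    rw [hQe] at h1
    obtain ⟨a, ha, w, hw, haw⟩ := Submodule.mem_sup.1 h1
    obtain ⟨c, rfl⟩ := Submodule.mem_span_singleton.1 hw
    refine ⟨c, ?_⟩
    rw [← haw, add_sub_cancel_right]
    exact ha
  choose c hc using hex
  have hcv : ∀ (γ : Γ), ∀ v ∈ Q, lin hol γ v - c γ • v ∈ P := by
    intro γ v hv
    rw [hQe] at hv
    obtain ⟨a, ha, w, hw, rfl⟩ := Submodule.mem_sup.1 hv
    obtain ⟨t, rfl⟩ := Submodule.mem_span_singleton.1 hw
    have e : lin hol γ (a + t • v0) - c γ • (a + t • v0) =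
        (lin hol γ a - c γ • a) + t • (lin hol γ v0 - c γ • v0) := by
      rw [lin_add, lin_smul']
      module
    rw [e]
    exact P.add_mem (P.sub_mem (hPi γ a ha) (P.smul_mem _ ha)) (P.smul_mem _ (hc γ))
  have hpow : ∀ (γ : Γ) (n : ℕ), lin hol (γ ^ n) v0 - (c γ) ^ n • v0 ∈ P := by
    intro γ n
    induction n with
    | zero =>
      rw [pow_zero, pow_zero, one_smul, lin_one', sub_self]
      exact P.zero_mem
    | succ n ih =>
      rw [pow_succ' γ, lin_mul]
      have e : lin hol γ (lin hol (γ ^ n) v0) - (c γ) ^ (n + 1) • v0 =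
          lin hol γ (lin hol (γ ^ n) v0 - (c γ) ^ n • v0) +
            (c γ) ^ n • (lin hol γ v0 - c γ • v0) := by
        rw [lin_sub, lin_smul']
        module
      rw [e]
      exact P.add_mem (hPi γ _ ih) (P.smul_mem _ (hc γ))
  have hne : ∀ γ : Γ, c γ ≠ 0 := by
    intro γ h0
    apply hv0P
    have h1 := hc γ
    rw [h0, zero_smul, sub_zero] at h1
    have h2 := hPi γ⁻¹ _ h1
    rwa [lin_inv_apply] at h2
  have hge : ∀ γ : Γ, 1 ≤ |c γ| := by
    intro γ
    by_contra hlt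
    push Not at hlt
    have h1 : Tendsto (fun n : ℕ => |c γ| ^ n * |f v0|) atTop (𝓝 (0 * |f v0|)) :=
      (tendsto_pow_atTop_nhds_zero_of_lt_one (abs_nonneg _) hlt).mul_const _
    rw [zero_mul] at h1
    obtain ⟨n, hn⟩ := (h1.eventually_lt_const one_pos).exists
    have h2 : f (lin hol (γ ^ n) v0) = (c γ) ^ n * f v0 := by
      have h3 := hfP _ (hpow γ n)
      rw [map_sub, map_smul, smul_eq_mul, sub_eq_zero] at h3
      exact h3
    obtain ⟨z, hz⟩ := hfi _ (hint (γ ^ n) v0 hv0)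
    rw [h2] at hz
    have h3 : ((c γ) ^ n * f v0) ≠ 0 := mul_ne_zero (pow_ne_zero _ (hne γ)) hfv
    have hz0 : z ≠ 0 := by
      rintro rfl
      rw [Int.cast_zero] at hz
      exact h3 hz
    have h4 : (1 : ℝ) ≤ |(z : ℝ)| := by
      rw [← Int.cast_abs]
      exact_mod_cast Int.one_le_abs hz0
    rw [← hz, abs_mul, abs_pow] at h4
    linarith
  have hinv : c γ * c γ⁻¹ = 1 := by
    have h1 := hcv γ _ (hQi γ⁻¹ v0 hv0Q)
    rw [lin_apply_inv] at h1
    have h2 := P.smul_mem (c γ) (hc γ⁻¹)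
    have h3 := P.add_mem h1 h2
    have e : v0 - c γ • lin hol γ⁻¹ v0 + c γ • (lin hol γ⁻¹ v0 - c γ⁻¹ • v0) =
        (1 - c γ * c γ⁻¹) • v0 := by module
    rw [e] at h3
    by_contra hne1
    apply hv0P
    have h4 : (1 - c γ * c γ⁻¹) ≠ 0 := fun h => hne1 (by linarith)
    have h5 := P.smul_mem (1 - c γ * c γ⁻¹)⁻¹ h3
    rwa [smul_smul, inv_mul_cancel₀ h4, one_smul] at h5
  have habs : |c γ| = 1 := by
    have h1 := hge γ
    have h2 := hge γ⁻¹
    have h3 : |c γ| * |c γ⁻¹| = 1 := by rw [← abs_mul, hinv, abs_one]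
    nlinarith
  exact ⟨c γ, (abs_eq zero_le_one).1 habs, hcv γ⟩

/-- a covector with bounded denominators which is not zero on an invariant rational subspace is
good -/
theorem good_of_rat {B : Submodule ℝ E} (hB : RatSub b B)
    (hint : ∀ (γ : Γ) (v : E), IsInt b v → IsInt b (lin hol γ v))
    (hBi : ∀ (γ : Γ), ∀ v ∈ B, lin hol γ v ∈ B) {η : E →L[ℝ] ℝ} (hη : HasDenom b η)
    (hne : ∃ u ∈ B, η u ≠ 0) : GoodPair hol B η := by
  obtain ⟨N, hN, hNη⟩ := hη
  obtain ⟨u, hu, hηu⟩ := hne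
  obtain ⟨t, htB, htspan, htli⟩ := exists_linearIndependent ℝ {v | IsInt b v ∧ v ∈ B}
  have hfin : t.Finite := htli.setFinite
  have hspan : B ≤ Submodule.span ℝ t := by rw [htspan]; exact hB
  have hN' : (0 : ℝ) < N := by exact_mod_cast hN
  refine ⟨N * ∑ v ∈ hfin.toFinset, ‖v‖, fun γ => ?_⟩
  obtain ⟨v, hv, hv0⟩ : ∃ v ∈ t, η (lin hol γ v) ≠ 0 := by
    by_contra hcon
    push Not at hcon
    apply hηu
    have h1 : Submodule.span ℝ t ≤ LinearMap.ker ((η : E →ₗ[ℝ] ℝ).comp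
        ((hol γ).linear : E →ₗ[ℝ] E)) := by
      rw [Submodule.span_le]
      exact fun v hv => hcon v hv
    have h2 : η (lin hol γ (lin hol γ⁻¹ u)) = 0 := h1 (hspan (hBi γ⁻¹ u hu))
    rwa [lin_apply_inv] at h2
  have hvi := (htB hv).1
  have hvB := (htB hv).2
  have h1 := HasDenom.ge hN hNη (hint γ v hvi) hv0
  refine ⟨(η (lin hol γ v))⁻¹ • v, ?_, ?_, ?_⟩
  · rw [norm_smul, norm_inv, Real.norm_eq_abs]
    have h2 : |η (lin hol γ v)|⁻¹ ≤ N := by
      rw [inv_le_comm₀ (abs_pos.2 hv0) hN', ← one_div]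
      exact h1
    have h3 : ‖v‖ ≤ ∑ v ∈ hfin.toFinset, ‖v‖ :=
      Finset.single_le_sum (f := fun v => ‖v‖) (fun v _ => norm_nonneg v)
        (hfin.mem_toFinset.2 hv)
    exact mul_le_mul h2 h3 (norm_nonneg _) hN'.le
  · rw [lin_smul']
    exact B.smul_mem _ (hBi γ v hvB)
  · rw [lin_smul', map_smul, smul_eq_mul, inv_mul_cancel₀ hv0]

theorem dense_of_rat {A B : Submodule ℝ E} (hA : RatSub b A) (hB : RatSub b B)
    (hr : Module.finrank ℝ B = Module.finrank ℝ A + 2)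
    (hint : ∀ (γ : Γ) (v : E), IsInt b v → IsInt b (lin hol γ v))
    (hBi : ∀ (γ : Γ), ∀ v ∈ B, lin hol γ v ∈ B) : DenseCov A (GoodPair hol B) := by
  intro f hf ε hε
  obtain ⟨f1, u, hf1, -, hu, hf1u⟩ := exists_between hr (0 : E)
  obtain ⟨f', hf', hf'u, hff'⟩ : ∃ f' : E →L[ℝ] ℝ, (∀ v ∈ A, f' v = 0) ∧ f' u ≠ 0 ∧
      ‖f' - f‖ < ε / 2 := by
    by_cases h : f u = 0
    · refine ⟨f + (ε / (4 * (‖f1‖ + 1))) • f1, fun v hv => ?_, ?_, ?_⟩
      · rw [add_apply, smul_apply, hf v hv, hf1 v hv, smul_zero, add_zero]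
      · rw [add_apply, smul_apply, h, hf1u, zero_add, smul_eq_mul, mul_one]
        positivity
      · rw [add_sub_cancel_left, norm_smul, Real.norm_eq_abs, abs_of_pos (by positivity),
          div_mul_eq_mul_div, div_lt_iff₀ (by positivity)]
        nlinarith [norm_nonneg f1]
    · exact ⟨f, hf, h, by rw [sub_self, norm_zero]; positivity⟩
  obtain ⟨η, hηA, hηd, hη⟩ := exists_rat_near hA hf' (ε := min (ε / 2) (|f' u| / (‖u‖ + 1)))
    (lt_min (by positivity) (div_pos (abs_pos.2 hf'u) (by positivity)))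
  refine ⟨η, hηA, good_of_rat hB hint hBi hηd ⟨u, hu, ?_⟩, ?_⟩
  · intro h0
    have h1 := (η - f').le_opNorm u
    rw [sub_apply, h0, zero_sub, norm_neg, Real.norm_eq_abs] at h1
    have h2 := hη.trans_le (min_le_right _ _)
    rw [lt_div_iff₀ (by positivity)] at h2
    nlinarith [norm_nonneg u, norm_nonneg (η - f'), abs_pos.2 hf'u]
  · have h1 := hη.trans_le (min_le_left _ _)
    have h2 : η - f = (η - f') + (f' - f) := by abel
    rw [h2]
    have := norm_add_le (η - f') (f' - f)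
    linarith

/-- integral linear holonomy with an invariant rational flag, with quotients of dimension at most
one, except for one of dimension at most two -/
theorem rational_complete [SecondCountableTopology X] [ConnectedSpace X]
    (D : AffData X Γ E dev hol)
    (hint : ∀ (γ : Γ) (v : E), IsInt b v → IsInt b (lin hol γ v))
    {S : ℕ → Submodule ℝ E} {m k : ℕ} (h0 : S 0 = ⊥) (hm : S m = ⊤)
    (hle : ∀ i < m, S i ≤ S (i + 1)) (hinv : ∀ i ≤ m, ∀ γ : Γ, ∀ v ∈ S i, lin hol γ v ∈ S i)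
    (hrat : ∀ i ≤ m, RatSub b (S i))
    (hr1 : ∀ i < m, i ≠ k → Module.finrank ℝ (S (i + 1)) ≤ Module.finrank ℝ (S i) + 1)
    (hr2 : Module.finrank ℝ (S (k + 1)) ≤ Module.finrank ℝ (S k) + 2) :
    IsHomeomorph dev := by
  have hsign : ∀ i < m, Module.finrank ℝ (S (i + 1)) ≤ Module.finrank ℝ (S i) + 1 → ∀ γ : Γ,
      ∃ c : ℝ, (c = 1 ∨ c = -1) ∧ ∀ v ∈ S (i + 1), lin hol γ v - c • v ∈ S i :=
    fun i hi hr γ => sign_of_rat (hle i hi) (hrat i hi.le) (hrat (i + 1) hi) hr hint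
      (fun γ v hv => hinv i hi.le γ v hv) (fun γ v hv => hinv (i + 1) hi γ v hv) γ
  by_cases hcase : k < m ∧ Module.finrank ℝ (S (k + 1)) = Module.finrank ℝ (S k) + 2
  · exact QFlag.complete D (S := S) (m := m) (k := k)
      { bot := h0
        top := hm
        lt := hcase.1
        le := hle
        inv := hinv
        sign := fun i hi hik => hsign i hi (hr1 i hi hik)
        rank := hcase.2
        dense := dense_of_rat (hrat k hcase.1.le) (hrat (k + 1) hcase.1) hcase.2 hint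
          (fun γ v hv => hinv (k + 1) hcase.1 γ v hv) }
  · have hall : ∀ i < m, Module.finrank ℝ (S (i + 1)) ≤ Module.finrank ℝ (S i) + 1 := by
      intro i hi
      by_cases hik : i = k
      · subst hik
        have : Module.finrank ℝ (S (i + 1)) ≠ Module.finrank ℝ (S i) + 2 := fun h => hcase ⟨hi, h⟩
        omega
      · exact hr1 i hi hik
    obtain ⟨x⟩ := (inferInstance : Nonempty X)
    refine homeo_of_all D.loc (x := x) fun v => ?_
    refine Pool.Agent.TH569.MK.chain_complete D S m (fun x v hv => ?_) (fun i hi => ?_) x v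
      (by rw [hm]; exact Submodule.mem_top)
    · rw [h0, Submodule.mem_bot] at hv
      subst hv
      exact Geod.ex D.loc ⟨fun _ => x, continuousOn_const, rfl, fun t _ => by simp⟩
    · refine ⟨1, fun γ v hv => ?_⟩
      obtain ⟨c, hc, h⟩ := hsign i hi (hall i hi) γ
      have habs : |c| = 1 := by rcases hc with rfl | rfl <;> simp
      refine ⟨_, h v hv, ?_⟩
      rw [sub_sub_cancel, norm_smul, Real.norm_eq_abs, habs]

end

end Run7.h675
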