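import Pool.Agent.Run7.h675.Line

/-!
Slices of the developing image parallel to an invariant subspace `B`, with complete directions
`A ≤ B` of codimension two in `B`, are convex if a dense set of covectors on `B / A` is good.
-/

set_option autoImplicit false

open Set Filter Topology Metric
open Pool.Agent.W689.Mk

namespace Run7.h675

section
variable {E : Type} [NormedAddCommGroup E] [NormedSpace ℝ E] [FiniteDimensional ℝ E]

/-- a dense set of covectors vanishing on `A` has the property `G` -/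
def DenseCov (A : Submodule ℝ E) (G : (E →L[ℝ] ℝ) → Prop) : Prop :=
  ∀ f : E →L[ℝ] ℝ, (∀ v ∈ A, f v = 0) → ∀ ε : ℝ, 0 < ε →
    ∃ η : E →L[ℝ] ℝ, (∀ v ∈ A, η v = 0) ∧ G η ∧ ‖η - f‖ < ε

theorem exists_between {A B : Submodule ℝ E}
    (hr : Module.finrank ℝ B = Module.finrank ℝ A + 2) (d : E) :
    ∃ (f : E →L[ℝ] ℝ) (u : E), (∀ v ∈ A, f v = 0) ∧ f d = 0 ∧ u ∈ B ∧ f u = 1 := by
  have h1 : ¬ B ≤ A ⊔ Submodule.span ℝ {d} := by
    intro h
    have h2 := Submodule.finrank_mono h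
    have h3 := Submodule.finrank_add_le_finrank_add_finrank A (Submodule.span ℝ {d})
    have h4 : Module.finrank ℝ (Submodule.span ℝ {d}) ≤ 1 := by
      have := finrank_span_le_card (R := ℝ) ({d} : Set E)
      simpa using this
    omega
  obtain ⟨u, hu, huA⟩ := SetLike.not_le_iff_exists.1 h1
  obtain ⟨f, hf, hfu⟩ := exists_functional huA
  exact ⟨f, u, fun v hv => hf v (Submodule.mem_sup_left hv),
    hf d (Submodule.mem_sup_right (Submodule.mem_span_singleton_self d)), hu, hfu⟩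

/-- directions annihilated by good covectors are dense -/
theorem exists_dir {A B : Submodule ℝ E} (hAB : A ≤ B)
    (hr : Module.finrank ℝ B = Module.finrank ℝ A + 2) {G : (E →L[ℝ] ℝ) → Prop}
    (hG : DenseCov A G) {d : E} (hd : d ∈ B) (hdA : d ∉ A) {ε : ℝ} (hε : 0 < ε) :
    ∃ (η : E →L[ℝ] ℝ) (w : E), (∀ v ∈ A, η v = 0) ∧ G η ∧ w ∈ B ∧ η w = 0 ∧ w ∉ A ∧
      ‖w - d‖ < ε ∧ (∃ u ∈ B, η u ≠ 0) := by
  obtain ⟨f, u, hfA, hfd, hu, hfu⟩ := exists_between hr d
  obtain ⟨r, hr0, hrA⟩ : ∃ r > 0, ∀ w : E, ‖w - d‖ < r → w ∉ A := by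
    have h1 : IsClosed (A : Set E) := A.closed_of_finiteDimensional
    obtain ⟨r, hr, h⟩ := Metric.isOpen_iff.1 h1.isOpen_compl d hdA
    exact ⟨r, hr, fun w hw => h (by rwa [mem_ball, dist_eq_norm])⟩
  set ε' := min ε r with hε'
  have hε'0 : 0 < ε' := lt_min hε hr0
  obtain ⟨η, hηA, hηG, hη⟩ := hG f hfA (min (1 / (2 * (‖u‖ + 1))) (ε' / (2 * (‖d‖ + 1) * (‖u‖ + 1))))
    (by positivity)
  have h1 : ‖η - f‖ * ‖u‖ ≤ 1 / 2 := by
    have h2 := hη.le.trans (min_le_left _ _)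
    rw [le_div_iff₀ (by positivity)] at h2
    nlinarith [norm_nonneg u, norm_nonneg (η - f)]
  have h2 : |η u - 1| ≤ 1 / 2 := by
    have h3 := (η - f).le_opNorm u
    rw [sub_apply, hfu, Real.norm_eq_abs] at h3
    exact h3.trans h1
  have h3 : 1 / 2 ≤ η u := by
    have := (abs_le.1 h2).1
    linarith
  have h4 : |η d| ≤ ‖η - f‖ * ‖d‖ := by
    have h3 := (η - f).le_opNorm d
    rwa [sub_apply, hfd, sub_zero, Real.norm_eq_abs] at h3
  have h5 : 2 * (‖η - f‖ * ‖d‖) * ‖u‖ < ε' := by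
    have h2 := hη.trans_le (min_le_right _ _)
    rw [lt_div_iff₀ (by positivity)] at h2
    have h6 : 2 * (‖η - f‖ * ‖d‖) * ‖u‖ ≤ ‖η - f‖ * (2 * (‖d‖ + 1) * (‖u‖ + 1)) := by
      have e1 : 2 * (‖η - f‖ * ‖d‖) * ‖u‖ = ‖η - f‖ * (2 * ‖d‖ * ‖u‖) := by ring
      rw [e1]
      gcongr <;> linarith
    linarith
  have h6 : ‖d - (η d / η u) • u - d‖ < ε' := by
    have e : d - (η d / η u) • u - d = -((η d / η u) • u) := by abel
    rw [e, norm_neg, norm_smul, Real.norm_eq_abs, abs_div, abs_of_pos (by linarith : 0 < η u)]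
    have h7 : |η d| / η u ≤ 2 * (‖η - f‖ * ‖d‖) := by
      rw [div_le_iff₀ (by linarith)]
      have h8 : 0 ≤ ‖η - f‖ * ‖d‖ := by positivity
      nlinarith
    exact (mul_le_mul_of_nonneg_right h7 (norm_nonneg _)).trans_lt h5
  refine ⟨η, d - (η d / η u) • u, hηA, hηG, B.sub_mem hd (B.smul_mem _ hu), ?_,
    hrA _ (h6.trans_le (min_le_right _ _)), h6.trans_le (min_le_left _ _), u, hu, by linarith⟩
  rw [map_sub, map_smul, smul_eq_mul, div_mul_cancel₀ _ (by linarith), sub_self]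

/-- the kernel of a covector on `B` which vanishes on `A` -/
theorem ker_eq {A B : Submodule ℝ E} (hAB : A ≤ B)
    (hr : Module.finrank ℝ B = Module.finrank ℝ A + 2) {η : E →L[ℝ] ℝ} (hA : ∀ v ∈ A, η v = 0)
    {w u : E} (hw : w ∈ B) (hηw : η w = 0) (hwA : w ∉ A) (hu : u ∈ B) (hηu : η u ≠ 0) :
    B ⊓ LinearMap.ker (η : E →ₗ[ℝ] ℝ) = A ⊔ Submodule.span ℝ {w} := by
  symm
  have h1 : A ⊔ Submodule.span ℝ {w} ≤ B ⊓ LinearMap.ker (η : E →ₗ[ℝ] ℝ) := by
    refine sup_le (le_inf hAB fun v hv => hA v hv) ?_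
    rw [Submodule.span_singleton_le_iff_mem]
    exact ⟨hw, hηw⟩
  refine Submodule.eq_of_le_of_finrank_le h1 ?_
  have h2 : B ⊓ LinearMap.ker (η : E →ₗ[ℝ] ℝ) < B := by
    refine lt_of_le_of_ne inf_le_left fun he => hηu ?_
    have : u ∈ B ⊓ LinearMap.ker (η : E →ₗ[ℝ] ℝ) := by rw [he]; exact hu
    exact this.2
  have h3 := Submodule.finrank_lt_finrank_of_lt h2
  have h4 : A < A ⊔ Submodule.span ℝ {w} := by
    refine lt_of_le_of_ne le_sup_left fun he => hwA ?_
    rw [he]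
    exact Submodule.mem_sup_right (Submodule.mem_span_singleton_self w)
  have h5 := Submodule.finrank_lt_finrank_of_lt h4
  omega

/-- convexity of the slices -/
theorem slice_convex {Ω : Set E} (hΩ : IsOpen Ω) {A B : Submodule ℝ E} (hAB : A ≤ B)
    (hr : Module.finrank ℝ B = Module.finrank ℝ A + 2) (hA : ∀ q ∈ Ω, ∀ v ∈ A, q + v ∈ Ω)
    {G : (E →L[ℝ] ℝ) → Prop} (hG : DenseCov A G)
    (hl : ∀ (η : E →L[ℝ] ℝ) (w : E), (∀ v ∈ A, η v = 0) → G η → w ∈ B → η w = 0 → w ∉ A →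
      (∃ u ∈ B, η u ≠ 0) → ∀ p : E, IsPreconnected {s : ℝ | p + s • w ∈ Ω})
    {a b : E} (ha : a ∈ Ω) (hb : b ∈ Ω) (hab : b - a ∈ B) {t : ℝ} (ht : t ∈ Icc (0 : ℝ) 1) :
    a + t • (b - a) ∈ Ω := by
  by_cases hdA : b - a ∈ A
  · exact hA a ha _ (A.smul_mem t hdA)
  obtain ⟨r1, hr1, h1⟩ := Metric.isOpen_iff.1 hΩ a ha
  obtain ⟨r2, hr2, h2⟩ := Metric.isOpen_iff.1 hΩ b hb
  obtain ⟨η, w, hηA, hηG, hw, hηw, hwA, hwd, hu⟩ := exists_dir hAB hr hG hab hdA (lt_min hr1 hr2)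
  set d := b - a with hd
  set m := a + t • d with hm
  have hpre := hl η w hηA hηG hw hηw hwA hu m
  have hta : (-t) ∈ {s : ℝ | m + s • w ∈ Ω} := by
    apply h1
    rw [mem_ball, dist_eq_norm]
    have e : m + (-t) • w - a = -(t • (w - d)) := by rw [hm]; module
    rw [e, norm_neg, norm_smul, Real.norm_eq_abs, abs_of_nonneg ht.1]
    calc t * ‖w - d‖ ≤ 1 * ‖w - d‖ := by gcongr; exact ht.2
      _ < r1 := by rw [one_mul]; exact hwd.trans_le (min_le_left _ _)
  have htb : (1 - t) ∈ {s : ℝ | m + s • w ∈ Ω} := by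
    apply h2
    rw [mem_ball, dist_eq_norm]
    have e : m + (1 - t) • w - b = (1 - t) • (w - d) := by
      have : b = a + d := by rw [hd]; abel
      rw [this, hm]; module
    rw [e, norm_smul, Real.norm_eq_abs, abs_of_nonneg (by linarith [ht.2])]
    calc (1 - t) * ‖w - d‖ ≤ 1 * ‖w - d‖ := by gcongr; linarith [ht.1]
      _ < r2 := by rw [one_mul]; exact hwd.trans_le (min_le_right _ _)
  have h0 : (0 : ℝ) ∈ {s : ℝ | m + s • w ∈ Ω} :=
    hpre.ordConnected.out hta htb ⟨by linarith [ht.1], by linarith [ht.2]⟩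
  have h3 : m + (0 : ℝ) • w ∈ Ω := h0
  rwa [zero_smul, add_zero] at h3

end

section
variable {X E : Type} [TopologicalSpace X]
  [NormedAddCommGroup E] [NormedSpace ℝ E] {dev : X → E}

theorem line_preconnected (hdev : Continuous dev) {w : E} (hw : w ≠ 0)
    (hc : Con dev (Submodule.span ℝ {w})) (p : E) :
    IsPreconnected {s : ℝ | p + s • w ∈ range dev} := by
  obtain ⟨φ, -, hφ⟩ := exists_dual_vector ℝ w (norm_ne_zero_iff.2 hw)
  have hφw : φ w ≠ 0 := by
    rw [hφ]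
    simpa using hw
  have h1 : {s : ℝ | p + s • w ∈ range dev} =
      (fun x => (φ w)⁻¹ * φ (dev x - p)) '' Sect dev (Submodule.span ℝ {w}) p := by
    ext s
    constructor
    · rintro ⟨x, hx⟩
      refine ⟨x, ?_, ?_⟩
      · show dev x - p ∈ Submodule.span ℝ {w}
        rw [hx, add_sub_cancel_left]
        exact Submodule.smul_mem _ _ (Submodule.mem_span_singleton_self w)
      · beta_reduce
        rw [hx, add_sub_cancel_left, map_smul, smul_eq_mul]
        field_simp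
    · rintro ⟨x, hx, rfl⟩
      obtain ⟨c, hc⟩ := Submodule.mem_span_singleton.1 hx
      refine ⟨x, ?_⟩
      beta_reduce
      rw [← hc, map_smul, smul_eq_mul]
      have e : (φ w)⁻¹ * (c * φ w) = c := by field_simp
      rw [e, hc]
      abel
  rw [h1]
  refine (hc p).isPreconnected.image _ (Continuous.continuousOn ?_)
  exact continuous_const.mul (φ.continuous.comp (hdev.sub continuous_const))

end

end Run7.h675
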