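import Pool.Agent.Run7.h675.Deck
import Pool.Agent.Run7.h675.Ends

/-!
Topological consequences of a product decomposition of the universal covering.
-/

set_option autoImplicit false

open Set Filter Topology
open Pool.Agent.W689.Mk

namespace Run7.h675

section
variable {F : Type} [TopologicalSpace F]

/-- the complement of a compact subset of `F × ℝ` contains a connected set with relatively compact
complement -/
theorem exists_end [ConnectedSpace F] [NoncompactSpace F] {C : Set (F × ℝ)} (hC : IsCompact C) :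
    ∃ W : Set (F × ℝ), IsPreconnected W ∧ Disjoint W C ∧ ∃ D, IsCompact D ∧ Wᶜ ⊆ D := by
  have h1 : IsCompact (Prod.fst '' C) := hC.image continuous_fst
  have h2 : IsCompact (Prod.snd '' C) := hC.image continuous_snd
  obtain ⟨R, hR⟩ := h2.isBounded.subset_closedBall 0
  have hR' : ∀ z ∈ C, |z.2| ≤ R := by
    intro z hz
    have := hR ⟨z, hz, rfl⟩
    rwa [Metric.mem_closedBall, dist_zero_right, Real.norm_eq_abs] at this
  obtain ⟨y0, hy0⟩ : ∃ y0, y0 ∉ Prod.fst '' C := by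
    by_contra hcon
    push Not at hcon
    have : Prod.fst '' C = univ := eq_univ_of_forall hcon
    rw [this] at h1
    exact noncompact_univ F h1
  refine ⟨((Prod.fst '' C) ×ˢ Icc (-R) R)ᶜ, ?_, ?_, (Prod.fst '' C) ×ˢ Icc (-R) R,
    h1.prod isCompact_Icc, ?_⟩
  · have cu : IsPreconnected ((univ : Set F) ×ˢ Ioi R) := isPreconnected_univ.prod isPreconnected_Ioi
    have cl : IsPreconnected ((univ : Set F) ×ˢ Iio (-R)) :=
      isPreconnected_univ.prod isPreconnected_Iio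
    have cv : ∀ y : F, IsPreconnected (({y} : Set F) ×ˢ (univ : Set ℝ)) := fun y =>
      isPreconnected_singleton.prod isPreconnected_univ
    have su : (univ : Set F) ×ˢ Ioi R ⊆ ((Prod.fst '' C) ×ˢ Icc (-R) R)ᶜ := by
      rintro ⟨y, s⟩ ⟨-, hs⟩ ⟨-, hs'⟩
      exact absurd hs'.2 (not_le.2 hs)
    have sl : (univ : Set F) ×ˢ Iio (-R) ⊆ ((Prod.fst '' C) ×ˢ Icc (-R) R)ᶜ := by
      rintro ⟨y, s⟩ ⟨-, hs⟩ ⟨-, hs'⟩
      exact absurd hs'.1 (not_le.2 hs)
    have sv : ∀ y : F, y ∉ Prod.fst '' C →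
        ({y} : Set F) ×ˢ (univ : Set ℝ) ⊆ ((Prod.fst '' C) ×ˢ Icc (-R) R)ᶜ := by
      rintro y hy ⟨y', s⟩ ⟨hy', -⟩ ⟨hy'', -⟩
      rw [mem_singleton_iff] at hy'
      exact hy (hy' ▸ hy'')
    have cuv : ∀ y : F, IsPreconnected ((univ : Set F) ×ˢ Ioi R ∪ ({y} : Set F) ×ˢ (univ : Set ℝ)) :=
      fun y => cu.union (y, R + 1) ⟨trivial, by simp⟩ ⟨rfl, trivial⟩ (cv y)
    refine isPreconnected_of_forall (y0, R + 1) ?_
    rintro ⟨y, s⟩ hz
    by_cases hy : y ∈ Prod.fst '' C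
    · have hs : s ∉ Icc (-R) R := fun hs => hz ⟨hy, hs⟩
      by_cases hs1 : R < s
      · exact ⟨_, su, ⟨trivial, by simp⟩, ⟨trivial, hs1⟩, cu⟩
      · have hs2 : s < -R := by
          by_contra hcon
          exact hs ⟨not_lt.1 hcon, not_lt.1 hs1⟩
        refine ⟨((univ : Set F) ×ˢ Ioi R ∪ ({y0} : Set F) ×ˢ (univ : Set ℝ)) ∪
          (univ : Set F) ×ˢ Iio (-R), union_subset (union_subset su (sv y0 hy0)) sl,
          Or.inl (Or.inl ⟨trivial, by simp⟩), Or.inr ⟨trivial, hs2⟩, ?_⟩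
        exact (cuv y0).union (y0, -R - 1) (Or.inr ⟨rfl, trivial⟩) ⟨trivial, by simp⟩ cl
    · exact ⟨_, union_subset su (sv y hy), Or.inl ⟨trivial, by simp⟩, Or.inr ⟨rfl, trivial⟩, cuv y⟩
  · rw [Set.disjoint_left]
    intro z hz hzC
    exact hz ⟨⟨z, hzC, rfl⟩, abs_le.1 (hR' z hzC)⟩
  · rw [compl_compl]

end

section
variable {X Γ F : Type} [TopologicalSpace X] [T2Space X] [Group Γ] [MulAction Γ X]
  [TopologicalSpace F]

theorem oneEnded_of_product [LocallyCompactSpace X] [ConnectedSpace F] [NoncompactSpace F]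
    (hcont : ∀ γ : Γ, Continuous fun x : X => γ • x)
    (hpd : ∀ K : Set X, IsCompact K → {γ : Γ | ∃ x ∈ K, γ • x ∈ K}.Finite)
    (hcc : ∃ K : Set X, IsCompact K ∧ ∀ x : X, ∃ γ : Γ, ∃ k ∈ K, γ • k = x)
    (Φ : X ≃ₜ F × ℝ) : OneEnded Γ := by
  obtain ⟨K, hK, hKc⟩ := hcc
  have hne : Nonempty X := ⟨Φ.symm (Classical.arbitrary F, 0)⟩
  obtain ⟨x0⟩ := hne
  obtain ⟨γ0, k0, hk0, -⟩ := hKc x0
  have hKγ : ∀ γ : Γ, IsCompact ((fun x => γ • x) '' K) := fun γ => hK.image (hcont γ)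
  -- finitely many translates meet a compact set
  have hmeet : ∀ D : Set X, IsCompact D → {γ : Γ | (((fun x => γ • x) '' K) ∩ D).Nonempty}.Finite := by
    intro D hD
    refine (hpd (K ∪ D) (hK.union hD)).subset ?_
    rintro γ ⟨_, ⟨x, hx, rfl⟩, hxD⟩
    exact ⟨x, Or.inl hx, Or.inr hxD⟩
  have hclosed : ∀ S : Set Γ, IsClosed (⋃ s : S, (fun x => s.1 • x) '' K) := by
    intro S
    refine LocallyFinite.isClosed_iUnion ?_ fun s => (hKγ s.1).isClosed
    intro x
    obtain ⟨N, hNc, hN⟩ := exists_compact_mem_nhds x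
    refine ⟨N, hN, ?_⟩
    exact ((hmeet N hNc).preimage (Subtype.val_injective (p := fun γ => γ ∈ S)).injOn).subset
      fun s hs => hs
  have huniv : ∀ S : Set Γ, (⋃ s : S, (fun x => s.1 • x) '' K) ∪
      (⋃ s : (Sᶜ : Set Γ), (fun x => s.1 • x) '' K) = univ := by
    intro S
    rw [eq_univ_iff_forall]
    intro x
    obtain ⟨γ, k, hk, rfl⟩ := hKc x
    by_cases hγ : γ ∈ S
    · exact Or.inl (mem_iUnion.2 ⟨⟨γ, hγ⟩, k, hk, rfl⟩)
    · exact Or.inr (mem_iUnion.2 ⟨⟨γ, hγ⟩, k, hk, rfl⟩)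
  have hfin : ∀ S : Set Γ, ∀ D : Set X, IsCompact D → (⋃ s : S, (fun x => s.1 • x) '' K) ⊆ D →
      S.Finite := by
    intro S D hD hSD
    refine (hmeet D hD).subset fun s hs => ?_
    have h1 : s • k0 ∈ (fun x => s • x) '' K := ⟨k0, hk0, rfl⟩
    exact ⟨s • k0, h1, hSD (mem_iUnion.2 ⟨⟨s, hs⟩, h1⟩)⟩
  refine ⟨?_, fun S hS => ?_⟩
  · by_contra hcon
    rw [not_infinite_iff_finite] at hcon
    have h1 : IsCompact (⋃ γ : Γ, (fun x => γ • x) '' K) := isCompact_iUnion fun γ => hKγ γ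
    have h2 : (⋃ γ : Γ, (fun x => γ • x) '' K) = univ := by
      rw [eq_univ_iff_forall]
      intro x
      obtain ⟨γ, k, hk, rfl⟩ := hKc x
      exact mem_iUnion.2 ⟨γ, k, hk, rfl⟩
    rw [h2] at h1
    have h3 : IsCompact (univ : Set (F × ℝ)) := by
      have := h1.image Φ.continuous
      rwa [image_univ, Φ.surjective.range_eq] at this
    exact noncompact_univ (F × ℝ) h3
  · have hC : IsCompact (⋃ g ∈ {γ : Γ | ∃ x ∈ K, γ • x ∈ K}, ⋃ s ∈ {s | s ∈ S ∧ s * g ∉ S},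
        (fun x => s • x) '' K) :=
      (hpd K hK).isCompact_biUnion fun g _ => (hS g).isCompact_biUnion fun s _ => hKγ s
    have hAA : (⋃ s : S, (fun x => s.1 • x) '' K) ∩
        (⋃ s : (Sᶜ : Set Γ), (fun x => s.1 • x) '' K) ⊆
        ⋃ g ∈ {γ : Γ | ∃ x ∈ K, γ • x ∈ K}, ⋃ s ∈ {s | s ∈ S ∧ s * g ∉ S},
          (fun x => s • x) '' K := by
      rintro x ⟨h1, h2⟩
      obtain ⟨⟨s, hs⟩, k, hk, hkx⟩ := mem_iUnion.1 h1
      obtain ⟨⟨t, ht⟩, k', hk', hkx'⟩ := mem_iUnion.1 h2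
      have e1 : s • k = x := hkx
      have e2 : t • k' = x := hkx'
      refine mem_iUnion₂.2 ⟨s⁻¹ * t, ⟨k', hk', ?_⟩, mem_iUnion₂.2 ⟨s, ⟨hs, ?_⟩, k, hk, hkx⟩⟩
      · rw [mul_smul, e2, ← e1, inv_smul_smul]
        exact hk
      · rw [mul_inv_cancel_left]
        exact ht
    obtain ⟨W, hW, hWC, D, hD, hWD⟩ := exists_end (hC.image Φ.continuous)
    have hW' : IsPreconnected (Φ.symm '' W) := hW.image _ Φ.symm.continuous.continuousOn
    have hWD' : (Φ.symm '' W)ᶜ ⊆ Φ.symm '' D := by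
      intro x hx
      refine ⟨Φ x, hWD fun h => hx ⟨Φ x, h, Φ.symm_apply_apply x⟩, Φ.symm_apply_apply x⟩
    have hD' : IsCompact (Φ.symm '' D) := hD.image Φ.symm.continuous
    rw [isPreconnected_closed_iff] at hW'
    have h3 := hW' _ _ (hclosed S) (hclosed Sᶜ) (by rw [huniv S]; exact subset_univ _)
    by_cases h4 : (Φ.symm '' W ∩ ⋃ s : S, (fun x => s.1 • x) '' K).Nonempty
    · by_cases h5 : (Φ.symm '' W ∩ ⋃ s : (Sᶜ : Set Γ), (fun x => s.1 • x) '' K).Nonempty
      · obtain ⟨x, hx1, hx2⟩ := h3 h4 h5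
        obtain ⟨w, hw, rfl⟩ := hx1
        have h6 := hAA hx2
        have h7 : w ∈ Φ '' ⋃ g ∈ {γ : Γ | ∃ x ∈ K, γ • x ∈ K},
            ⋃ s ∈ {s | s ∈ S ∧ s * g ∉ S}, (fun x => s • x) '' K :=
          ⟨Φ.symm w, h6, Φ.apply_symm_apply w⟩
        exact (disjoint_left.1 hWC hw h7).elim
      · right
        refine hfin Sᶜ _ hD' fun x hx => hWD' fun hxW => h5 ⟨x, hxW, hx⟩
    · left
      refine hfin S _ hD' fun x hx => hWD' fun hxW => h4 ⟨x, hxW, hx⟩

end

section
variable {X F : Type} [TopologicalSpace X] [TopologicalSpace F]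

theorem simplyConnected_factor [SimplyConnectedSpace X] (Φ : X ≃ₜ F × ℝ) :
    SimplyConnectedSpace F := by
  let f : C(F, X) := ⟨fun y => Φ.symm (y, 0), by fun_prop⟩
  let g : C(X, F) := ⟨fun x => (Φ x).1, by fun_prop⟩
  have h1 : g.comp f = ContinuousMap.id F := by
    ext y
    show (Φ (Φ.symm (y, 0))).1 = y
    rw [Φ.apply_symm_apply]
  have h2 : (f.comp g).Homotopic (ContinuousMap.id X) := by
    refine ⟨{ toFun := fun z => Φ.symm ((Φ z.2).1, (z.1 : ℝ) * (Φ z.2).2)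
              continuous_toFun := by fun_prop
              map_zero_left := fun x => ?_
              map_one_left := fun x => ?_ }⟩
    · show Φ.symm ((Φ x).1, ((0 : unitInterval) : ℝ) * (Φ x).2) = Φ.symm ((Φ x).1, 0)
      simp
    · show Φ.symm ((Φ x).1, ((1 : unitInterval) : ℝ) * (Φ x).2) = x
      simp
  let e : ContinuousMap.HomotopyEquiv F X :=
    { toFun := f
      invFun := g
      left_inv := by rw [h1]
      right_inv := h2 }
  exact e.simplyConnectedSpace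

end

section
variable {X E : Type} [TopologicalSpace X] [NormedAddCommGroup E] [NormedSpace ℝ E]

/-- the restriction of a local homeomorphism to a level set of a linear function -/
theorem localHomeo_level {dev : X → E} (hloc : IsLocalHomeomorph dev) (ξ : E →L[ℝ] ℝ) :
    IsLocalHomeomorph (fun x : {x : X // ξ (dev x) = 0} =>
      (⟨dev x.1, x.2⟩ : (LinearMap.ker (ξ : E →ₗ[ℝ] ℝ)))) := by
  set g : {x : X // ξ (dev x) = 0} → (LinearMap.ker (ξ : E →ₗ[ℝ] ℝ)) := fun x => ⟨dev x.1, x.2⟩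
    with hg
  have gc : Continuous g := (hloc.continuous.comp continuous_subtype_val).subtype_mk _
  have gopen : IsOpenMap g := by
    intro U hU
    obtain ⟨V, hV, rfl⟩ := isOpen_induced_iff.1 hU
    refine isOpen_induced_iff.2 ⟨dev '' V, hloc.isOpenMap V hV, ?_⟩
    ext p
    constructor
    · rintro ⟨x, hx, hxp⟩
      refine ⟨⟨x, ?_⟩, hx, Subtype.ext hxp⟩
      rw [hxp]
      exact p.2
    · rintro ⟨x, hx, rfl⟩
      exact ⟨x.1, hx, rfl⟩
  rw [isLocalHomeomorph_iff_isOpenEmbedding_restrict]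
  intro x
  obtain ⟨e, hxe, he⟩ := hloc x.1
  refine ⟨Subtype.val ⁻¹' e.source,
    continuous_subtype_val.continuousAt (e.open_source.mem_nhds hxe), ?_⟩
  have ho : IsOpen ((Subtype.val : {x : X // ξ (dev x) = 0} → X) ⁻¹' e.source) :=
    e.open_source.preimage continuous_subtype_val
  refine IsOpenEmbedding.of_continuous_injective_isOpenMap ?_ ?_ ?_
  · exact gc.comp continuous_subtype_val
  · rintro ⟨a, ha⟩ ⟨b, hb⟩ hab
    have h1 : dev a.1 = dev b.1 := congrArg Subtype.val hab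
    have h2 : e a.1 = e b.1 := (congrFun he a.1).symm.trans (h1.trans (congrFun he b.1))
    exact Subtype.ext (Subtype.ext (e.injOn ha hb h2))
  · exact gopen.comp ho.isOpenMap_subtype_val

theorem noncompact_level [Nontrivial E] {dev : X → E} (hloc : IsLocalHomeomorph dev) [Nonempty X] :
    NoncompactSpace X := by
  have := NormedSpace.noncompactSpace ℝ E
  rw [← not_compactSpace_iff]
  intro h
  have h1 : IsClopen (range dev) :=
    ⟨(isCompact_range hloc.continuous).isClosed, hloc.isOpenMap.isOpen_range⟩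
  have h2 := h1.eq_univ (range_nonempty dev)
  have h3 := isCompact_range hloc.continuous
  rw [h2] at h3
  exact noncompact_univ E h3

end

end Run7.h675
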