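import Pool.Agent.Run7.h675.Line

/-!
Geodesics of a closed affine manifold along an invariant plane with area preserving linear
holonomy: the triangle lemma.
-/

set_option autoImplicit false

open Set Filter Topology Metric
open Pool.Agent.W689.Mk

namespace Run7.h675

section
variable {X E : Type} [TopologicalSpace X] [T2Space X] [NormedAddCommGroup E] [NormedSpace ℝ E]
  {dev : X → E}

/-- two collinear geodesics -/
theorem Ex.coll (hloc : IsLocalHomeomorph dev) {x y z : X} {v : E} {s t : ℝ}
    (h1 : Ex dev x (s • v) y) (h2 : Ex dev y (t • v) z) : Ex dev x ((s + t) • v) z := by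
  have hy := h1.dev_eq
  have hz := h2.dev_eq
  obtain ⟨U, σ, a1, a2, a3, a4, a5⟩ := h1
  obtain ⟨U', σ', b1, b2, b3, b4, b5⟩ := h2
  rw [← hy] at a4 a5
  rw [← hz] at b4 b5
  have hseg : segment ℝ (dev x) (dev z) ⊆ U ∪ U' := by
    have h1 : segment ℝ (dev x) (dev y) ⊆ U := a1.convex.segment_subset a2 a4
    have h2 : segment ℝ (dev y) (dev z) ⊆ U' := b1.convex.segment_subset b2 b4
    rintro q ⟨c, d, hc, hd, hcd, rfl⟩
    have e : c • dev x + d • dev z = dev x + (d * (s + t)) • v := by
      have : c = 1 - d := by linarith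
      rw [hz, hy, this]
      module
    -- parameter `d * (s + t)` is between `0` and `s` or between `s` and `s + t`
    by_cases hs : ∃ κ ∈ Icc (0 : ℝ) 1, d * (s + t) = κ * s
    · obtain ⟨κ, hκ, hk⟩ := hs
      left
      apply h1
      refine ⟨1 - κ, κ, by linarith [hκ.2], hκ.1, by ring, ?_⟩
      rw [e, hk, hy]
      module
    · have : ∃ κ ∈ Icc (0 : ℝ) 1, d * (s + t) = s + κ * t := by
        by_contra hcon
        push Not at hs hcon
        have hd1 : d ≤ 1 := by linarith
        rcases le_or_gt 0 (s * t) with hst | hst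
        · -- same sign
          rcases eq_or_ne s 0 with rfl | hs0
          · exact hcon d ⟨hd, hd1⟩ (by ring)
          rcases eq_or_ne t 0 with rfl | ht0
          · exact hs d ⟨hd, hd1⟩ (by ring)
          have hst' : 0 < s * t := lt_of_le_of_ne hst (mul_ne_zero hs0 ht0).symm
          have hss : 0 < s * s := mul_self_pos.2 hs0
          have htt : 0 < t * t := mul_self_pos.2 ht0
          rcases le_or_gt (d * (s + t) * s) (s * s) with h3 | h3
          · refine hs (d * (s + t) / s) ⟨?_, ?_⟩ (by field_simp)
            · have : d * (s + t) / s = d * (s * s + s * t) / (s * s) := by field_simp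
              rw [this]
              positivity
            · have : d * (s + t) / s = (d * (s + t) * s) / (s * s) := by field_simp
              rw [this, div_le_one hss]
              exact h3
          · refine hcon ((d * (s + t) - s) / t) ⟨?_, ?_⟩ (by field_simp; ring)
            · have : (d * (s + t) - s) / t = (d * (s + t) * s - s * s) / (s * t) := by
                field_simp
              rw [this]
              exact div_nonneg (by linarith) hst'.le
            · have : (d * (s + t) - s) / t = 1 - ((1 - d) * (s * t + t * t)) / (t * t) := by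
                field_simp
                ring
              rw [this]
              have h5 : 0 ≤ (1 - d) * (s * t + t * t) / (t * t) := by
                have : 0 ≤ 1 - d := by linarith
                positivity
              linarith
        · -- opposite signs
          have hs0 : s ≠ 0 := by rintro rfl; simp at hst
          have ht0 : t ≠ 0 := by rintro rfl; simp at hst
          have hss : 0 < s * s := mul_self_pos.2 hs0
          have htt : 0 < t * t := mul_self_pos.2 ht0
          rcases le_or_gt 0 ((s + t) * s) with h3 | h3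
          · refine hs (d * (s + t) / s) ⟨?_, ?_⟩ (by field_simp)
            · have : d * (s + t) / s = d * ((s + t) * s) / (s * s) := by field_simp
              rw [this]
              positivity
            · have : d * (s + t) / s = d * (s * s + s * t) / (s * s) := by field_simp
              rw [this, div_le_one hss]
              have h5 : s * s + s * t ≤ s * s := by linarith
              have h6 : 0 ≤ s * s + s * t := by nlinarith
              calc d * (s * s + s * t) ≤ 1 * (s * s + s * t) := by gcongr
                _ ≤ s * s := by linarith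
          · refine hcon ((d * (s + t) - s) / t) ⟨?_, ?_⟩ (by field_simp; ring)
            · have : (d * (s + t) - s) / t = (-(s * t) + d * (s * t + t * t)) / (t * t) := by
                field_simp
                ring
              rw [this]
              have h6 : 0 ≤ s * t + t * t := by nlinarith
              have h7 : 0 ≤ -(s * t) := by linarith
              positivity
            · have : (d * (s + t) - s) / t = 1 - ((1 - d) * (s * t + t * t)) / (t * t) := by
                field_simp
                ring
              rw [this]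
              have h6 : 0 ≤ s * t + t * t := by nlinarith
              have h5 : 0 ≤ (1 - d) * (s * t + t * t) / (t * t) := by
                have : 0 ≤ 1 - d := by linarith
                positivity
              linarith
      obtain ⟨κ, hκ, hk⟩ := this
      right
      apply h2
      refine ⟨1 - κ, κ, by linarith [hκ.2], hκ.1, by ring, ?_⟩
      rw [e, hk, hz, hy]
      module
  have hKc : IsCompact (segment ℝ (dev x) (dev z)) := by
    rw [segment_eq_image_lineMap]
    exact isCompact_Icc.image (AffineMap.lineMap_continuous)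
  obtain ⟨ε, hε, hεU⟩ := hKc.exists_thickening_subset_open (a1.isOpen.union b1.isOpen) hseg
  obtain ⟨τ, hτ1, hτ2, hτ3⟩ := a1.glue hloc b1 a4 b2 (a5.trans b3.symm)
    (V := thickening ε (segment ℝ (dev x) (dev z))) isOpen_thickening
    ((convex_segment _ _).thickening ε) hεU
  have e2 : dev x + (s + t) • v = dev z := by rw [hz, hy]; module
  refine ⟨_, τ, hτ1, ?_, ?_, ?_, ?_⟩
  · exact self_subset_thickening hε _ (left_mem_segment ℝ _ _)
  · rw [hτ2 _ a2, a3]
  · rw [e2]
    exact self_subset_thickening hε _ (right_mem_segment ℝ _ _)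
  · rw [e2, hτ3 _ b4, b5]

/-- openness: nearby points of a lifted path are visible -/
theorem Ex.near (hloc : IsLocalHomeomorph dev) {x : X} {T : Set ℝ} {c : ℝ → X} {φ : ℝ → E}
    {s0 : ℝ} (hc : ContinuousWithinAt c T s0) (hφ : ∀ s ∈ T, dev (c s) = dev x + φ s)
    (h : Ex dev x (φ s0) (c s0)) : ∀ᶠ s in 𝓝[T] s0, Ex dev x (φ s) (c s) := by
  obtain ⟨U, σ, h1, h2, h3, h4, h5⟩ := h
  have h6 := h1.isOpen_image hloc h1.isOpen Subset.rfl
  have h7 : σ '' U ∈ 𝓝 (c s0) := h6.mem_nhds ⟨_, h4, h5⟩
  filter_upwards [hc h7, self_mem_nhdsWithin] with s hs hsT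
  obtain ⟨q, hq, hqc⟩ := hs
  have h8 : q = dev x + φ s := by
    rw [← h1.inv q hq, hqc]
    exact hφ s hsT
  exact ⟨U, σ, h1, h2, h3, by rw [← h8]; exact hq, by rw [← h8]; exact hqc⟩

/-- closedness: limits of visible points of a lifted path -/
theorem Ex.lim (hloc : IsLocalHomeomorph dev) {x y : X} {T : Set ℝ} {c : ℝ → X} {φ : ℝ → E}
    {s0 : ℝ} (hc : ContinuousWithinAt c T s0) (hφ : ContinuousWithinAt φ T s0)
    (hne : ∃ᶠ s in 𝓝[T] s0, Ex dev x (φ s) (c s)) (h : Ex dev x (φ s0) y) : y = c s0 := by
  obtain ⟨U, σ, h1, h2, h3, h4, h5⟩ := h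
  have hcont : ContinuousWithinAt (fun s => σ (dev x + φ s)) T s0 := by
    refine ContinuousAt.comp_continuousWithinAt (g := σ) (f := fun s => dev x + φ s) ?_
      (continuousWithinAt_const.add hφ)
    exact (h1.cont _ h4).continuousAt (h1.isOpen.mem_nhds h4)
  have hev : ∀ᶠ s in 𝓝[T] s0, dev x + φ s ∈ U :=
    (continuousWithinAt_const.add hφ).eventually (h1.isOpen.mem_nhds h4)
  by_contra hne'
  rw [← h5] at hne'
  have h6 : ∀ᶠ s in 𝓝[T] s0, σ (dev x + φ s) ≠ c s := by
    obtain ⟨V1, V2, hV1, hV2, m1, m2, hd⟩ := t2_separation hne'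
    filter_upwards [hcont (hV1.mem_nhds m1), hc (hV2.mem_nhds m2)] with s k1 k2 he
    have k3 : σ (dev x + φ s) ∈ V1 := k1
    rw [he] at k3
    exact Set.disjoint_left.1 hd k3 k2
  obtain ⟨s, hs, h7, h8⟩ := (hne.and_eventually (hev.and h6)).exists
  apply h8
  exact (Ex.unique hloc (x := x) (v := φ s) ⟨U, σ, h1, h2, h3, h7, rfl⟩ hs)

/-- a lifted path all of whose points are visible is the visible lift -/
theorem Ex.path (hloc : IsLocalHomeomorph dev) {x : X} {b : ℝ} {c : ℝ → X} {φ : ℝ → E}
    (hc : ContinuousOn c (Icc 0 b)) (hφc : ContinuousOn φ (Icc 0 b))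
    (hφ : ∀ s ∈ Icc 0 b, dev (c s) = dev x + φ s) (hvis : ∀ s ∈ Icc 0 b, ∃ y, Ex dev x (φ s) y)
    (h0 : Ex dev x (φ 0) (c 0)) : ∀ s ∈ Icc 0 b, Ex dev x (φ s) (c s) := by
  by_contra hcon
  push Not at hcon
  obtain ⟨s1, hs1, hn1⟩ := hcon
  -- the first failure
  let B : Set ℝ := {s ∈ Icc 0 b | ¬ Ex dev x (φ s) (c s)}
  have hBne : B.Nonempty := ⟨s1, hs1, hn1⟩
  have hBcl : IsClosed B := by
    rw [← isOpen_compl_iff]
    rw [isOpen_iff_mem_nhds]
    intro s hs
    by_cases hsI : s ∈ Icc 0 b
    · have hP : Ex dev x (φ s) (c s) := by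
        by_contra h
        exact hs ⟨hsI, h⟩
      have h1 := Ex.near hloc (hc s hsI) hφ hP
      rw [eventually_nhdsWithin_iff] at h1
      filter_upwards [h1] with s' hs' hB
      exact hB.2 (hs' hB.1)
    · have h1 : (Icc 0 b)ᶜ ∈ 𝓝 s := isClosed_Icc.isOpen_compl.mem_nhds hsI
      filter_upwards [h1] with s' hs' hB
      exact hs' hB.1
  have hBbd : BddBelow B := ⟨0, fun s hs => hs.1.1⟩
  have hmin := hBcl.csInf_mem hBne hBbd
  set m := sInf B with hm
  have hm0 : 0 < m := by
    refine lt_of_le_of_ne hmin.1.1 ?_
    rintro h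
    apply hmin.2
    rw [← h]
    exact h0
  obtain ⟨y, hy⟩ := hvis m hmin.1
  have hlt : ∀ s, 0 ≤ s → s < m → Ex dev x (φ s) (c s) := by
    intro s h1 h2
    by_contra h3
    exact absurd (csInf_le hBbd (show s ∈ B from ⟨⟨h1, h2.le.trans hmin.1.2⟩, h3⟩)) (not_le.2 h2)
  have hfr : ∃ᶠ s in 𝓝[Icc 0 b] m, Ex dev x (φ s) (c s) := by
    have h1 : ∃ᶠ s in 𝓝[Ioo 0 m] m, Ex dev x (φ s) (c s) := by
      have hne : (𝓝[Ioo 0 m] m).NeBot := by
        rw [← mem_closure_iff_nhdsWithin_neBot, closure_Ioo hm0.ne]
        exact right_mem_Icc.2 hm0.le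
      refine Eventually.frequently ?_
      filter_upwards [self_mem_nhdsWithin] with s hs
      exact hlt s hs.1.le hs.2
    refine h1.filter_mono (nhdsWithin_mono _ fun s hs => ⟨hs.1.le, hs.2.le.trans hmin.1.2⟩)
  have := Ex.lim hloc (hc m hmin.1) (hφc m hmin.1) hfr hy
  apply hmin.2
  rw [← this]
  exact hy

end

end Run7.h675
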