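import Pool.Agent.Run7.h675.Tri

/-!
Uniform charts; incomplete geodesics leave all compact sets; the triangle lemma.
-/

set_option autoImplicit false

open Set Filter Topology Metric
open Pool.Agent.W689.Mk

namespace Run7.h675

section
variable {X Γ E : Type} [TopologicalSpace X] [T2Space X] [Group Γ] [MulAction Γ X]
  [NormedAddCommGroup E] [NormedSpace ℝ E] [FiniteDimensional ℝ E]
  {dev : X → E} {hol : Γ →* (E ≃ᵃ[ℝ] E)}

/-- a uniform chart at `x`, given by `γ`: the section over the ellipsoid `dev x + L(γ) B(0, r)`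
takes its values in `γ K` -/
def UC (dev : X → E) (hol : Γ →* (E ≃ᵃ[ℝ] E)) (K : Set X) (r : ℝ) (x : X) (γ : Γ) (τ : E → X) :
    Prop :=
  Sec dev {q | ‖lin hol γ⁻¹ (q - dev x)‖ < r} τ ∧ τ (dev x) = x ∧
    ∀ q, ‖lin hol γ⁻¹ (q - dev x)‖ < r → ∃ k ∈ K, γ • k = τ q

theorem exists_uc [Nonempty X] (D : AffData X Γ E dev hol) : ∃ (K : Set X) (r : ℝ), IsCompact K ∧
    0 < r ∧ ∀ x, ∃ (γ : Γ) (τ : E → X), UC dev hol K r x γ τ := by
  have : ProperSpace E := FiniteDimensional.proper_real E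
  obtain ⟨K, hK, hKc⟩ := D.cc
  have hex : ∀ x : X, ∃ (σ : E → X) (r : ℝ), 0 < r ∧ Sec dev (ball (dev x) (4 * r)) σ ∧
      σ (dev x) = x := by
    intro x
    obtain ⟨e, r0, hx, he, hr0, hrt⟩ := exists_sec D.loc x
    refine ⟨e.symm, r0 / 4, by positivity, ?_, ?_⟩
    · have : 4 * (r0 / 4) = r0 := by ring
      rw [this]
      exact sec_of_target e he _ _ hrt
    · rw [he]; exact e.left_inv hx
  choose σ rr hrr hsec hσ using hex
  have hNh : ∀ x ∈ K, σ x '' ball (dev x) (rr x) ∈ 𝓝 x := by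
    intro x _
    have ho := (hsec x).isOpen_image D.loc (V := ball (dev x) (rr x)) isOpen_ball
      (ball_subset_ball (by linarith [hrr x]))
    exact ho.mem_nhds ⟨dev x, mem_ball_self (hrr x), hσ x⟩
  obtain ⟨T, hTK, hT⟩ := hK.elim_nhds_subcover _ hNh
  have hTne : T.Nonempty := by
    obtain ⟨x0⟩ := ‹Nonempty X›
    obtain ⟨γ, k, hk, -⟩ := hKc x0
    obtain ⟨y, hy, -⟩ := mem_iUnion₂.1 (hT hk)
    exact ⟨y, hy⟩
  obtain ⟨r, hr, hrT⟩ : ∃ r : ℝ, 0 < r ∧ ∀ y ∈ T, r ≤ rr y := by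
    obtain ⟨y, hy, hmin⟩ := T.exists_min_image rr hTne
    exact ⟨rr y, hrr y, fun z hz => hmin z hz⟩
  refine ⟨⋃ z ∈ T, σ z '' closedBall (dev z) (2 * rr z), r, ?_, hr, ?_⟩
  · refine T.isCompact_biUnion fun z _ => (isCompact_closedBall _ _).image_of_continuousOn ?_
    exact (hsec z).cont.mono (closedBall_subset_ball (by linarith [hrr z]))
  · intro x
    obtain ⟨γ, k, hk, rfl⟩ := hKc x
    obtain ⟨y, hy, q, hq, hqk⟩ := mem_iUnion₂.1 (hT hk)
    have hin : ball q r ⊆ ball (dev y) (4 * rr y) := by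
      intro p hp
      rw [mem_ball] at hp hq ⊢
      have := dist_triangle p q (dev y)
      linarith [hrT y hy, hrr y]
    have hin2 : ball q r ⊆ closedBall (dev y) (2 * rr y) := by
      intro p hp
      rw [mem_ball] at hp hq
      rw [mem_closedBall]
      have := dist_triangle p q (dev y)
      linarith [hrT y hy, hrr y]
    have hq' : q ∈ ball q r := mem_ball_self hr
    have hdk : dev k = q := by rw [← hqk]; exact (hsec y).inv q (hin hq')
    have h1 := D.sec_smul γ ((hsec y).mono isOpen_ball (convex_ball q r) hin)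
    have hset : hol γ '' ball q r = {p | ‖lin hol γ⁻¹ (p - dev (γ • k))‖ < r} := by
      ext p
      constructor
      · rintro ⟨u, hu, rfl⟩
        show ‖lin hol γ⁻¹ (hol γ u - dev (γ • k))‖ < r
        rw [D.equi, hol_sub, lin_inv_apply, hdk]
        rwa [mem_ball, dist_eq_norm] at hu
      · intro hp
        refine ⟨hol γ⁻¹ p, ?_, hol_apply_inv γ p⟩
        have h2 : hol γ⁻¹ p - q = lin hol γ⁻¹ (p - dev (γ • k)) := by
          rw [← hol_sub, D.equi, hol_inv_apply, hdk]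
        rw [mem_ball, dist_eq_norm, h2]
        exact hp
    refine ⟨γ, fun p => γ • σ y (hol γ⁻¹ p), ?_, ?_, ?_⟩
    · rw [← hset]; exact h1
    · beta_reduce
      rw [D.equi, hol_inv_apply, hdk, hqk]
    · intro p hp
      have hp' : p ∈ hol γ '' ball q r := by rw [hset]; exact hp
      obtain ⟨u, hu, rfl⟩ := hp'
      refine ⟨σ y u, ?_, ?_⟩
      · exact mem_iUnion₂.2 ⟨y, hy, u, hin2 hu, rfl⟩
      · beta_reduce
        rw [hol_inv_apply]

/-- incomplete geodesics leave all compact sets -/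
theorem leave (D : AffData X Γ E dev hol) {K : Set X} (hK : IsCompact K) {x : X} {v : E}
    (hv : ¬ ∃ y, Ex dev x v y) {C : Set X} (hC : IsCompact C) :
    ∀ᶠ t in 𝓝[<] (1 : ℝ), ∀ y, Ex dev x (t • v) y → ∀ γ : Γ, (∃ k ∈ K, γ • k = y) →
      ∀ z ∈ C, ¬ ∃ k ∈ K, γ • k = z := by
  by_contra hcon
  rw [not_eventually] at hcon
  have hF := D.pd (K ∪ C) (hK.union hC)
  set F := {γ : Γ | ∃ x ∈ K ∪ C, γ • x ∈ K ∪ C} with hFdef
  have hC2 : IsCompact (⋃ γ ∈ F, (fun z : X => γ • z) '' K) :=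
    hF.isCompact_biUnion fun γ _ => hK.image (D.cont γ)
  set C2 := ⋃ γ ∈ F, (fun z : X => γ • z) '' K with hC2def
  have h1 : ∃ᶠ t in 𝓝[<] (1 : ℝ), ∃ y, Ex dev x (t • v) y ∧ y ∈ C2 := by
    refine hcon.mono fun t ht => ?_
    push Not at ht
    obtain ⟨y, hy, γ, ⟨k, hk, hky⟩, z, hz, k', hk', hkz⟩ := ht
    refine ⟨y, hy, mem_iUnion₂.2 ⟨γ, ?_, k, hk, hky⟩⟩
    exact ⟨k', Or.inl hk', by rw [hkz]; exact Or.inr hz⟩
  classical
  let y : ℝ → X := fun t => if h : ∃ y, Ex dev x (t • v) y ∧ y ∈ C2 then h.choose else x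
  have hy : ∀ t, (∃ y, Ex dev x (t • v) y ∧ y ∈ C2) → Ex dev x (t • v) (y t) ∧ y t ∈ C2 := by
    intro t ht
    have : y t = ht.choose := dif_pos ht
    rw [this]
    exact ht.choose_spec
  have h2 : ∃ᶠ t in 𝓝[<] (1 : ℝ), Ex dev x (t • v) (y t) ∧ y t ∈ C2 := h1.mono hy
  let l : Filter ℝ := 𝓝[<] (1 : ℝ) ⊓ 𝓟 {t | Ex dev x (t • v) (y t) ∧ y t ∈ C2}
  have : l.NeBot := frequently_mem_iff_neBot.1 h2
  have hl : ∀ᶠ t in l, Ex dev x (t • v) (y t) ∧ y t ∈ C2 :=
    mem_inf_of_right (mem_principal_self _)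
  have hl1 : l ≤ 𝓝 (1 : ℝ) := inf_le_left.trans nhdsWithin_le_nhds
  have hl2 : ∀ᶠ t in l, t < 1 := mem_inf_of_left self_mem_nhdsWithin
  obtain ⟨z, -, hzc⟩ := hC2.exists_mapClusterPt (f := l) (u := y)
    (le_principal_iff.2 (hl.mono fun t ht => ht.2))
  -- a section near `z`
  obtain ⟨e, ρ, hze, he, hρ, hρt⟩ := exists_sec D.loc z
  have hτ := sec_of_target e he (dev z) ρ hρt
  have hτz : e.symm (dev z) = z := by rw [he]; exact e.left_inv hze
  have hdz : dev z = dev x + v := by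
    by_contra hne
    have hpos : 0 < dist (dev z) (dev x + v) / 2 := by
      have := dist_pos.2 hne
      linarith
    set ε := dist (dev z) (dev x + v) / 2 with hε
    have f1 : ∃ᶠ t in l, y t ∈ dev ⁻¹' ball (dev z) ε :=
      hzc.frequently (D.loc.continuous.continuousAt (ball_mem_nhds _ hpos))
    have f2 : ∀ᶠ t in l, dev x + t • v ∈ ball (dev x + v) ε := by
      have h3 : Tendsto (fun t : ℝ => dev x + t • v) l (𝓝 (dev x + (1 : ℝ) • v)) := by
        have h4 : Continuous fun t : ℝ => dev x + t • v := by fun_prop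
        exact (h4.tendsto 1).mono_left hl1
      rw [one_smul] at h3
      exact h3 (ball_mem_nhds _ hpos)
    obtain ⟨t, k1, k2, k3⟩ := (f1.and_eventually (f2.and hl)).exists
    have k4 := k3.1.dev_eq
    have k1' : dev (y t) ∈ ball (dev z) ε := k1
    rw [k4, mem_ball] at k1'
    rw [mem_ball] at k2
    have := dist_triangle_left (dev z) (dev x + v) (dev x + t • v)
    linarith
  have f1 : ∃ᶠ t in l, y t ∈ e.symm '' ball (dev z) ρ :=
    hzc.frequently ((hτ.isOpen_image D.loc isOpen_ball Subset.rfl).mem_nhds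
      ⟨dev z, mem_ball_self hρ, hτz⟩)
  obtain ⟨t, ⟨q, hq, hqy⟩, k2, k3⟩ := (f1.and_eventually (hl2.and hl)).exists
  have hdq : dev (y t) = q := by rw [← hqy]; exact hτ.inv q hq
  have h4 := hτ.Ex (v := (1 - t) • v) hq (by
    have : q + (1 - t) • v = dev z := by
      rw [← hdq, k3.1.dev_eq, hdz]
      module
    rw [this]
    exact mem_ball_self hρ)
  rw [hqy] at h4
  have h5 := Ex.coll D.loc k3.1 h4
  have h6 : (t + (1 - t)) • v = v := by
    have : t + (1 - t) = 1 := by ring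
    rw [this, one_smul]
  rw [h6] at h5
  exact hv ⟨_, h5⟩

end

end Run7.h675
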