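import Pool.Agent.Run7.h675.Tri2
import Pool.Agent.Run7.h675.Solv
import Pool.Agent.Run7.h675.Area

/-!
The triangle lemma for an invariant plane with area preserving linear holonomy.
-/

set_option autoImplicit false
set_option linter.unusedSectionVars false

open Set Filter Topology Metric
open Pool.Agent.W689.Mk

namespace Run7.h675

section area
variable {E : Type} [NormedAddCommGroup E] [NormedSpace ℝ E]

/-- an area form on the plane `W` -/
structure AreaF (W : Submodule ℝ E) (ω : E → E → ℝ) : Prop where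
  self : ∀ a, ω a a = 0
  anti : ∀ a b, ω a b = - ω b a
  add : ∀ a b c, ω a (b + c) = ω a b + ω a c
  smul : ∀ a b (t : ℝ), ω a (t • b) = t * ω a b
  cyc : ∀ a ∈ W, ∀ b ∈ W, ∀ c ∈ W, ω a b • c + ω b c • a + ω c a • b = 0

variable {W : Submodule ℝ E} {ω : E → E → ℝ}

theorem AreaF.sub (A : AreaF W ω) (a b c : E) : ω a (b - c) = ω a b - ω a c := by
  have h1 := A.add a b (-c)
  have h2 := A.smul a c (-1)
  rw [neg_one_smul] at h2
  rw [← sub_eq_add_neg] at h1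
  rw [h1, h2]
  ring

theorem AreaF.smul_left (A : AreaF W ω) (a b : E) (t : ℝ) : ω (t • a) b = t * ω a b := by
  rw [A.anti, A.smul, A.anti b a]
  ring

/-- long and thin images of the unit ball under area preserving maps -/
theorem AreaF.chord (A : AreaF W ω) {T : E →ₗ[ℝ] E} (hT : ∀ a ∈ W, T a ∈ W)
    (hTω : ∀ a ∈ W, ∀ b ∈ W, |ω (T a) (T b)| = |ω a b|) {v w : E} (hv : v ∈ W) (hw : w ∈ W)
    (hvw : ω v w ≠ 0) (hp : T v ≠ 0) : ∃ μ : ℝ, ‖T (w - μ • v)‖ * ‖T v‖ ≤ 2 * (‖v‖ * ‖w‖) := by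
  obtain ⟨χ, hχ1, hχ2⟩ := exists_dual_vector ℝ (T v) (norm_ne_zero_iff.2 hp)
  have hχp : χ (T v) = ‖T v‖ := by simpa using hχ2
  have hp0 : 0 < ‖T v‖ := norm_pos_iff.2 hp
  refine ⟨χ (T w) / ‖T v‖, ?_⟩
  set μ := χ (T w) / ‖T v‖ with hμ
  set q := T (w - μ • v) with hq
  have hwv : w - μ • v ∈ W := W.sub_mem hw (W.smul_mem _ hv)
  have hqW : q ∈ W := hT _ hwv
  have hpW : T v ∈ W := hT _ hv
  have hχq : χ q = 0 := by
    rw [hq, map_sub, map_smul, map_sub, map_smul, hχp, hμ, smul_eq_mul,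
      div_mul_cancel₀ _ hp0.ne', sub_self]
  have hpq : |ω (T v) q| = |ω v w| := by
    rw [hq, hTω v hv _ hwv, A.sub, A.smul, A.self, mul_zero, sub_zero]
  have key : ∀ u ∈ W, |ω q u| * ‖T v‖ ≤ |ω v w| * ‖u‖ := by
    intro u hu
    have h1 := congrArg χ (A.cyc _ hpW _ hqW _ hu)
    rw [map_add, map_add, map_smul, map_smul, map_smul, map_zero, hχp, hχq, smul_eq_mul,
      smul_eq_mul, smul_eq_mul, mul_zero, add_zero] at h1
    have h2 : ω q u * ‖T v‖ = -(ω (T v) q * χ u) := by linarith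
    have h3 : |ω q u| * ‖T v‖ = |ω v w| * |χ u| := by
      rw [← hpq, ← abs_mul, ← abs_norm (T v), ← abs_mul, h2, abs_neg]
    rw [h3]
    have h4 := χ.le_opNorm u
    rw [hχ1, one_mul, Real.norm_eq_abs] at h4
    exact mul_le_mul_of_nonneg_left h4 (abs_nonneg _)
  have h1 := A.cyc v hv w hw q hqW
  have h2 : ω v w • q = -(ω w q • v) - ω q v • w := by
    have h3 : ω v w • q = (ω v w • q + ω w q • v + ω q v • w) - ω w q • v - ω q v • w := by abel
    rw [h3, h1]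
    abel
  have h3 : |ω v w| * ‖q‖ ≤ |ω q w| * ‖v‖ + |ω q v| * ‖w‖ := by
    have h4 := congrArg norm h2
    rw [norm_smul, Real.norm_eq_abs] at h4
    rw [h4]
    refine (norm_sub_le _ _).trans ?_
    rw [norm_neg, norm_smul, norm_smul, Real.norm_eq_abs, Real.norm_eq_abs, A.anti w q, abs_neg]
  have h4 := key w hw
  have h5 := key v hv
  have hpos : 0 < |ω v w| := abs_pos.2 hvw
  have h6 : |ω v w| * (‖q‖ * ‖T v‖) ≤ |ω v w| * (2 * (‖v‖ * ‖w‖)) := by
    calc |ω v w| * (‖q‖ * ‖T v‖) = (|ω v w| * ‖q‖) * ‖T v‖ := by ring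
      _ ≤ (|ω q w| * ‖v‖ + |ω q v| * ‖w‖) * ‖T v‖ := by gcongr
      _ = (|ω q w| * ‖T v‖) * ‖v‖ + (|ω q v| * ‖T v‖) * ‖w‖ := by ring
      _ ≤ (|ω v w| * ‖w‖) * ‖v‖ + (|ω v w| * ‖v‖) * ‖w‖ := by gcongr
      _ = _ := by ring
  exact le_of_mul_le_mul_left h6 hpos

/-- existence of area forms -/
theorem exists_areaF [FiniteDimensional ℝ E] (hr : Module.finrank ℝ W = 2) :
    ∃ l l' : E →L[ℝ] ℝ, AreaF W (fun a b => l a * l' b - l b * l' a) ∧
      ∃ a ∈ W, ∃ b ∈ W, l a * l' b - l b * l' a ≠ 0 := by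
  let e : Module.Basis (Fin 2) ℝ W := Module.finBasisOfFinrankEq ℝ W hr
  obtain ⟨g, hg⟩ := LinearMap.exists_extend (e.coord 0)
  obtain ⟨g', hg'⟩ := LinearMap.exists_extend (e.coord 1)
  have h0 : ∀ a (ha : a ∈ W), g a = e.repr ⟨a, ha⟩ 0 := by
    intro a ha
    exact congrArg (fun φ : W →ₗ[ℝ] ℝ => φ ⟨a, ha⟩) hg
  have h1 : ∀ a (ha : a ∈ W), g' a = e.repr ⟨a, ha⟩ 1 := by
    intro a ha
    exact congrArg (fun φ : W →ₗ[ℝ] ℝ => φ ⟨a, ha⟩) hg'
  have hsum : ∀ a ∈ W, a = g a • (e 0 : E) + g' a • (e 1 : E) := by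
    intro a ha
    have h2 := e.sum_repr ⟨a, ha⟩
    rw [Fin.sum_univ_two] at h2
    have h3 := congrArg Subtype.val h2
    rw [h0 a ha, h1 a ha]
    simpa using h3.symm
  refine ⟨LinearMap.toContinuousLinearMap g, LinearMap.toContinuousLinearMap g', ?_, ?_⟩
  · refine ⟨fun a => by ring, fun a b => by ring, ?_, ?_, ?_⟩
    · intro a b c
      rw [map_add, map_add]
      ring
    · intro a b t
      rw [map_smul, map_smul, smul_eq_mul, smul_eq_mul]
      ring
    · intro a ha b hb c hc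
      show (g a * g' b - g b * g' a) • c + (g b * g' c - g c * g' b) • a +
        (g c * g' a - g a * g' c) • b = 0
      have ea := hsum a ha
      have eb := hsum b hb
      have ec := hsum c hc
      generalize g a = a0 at *
      generalize g b = b0 at *
      generalize g c = c0 at *
      generalize g' a = a1 at *
      generalize g' b = b1 at *
      generalize g' c = c1 at *
      rw [ea, eb, ec]
      module
  · refine ⟨e 0, (e 0).2, e 1, (e 1).2, ?_⟩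
    show g (e 0) * g' (e 1) - g (e 1) * g' (e 0) ≠ 0
    rw [h0 _ (e 0).2, h1 _ (e 1).2, h0 _ (e 1).2, h1 _ (e 0).2]
    have s0 : (⟨(e 0 : E), (e 0).2⟩ : W) = e 0 := rfl
    have s1 : (⟨(e 1 : E), (e 1).2⟩ : W) = e 1 := rfl
    rw [s0, s1, e.repr_self, e.repr_self]
    simp

end area

section
variable {X Γ E : Type} [TopologicalSpace X] [T2Space X] [Group Γ] [MulAction Γ X]
  [NormedAddCommGroup E] [NormedSpace ℝ E] [FiniteDimensional ℝ E]
  {dev : X → E} {hol : Γ →* (E ≃ᵃ[ℝ] E)}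

theorem Ex.rfl' (hloc : IsLocalHomeomorph dev) (x : X) : Ex dev x 0 x := by
  obtain ⟨e, r, hxe, he, hr, hrt⟩ := exists_sec hloc x
  have hτ := sec_of_target e he (dev x) r hrt
  refine ⟨ball (dev x) r, e.symm, hτ, mem_ball_self hr, ?_, ?_, ?_⟩
  · rw [he]; exact e.left_inv hxe
  · rw [add_zero]; exact mem_ball_self hr
  · rw [add_zero, he]; exact e.left_inv hxe

theorem Ex.shrink' {x : X} {v : E} {y : X} (h : Ex dev x v y) {t : ℝ} (h0 : 0 ≤ t) (h1 : t ≤ 1) :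
    ∃ z, Ex dev x (t • v) z := by
  obtain ⟨U, σ, hs, hx, hσx, hy, hσy⟩ := h
  have hm : dev x + t • v ∈ U := by
    have := hs.convex hx hy (a := 1 - t) (b := t) (by linarith) h0 (by ring)
    convert this using 1
    module
  exact ⟨σ (dev x + t • v), U, σ, hs, hx, hσx, hm, rfl⟩

/-- the first exit time of an incomplete geodesic -/
theorem exists_exit_time (hloc : IsLocalHomeomorph dev) {x : X} {u : E}
    (hu : ¬ ∃ y, Ex dev x u y) : ∃ τ : ℝ, 0 < τ ∧ τ ≤ 1 ∧ (¬ ∃ y, Ex dev x (τ • u) y) ∧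
      ∀ t : ℝ, 0 ≤ t → t < 1 → ∃ y, Ex dev x (t • τ • u) y := by
  let B : Set ℝ := {τ ∈ Icc (0 : ℝ) 1 | ¬ ∃ y, Ex dev x (τ • u) y}
  have hB1 : (1 : ℝ) ∈ B := ⟨⟨zero_le_one, le_rfl⟩, by rwa [one_smul]⟩
  have hBcl : IsClosed B := by
    rw [← isOpen_compl_iff, isOpen_iff_mem_nhds]
    intro s hs
    by_cases hsI : s ∈ Icc (0 : ℝ) 1
    · have hP : ∃ y, Ex dev x (s • u) y := by
        by_contra h
        exact hs ⟨hsI, h⟩
      obtain ⟨y, U, σ, h1, h2, h3, h4, h5⟩ := hP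
      have hcont : Continuous fun s : ℝ => dev x + s • u := by fun_prop
      filter_upwards [hcont.continuousAt (h1.isOpen.mem_nhds h4)] with s' hs' hB
      exact hB.2 ⟨_, U, σ, h1, h2, h3, hs', rfl⟩
    · have h1 : (Icc (0 : ℝ) 1)ᶜ ∈ 𝓝 s := isClosed_Icc.isOpen_compl.mem_nhds hsI
      filter_upwards [h1] with s' hs' hB
      exact hs' hB.1
  have hBbd : BddBelow B := ⟨0, fun s hs => hs.1.1⟩
  have hmin := hBcl.csInf_mem ⟨1, hB1⟩ hBbd
  set m := sInf B with hm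
  have hm0 : 0 < m := by
    refine lt_of_le_of_ne hmin.1.1 ?_
    rintro h
    apply hmin.2
    rw [← h, zero_smul]
    exact ⟨x, Ex.rfl' hloc x⟩
  refine ⟨m, hm0, hmin.1.2, hmin.2, fun t h0 h1 => ?_⟩
  by_contra h2
  have h3 : t * m ∈ B := ⟨⟨mul_nonneg h0 hm0.le, by nlinarith [hmin.1.2]⟩, by rwa [mul_smul]⟩
  have := csInf_le hBbd h3
  nlinarith

/-- the triangle lemma -/
theorem triangle [Nonempty X] (D : AffData X Γ E dev hol) {W : Submodule ℝ E} {ω : E → E → ℝ}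
    (A : AreaF W ω) (hW : ∀ γ : Γ, ∀ a ∈ W, lin hol γ a ∈ W)
    (hω : ∀ γ : Γ, ∀ a ∈ W, ∀ b ∈ W, |ω (lin hol γ a) (lin hol γ b)| = |ω a b|) {x : X}
    {u0 u1 : E} (hu0 : u0 ∈ W) (hu1 : u1 ∈ W) (hne : ω u0 u1 ≠ 0) {c : ℝ → X}
    (hc : ContinuousOn c (Icc 0 1))
    (hcd : ∀ s ∈ Icc (0 : ℝ) 1, dev (c s) = dev x + (u0 + s • (u1 - u0)))
    (h0 : Ex dev x u0 (c 0)) : ∀ s ∈ Icc (0 : ℝ) 1, Ex dev x (u0 + s • (u1 - u0)) (c s) := by
  obtain ⟨K, r, hK, hr, huc⟩ := exists_uc D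
  by_contra hcon
  push Not at hcon
  obtain ⟨s1, hs1, hn1⟩ := hcon
  let φ : ℝ → E := fun s => u0 + s • (u1 - u0)
  have hφc : Continuous φ := by fun_prop
  -- the first failure
  let B : Set ℝ := {s ∈ Icc 0 1 | ¬ Ex dev x (φ s) (c s)}
  have hBne : B.Nonempty := ⟨s1, hs1, hn1⟩
  have hBcl : IsClosed B := by
    rw [← isOpen_compl_iff, isOpen_iff_mem_nhds]
    intro s hs
    by_cases hsI : s ∈ Icc (0 : ℝ) 1
    · have hP : Ex dev x (φ s) (c s) := by
        by_contra h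
        exact hs ⟨hsI, h⟩
      have h1 := Ex.near D.loc (hc s hsI) hcd hP
      rw [eventually_nhdsWithin_iff] at h1
      filter_upwards [h1] with s' hs' hB
      exact hB.2 (hs' hB.1)
    · have h1 : (Icc (0 : ℝ) 1)ᶜ ∈ 𝓝 s := isClosed_Icc.isOpen_compl.mem_nhds hsI
      filter_upwards [h1] with s' hs' hB
      exact hs' hB.1
  have hBbd : BddBelow B := ⟨0, fun s hs => hs.1.1⟩
  have hmin := hBcl.csInf_mem hBne hBbd
  set m := sInf B with hm
  have hφ0 : φ 0 = u0 := by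
    show u0 + (0 : ℝ) • (u1 - u0) = u0
    rw [zero_smul, add_zero]
  have hm0 : 0 < m := by
    refine lt_of_le_of_ne hmin.1.1 ?_
    rintro h
    apply hmin.2
    rw [← h, hφ0]
    exact h0
  have hlt : ∀ s, 0 ≤ s → s < m → Ex dev x (φ s) (c s) := by
    intro s h1 h2
    by_contra h3
    exact absurd (csInf_le hBbd (show s ∈ B from ⟨⟨h1, h2.le.trans hmin.1.2⟩, h3⟩)) (not_le.2 h2)
  have hfr : ∃ᶠ s in 𝓝[Icc 0 1] m, Ex dev x (φ s) (c s) := by
    have h1 : ∃ᶠ s in 𝓝[Ioo 0 m] m, Ex dev x (φ s) (c s) := by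
      have hne : (𝓝[Ioo 0 m] m).NeBot := by
        rw [← mem_closure_iff_nhdsWithin_neBot, closure_Ioo hm0.ne]
        exact right_mem_Icc.2 hm0.le
      refine Eventually.frequently ?_
      filter_upwards [self_mem_nhdsWithin] with s hs
      exact hlt s hs.1.le hs.2
    refine h1.filter_mono (nhdsWithin_mono _ fun s hs => ⟨hs.1.le, hs.2.le.trans hmin.1.2⟩)
  have hnv : ¬ ∃ y, Ex dev x (φ m) y := by
    rintro ⟨y, hy⟩
    have := Ex.lim D.loc (hc m hmin.1) hφc.continuousWithinAt hfr hy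
    apply hmin.2
    rw [← this]
    exact hy
  -- the exit
  obtain ⟨τ0, hτ0, hτ1, hvnv, hvv⟩ := exists_exit_time D.loc hnv
  set us := φ m with hus
  set v := τ0 • us with hv
  have husW : us ∈ W := W.add_mem hu0 (W.smul_mem _ (W.sub_mem hu1 hu0))
  have hvW : v ∈ W := W.smul_mem _ husW
  have hωus : ω us u0 ≠ 0 := by
    have h1 : ω u0 us = m * ω u0 u1 := by
      show ω u0 (u0 + m • (u1 - u0)) = m * ω u0 u1
      rw [A.add, A.smul, A.sub, A.self]
      ring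
    rw [A.anti, h1]
    exact neg_ne_zero.2 (mul_ne_zero hm0.ne' hne)
  have hωv : ω v u0 ≠ 0 := by
    rw [hv, A.smul_left]
    exact mul_ne_zero hτ0.ne' hωus
  -- the compact sides
  obtain ⟨U0, σ0, a1, a2, a3, a4, a5⟩ := h0
  have hside : ∀ κ ∈ Icc (0 : ℝ) 1, dev x + κ • u0 ∈ U0 := by
    intro κ hκ
    have := a1.convex a2 a4 (a := 1 - κ) (b := κ) (by linarith [hκ.2]) hκ.1 (by ring)
    convert this using 1
    module
  have hC : IsCompact ((fun κ : ℝ => σ0 (dev x + κ • u0)) '' Icc 0 1 ∪ c '' Icc 0 1) := by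
    refine IsCompact.union (isCompact_Icc.image_of_continuousOn ?_)
      (isCompact_Icc.image_of_continuousOn hc)
    refine a1.cont.comp (Continuous.continuousOn ?_) hside
    fun_prop
  have hlv := leave D hK hvnv hC
  have hsmall : ∀ᶠ t in 𝓝[<] (1 : ℝ), 2 * (‖v‖ * ‖u0‖) * (1 - t) < r * r := by
    have h1 : Tendsto (fun t : ℝ => 2 * (‖v‖ * ‖u0‖) * (1 - t)) (𝓝[<] 1)
        (𝓝 (2 * (‖v‖ * ‖u0‖) * (1 - 1))) := by
      have h2 : Continuous fun t : ℝ => 2 * (‖v‖ * ‖u0‖) * (1 - t) := by fun_prop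
      exact (h2.tendsto 1).mono_left nhdsWithin_le_nhds
    rw [sub_self, mul_zero] at h1
    exact h1.eventually_lt_const (by positivity)
  have hpos : ∀ᶠ t in 𝓝[<] (1 : ℝ), 0 < t := nhdsWithin_le_nhds (lt_mem_nhds one_pos)
  obtain ⟨t, hlt1, hlt2, hlt3, hlt4⟩ :=
    (hlv.and (hsmall.and (hpos.and self_mem_nhdsWithin))).exists
  have ht1 : t < 1 := hlt4
  obtain ⟨y, hy⟩ := hvv t hlt3.le ht1
  obtain ⟨γ, τ, hsec, hτy, hτK⟩ := huc y
  have hyK : ∃ k ∈ K, γ • k = y := by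
    have h1 := hτK (dev y) (by
      rw [sub_self]
      show ‖(hol γ⁻¹).linear 0‖ < r
      rw [map_zero, norm_zero]
      exact hr)
    rwa [hτy] at h1
  have hdisj := hlt1 y hy γ hyK
  -- the chord
  let T : E →ₗ[ℝ] E := ((hol γ⁻¹).linear : E →ₗ[ℝ] E)
  have hTl : ∀ a, T a = lin hol γ⁻¹ a := fun a => rfl
  have hyin : dev y ∈ {q | ‖lin hol γ⁻¹ (q - dev y)‖ < r} := by
    show ‖lin hol γ⁻¹ (dev y - dev y)‖ < r
    rw [sub_self]
    show ‖(hol γ⁻¹).linear 0‖ < r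
    rw [map_zero, norm_zero]
    exact hr
  have hTv1 : r ≤ ‖T ((1 - t) • v)‖ := by
    by_contra hcon
    push Not at hcon
    have h1 : dev y + (1 - t) • v ∈ {q | ‖lin hol γ⁻¹ (q - dev y)‖ < r} := by
      show ‖lin hol γ⁻¹ (dev y + (1 - t) • v - dev y)‖ < r
      rw [add_sub_cancel_left]
      exact hcon
    have h2 := hsec.Ex (v := (1 - t) • v) hyin h1
    rw [hτy] at h2
    have h3 := Ex.coll D.loc hy h2
    have h4 : (t + (1 - t)) • v = v := by
      have : t + (1 - t) = 1 := by ring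
      rw [this, one_smul]
    rw [h4] at h3
    exact hvnv ⟨_, h3⟩
  have hTv2 : r ≤ (1 - t) * ‖T v‖ := by
    rw [map_smul, norm_smul, Real.norm_eq_abs, abs_of_pos (by linarith)] at hTv1
    exact hTv1
  have hTv0 : T v ≠ 0 := by
    intro h
    rw [h, norm_zero, mul_zero] at hTv2
    linarith
  obtain ⟨μ, hμ⟩ := A.chord (T := T) (fun a ha => hW γ⁻¹ a ha) (fun a ha b hb => hω γ⁻¹ a ha b hb)
    hvW hu0 hωv hTv0
  have hq : ‖T (u0 - μ • v)‖ < r := by
    have h1 : ‖T (u0 - μ • v)‖ * r ≤ ‖T (u0 - μ • v)‖ * ((1 - t) * ‖T v‖) :=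
      mul_le_mul_of_nonneg_left hTv2 (norm_nonneg _)
    have h2 : ‖T (u0 - μ • v)‖ * ((1 - t) * ‖T v‖) ≤ 2 * (‖v‖ * ‖u0‖) * (1 - t) := by
      have h3 : 0 ≤ 1 - t := by linarith
      nlinarith
    have h3 : ‖T (u0 - μ • v)‖ * r < r * r := (h1.trans h2).trans_lt hlt2
    exact lt_of_mul_lt_mul_right h3 hr.le
  have hin : ∀ β ∈ Icc (0 : ℝ) 1, ‖lin hol γ⁻¹ (dev y + β • (u0 - μ • v) - dev y)‖ < r := by
    intro β hβ
    rw [add_sub_cancel_left, lin_smul', norm_smul, Real.norm_eq_abs, abs_of_nonneg hβ.1]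
    calc β * ‖lin hol γ⁻¹ (u0 - μ • v)‖ ≤ 1 * ‖lin hol γ⁻¹ (u0 - μ • v)‖ := by
          gcongr; exact hβ.2
      _ < r := by rw [one_mul]; exact hq
  let f : ℝ → X := fun β => τ (dev y + β • (u0 - μ • v))
  let ψ : ℝ → E := fun β => t • v + β • (u0 - μ • v)
  have hψc : Continuous ψ := by fun_prop
  have hfc : ContinuousOn f (Icc 0 1) := by
    refine hsec.cont.comp (Continuous.continuousOn ?_) hin
    fun_prop
  have hfd : ∀ β ∈ Icc (0 : ℝ) 1, dev (f β) = dev x + ψ β := by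
    intro β hβ
    show dev (τ (dev y + β • (u0 - μ • v))) = dev x + (t • v + β • (u0 - μ • v))
    rw [hsec.inv _ (hin β hβ), hy.dev_eq]
    abel
  let α : ℝ → ℝ := fun β => (t - β * μ) * τ0
  have hψα : ∀ β, ψ β = α β • us + β • u0 := by
    intro β
    show t • v + β • (u0 - μ • v) = ((t - β * μ) * τ0) • us + β • u0
    rw [hv]
    module
  have hαc : Continuous α := by fun_prop
  -- the first exit from the triangle
  let B' : Set ℝ := {β ∈ Icc 0 1 | min (α β) (1 - α β - β) ≤ 0}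
  have hB'cl : IsClosed B' := by
    have h1 : Continuous fun β : ℝ => min (α β) (1 - α β - β) := by fun_prop
    have h2 : IsClosed {β : ℝ | min (α β) (1 - α β - β) ≤ 0} := isClosed_le h1 continuous_const
    exact isClosed_Icc.inter h2
  have hB'1 : (1 : ℝ) ∈ B' := by
    refine ⟨⟨zero_le_one, le_rfl⟩, ?_⟩
    rcases le_total (α 1) 0 with h | h
    · exact (min_le_left _ _).trans h
    · refine (min_le_right _ _).trans ?_
      linarith
  have hB'bd : BddBelow B' := ⟨0, fun s hs => hs.1.1⟩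
  have hmin' := hB'cl.csInf_mem ⟨1, hB'1⟩ hB'bd
  set βe := sInf B' with hβe
  have hα0 : α 0 = t * τ0 := by
    show (t - 0 * μ) * τ0 = t * τ0
    ring
  have hα0pos : 0 < α 0 := by rw [hα0]; positivity
  have hα0lt : α 0 < 1 := by
    rw [hα0]
    nlinarith
  have hβ0 : 0 < βe := by
    refine lt_of_le_of_ne hmin'.1.1 ?_
    rintro h
    have h1 := hmin'.2
    rw [← h] at h1
    have h2 : 0 < min (α 0) (1 - α 0 - 0) := lt_min hα0pos (by linarith)
    linarith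
  have hbef : ∀ β, 0 ≤ β → β < βe → 0 < α β ∧ 0 < 1 - α β - β := by
    intro β h1 h2
    by_contra h3
    have h4 : min (α β) (1 - α β - β) ≤ 0 := by
      by_contra h5
      push Not at h5
      exact h3 ⟨h5.trans_le (min_le_left _ _), h5.trans_le (min_le_right _ _)⟩
    exact absurd (csInf_le hB'bd (show β ∈ B' from ⟨⟨h1, h2.le.trans hmin'.1.2⟩, h4⟩))
      (not_le.2 h2)
  have hend : 0 ≤ α βe ∧ 0 ≤ 1 - α βe - βe := by
    have hne : (𝓝[Ioo 0 βe] βe).NeBot := by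
      rw [← mem_closure_iff_nhdsWithin_neBot, closure_Ioo hβ0.ne]
      exact right_mem_Icc.2 hβ0.le
    constructor
    · refine ge_of_tendsto ((hαc.tendsto βe).mono_left (nhdsWithin_le_nhds (s := Ioo 0 βe))) ?_
      filter_upwards [self_mem_nhdsWithin] with β hβ
      exact (hbef β hβ.1.le hβ.2).1.le
    · have h1 : Continuous fun β => 1 - α β - β := by fun_prop
      refine ge_of_tendsto ((h1.tendsto βe).mono_left (nhdsWithin_le_nhds (s := Ioo 0 βe))) ?_
      filter_upwards [self_mem_nhdsWithin] with β hβ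
      exact (hbef β hβ.1.le hβ.2).2.le
  have hin3 : ∀ β ∈ Icc 0 βe, 0 ≤ α β ∧ 0 ≤ 1 - α β - β := by
    intro β hβ
    rcases eq_or_lt_of_le hβ.2 with h | h
    · rw [h]; exact hend
    · exact ⟨(hbef β hβ.1 h).1.le, (hbef β hβ.1 h).2.le⟩
  have hβ1 : βe ≤ 1 := hmin'.1.2
  -- points of the open triangle are visible
  have hray : ∀ β, 0 < β → 0 ≤ α β → 0 ≤ 1 - α β - β →
      ∃ s, 0 ≤ s ∧ s < m ∧ ψ β = (α β + β) • φ s := by
    intro β h1 h2 h3
    have h4 : 0 < α β + β := by linarith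
    refine ⟨α β / (α β + β) * m, by positivity, ?_, ?_⟩
    · have h5 : α β / (α β + β) < 1 := (div_lt_one h4).2 (by linarith)
      nlinarith
    · rw [hψα]
      show α β • (u0 + m • (u1 - u0)) + β • u0 =
        (α β + β) • (u0 + (α β / (α β + β) * m) • (u1 - u0))
      rw [smul_add (α β + β), smul_smul]
      have h5 : (α β + β) * (α β / (α β + β) * m) = α β * m := by field_simp
      rw [h5]
      module
  have hvis : ∀ β ∈ Icc 0 βe, ∃ z, Ex dev x (ψ β) z := by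
    intro β hβ
    rcases eq_or_lt_of_le hβ.1 with h | h
    · subst h
      have : ψ 0 = t • v := by
        show t • v + (0 : ℝ) • (u0 - μ • v) = t • v
        rw [zero_smul, add_zero]
      rw [this]
      exact ⟨y, hy⟩
    · obtain ⟨s, hs0, hsm, he⟩ := hray β h (hin3 β hβ).1 (hin3 β hβ).2
      rw [he]
      exact Ex.shrink' (hlt s hs0 hsm) (by linarith [(hin3 β hβ).1]) (by linarith [(hin3 β hβ).2])
  have hpath := Ex.path D.loc (b := βe) (c := f) (φ := ψ)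
    (hfc.mono (Icc_subset_Icc_right hβ1)) hψc.continuousOn
    (fun β hβ => hfd β ⟨hβ.1, hβ.2.trans hβ1⟩) hvis (by
      have h1 : ψ 0 = t • v := by
        show t • v + (0 : ℝ) • (u0 - μ • v) = t • v
        rw [zero_smul, add_zero]
      have h2 : f 0 = y := by
        show τ (dev y + (0 : ℝ) • (u0 - μ • v)) = y
        rw [zero_smul, add_zero, hτy]
      rw [h1, h2]
      exact hy) βe (right_mem_Icc.2 hβ0.le)
  have hfK : ∃ k ∈ K, γ • k = f βe := hτK _ (hin βe ⟨hβ0.le, hβ1⟩)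
  have hcase : α βe = 0 ∨ 1 - α βe - βe = 0 := by
    by_contra hcon
    push Not at hcon
    have h1 : 0 < α βe := lt_of_le_of_ne hend.1 (Ne.symm hcon.1)
    have h2 : 0 < 1 - α βe - βe := lt_of_le_of_ne hend.2 (Ne.symm hcon.2)
    have h3 := hmin'.2
    have h4 := lt_min h1 h2
    linarith
  rcases hcase with h | h
  · -- exit through the side from `x` to `c 0`
    have h1 : ψ βe = βe • u0 := by rw [hψα, h, zero_smul, zero_add]
    rw [h1] at hpath
    have h2 : Ex dev x (βe • u0) (σ0 (dev x + βe • u0)) :=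
      ⟨U0, σ0, a1, a2, a3, hside βe ⟨hβ0.le, hβ1⟩, rfl⟩
    have h3 := hpath.unique D.loc h2
    exact hdisj (f βe) (Or.inl ⟨βe, ⟨hβ0.le, hβ1⟩, h3.symm⟩) hfK
  · -- exit through the far side
    obtain ⟨s, hs0, hsm, he⟩ := hray βe hβ0 hend.1 hend.2
    have h1 : α βe + βe = 1 := by linarith
    rw [h1, one_smul] at he
    rw [he] at hpath
    have h3 := hpath.unique D.loc (hlt s hs0 hsm)
    exact hdisj (f βe) (Or.inr ⟨s, ⟨hs0, hsm.le.trans hmin.1.2⟩, h3.symm⟩) hfK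

end

end Run7.h675
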