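import Pool.Agent.Run7.h675.Tri3

/-!
Linear holonomy of discompacity at most one on an invariant subspace: the triangle lemma.
-/

set_option autoImplicit false
set_option linter.unusedSectionVars false

open Set Filter Topology Metric
open Pool.Agent.W689.Mk

namespace Run7.h675

section
variable {X Γ E : Type} [TopologicalSpace X] [T2Space X] [Group Γ] [MulAction Γ X]
  [NormedAddCommGroup E] [NormedSpace ℝ E] [FiniteDimensional ℝ E]
  {dev : X → E} {hol : Γ →* (E ≃ᵃ[ℝ] E)}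

/-- discompacity at most one on `W`: every element of the linear holonomy is Lipschitz, with a
uniform constant, on some hyperplane of `W` -/
def Disc1 {Γ E : Type} [Group Γ] [NormedAddCommGroup E] [NormedSpace ℝ E]
    (hol : Γ →* (E ≃ᵃ[ℝ] E)) (W : Submodule ℝ E) : Prop :=
  ∃ C : ℝ, ∀ γ : Γ, ∃ l : E →L[ℝ] ℝ, ∀ v ∈ W, l v = 0 → ‖lin hol γ v‖ ≤ C * ‖v‖

/-- the triangle lemma for small triangles -/
theorem tri_small [Nonempty X] (D : AffData X Γ E dev hol) {W : Submodule ℝ E}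
    (hd : Disc1 hol W) : ∃ ρ0 : ℝ, 0 < ρ0 ∧ ∀ {x : X}
    {u0 u1 : E} (_ : u0 ∈ W) (_ : u1 ∈ W) (_ : ‖u0‖ < ρ0) (_ : ‖u1‖ < ρ0) {c : ℝ → X}
    (_ : ContinuousOn c (Icc 0 1))
    (_ : ∀ s ∈ Icc (0 : ℝ) 1, dev (c s) = dev x + (u0 + s • (u1 - u0)))
    (_ : Ex dev x u0 (c 0)), ∀ s ∈ Icc (0 : ℝ) 1, Ex dev x (u0 + s • (u1 - u0)) (c s) := by
  obtain ⟨K, r, hK, hr, huc⟩ := exists_uc D
  obtain ⟨C0, hC0⟩ := hd
  obtain ⟨C1, hC1, hC01⟩ : ∃ C1 : ℝ, 0 ≤ C1 ∧ C0 ≤ C1 := ⟨|C0|, abs_nonneg _, le_abs_self _⟩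
  have hdisc : ∀ γ : Γ, ∃ l : E →L[ℝ] ℝ, ∀ v ∈ W, l v = 0 → ‖lin hol γ v‖ ≤ C1 * ‖v‖ := by
    intro γ
    obtain ⟨l, hl⟩ := hC0 γ
    exact ⟨l, fun v hv h => (hl v hv h).trans (mul_le_mul_of_nonneg_right hC01 (norm_nonneg _))⟩
  refine ⟨r / (2 * (C1 + 1)), by positivity, ?_⟩
  intro x u0 u1 hu0 hu1 hn0 hn1 c hc hcd h0
  have hρ0 : ∀ a b : ℝ, a < r / (2 * (C1 + 1)) → b < r / (2 * (C1 + 1)) → C1 * (a + b) < r := by
    intro a b ha hb
    rw [lt_div_iff₀ (by positivity)] at ha hb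
    have h1 : (a + b) * (C1 + 1) < r := by nlinarith
    rcases le_or_gt 0 (a + b) with h | h
    · nlinarith
    · nlinarith
  by_contra hcon
  push Not at hcon
  obtain ⟨s1, hs1, hnx⟩ := hcon
  let φ : ℝ → E := fun s => u0 + s • (u1 - u0)
  have hφc : Continuous φ := by fun_prop
  -- the first failure
  let B : Set ℝ := {s ∈ Icc 0 1 | ¬ Ex dev x (φ s) (c s)}
  have hBne : B.Nonempty := ⟨s1, hs1, hnx⟩
  have hBcl : IsClosed B := by
    rw [← isOpen_compl_iff, isOpen_iff_mem_nhds]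
    intro s hs
    by_cases hsI : s ∈ Icc (0 : ℝ) 1
    · have hP : Ex dev x (φ s) (c s) := by
        by_contra h
        exact hs ⟨hsI, h⟩
      have h1 := Ex.near D.loc (hc s hsI) hcd hP
      rw [eventually_nhdsWithin_iff] at h1
      filter_upwards [h1] with s' hs' hB
      exact hB.2 (hs' hB.1)
    · have h1 : (Icc (0 : ℝ) 1)ᶜ ∈ 𝓝 s := isClosed_Icc.isOpen_compl.mem_nhds hsI
      filter_upwards [h1] with s' hs' hB
      exact hs' hB.1
  have hBbd : BddBelow B := ⟨0, fun s hs => hs.1.1⟩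
  have hmin := hBcl.csInf_mem hBne hBbd
  set m := sInf B with hm
  have hφ0 : φ 0 = u0 := by
    show u0 + (0 : ℝ) • (u1 - u0) = u0
    rw [zero_smul, add_zero]
  have hm0 : 0 < m := by
    refine lt_of_le_of_ne hmin.1.1 ?_
    rintro h
    apply hmin.2
    rw [← h, hφ0]
    exact h0
  have hlt : ∀ s, 0 ≤ s → s < m → Ex dev x (φ s) (c s) := by
    intro s h1 h2
    by_contra h3
    exact absurd (csInf_le hBbd (show s ∈ B from ⟨⟨h1, h2.le.trans hmin.1.2⟩, h3⟩)) (not_le.2 h2)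
  have hfr : ∃ᶠ s in 𝓝[Icc 0 1] m, Ex dev x (φ s) (c s) := by
    have h1 : ∃ᶠ s in 𝓝[Ioo 0 m] m, Ex dev x (φ s) (c s) := by
      have hne : (𝓝[Ioo 0 m] m).NeBot := by
        rw [← mem_closure_iff_nhdsWithin_neBot, closure_Ioo hm0.ne]
        exact right_mem_Icc.2 hm0.le
      refine Eventually.frequently ?_
      filter_upwards [self_mem_nhdsWithin] with s hs
      exact hlt s hs.1.le hs.2
    refine h1.filter_mono (nhdsWithin_mono _ fun s hs => ⟨hs.1.le, hs.2.le.trans hmin.1.2⟩)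
  have hnv : ¬ ∃ y, Ex dev x (φ m) y := by
    rintro ⟨y, hy⟩
    have := Ex.lim D.loc (hc m hmin.1) hφc.continuousWithinAt hfr hy
    apply hmin.2
    rw [← this]
    exact hy
  -- the exit
  obtain ⟨τ0, hτ0, hτ1, hvnv, hvv⟩ := exists_exit_time D.loc hnv
  set us := φ m with hus
  set v := τ0 • us with hv
  have husW : us ∈ W := W.add_mem hu0 (W.smul_mem _ (W.sub_mem hu1 hu0))
  have hvW : v ∈ W := W.smul_mem _ husW
  have husn : ‖us‖ < r / (2 * (C1 + 1)) := by
    have e : us = (1 - m) • u0 + m • u1 := by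
      show u0 + m • (u1 - u0) = (1 - m) • u0 + m • u1
      module
    rw [e]
    refine (norm_add_le _ _).trans_lt ?_
    rw [norm_smul, norm_smul, Real.norm_eq_abs, Real.norm_eq_abs, abs_of_pos hm0,
      abs_of_nonneg (by linarith [hmin.1.2])]
    have hm1 := hmin.1.2
    have h1 : (1 - m) * ‖u0‖ ≤ (1 - m) * (r / (2 * (C1 + 1))) :=
      mul_le_mul_of_nonneg_left hn0.le (by linarith)
    have h2 : m * ‖u1‖ < m * (r / (2 * (C1 + 1))) := mul_lt_mul_of_pos_left hn1 hm0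
    linarith
  -- the compact sides
  obtain ⟨U0, σ0, a1, a2, a3, a4, a5⟩ := h0
  have hside : ∀ κ ∈ Icc (0 : ℝ) 1, dev x + κ • u0 ∈ U0 := by
    intro κ hκ
    have := a1.convex a2 a4 (a := 1 - κ) (b := κ) (by linarith [hκ.2]) hκ.1 (by ring)
    convert this using 1
    module
  have hC : IsCompact ((fun κ : ℝ => σ0 (dev x + κ • u0)) '' Icc 0 1 ∪ c '' Icc 0 1) := by
    refine IsCompact.union (isCompact_Icc.image_of_continuousOn ?_)
      (isCompact_Icc.image_of_continuousOn hc)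
    refine a1.cont.comp (Continuous.continuousOn ?_) hside
    fun_prop
  have hlv := leave D hK hvnv hC
  have hsmall : ∀ᶠ t in 𝓝[<] (1 : ℝ), C1 * ‖v‖ * (1 - t) < r := by
    have h1 : Tendsto (fun t : ℝ => C1 * ‖v‖ * (1 - t)) (𝓝[<] 1)
        (𝓝 (C1 * ‖v‖ * (1 - 1))) := by
      have h2 : Continuous fun t : ℝ => C1 * ‖v‖ * (1 - t) := by fun_prop
      exact (h2.tendsto 1).mono_left nhdsWithin_le_nhds
    rw [sub_self, mul_zero] at h1
    exact h1.eventually_lt_const hr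
  have hpos : ∀ᶠ t in 𝓝[<] (1 : ℝ), 0 < t := nhdsWithin_le_nhds (lt_mem_nhds one_pos)
  obtain ⟨t, hlt1, hlt2, hlt3, hlt4⟩ :=
    (hlv.and (hsmall.and (hpos.and self_mem_nhdsWithin))).exists
  have ht1 : t < 1 := hlt4
  obtain ⟨y, hy⟩ := hvv t hlt3.le ht1
  obtain ⟨γ, τ, hsec, hτy, hτK⟩ := huc y
  have hyK : ∃ k ∈ K, γ • k = y := by
    have h1 := hτK (dev y) (by
      rw [sub_self]
      show ‖(hol γ⁻¹).linear 0‖ < r
      rw [map_zero, norm_zero]
      exact hr)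
    rwa [hτy] at h1
  have hdisj := hlt1 y hy γ hyK
  -- the chord
  let T : E →ₗ[ℝ] E := ((hol γ⁻¹).linear : E →ₗ[ℝ] E)
  have hTl : ∀ a, T a = lin hol γ⁻¹ a := fun a => rfl
  have hyin : dev y ∈ {q | ‖lin hol γ⁻¹ (q - dev y)‖ < r} := by
    show ‖lin hol γ⁻¹ (dev y - dev y)‖ < r
    rw [sub_self]
    show ‖(hol γ⁻¹).linear 0‖ < r
    rw [map_zero, norm_zero]
    exact hr
  have hTv1 : r ≤ ‖T ((1 - t) • v)‖ := by
    by_contra hcon
    push Not at hcon
    have h1 : dev y + (1 - t) • v ∈ {q | ‖lin hol γ⁻¹ (q - dev y)‖ < r} := by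
      show ‖lin hol γ⁻¹ (dev y + (1 - t) • v - dev y)‖ < r
      rw [add_sub_cancel_left]
      exact hcon
    have h2 := hsec.Ex (v := (1 - t) • v) hyin h1
    rw [hτy] at h2
    have h3 := Ex.coll D.loc hy h2
    have h4 : (t + (1 - t)) • v = v := by
      have : t + (1 - t) = 1 := by ring
      rw [this, one_smul]
    rw [h4] at h3
    exact hvnv ⟨_, h3⟩
  have hTv2 : r ≤ (1 - t) * ‖T v‖ := by
    rw [map_smul, norm_smul, Real.norm_eq_abs, abs_of_pos (by linarith)] at hTv1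
    exact hTv1
  obtain ⟨l, hl⟩ := hdisc γ⁻¹
  have hlv : l v ≠ 0 := by
    intro h
    have h1 : ‖T v‖ ≤ C1 * ‖v‖ := hl v hvW h
    have h2 : (1 - t) * ‖T v‖ ≤ (1 - t) * (C1 * ‖v‖) :=
      mul_le_mul_of_nonneg_left h1 (by linarith)
    linarith
  set μ := l u0 / l v with hμ
  have hln : l (u0 - μ • v) = 0 := by
    rw [map_sub, map_smul, smul_eq_mul, hμ, div_mul_cancel₀ _ hlv, sub_self]
  let ψ : ℝ → E := fun β => t • v + β • (u0 - μ • v)
  have hψc : Continuous ψ := by fun_prop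
  let α : ℝ → ℝ := fun β => (t - β * μ) * τ0
  have hψα : ∀ β, ψ β = α β • us + β • u0 := by
    intro β
    show t • v + β • (u0 - μ • v) = ((t - β * μ) * τ0) • us + β • u0
    rw [hv]
    module
  have hαc : Continuous α := by fun_prop
  -- the first exit from the triangle
  let B' : Set ℝ := {β ∈ Icc 0 1 | min (α β) (1 - α β - β) ≤ 0}
  have hB'cl : IsClosed B' := by
    have h1 : Continuous fun β : ℝ => min (α β) (1 - α β - β) := by fun_prop
    have h2 : IsClosed {β : ℝ | min (α β) (1 - α β - β) ≤ 0} := isClosed_le h1 continuous_const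
    exact isClosed_Icc.inter h2
  have hB'1 : (1 : ℝ) ∈ B' := by
    refine ⟨⟨zero_le_one, le_rfl⟩, ?_⟩
    rcases le_total (α 1) 0 with h | h
    · exact (min_le_left _ _).trans h
    · refine (min_le_right _ _).trans ?_
      linarith
  have hB'bd : BddBelow B' := ⟨0, fun s hs => hs.1.1⟩
  have hmin' := hB'cl.csInf_mem ⟨1, hB'1⟩ hB'bd
  set βe := sInf B' with hβe
  have hα0 : α 0 = t * τ0 := by
    show (t - 0 * μ) * τ0 = t * τ0
    ring
  have hα0pos : 0 < α 0 := by rw [hα0]; positivity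
  have hα0lt : α 0 < 1 := by
    rw [hα0]
    nlinarith
  have hβ0 : 0 < βe := by
    refine lt_of_le_of_ne hmin'.1.1 ?_
    rintro h
    have h1 := hmin'.2
    rw [← h] at h1
    have h2 : 0 < min (α 0) (1 - α 0 - 0) := lt_min hα0pos (by linarith)
    linarith
  have hbef : ∀ β, 0 ≤ β → β < βe → 0 < α β ∧ 0 < 1 - α β - β := by
    intro β h1 h2
    by_contra h3
    have h4 : min (α β) (1 - α β - β) ≤ 0 := by
      by_contra h5
      push Not at h5
      exact h3 ⟨h5.trans_le (min_le_left _ _), h5.trans_le (min_le_right _ _)⟩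
    exact absurd (csInf_le hB'bd (show β ∈ B' from ⟨⟨h1, h2.le.trans hmin'.1.2⟩, h4⟩))
      (not_le.2 h2)
  have hend : 0 ≤ α βe ∧ 0 ≤ 1 - α βe - βe := by
    have hne : (𝓝[Ioo 0 βe] βe).NeBot := by
      rw [← mem_closure_iff_nhdsWithin_neBot, closure_Ioo hβ0.ne]
      exact right_mem_Icc.2 hβ0.le
    constructor
    · refine ge_of_tendsto ((hαc.tendsto βe).mono_left (nhdsWithin_le_nhds (s := Ioo 0 βe))) ?_
      filter_upwards [self_mem_nhdsWithin] with β hβ
      exact (hbef β hβ.1.le hβ.2).1.le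
    · have h1 : Continuous fun β => 1 - α β - β := by fun_prop
      refine ge_of_tendsto ((h1.tendsto βe).mono_left (nhdsWithin_le_nhds (s := Ioo 0 βe))) ?_
      filter_upwards [self_mem_nhdsWithin] with β hβ
      exact (hbef β hβ.1.le hβ.2).2.le
  have hin3 : ∀ β ∈ Icc 0 βe, 0 ≤ α β ∧ 0 ≤ 1 - α β - β := by
    intro β hβ
    rcases eq_or_lt_of_le hβ.2 with h | h
    · rw [h]; exact hend
    · exact ⟨(hbef β hβ.1 h).1.le, (hbef β hβ.1 h).2.le⟩
  have hβ1 : βe ≤ 1 := hmin'.1.2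
  have hin : ∀ β ∈ Icc (0 : ℝ) βe, ‖lin hol γ⁻¹ (dev y + β • (u0 - μ • v) - dev y)‖ < r := by
    intro β hβ
    rw [add_sub_cancel_left]
    have h1 : β • (u0 - μ • v) = (α β - α 0) • us + β • u0 := by
      have h2 : ψ β - ψ 0 = β • (u0 - μ • v) := by
        show (t • v + β • (u0 - μ • v)) - (t • v + (0 : ℝ) • (u0 - μ • v)) = _
        module
      rw [← h2, hψα, hψα]
      module
    have h2 : ‖β • (u0 - μ • v)‖ ≤ ‖us‖ + ‖u0‖ := by
      rw [h1]
      refine (norm_add_le _ _).trans ?_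
      rw [norm_smul, norm_smul, Real.norm_eq_abs, Real.norm_eq_abs, abs_of_nonneg hβ.1]
      have h3 := hin3 β hβ
      have h4 : |α β - α 0| ≤ 1 := by
        rw [abs_le]
        constructor <;> linarith [hβ.1]
      have h5 : β ≤ 1 := hβ.2.trans hβ1
      have h6 : |α β - α 0| * ‖us‖ ≤ 1 * ‖us‖ := mul_le_mul_of_nonneg_right h4 (norm_nonneg _)
      have h7 : β * ‖u0‖ ≤ 1 * ‖u0‖ := mul_le_mul_of_nonneg_right h5 (norm_nonneg _)
      linarith
    have h3 : ‖lin hol γ⁻¹ (β • (u0 - μ • v))‖ ≤ C1 * ‖β • (u0 - μ • v)‖ := by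
      refine hl _ (W.smul_mem _ (W.sub_mem hu0 (W.smul_mem _ hvW))) ?_
      rw [map_smul, hln, smul_zero]
    exact (h3.trans (mul_le_mul_of_nonneg_left h2 hC1)).trans_lt (hρ0 _ _ husn hn0)
  let f : ℝ → X := fun β => τ (dev y + β • (u0 - μ • v))
  have hfc : ContinuousOn f (Icc 0 βe) := by
    refine hsec.cont.comp (Continuous.continuousOn ?_) hin
    fun_prop
  have hfd : ∀ β ∈ Icc (0 : ℝ) βe, dev (f β) = dev x + ψ β := by
    intro β hβ
    show dev (τ (dev y + β • (u0 - μ • v))) = dev x + (t • v + β • (u0 - μ • v))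
    rw [hsec.inv _ (hin β hβ), hy.dev_eq]
    abel
  -- points of the open triangle are visible
  have hray : ∀ β, 0 < β → 0 ≤ α β → 0 ≤ 1 - α β - β →
      ∃ s, 0 ≤ s ∧ s < m ∧ ψ β = (α β + β) • φ s := by
    intro β h1 h2 h3
    have h4 : 0 < α β + β := by linarith
    refine ⟨α β / (α β + β) * m, by positivity, ?_, ?_⟩
    · have h5 : α β / (α β + β) < 1 := (div_lt_one h4).2 (by linarith)
      nlinarith
    · rw [hψα]
      show α β • (u0 + m • (u1 - u0)) + β • u0 =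
        (α β + β) • (u0 + (α β / (α β + β) * m) • (u1 - u0))
      rw [smul_add (α β + β), smul_smul]
      have h5 : (α β + β) * (α β / (α β + β) * m) = α β * m := by field_simp
      rw [h5]
      module
  have hvis : ∀ β ∈ Icc 0 βe, ∃ z, Ex dev x (ψ β) z := by
    intro β hβ
    rcases eq_or_lt_of_le hβ.1 with h | h
    · subst h
      have : ψ 0 = t • v := by
        show t • v + (0 : ℝ) • (u0 - μ • v) = t • v
        rw [zero_smul, add_zero]
      rw [this]
      exact ⟨y, hy⟩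
    · obtain ⟨s, hs0, hsm, he⟩ := hray β h (hin3 β hβ).1 (hin3 β hβ).2
      rw [he]
      exact Ex.shrink' (hlt s hs0 hsm) (by linarith [(hin3 β hβ).1]) (by linarith [(hin3 β hβ).2])
  have hpath := Ex.path D.loc (b := βe) (c := f) (φ := ψ)
    hfc hψc.continuousOn hfd hvis (by
      have h1 : ψ 0 = t • v := by
        show t • v + (0 : ℝ) • (u0 - μ • v) = t • v
        rw [zero_smul, add_zero]
      have h2 : f 0 = y := by
        show τ (dev y + (0 : ℝ) • (u0 - μ • v)) = y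
        rw [zero_smul, add_zero, hτy]
      rw [h1, h2]
      exact hy) βe (right_mem_Icc.2 hβ0.le)
  have hfK : ∃ k ∈ K, γ • k = f βe := hτK _ (hin βe (right_mem_Icc.2 hβ0.le))
  have hcase : α βe = 0 ∨ 1 - α βe - βe = 0 := by
    by_contra hcon
    push Not at hcon
    have h1 : 0 < α βe := lt_of_le_of_ne hend.1 (Ne.symm hcon.1)
    have h2 : 0 < 1 - α βe - βe := lt_of_le_of_ne hend.2 (Ne.symm hcon.2)
    have h3 := hmin'.2
    have h4 := lt_min h1 h2
    linarith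
  rcases hcase with h | h
  · -- exit through the side from `x` to `c 0`
    have h1 : ψ βe = βe • u0 := by rw [hψα, h, zero_smul, zero_add]
    rw [h1] at hpath
    have h2 : Ex dev x (βe • u0) (σ0 (dev x + βe • u0)) :=
      ⟨U0, σ0, a1, a2, a3, hside βe ⟨hβ0.le, hβ1⟩, rfl⟩
    have h3 := hpath.unique D.loc h2
    exact hdisj (f βe) (Or.inl ⟨βe, ⟨hβ0.le, hβ1⟩, h3.symm⟩) hfK
  · -- exit through the far side
    obtain ⟨s, hs0, hsm, he⟩ := hray βe hβ0 hend.1 hend.2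
    have h1 : α βe + βe = 1 := by linarith
    rw [h1, one_smul] at he
    rw [he] at hpath
    have h3 := hpath.unique D.loc (hlt s hs0 hsm)
    exact hdisj (f βe) (Or.inr ⟨s, ⟨hs0, hsm.le.trans hmin.1.2⟩, h3.symm⟩) hfK

end

end Run7.h675
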