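import Pool.Agent.Run7.h675.Tri4

/-!
Linear holonomy of discompacity at most one on an invariant subspace: visibility is transitive.
-/

set_option autoImplicit false
set_option linter.unusedSectionVars false

open Set Filter Topology Metric
open Pool.Agent.W689.Mk

namespace Run7.h675

section
variable {X E : Type} [TopologicalSpace X] [T2Space X]
  [NormedAddCommGroup E] [NormedSpace ℝ E] [FiniteDimensional ℝ E]
  {dev : X → E}

/-- visibility along short vectors of `W` is transitive -/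
def Hinge (dev : X → E) (W : Submodule ℝ E) (ρ : ℝ) : Prop :=
  ∀ (x y z : X) (u w : E), u ∈ W → w ∈ W → ‖u‖ < ρ → ‖w‖ < ρ → Ex dev x u y → Ex dev y w z →
    Ex dev x (u + w) z

theorem hinge_small {Γ : Type} [Group Γ] [MulAction Γ X] {hol : Γ →* (E ≃ᵃ[ℝ] E)} [Nonempty X]
    (D : AffData X Γ E dev hol) {W : Submodule ℝ E}
    (hd : Disc1 hol W) : ∃ ρ : ℝ, 0 < ρ ∧ Hinge dev W ρ := by
  obtain ⟨ρ, hρ, h⟩ := tri_small D hd
  refine ⟨ρ / 2, by positivity, ?_⟩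
  intro x y z u w hu hw hun hwn h1 h2
  have hy := h1.dev_eq
  have h2' := h2
  obtain ⟨U, σ, b1, b2, b3, b4, b5⟩ := h2
  have hmem : ∀ s ∈ Icc (0 : ℝ) 1, dev y + s • w ∈ U := by
    intro s hs
    have := b1.convex b2 b4 (a := 1 - s) (b := s) (by linarith [hs.2]) hs.1 (by ring)
    convert this using 1
    module
  have key := h (x := x) (u0 := u) (u1 := u + w) hu (W.add_mem hu hw) (by linarith)
    (by
      have := norm_add_le u w
      linarith) (c := fun s => σ (dev y + s • w))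
    (by
      refine b1.cont.comp (Continuous.continuousOn ?_) hmem
      fun_prop)
    (by
      intro s hs
      rw [b1.inv _ (hmem s hs), hy]
      module)
    (by
      rw [zero_smul, add_zero, b3]
      exact h1) 1 ⟨zero_le_one, le_rfl⟩
  beta_reduce at key
  rw [one_smul, one_smul, b5] at key
  have e : u + (u + w - u) = u + w := by abel
  rwa [e] at key

theorem Ex.diff (hloc : IsLocalHomeomorph dev) {x p q : X} {v : E} {s t : ℝ}
    (h1 : Ex dev x (s • v) p) (h2 : Ex dev x (t • v) q) : Ex dev p ((t - s) • v) q := by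
  have h3 := h1.symm
  rw [← neg_smul] at h3
  have h4 := Ex.coll hloc h3 h2
  have e : -s + t = t - s := by ring
  rwa [e] at h4

/-- two points visible from `x` in the same chart -/
theorem Sec.Ex' {U : Set E} {σ : E → X} (h : Sec dev U σ) {q q' : E} (hq : q ∈ U) (hq' : q' ∈ U) :
    Ex dev (σ q) (q' - q) (σ q') := by
  have := Pool.Agent.W689.Mk.Sec.Ex h (q := q) (v := q' - q) hq (by rwa [add_sub_cancel])
  rwa [add_sub_cancel] at this

/-- extension of a geodesic, if all geodesics on one side are longer -/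
theorem hinge_ext (hloc : IsLocalHomeomorph dev) {W : Submodule ℝ E} {ρ : ℝ}
    (hh : Hinge dev W ρ) {x a : X} {p u : E} (hp : p ∈ W) (hu : u ∈ W)
    (hvis : ∀ ζ : ℝ, 0 < ζ → ζ < 1 → ∃ b, Ex dev x ((1 - ζ) • p + ζ • u) b) {κ1 κ τ0 : ℝ}
    (h1 : 0 < κ1) (h2 : κ1 < τ0) (h3 : τ0 < κ) (h4 : κ ≤ 1) (ha : Ex dev x (κ1 • p) a)
    (hsm : (κ - κ1) * ‖p‖ < ρ) : ∃ z, Ex dev x (τ0 • p) z := by
  have hda := ha.dev_eq
  have ha' := ha
  obtain ⟨U, σ, a1, a2, a3, a4, a5⟩ := ha'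
  rw [← hda] at a4 a5
  have hρ : 0 < ρ := lt_of_le_of_lt (mul_nonneg (by linarith) (norm_nonneg _)) hsm
  let φ : ℝ → E := fun ζ => (1 - ζ) • p + ζ • u
  let g : ℝ → ℝ := fun ζ => (τ0 - κ1) * κ * ζ / (κ * (1 - ζ) - τ0)
  have hφc : Continuous φ := by fun_prop
  have hφ0 : φ 0 = p := by
    show (1 - (0 : ℝ)) • p + (0 : ℝ) • u = p
    module
  have hgc : ContinuousAt g 0 := by
    refine ContinuousAt.div (by fun_prop) (by fun_prop) ?_
    have : κ * (1 - 0) - τ0 = κ - τ0 := by ring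
    rw [this]
    linarith
  have hg0 : g 0 = 0 := by
    show (τ0 - κ1) * κ * 0 / (κ * (1 - 0) - τ0) = 0
    rw [mul_zero, zero_div]
  have hl : 𝓝[>] (0 : ℝ) ≤ 𝓝 0 := nhdsWithin_le_nhds
  -- the conditions on `ζ`
  have ev1 : ∀ᶠ ζ in 𝓝[>] (0 : ℝ), dev x + κ1 • φ ζ ∈ U := by
    refine hl ?_
    have hc : Continuous fun ζ : ℝ => dev x + κ1 • φ ζ := by fun_prop
    refine hc.continuousAt (a1.isOpen.mem_nhds ?_)
    rw [hφ0, ← hda]
    exact a4
  have ev2 : ∀ᶠ ζ in 𝓝[>] (0 : ℝ), dev a - g ζ • u ∈ U := by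
    refine hl ?_
    have hc : ContinuousAt (fun ζ : ℝ => dev a - g ζ • u) 0 := by fun_prop
    refine hc (a1.isOpen.mem_nhds ?_)
    show dev a - g 0 • u ∈ U
    rw [hg0, zero_smul, sub_zero]
    exact a4
  have nrm : ∀ f : ℝ → E, ContinuousAt f 0 → ‖f 0‖ < ρ → ∀ᶠ ζ in 𝓝[>] (0 : ℝ), ‖f ζ‖ < ρ := by
    intro f hf hf0
    exact hl (hf.norm.eventually_lt_const hf0)
  have ev3 : ∀ᶠ ζ in 𝓝[>] (0 : ℝ), ‖κ1 • (φ ζ - p)‖ < ρ := by
    refine nrm (fun ζ => κ1 • (φ ζ - p)) (by fun_prop) ?_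
    rw [hφ0, sub_self, smul_zero, norm_zero]
    exact hρ
  have ev4 : ∀ᶠ ζ in 𝓝[>] (0 : ℝ), ‖(κ - κ1) • φ ζ‖ < ρ := by
    refine nrm (fun ζ => (κ - κ1) • φ ζ) (by fun_prop) ?_
    rw [hφ0, norm_smul, Real.norm_eq_abs, abs_of_pos (by linarith)]
    exact hsm
  have ev5 : ∀ᶠ ζ in 𝓝[>] (0 : ℝ), ‖g ζ • u‖ < ρ := by
    refine nrm (fun ζ => g ζ • u) (by fun_prop) ?_
    rw [hg0, zero_smul, norm_zero]
    exact hρ
  have ev6 : ∀ᶠ ζ in 𝓝[>] (0 : ℝ), ‖κ • φ ζ - κ1 • p‖ < ρ := by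
    refine nrm (fun ζ => κ • φ ζ - κ1 • p) (by fun_prop) ?_
    rw [hφ0, ← sub_smul, norm_smul, Real.norm_eq_abs, abs_of_pos (by linarith)]
    exact hsm
  have ev7 : ∀ᶠ ζ in 𝓝[>] (0 : ℝ), ‖g ζ • u + (τ0 - κ1) • p‖ < ρ := by
    refine nrm (fun ζ => g ζ • u + (τ0 - κ1) • p) (by fun_prop) ?_
    rw [hg0, zero_smul, zero_add, norm_smul, Real.norm_eq_abs, abs_of_pos (by linarith)]
    refine lt_of_le_of_lt ?_ hsm
    exact mul_le_mul_of_nonneg_right (by linarith) (norm_nonneg _)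
  have ev8 : ∀ᶠ ζ in 𝓝[>] (0 : ℝ), τ0 < κ * (1 - ζ) := by
    refine hl ?_
    have hc : Continuous fun ζ : ℝ => κ * (1 - ζ) := by fun_prop
    refine (hc.tendsto 0).eventually_const_lt ?_
    rw [sub_zero, mul_one]
    exact h3
  have ev9 : ∀ᶠ ζ in 𝓝[>] (0 : ℝ), ζ < 1 := hl (gt_mem_nhds one_pos)
  obtain ⟨ζ, c1, c2, c3, c4, c5, c6, c7, c8, c9, c10⟩ :=
    (ev1.and (ev2.and (ev3.and (ev4.and (ev5.and (ev6.and (ev7.and (ev8.and
      (ev9.and self_mem_nhdsWithin))))))))).exists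
  have hζ : 0 < ζ := c10
  have hφW : φ ζ ∈ W := W.add_mem (W.smul_mem _ hp) (W.smul_mem _ hu)
  obtain ⟨b0, hb0⟩ := hvis ζ hζ c9
  obtain ⟨b, hb⟩ := Ex.shrink' hb0 (t := κ) (by linarith) h4
  -- `a` sees `b`
  have s1 : Ex dev a (κ1 • (φ ζ - p)) (σ (dev x + κ1 • φ ζ)) := by
    have := Sec.Ex' a1 a4 c1
    rw [a5] at this
    convert this using 1
    rw [hda]
    module
  have s2 : Ex dev x (κ1 • φ ζ) (σ (dev x + κ1 • φ ζ)) := ⟨U, σ, a1, a2, a3, c1, rfl⟩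
  have s3 : Ex dev (σ (dev x + κ1 • φ ζ)) ((κ - κ1) • φ ζ) b := Ex.diff hloc s2 hb
  have s4 := hh _ _ _ _ _ (W.smul_mem _ (W.sub_mem hφW hp)) (W.smul_mem _ hφW) c3 c4 s1 s3
  have e1 : κ1 • (φ ζ - p) + (κ - κ1) • φ ζ = κ • φ ζ - κ1 • p := by module
  rw [e1] at s4
  -- the point below `a`
  set a' := σ (dev a - g ζ • u) with ha'
  have s5 : Ex dev a' (g ζ • u) a := by
    have := Sec.Ex' a1 c2 a4
    rw [a5] at this
    convert this using 1
    abel
  have hκW : κ • φ ζ - κ1 • p ∈ W := W.sub_mem (W.smul_mem _ hφW) (W.smul_mem _ hp)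
  have s6 := hh _ _ _ _ _ (W.smul_mem _ hu) hκW c5 c6 s5 s4
  -- the point `z`
  have hden : 0 < κ * (1 - ζ) - τ0 := by linarith
  have hden2 : 0 < κ * (1 - ζ) - κ1 := by linarith
  obtain ⟨z, hz⟩ := Ex.shrink' s6 (t := (τ0 - κ1) / (κ * (1 - ζ) - κ1))
    (div_nonneg (by linarith) hden2.le) ((div_le_one hden2).2 (by linarith))
  have e2 : ((τ0 - κ1) / (κ * (1 - ζ) - κ1)) • (g ζ • u + (κ • φ ζ - κ1 • p)) =
      g ζ • u + (τ0 - κ1) • p := by
    have e3 : g ζ • u + (κ • φ ζ - κ1 • p) =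
        (κ * (1 - ζ) - κ1) • p + (g ζ + κ * ζ) • u := by
      show g ζ • u + (κ • ((1 - ζ) • p + ζ • u) - κ1 • p) = _
      module
    have e4 : (τ0 - κ1) / (κ * (1 - ζ) - κ1) * (κ * (1 - ζ) - κ1) = τ0 - κ1 := by
      field_simp
    have e5 : (τ0 - κ1) / (κ * (1 - ζ) - κ1) * (g ζ + κ * ζ) = g ζ := by
      show (τ0 - κ1) / (κ * (1 - ζ) - κ1) *
        ((τ0 - κ1) * κ * ζ / (κ * (1 - ζ) - τ0) + κ * ζ) =
          (τ0 - κ1) * κ * ζ / (κ * (1 - ζ) - τ0)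
      have hA := hden.ne'
      have hB := hden2.ne'
      field_simp
      ring
    rw [e3, smul_add, smul_smul, smul_smul, e4, e5]
    abel
  rw [e2] at hz
  have s7 : Ex dev a (-(g ζ • u)) a' := s5.symm
  have hzW : g ζ • u + (τ0 - κ1) • p ∈ W := W.add_mem (W.smul_mem _ hu) (W.smul_mem _ hp)
  have s8 := hh _ _ _ _ _ (W.neg_mem (W.smul_mem _ hu)) hzW (by rwa [norm_neg]) c7 s7 hz
  rw [neg_add_cancel_left] at s8
  have s9 := Ex.coll hloc ha s8
  have e6 : κ1 + (τ0 - κ1) = τ0 := by ring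
  rw [e6] at s9
  exact ⟨z, s9⟩

/-- the case where the geodesic has its full length -/
theorem hinge_end (hloc : IsLocalHomeomorph dev) {W : Submodule ℝ E} {ρ : ℝ} (hρ : 0 < ρ)
    (hh : Hinge dev W ρ) {x : X} {u w : E} (hu : u ∈ W) (hw : w ∈ W) {U' : Set E} {σ' : E → X}
    (b1 : Sec dev U' σ') {m : ℝ} (hm0 : 0 < m) (hU' : ∀ s ∈ Icc (0 : ℝ) m, dev x + (u + s • w) ∈ U')
    (hlt : ∀ s, 0 ≤ s → s < m → Ex dev x (u + s • w) (σ' (dev x + (u + s • w))))
    (hvv : ∀ t : ℝ, 0 ≤ t → t < 1 → ∃ y, Ex dev x (t • (u + m • w)) y) :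
    ∃ y, Ex dev x (u + m • w) y := by
  set p := u + m • w with hp
  have hpW : p ∈ W := W.add_mem hu (W.smul_mem _ hw)
  obtain ⟨t1, ht0, ht1, htn⟩ : ∃ t1 : ℝ, 0 ≤ t1 ∧ t1 < 1 ∧ (1 - t1) * ‖p‖ < ρ := by
    have ev : ∀ᶠ t in 𝓝[<] (1 : ℝ), (1 - t) * ‖p‖ < ρ := by
      have hc : Continuous fun t : ℝ => (1 - t) * ‖p‖ := by fun_prop
      refine nhdsWithin_le_nhds ((hc.tendsto 1).eventually_lt_const ?_)
      rw [sub_self, zero_mul]
      exact hρ
    have ev2 : ∀ᶠ t in 𝓝[<] (1 : ℝ), 0 < t := nhdsWithin_le_nhds (lt_mem_nhds one_pos)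
    obtain ⟨t, h1, h2, h3⟩ := (ev.and (ev2.and self_mem_nhdsWithin)).exists
    exact ⟨t, h2.le, h3, h1⟩
  obtain ⟨a, ha⟩ := hvv t1 ht0 ht1
  have hda := ha.dev_eq
  have ha' := ha
  obtain ⟨U, σ, a1, a2, a3, a4, a5⟩ := ha'
  rw [← hda] at a4 a5
  let φ : ℝ → E := fun s => u + s • w
  have hφc : Continuous φ := by fun_prop
  have hl : 𝓝[<] m ≤ 𝓝 m := nhdsWithin_le_nhds
  have ev1 : ∀ᶠ s in 𝓝[<] m, dev x + t1 • φ s ∈ U := by
    refine hl ?_
    have hc : Continuous fun s : ℝ => dev x + t1 • φ s := by fun_prop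
    refine hc.continuousAt (a1.isOpen.mem_nhds ?_)
    show dev x + t1 • p ∈ U
    rw [← hda]
    exact a4
  have nrm : ∀ f : ℝ → E, Continuous f → ‖f m‖ < ρ → ∀ᶠ s in 𝓝[<] m, ‖f s‖ < ρ := by
    intro f hf hf0
    exact hl ((hf.norm.tendsto m).eventually_lt_const hf0)
  have ev3 : ∀ᶠ s in 𝓝[<] m, ‖t1 • (φ s - p)‖ < ρ := by
    refine nrm (fun s => t1 • (φ s - p)) (by fun_prop) ?_
    show ‖t1 • (p - p)‖ < ρ
    rw [sub_self, smul_zero, norm_zero]
    exact hρ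
  have ev4 : ∀ᶠ s in 𝓝[<] m, ‖(1 - t1) • φ s‖ < ρ := by
    refine nrm (fun s => (1 - t1) • φ s) (by fun_prop) ?_
    show ‖(1 - t1) • p‖ < ρ
    rw [norm_smul, Real.norm_eq_abs, abs_of_pos (by linarith)]
    exact htn
  have ev5 : ∀ᶠ s in 𝓝[<] m, ‖φ s - t1 • p‖ < ρ := by
    refine nrm (fun s => φ s - t1 • p) (by fun_prop) ?_
    show ‖p - t1 • p‖ < ρ
    have e : p - t1 • p = (1 - t1) • p := by module
    rw [e, norm_smul, Real.norm_eq_abs, abs_of_pos (by linarith)]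
    exact htn
  have ev6 : ∀ᶠ s in 𝓝[<] m, ‖(m - s) • w‖ < ρ := by
    refine nrm (fun s => (m - s) • w) (by fun_prop) ?_
    rw [sub_self, zero_smul, norm_zero]
    exact hρ
  have ev7 : ∀ᶠ s in 𝓝[<] m, 0 < s := hl (lt_mem_nhds hm0)
  obtain ⟨s, c1, c3, c4, c5, c6, c7, c8⟩ :=
    (ev1.and (ev3.and (ev4.and (ev5.and (ev6.and (ev7.and self_mem_nhdsWithin)))))).exists
  have hsm : s < m := c8
  have hφW : φ s ∈ W := W.add_mem hu (W.smul_mem _ hw)
  have hb : Ex dev x (φ s) (σ' (dev x + φ s)) := hlt s c7.le hsm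
  have hb1 : Ex dev x ((1 : ℝ) • φ s) (σ' (dev x + φ s)) := by rwa [one_smul]
  have s1 : Ex dev a (t1 • (φ s - p)) (σ (dev x + t1 • φ s)) := by
    have := Sec.Ex' a1 a4 c1
    rw [a5] at this
    convert this using 1
    rw [hda]
    module
  have s2 : Ex dev x (t1 • φ s) (σ (dev x + t1 • φ s)) := ⟨U, σ, a1, a2, a3, c1, rfl⟩
  have s3 : Ex dev (σ (dev x + t1 • φ s)) ((1 - t1) • φ s) (σ' (dev x + φ s)) :=
    Ex.diff hloc s2 hb1
  have s4 := hh _ _ _ _ _ (W.smul_mem _ (W.sub_mem hφW hpW)) (W.smul_mem _ hφW) c3 c4 s1 s3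
  have e1 : t1 • (φ s - p) + (1 - t1) • φ s = φ s - t1 • p := by module
  rw [e1] at s4
  have s5 : Ex dev (σ' (dev x + φ s)) ((m - s) • w) (σ' (dev x + p)) := by
    have := Sec.Ex' b1 (hU' s ⟨c7.le, hsm.le⟩) (hU' m (right_mem_Icc.2 hm0.le))
    convert this using 1
    module
  have s6 := hh _ _ _ _ _ (W.sub_mem hφW (W.smul_mem _ hpW)) (W.smul_mem _ hw) c5 c6 s4 s5
  have e2 : φ s - t1 • p + (m - s) • w = (1 - t1) • p := by
    show u + s • w - t1 • p + (m - s) • w = (1 - t1) • p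
    have e3 : u = p - m • w := by rw [hp]; abel
    rw [e3]
    module
  rw [e2] at s6
  have s7 := Ex.coll hloc ha s6
  have e4 : (t1 + (1 - t1)) • p = p := by
    rw [add_sub_cancel, one_smul]
  rw [e4] at s7
  exact ⟨_, s7⟩

/-- visibility along `W` is transitive -/
theorem hinge_large (hloc : IsLocalHomeomorph dev) {W : Submodule ℝ E} {ρ : ℝ} (hρ : 0 < ρ)
    (hh : Hinge dev W ρ) {x y z : X} {u w : E} (hu : u ∈ W) (hw : w ∈ W) (h1 : Ex dev x u y)
    (h2 : Ex dev y w z) : Ex dev x (u + w) z := by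
  have hy := h1.dev_eq
  have h2' := h2
  obtain ⟨U', σ', b1, b2, b3, b4, b5⟩ := h2
  have hmem : ∀ s ∈ Icc (0 : ℝ) 1, dev x + (u + s • w) ∈ U' := by
    intro s hs
    have := b1.convex b2 b4 (a := 1 - s) (b := s) (by linarith [hs.2]) hs.1 (by ring)
    convert this using 1
    rw [hy]
    module
  let φ : ℝ → E := fun s => u + s • w
  let c : ℝ → X := fun s => σ' (dev x + φ s)
  have hφc : Continuous φ := by fun_prop
  have hc : ContinuousOn c (Icc 0 1) := by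
    refine b1.cont.comp (Continuous.continuousOn ?_) hmem
    fun_prop
  have hcd : ∀ s ∈ Icc (0 : ℝ) 1, dev (c s) = dev x + φ s := fun s hs => b1.inv _ (hmem s hs)
  have hφ0 : φ 0 = u := by
    show u + (0 : ℝ) • w = u
    rw [zero_smul, add_zero]
  have hφ1 : φ 1 = u + w := by
    show u + (1 : ℝ) • w = u + w
    rw [one_smul]
  have h0 : Ex dev x (φ 0) (c 0) := by
    show Ex dev x (φ 0) (σ' (dev x + φ 0))
    rw [hφ0, ← hy, b3]
    exact h1
  have hc1 : c 1 = z := by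
    show σ' (dev x + φ 1) = z
    rw [hφ1, ← b5, hy, add_assoc]
  suffices h : ∀ s ∈ Icc (0 : ℝ) 1, Ex dev x (φ s) (c s) by
    have := h 1 ⟨zero_le_one, le_rfl⟩
    rwa [hφ1, hc1] at this
  by_contra hcon
  push Not at hcon
  obtain ⟨s1, hs1, hnx⟩ := hcon
  let B : Set ℝ := {s ∈ Icc 0 1 | ¬ Ex dev x (φ s) (c s)}
  have hBne : B.Nonempty := ⟨s1, hs1, hnx⟩
  have hBcl : IsClosed B := by
    rw [← isOpen_compl_iff, isOpen_iff_mem_nhds]
    intro s hs
    by_cases hsI : s ∈ Icc (0 : ℝ) 1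
    · have hP : Ex dev x (φ s) (c s) := by
        by_contra h
        exact hs ⟨hsI, h⟩
      have h1 := Ex.near hloc (hc s hsI) hcd hP
      rw [eventually_nhdsWithin_iff] at h1
      filter_upwards [h1] with s' hs' hB
      exact hB.2 (hs' hB.1)
    · have h1 : (Icc (0 : ℝ) 1)ᶜ ∈ 𝓝 s := isClosed_Icc.isOpen_compl.mem_nhds hsI
      filter_upwards [h1] with s' hs' hB
      exact hs' hB.1
  have hBbd : BddBelow B := ⟨0, fun s hs => hs.1.1⟩
  have hmin := hBcl.csInf_mem hBne hBbd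
  set m := sInf B with hm
  have hm0 : 0 < m := by
    refine lt_of_le_of_ne hmin.1.1 ?_
    rintro h
    apply hmin.2
    rw [← h]
    exact h0
  have hlt : ∀ s, 0 ≤ s → s < m → Ex dev x (φ s) (c s) := by
    intro s h1 h2
    by_contra h3
    exact absurd (csInf_le hBbd (show s ∈ B from ⟨⟨h1, h2.le.trans hmin.1.2⟩, h3⟩)) (not_le.2 h2)
  have hfr : ∃ᶠ s in 𝓝[Icc 0 1] m, Ex dev x (φ s) (c s) := by
    have h1 : ∃ᶠ s in 𝓝[Ioo 0 m] m, Ex dev x (φ s) (c s) := by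
      have hne : (𝓝[Ioo 0 m] m).NeBot := by
        rw [← mem_closure_iff_nhdsWithin_neBot, closure_Ioo hm0.ne]
        exact right_mem_Icc.2 hm0.le
      refine Eventually.frequently ?_
      filter_upwards [self_mem_nhdsWithin] with s hs
      exact hlt s hs.1.le hs.2
    refine h1.filter_mono (nhdsWithin_mono _ fun s hs => ⟨hs.1.le, hs.2.le.trans hmin.1.2⟩)
  have hnv : ¬ ∃ y, Ex dev x (φ m) y := by
    rintro ⟨y, hy⟩
    have := Ex.lim hloc (hc m hmin.1) hφc.continuousWithinAt hfr hy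
    apply hmin.2
    rw [← this]
    exact hy
  obtain ⟨τ0, hτ0, hτ1, hvnv, hvv⟩ := exists_exit_time hloc hnv
  have hpW : φ m ∈ W := W.add_mem hu (W.smul_mem _ hw)
  rcases eq_or_lt_of_le hτ1 with h | h
  · subst h
    refine hnv (hinge_end hloc hρ hh hu hw b1 hm0
      (fun s hs => hmem s ⟨hs.1, hs.2.trans hmin.1.2⟩) hlt fun t h3 h4 => ?_)
    have := hvv t h3 h4
    rwa [one_smul] at this
  · -- choose the parameters
    obtain ⟨η, hη0, hη1, hη2, hη3⟩ : ∃ η : ℝ, 0 < η ∧ η < τ0 ∧ τ0 + η ≤ 1 ∧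
        2 * η * ‖φ m‖ < ρ := by
      refine ⟨min (min (τ0 / 2) (1 - τ0)) (ρ / (4 * (‖φ m‖ + 1))), ?_, ?_, ?_, ?_⟩
      · have := norm_nonneg (φ m)
        refine lt_min (lt_min (by positivity) (by linarith)) (by positivity)
      · exact ((min_le_left _ _).trans (min_le_left _ _)).trans_lt (by linarith)
      · have := (min_le_left (min (τ0 / 2) (1 - τ0)) (ρ / (4 * (‖φ m‖ + 1)))).trans
          (min_le_right _ _)
        linarith
      · have h3 := min_le_right (min (τ0 / 2) (1 - τ0)) (ρ / (4 * (‖φ m‖ + 1)))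
        have h4 := norm_nonneg (φ m)
        rw [le_div_iff₀ (by positivity)] at h3
        set η := min (min (τ0 / 2) (1 - τ0)) (ρ / (4 * (‖φ m‖ + 1))) with hη
        have h5 : 0 < η := lt_min (lt_min (by positivity) (by linarith)) (by positivity)
        nlinarith
    obtain ⟨a, ha⟩ := hvv ((τ0 - η) / τ0) (div_nonneg (by linarith) hτ0.le)
      ((div_lt_one hτ0).2 (by linarith))
    rw [smul_smul, div_mul_cancel₀ _ hτ0.ne'] at ha
    refine hvnv (hinge_ext hloc hh (κ1 := τ0 - η) (κ := τ0 + η) hpW hu ?_ (by linarith)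
      (by linarith) (by linarith) hη2 ha ?_)
    · intro ζ hζ0 hζ1
      refine ⟨c ((1 - ζ) * m), ?_⟩
      have := hlt ((1 - ζ) * m) (mul_nonneg (by linarith) hm0.le) (by nlinarith)
      convert this using 1
      show (1 - ζ) • (u + m • w) + ζ • u = u + ((1 - ζ) * m) • w
      module
    · have e : τ0 + η - (τ0 - η) = 2 * η := by ring
      rw [e]
      exact hη3

end

end Run7.h675
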